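import Pool.Agent.H543.DD.Ty5

/-!
# The numerical condition
-/

set_option autoImplicit false

namespace Pool.Agent.H543.DD

open Finset

theorem log3 : (1.2542 : ℝ) ≤ Real.log (54152 / 12000 - 1) := by
  have h1 : Real.log (4 / (54152 / 12000 - 1)) ≤ 4 * 0.03302 := by
    calc Real.log (4 / (54152 / 12000 - 1)) ≤ Real.log ((1.03302 : ℝ) ^ 4) := by
          apply Real.log_le_log (by norm_num) (by norm_num)
      _ = 4 * Real.log 1.03302 := by
          rw [Real.log_pow]
          norm_num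
      _ ≤ 4 * (1.03302 - 1) := by
          have := Real.log_le_sub_one_of_pos (show (0 : ℝ) < 1.03302 by norm_num)
          linarith
      _ = 4 * 0.03302 := by norm_num
  rw [Real.log_div (by norm_num) (by norm_num)] at h1
  have h2 : Real.log 4 = 2 * Real.log 2 := by
    rw [show (4 : ℝ) = 2 ^ 2 by norm_num, Real.log_pow]
    norm_num
  have h3 := Real.log_two_gt_d9
  rw [h2] at h1
  linarith

theorem log1 : Real.log (4999 / 1200) ≤ 1.42776 := by
  have h1 : Real.log ((4999 / 1200) / 4) ≤ (4999 / 1200) / 4 - 1 :=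
    Real.log_le_sub_one_of_pos (by norm_num)
  rw [Real.log_div (by norm_num) (by norm_num)] at h1
  have h2 : Real.log 4 = 2 * Real.log 2 := by
    rw [show (4 : ℝ) = 2 ^ 2 by norm_num, Real.log_pow]
    norm_num
  have h3 := Real.log_two_lt_d9
  rw [h2] at h1
  norm_num at h1 ⊢
  linarith

theorem log2' : 2.2895 ≤ Real.log (42152 / 4162) := by
  have h1 := Real.one_sub_inv_le_log_of_pos (show (0 : ℝ) < (42152 / 4162) / 8 by norm_num)
  rw [Real.log_div (by norm_num) (by norm_num)] at h1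
  have h2 : Real.log 8 = 3 * Real.log 2 := by
    rw [show (8 : ℝ) = 2 ^ 3 by norm_num, Real.log_pow]
    norm_num
  have h3 := Real.log_two_gt_d9
  rw [h2] at h1
  norm_num at h1 ⊢
  linarith

/-- the parameters -/
noncomputable def pτ : ℝ := 54152 / 100000
noncomputable def pυ : ℝ := 4999 / 10000
noncomputable def pζ : ℝ := 12 / 100
noncomputable def pa : ℝ := 2001 / 2000
noncomputable def pb : ℝ := 10005 / 4999

/-- the first integral -/
theorem int1 : ∫ x in pζ..pυ, (pa - pb * x) / (pτ - x) / x =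
    pa * (Real.log (4999 / 1200) / pτ - (1 / pυ - 1 / pτ) * Real.log (42152 / 4162)) := by
  have hd : ∀ x ∈ Set.uIcc pζ pυ, HasDerivAt (fun x : ℝ =>
      pa * ((1 / pτ) * Real.log x + (1 / pυ - 1 / pτ) * Real.log (pτ - x)))
      ((pa - pb * x) / (pτ - x) / x) x := by
    intro x hx
    rw [Set.uIcc_of_le (by unfold pζ pυ; norm_num)] at hx
    have hx1 : 0 < x := lt_of_lt_of_le (by unfold pζ; norm_num) hx.1
    have hx2 : 0 < pτ - x := by
      have := hx.2
      unfold pυ at this
      unfold pτ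
      linarith
    have h1 := (Real.hasDerivAt_log hx1.ne').const_mul (1 / pτ)
    have h2 : HasDerivAt (fun x : ℝ => pτ - x) (-1) x := by
      have := (hasDerivAt_id x).const_sub pτ
      simpa using this
    have h3 := (h2.log hx2.ne').const_mul (1 / pυ - 1 / pτ)
    have h4 := (h1.add h3).const_mul pa
    refine h4.congr_deriv ?_
    have hb : pb = pa / pυ := by unfold pb pa pυ; norm_num
    have hυ : pυ ≠ 0 := by unfold pυ; norm_num
    have hτ : pτ ≠ 0 := by unfold pτ; norm_num
    rw [hb]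
    field_simp
    ring
  rw [intervalIntegral.integral_eq_sub_of_hasDerivAt hd]
  · have e1 : Real.log (4999 / 1200) = Real.log pυ - Real.log pζ := by
      rw [← Real.log_div (by unfold pυ; norm_num) (by unfold pζ; norm_num)]
      congr 1
      unfold pυ pζ
      norm_num
    have e2 : Real.log (42152 / 4162) = Real.log (pτ - pζ) - Real.log (pτ - pυ) := by
      rw [← Real.log_div (by unfold pτ pζ; norm_num) (by unfold pτ pυ; norm_num)]
      congr 1
      unfold pτ pυ pζ
      norm_num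
    rw [e1, e2]
    ring
  · apply ContinuousOn.intervalIntegrable
    rw [Set.uIcc_of_le (by unfold pζ pυ; norm_num)]
    have hp1 : ∀ x ∈ Set.Icc pζ pυ, pτ - x ≠ 0 := by
      intro x hx
      have := hx.2
      unfold pυ at this
      have h : 0 < pτ - x := by unfold pτ; linarith
      exact h.ne'
    have hp2 : ∀ x ∈ Set.Icc pζ pυ, x ≠ 0 := by
      intro x hx
      have h : 0 < x := lt_of_lt_of_le (by unfold pζ; norm_num) hx.1
      exact h.ne'
    exact ContinuousOn.div (ContinuousOn.div (by fun_prop) (by fun_prop) hp1) (by fun_prop) hp2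

/-- the correction -/
theorem int2 : ∫ x in pζ..(pτ - 3 * pζ), 15.04 * ((pτ - 3 * pζ - x) ^ 2 / (4 * pζ ^ 2)) =
    15.04 * ((pτ - 4 * pζ) ^ 3 / (12 * pζ ^ 2)) := by
  have hζ : pζ ≠ 0 := by unfold pζ; norm_num
  have hd : ∀ x ∈ Set.uIcc pζ (pτ - 3 * pζ), HasDerivAt (fun x : ℝ =>
      15.04 * (-((pτ - 3 * pζ - x) ^ 3 / (12 * pζ ^ 2))))
      (15.04 * ((pτ - 3 * pζ - x) ^ 2 / (4 * pζ ^ 2))) x := by
    intro x _
    have h2 : HasDerivAt (fun x : ℝ => pτ - 3 * pζ - x) (-1) x := by
      have := (hasDerivAt_id x).const_sub (pτ - 3 * pζ)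
      simpa using this
    have h3 := ((h2.pow 3).div_const (12 * pζ ^ 2)).neg.const_mul (15.04 : ℝ)
    refine h3.congr_deriv ?_
    have e2 : (pτ - 3 * pζ - x) ^ (3 - 1) = (pτ - 3 * pζ - x) ^ 2 := by norm_num
    rw [e2]
    push_cast
    field_simp
    ring
  rw [intervalIntegral.integral_eq_sub_of_hasDerivAt hd]
  · ring
  · apply ContinuousOn.intervalIntegrable
    fun_prop

/-- **the numerical condition** -/
theorem num : ∫ x in pζ..pυ, (pa - pb * x) * Phi pζ (pτ - x) / x < Real.log (pτ / pζ - 1) / pτ := by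
  have hζυ : pζ ≤ pυ := by unfold pζ pυ; norm_num
  have hζm : pζ ≤ pτ - 3 * pζ := by unfold pζ pτ; norm_num
  have hmυ : pτ - 3 * pζ ≤ pυ := by unfold pζ pτ pυ; norm_num
  have hζ0 : 0 < pζ := by unfold pζ; norm_num
  have hτ0 : 0 < pτ := by unfold pτ; norm_num
  have hpos : ∀ x ∈ Set.Icc pζ pυ, 0 < x ∧ 0 < pτ - x := by
    intro x hx
    have h1 := hx.2
    unfold pυ at h1
    exact ⟨lt_of_lt_of_le hζ0 hx.1, by unfold pτ; linarith⟩
  have hcon1 : ContinuousOn (fun x => (pa - pb * x) * Phi pζ (pτ - x) / x) (Set.Icc pζ pυ) := by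
    apply ContinuousOn.div
    · apply ContinuousOn.mul (by fun_prop)
      apply ContinuousOn.comp (g := Phi pζ) (f := fun x => pτ - x) (t := Set.Ioi 0)
      · exact Phi_cont pζ _ (fun x hx => hx)
      · fun_prop
      · intro x hx
        exact (hpos x hx).2
    · fun_prop
    · intro x hx
      exact (hpos x hx).1.ne'
  have hcon2 : ContinuousOn (fun x => (pa - pb * x) / (pτ - x) / x) (Set.Icc pζ pυ) :=
    ContinuousOn.div (ContinuousOn.div (by fun_prop) (by fun_prop) (fun x hx => (hpos x hx).2.ne'))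
      (by fun_prop) (fun x hx => (hpos x hx).1.ne')
  have hsub1 : Set.Icc pζ (pτ - 3 * pζ) ⊆ Set.Icc pζ pυ := Set.Icc_subset_Icc le_rfl hmυ
  have hsub2 : Set.Icc (pτ - 3 * pζ) pυ ⊆ Set.Icc pζ pυ := Set.Icc_subset_Icc hζm le_rfl
  have i1 : IntervalIntegrable (fun x => (pa - pb * x) * Phi pζ (pτ - x) / x) MeasureTheory.volume
      pζ (pτ - 3 * pζ) := by
    apply ContinuousOn.intervalIntegrable
    rw [Set.uIcc_of_le hζm]
    exact hcon1.mono hsub1
  have i2 : IntervalIntegrable (fun x => (pa - pb * x) * Phi pζ (pτ - x) / x) MeasureTheory.volume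
      (pτ - 3 * pζ) pυ := by
    apply ContinuousOn.intervalIntegrable
    rw [Set.uIcc_of_le hmυ]
    exact hcon1.mono hsub2
  have j1 : IntervalIntegrable (fun x => (pa - pb * x) / (pτ - x) / x) MeasureTheory.volume
      pζ (pτ - 3 * pζ) := by
    apply ContinuousOn.intervalIntegrable
    rw [Set.uIcc_of_le hζm]
    exact hcon2.mono hsub1
  have j2 : IntervalIntegrable (fun x => (pa - pb * x) / (pτ - x) / x) MeasureTheory.volume
      (pτ - 3 * pζ) pυ := by
    apply ContinuousOn.intervalIntegrable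
    rw [Set.uIcc_of_le hmυ]
    exact hcon2.mono hsub2
  have k1 : IntervalIntegrable (fun x => 15.04 * ((pτ - 3 * pζ - x) ^ 2 / (4 * pζ ^ 2)))
      MeasureTheory.volume pζ (pτ - 3 * pζ) := by
    apply ContinuousOn.intervalIntegrable
    fun_prop
  -- on the second part
  have e2 : ∫ x in (pτ - 3 * pζ)..pυ, (pa - pb * x) * Phi pζ (pτ - x) / x =
      ∫ x in (pτ - 3 * pζ)..pυ, (pa - pb * x) / (pτ - x) / x := by
    apply intervalIntegral.integral_congr
    intro x hx
    rw [Set.uIcc_of_le hmυ] at hx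
    have h1 : max 0 ((pτ - x) / pζ - 3) = 0 := by
      apply max_eq_left
      rw [sub_nonpos, div_le_iff₀ hζ0]
      linarith [hx.1]
    show (pa - pb * x) * Phi pζ (pτ - x) / x = (pa - pb * x) / (pτ - x) / x
    unfold Phi
    rw [h1]
    ring
  have e1 : ∫ x in pζ..(pτ - 3 * pζ), (pa - pb * x) * Phi pζ (pτ - x) / x ≤
      ∫ x in pζ..(pτ - 3 * pζ), ((pa - pb * x) / (pτ - x) / x +
        15.04 * ((pτ - 3 * pζ - x) ^ 2 / (4 * pζ ^ 2))) := by
    apply intervalIntegral.integral_mono_on hζm i1 (j1.add k1)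
    intro x hx
    obtain ⟨hx1, hx2⟩ := hpos x (hsub1 hx)
    have h1 : max 0 ((pτ - x) / pζ - 3) = (pτ - 3 * pζ - x) / pζ := by
      have e3 : (pτ - x) / pζ - 3 = (pτ - 3 * pζ - x) / pζ := by
        field_simp
        ring
      rw [e3]
      apply max_eq_right
      apply div_nonneg _ hζ0.le
      linarith [hx.2]
    have h2 : (pa - pb * x) / ((pτ - x) * x) ≤ 15.04 := by
      rw [div_le_iff₀ (by positivity)]
      have h3 : pζ * (pτ - pζ) ≤ (pτ - x) * x := by
        have h4 : 0 ≤ (x - pζ) * (pτ - x - pζ) := by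
          apply mul_nonneg (by linarith [hx.1])
          have := hx.2
          linarith
        nlinarith
      have h5 : pa - pb * x ≤ pa - pb * pζ := by
        have : pb * pζ ≤ pb * x := mul_le_mul_of_nonneg_left hx.1 (by unfold pb; norm_num)
        linarith
      have h6 : pa - pb * pζ ≤ 15.04 * (pζ * (pτ - pζ)) := by
        unfold pa pb pζ pτ
        norm_num
      linarith
    have h7 : (pa - pb * x) * Phi pζ (pτ - x) / x = (pa - pb * x) / (pτ - x) / x +
        (pa - pb * x) / ((pτ - x) * x) * ((pτ - 3 * pζ - x) ^ 2 / (4 * pζ ^ 2)) := by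
      unfold Phi
      rw [h1]
      field_simp
    rw [h7]
    have h8 : (pa - pb * x) / ((pτ - x) * x) * ((pτ - 3 * pζ - x) ^ 2 / (4 * pζ ^ 2)) ≤
        15.04 * ((pτ - 3 * pζ - x) ^ 2 / (4 * pζ ^ 2)) :=
      mul_le_mul_of_nonneg_right h2 (by positivity)
    linarith
  rw [← intervalIntegral.integral_add_adjacent_intervals i1 i2, e2]
  rw [intervalIntegral.integral_add j1 k1, int2] at e1
  have e3 := intervalIntegral.integral_add_adjacent_intervals j1 j2
  rw [int1] at e3
  have h10 : ∫ x in pζ..(pτ - 3 * pζ), (pa - pb * x) * Phi pζ (pτ - x) / x ≤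
      pa * (Real.log (4999 / 1200) / pτ - (1 / pυ - 1 / pτ) * Real.log (42152 / 4162)) -
      (∫ x in (pτ - 3 * pζ)..pυ, (pa - pb * x) / (pτ - x) / x) +
        15.04 * ((pτ - 4 * pζ) ^ 3 / (12 * pζ ^ 2)) := by linarith
  have h11 : pa * (Real.log (4999 / 1200) / pτ - (1 / pυ - 1 / pτ) * Real.log (42152 / 4162)) +
      15.04 * ((pτ - 4 * pζ) ^ 3 / (12 * pζ ^ 2)) < Real.log (pτ / pζ - 1) / pτ := by
    have e5 : pτ / pζ - 1 = 54152 / 12000 - 1 := by unfold pτ pζ; norm_num
    rw [e5, lt_div_iff₀ hτ0]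
    have l1 := log1
    have l2 := log2'
    have l3 := log3
    refine lt_of_lt_of_le ?_ l3
    have e6 : (pa * (Real.log (4999 / 1200) / pτ - (1 / pυ - 1 / pτ) * Real.log (42152 / 4162)) +
      15.04 * ((pτ - 4 * pζ) ^ 3 / (12 * pζ ^ 2))) * pτ = pa * (Real.log (4999 / 1200) -
        (pτ / pυ - 1) * Real.log (42152 / 4162)) + 15.04 * ((pτ - 4 * pζ) ^ 3 / (12 * pζ ^ 2)) * pτ := by
      have hυ0 : pυ ≠ 0 := by unfold pυ; norm_num
      field_simp
    rw [e6]
    unfold pa pτ pυ pζ
    norm_num at l1 l2 l3 ⊢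
    linarith
  linarith

end Pool.Agent.H543.DD
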