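import Pool.Agent.H543.DD.Vb

/-!
# The bilinear form of level `X ^ (13/12 - ε)`
-/

set_option autoImplicit false

namespace Pool.Agent.H543.DD

open Finset Filter
open Pool.Agent.Y346.PA (S_KL)
open Pool.Agent.Y882.PX (ro ro_eq ro_prod)
open Pool.Agent.Y882.SI (QF QF_eval)
open Pool.Agent.H300R2.BH (rho)
open scoped Classical

/-- the number of `k` in `(X, X + H]` with `d ∣ k ^ 2 + 1` -/
noncomputable def cI (X H d : ℕ) : ℝ :=
  (((Ioc (X : ℤ) (X + H)).filter (fun k => (d : ℤ) ∣ k ^ 2 + 1)).card : ℝ)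

theorem cI_nonneg (X H d : ℕ) : 0 ≤ cI X H d := Nat.cast_nonneg _

theorem cI_nat (X H d : ℕ) : cI X H d =
    (((Ioc X (X + H)).filter (fun n : ℕ => (d : ℤ) ∣ (QF 1).eval (n : ℤ))).card : ℝ) := by
  unfold cI
  congr 1
  symm
  apply card_bij (fun (n : ℕ) _ => (n : ℤ))
  · intro n hn
    rw [mem_filter, mem_Ioc, QF_eval] at hn
    rw [mem_filter, mem_Ioc]
    exact ⟨⟨by omega, by omega⟩, hn.2⟩
  · intro n _ n' _ h
    exact_mod_cast h
  · intro k hk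
    rw [mem_filter, mem_Ioc] at hk
    refine ⟨k.toNat, ?_, Int.toNat_of_nonneg (by omega)⟩
    rw [mem_filter, mem_Ioc, QF_eval, Int.toNat_of_nonneg (by omega)]
    exact ⟨⟨by omega, by omega⟩, hk.2⟩

theorem cI_asym (X H d : ℕ) (hd : 0 < d) : |cI X H d - H * gd d| ≤ 2 * ((Rt d).card + 1) := by
  have h := Pool.Agent.H543.PF.cnt_int (QF 1) d X H hd
  rw [← cI_nat, ← Rt_ro] at h
  exact h

theorem Rt_mul (m n : ℕ) (hm : 1 ≤ m) (hn : 1 ≤ n) (h : Nat.Coprime m n) :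
    (Rt (m * n)).card = (Rt m).card * (Rt n).card := by
  rw [Rt_ro, Rt_ro, Rt_ro]
  unfold ro
  exact Pool.Agent.H475R2.BH.rho_mul _ _ _ hm hn h

theorem gd_mul (m n : ℕ) (hm : 1 ≤ m) (hn : 1 ≤ n) (h : Nat.Coprime m n) :
    gd (m * n) = gd m * gd n := by
  unfold gd
  rw [Rt_mul m n hm hn h]
  push_cast
  rw [mul_div_mul_comm]

/-- the sum over `m` and `n` as a sum over points -/
theorem D_rep (X H M M0 : ℕ) (hM0 : 2 ≤ M0) (a b : ℕ → ℝ) (B : Finset ℕ) :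
    ∑ x ∈ Icc (1 : ℤ) M, ∑ y ∈ Ioo (-x) x, (if 3 ≤ x ^ 2 + y ^ 2 ∧ x ^ 2 + y ^ 2 ≤ (M : ℤ) then
        ∑ u ∈ US X H x y, (if (M0 : ℤ) < x ^ 2 + y ^ 2 then a (x ^ 2 + y ^ 2).toNat else 0) *
          FF b B (ww x y u) else 0) =
      ∑ m ∈ Ioc M0 M, ∑ n ∈ B, a m * b n * (cI X H (m * n) - gd n * cI X H m) := by
  rw [rep_sum X H M (fun m w => (if (M0 : ℤ) < m then a m.toNat else 0) * FF b B w)]
  have h1 : ∑ m ∈ Icc (3 : ℤ) M, ∑ k ∈ (Ioc (X : ℤ) (X + H)).filter (fun k => m ∣ k ^ 2 + 1),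
      (if (M0 : ℤ) < m then a m.toNat else 0) * FF b B ((k ^ 2 + 1) / m) =
      ∑ m ∈ (Ioc M0 M).map ⟨fun x : ℕ => (x : ℤ), Nat.cast_injective⟩,
        ∑ k ∈ (Ioc (X : ℤ) (X + H)).filter (fun k => m ∣ k ^ 2 + 1),
      (if (M0 : ℤ) < m then a m.toNat else 0) * FF b B ((k ^ 2 + 1) / m) := by
    symm
    apply sum_subset
    · intro m hm
      rw [Finset.mem_map] at hm
      obtain ⟨m', hm', rfl⟩ := hm
      rw [mem_Ioc] at hm'
      simp only [Function.Embedding.coeFn_mk, mem_Icc]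
      omega
    · intro m hm hm'
      rw [mem_Icc] at hm
      apply sum_eq_zero
      intro k _
      rw [if_neg, zero_mul]
      intro h
      apply hm'
      rw [Finset.mem_map]
      refine ⟨m.toNat, ?_, Int.toNat_of_nonneg (by omega)⟩
      rw [mem_Ioc]
      omega
  rw [h1, sum_map]
  apply sum_congr rfl
  intro m hm
  rw [mem_Ioc] at hm
  simp only [Function.Embedding.coeFn_mk]
  rw [if_pos (by exact_mod_cast hm.1)]
  have hm0 : (m : ℤ) ≠ 0 := by omega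
  have e1 : ((m : ℤ)).toNat = m := Int.toNat_natCast m
  rw [e1]
  unfold FF
  simp_rw [mul_sum]
  rw [sum_comm]
  apply sum_congr rfl
  intro n _
  have h2 : ∑ k ∈ (Ioc (X : ℤ) (X + H)).filter (fun k => (m : ℤ) ∣ k ^ 2 + 1),
      dv n ((k ^ 2 + 1) / m) = cI X H (m * n) := by
    unfold dv cI
    rw [← sum_filter, sum_const, nsmul_eq_mul, mul_one]
    congr 2
    ext k
    simp only [mem_filter, and_assoc]
    apply and_congr_right
    intro _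
    push_cast
    constructor
    · rintro ⟨h3, h4⟩
      exact (Int.dvd_div_iff_mul_dvd h3).1 h4
    · intro h3
      have h4 : (m : ℤ) ∣ k ^ 2 + 1 := (dvd_mul_right _ _).trans h3
      exact ⟨h4, (Int.dvd_div_iff_mul_dvd h4).2 h3⟩
  have h3 : ∑ k ∈ (Ioc (X : ℤ) (X + H)).filter (fun k => (m : ℤ) ∣ k ^ 2 + 1), gd n =
      gd n * cI X H m := by
    unfold cI
    rw [sum_const, nsmul_eq_mul, mul_comm]
  rw [← h2, ← h3, ← sum_sub_distrib, mul_sum]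
  apply sum_congr rfl
  intro k _
  ring

/-- the part of the dispersion method -/
theorem D_small (kl : S_KL) (ε ρ κ : ℝ) (hκ : 0 < κ) (hκε : 100 * κ ≤ ε) (hκρ : 100 * κ ≤ ρ)
    (hε : ε ≤ 1 / 100) : ∃ X0 : ℕ, ∀ X : ℕ, X0 ≤ X → ∀ H : ℕ, (X : ℝ) ^ (1 - κ) ≤ H → H ≤ X →
    ∀ N M M0 : ℕ, (N : ℝ) ≤ (X : ℝ) ^ (1 / 12 - ε) → (M : ℝ) ≤ (X : ℝ) ^ (1 - ε) →
    (X : ℝ) ^ (9 / 10 : ℝ) ≤ M0 + 1 →
    ∀ a b : ℕ → ℝ, (∀ n, |a n| ≤ 1) → (∀ n, |b n| ≤ 1) →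
    |∑ m ∈ Ioc M0 M, ∑ n ∈ Bs X N ρ, a m * b n * (cI X H (m * n) - gd n * cI X H m)| ≤
      2 * (H * (X : ℝ) ^ (-κ)) := by
  obtain ⟨X1, hX1⟩ := V_small kl ε ρ κ hκ hκε hκρ hε
  obtain ⟨X2, hX2⟩ := ev_all κ hκ
  have e1 : ∀ᶠ X : ℕ in atTop, (3 : ℝ) ≤ (X : ℝ) ^ (1 / 50 : ℝ) :=
    tendsto_natCast_atTop_atTop.eventually
      ((tendsto_rpow_atTop (by positivity)).eventually_ge_atTop _)
  obtain ⟨X3, hX3⟩ := eventually_atTop.1 e1
  refine ⟨max (max X1 X2) X3, fun X hX H hH1 hH2 N M M0 hN hM hM0 a b ha hb => ?_⟩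
  obtain ⟨a1, a2, a3, a4⟩ := hX2 X (((le_max_right _ _).trans (le_max_left _ _)).trans hX)
  have b1 := hX3 X ((le_max_right _ _).trans hX)
  have hXr : (3 : ℝ) ≤ X := by exact_mod_cast a4
  have hX0 : (0 : ℝ) < X := by linarith
  have hX1' : (1 : ℝ) ≤ X := by linarith
  have hr88 : (1 : ℝ) ≤ (X : ℝ) ^ (22 / 25 : ℝ) := Real.one_le_rpow hX1' (by norm_num)
  have hM0' : 2 * (X : ℝ) ^ (22 / 25 : ℝ) ≤ M0 := by
    have h1 : 3 * (X : ℝ) ^ (22 / 25 : ℝ) ≤ (X : ℝ) ^ (9 / 10 : ℝ) := by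
      calc 3 * (X : ℝ) ^ (22 / 25 : ℝ) ≤ (X : ℝ) ^ (1 / 50 : ℝ) * (X : ℝ) ^ (22 / 25 : ℝ) :=
            mul_le_mul_of_nonneg_right b1 (by positivity)
        _ ≤ _ := rmul2 X hX1' _ _ _ (by norm_num)
    linarith
  have hM02 : 2 ≤ M0 := by
    have : (2 : ℝ) ≤ M0 := by linarith
    exact_mod_cast this
  rw [← D_rep X H M M0 hM02 a b (Bs X N ρ)]
  set Xs : Finset ℕ := (Icc 1 M).filter (fun x => M0 < 2 * (x * x) ∧ x * x ≤ M) with hXs
  have hXsp : ∀ x ∈ Xs, (X : ℝ) ^ (11 / 25 : ℝ) ≤ x ∧ (x : ℝ) ^ 2 ≤ (X : ℝ) ^ (1 - ε) := by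
    intro x hx
    rw [hXs, mem_filter] at hx
    obtain ⟨_, h1, h2⟩ := hx
    constructor
    · have h3 : (M0 : ℝ) < 2 * (x * x) := by exact_mod_cast h1
      have h4 : (X : ℝ) ^ (22 / 25 : ℝ) ≤ (x : ℝ) ^ 2 := by nlinarith
      have h5 : ((X : ℝ) ^ (11 / 25 : ℝ)) ^ 2 = (X : ℝ) ^ (22 / 25 : ℝ) := by
        rw [← Real.rpow_natCast, ← Real.rpow_mul hX0.le]
        norm_num
      rw [← h5] at h4
      exact abs_le_of_sq_le_sq' h4 (Nat.cast_nonneg x) |>.2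
    · have h3 : ((x : ℝ)) ^ 2 ≤ M := by
        rw [sq]
        exact_mod_cast h2
      exact h3.trans hM
  have hVs := hX1 X (((le_max_left _ _).trans (le_max_left _ _)).trans hX) H hH1 hH2 N hN b hb Xs hXsp
  -- reduction to the absolute values
  have h1 : |∑ x ∈ Icc (1 : ℤ) M, ∑ y ∈ Ioo (-x) x, (if 3 ≤ x ^ 2 + y ^ 2 ∧ x ^ 2 + y ^ 2 ≤ (M : ℤ) then
        ∑ u ∈ US X H x y, (if (M0 : ℤ) < x ^ 2 + y ^ 2 then a (x ^ 2 + y ^ 2).toNat else 0) *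
          FF b (Bs X N ρ) (ww x y u) else 0)| ≤
      ∑ x ∈ Xs, ∑ y ∈ Ioo (-(x : ℤ)) x, |SS X H b (Bs X N ρ) x y| := by
    have h2 : ∑ x ∈ Icc (1 : ℤ) M, ∑ y ∈ Ioo (-x) x, (if 3 ≤ x ^ 2 + y ^ 2 ∧ x ^ 2 + y ^ 2 ≤ (M : ℤ) then
        ∑ u ∈ US X H x y, (if (M0 : ℤ) < x ^ 2 + y ^ 2 then a (x ^ 2 + y ^ 2).toNat else 0) *
          FF b (Bs X N ρ) (ww x y u) else 0) =
        ∑ x ∈ Xs.map ⟨fun x : ℕ => (x : ℤ), Nat.cast_injective⟩, ∑ y ∈ Ioo (-x) x,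
        (if 3 ≤ x ^ 2 + y ^ 2 ∧ x ^ 2 + y ^ 2 ≤ (M : ℤ) then
        ∑ u ∈ US X H x y, (if (M0 : ℤ) < x ^ 2 + y ^ 2 then a (x ^ 2 + y ^ 2).toNat else 0) *
          FF b (Bs X N ρ) (ww x y u) else 0) := by
      symm
      apply sum_subset
      · intro x hx
        rw [Finset.mem_map] at hx
        obtain ⟨x', hx', rfl⟩ := hx
        rw [hXs, mem_filter, mem_Icc] at hx'
        simp only [Function.Embedding.coeFn_mk, mem_Icc]
        omega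
      · intro x hx hx'
        rw [mem_Icc] at hx
        apply sum_eq_zero
        intro y hy
        rw [mem_Ioo] at hy
        by_cases hc : 3 ≤ x ^ 2 + y ^ 2 ∧ x ^ 2 + y ^ 2 ≤ (M : ℤ)
        · rw [if_pos hc]
          apply sum_eq_zero
          intro u _
          rw [if_neg, zero_mul]
          intro h
          apply hx'
          rw [Finset.mem_map]
          refine ⟨x.toNat, ?_, Int.toNat_of_nonneg (by omega)⟩
          have hxc : ((x.toNat : ℕ) : ℤ) = x := Int.toNat_of_nonneg (by omega)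
          have hy2 : y ^ 2 ≤ x ^ 2 := by
            apply sq_le_sq'
            · linarith [hy.1]
            · linarith [hy.2]
          rw [hXs, mem_filter, mem_Icc]
          refine ⟨⟨by omega, by omega⟩, ?_, ?_⟩
          · have : (M0 : ℤ) < 2 * ((x.toNat : ℤ) * x.toNat) := by
              rw [hxc]
              nlinarith
            exact_mod_cast this
          · have : ((x.toNat : ℤ) * x.toNat) ≤ M := by
              rw [hxc]
              nlinarith [sq_nonneg y, hc.2]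
            exact_mod_cast this
        · rw [if_neg hc]
    rw [h2, sum_map]
    refine (abs_sum_le_sum_abs _ _).trans (sum_le_sum fun x hx => ?_)
    simp only [Function.Embedding.coeFn_mk]
    refine (abs_sum_le_sum_abs _ _).trans (sum_le_sum fun y hy => ?_)
    split_ifs with hc1 hc2
    · rw [← mul_sum, abs_mul]
      unfold SS
      calc |a ((x : ℤ) ^ 2 + y ^ 2).toNat| * |∑ u ∈ US X H x y, FF b (Bs X N ρ) (ww x y u)| ≤
          1 * |∑ u ∈ US X H x y, FF b (Bs X N ρ) (ww x y u)| :=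
            mul_le_mul_of_nonneg_right (ha _) (abs_nonneg _)
        _ = _ := one_mul _
    · simp
    · rw [abs_zero]
      exact abs_nonneg _
  refine h1.trans ?_
  -- Cauchy
  have h3 : (∑ x ∈ Xs, ∑ y ∈ Ioo (-(x : ℤ)) x, |SS X H b (Bs X N ρ) x y|) ^ 2 ≤
      (∑ x ∈ Xs, ∑ y ∈ Ioo (-(x : ℤ)) x, (1 / (x : ℝ)) ^ 2) *
      (∑ x ∈ Xs, ∑ y ∈ Ioo (-(x : ℤ)) x, ((x : ℝ) * |SS X H b (Bs X N ρ) x y|) ^ 2) := by
    have h4 := Finset.sum_mul_sq_le_sq_mul_sq (Xs.sigma (fun x : ℕ => Ioo (-(x : ℤ)) x))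
      (fun s => (1 / (s.1 : ℝ))) (fun s => (s.1 : ℝ) * |SS X H b (Bs X N ρ) s.1 s.2|)
    rw [sum_sigma, sum_sigma, sum_sigma] at h4
    refine le_trans (le_of_eq ?_) h4
    congr 1
    apply sum_congr rfl
    intro x hx
    have hx0 : (x : ℝ) ≠ 0 := by
      rw [hXs, mem_filter, mem_Icc] at hx
      have : 1 ≤ x := hx.1.1
      exact_mod_cast (by omega : x ≠ 0)
    apply sum_congr rfl
    intro y _
    simp only
    field_simp
  have h4 : ∑ x ∈ Xs, ∑ y ∈ Ioo (-(x : ℤ)) x, (1 / (x : ℝ)) ^ 2 ≤ 2 * (X : ℝ) ^ κ := by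
    calc ∑ x ∈ Xs, ∑ y ∈ Ioo (-(x : ℤ)) x, (1 / (x : ℝ)) ^ 2 ≤ ∑ x ∈ Xs, 2 * (1 / (x : ℝ)) := by
          apply sum_le_sum
          intro x hx
          rw [hXs, mem_filter, mem_Icc] at hx
          have hx1 : 1 ≤ x := hx.1.1
          have hx0 : (0 : ℝ) < x := by exact_mod_cast hx1
          rw [sum_const, nsmul_eq_mul, Int.card_Ioo]
          have h5 : (((x : ℤ) - -(x : ℤ) - 1).toNat : ℝ) ≤ 2 * x := by
            have : ((x : ℤ) - -(x : ℤ) - 1).toNat ≤ 2 * x := by omega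
            exact_mod_cast this
          calc (((x : ℤ) - -(x : ℤ) - 1).toNat : ℝ) * (1 / (x : ℝ)) ^ 2 ≤ (2 * x) * (1 / (x : ℝ)) ^ 2 :=
                mul_le_mul_of_nonneg_right h5 (by positivity)
            _ = _ := by field_simp
      _ = 2 * ∑ x ∈ Xs, 1 / (x : ℝ) := by rw [mul_sum]
      _ ≤ 2 * ∑ x ∈ Icc 1 X, 1 / (x : ℝ) := by
          apply mul_le_mul_of_nonneg_left _ (by norm_num)
          apply sum_le_sum_of_subset_of_nonneg
          · intro x hx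
            obtain ⟨h3, h4⟩ := hXsp x hx
            rw [hXs, mem_filter, mem_Icc] at hx
            rw [mem_Icc]
            refine ⟨hx.1.1, ?_⟩
            have h5 : (x : ℝ) ^ 2 ≤ X := by
              refine h4.trans ?_
              calc (X : ℝ) ^ (1 - ε) ≤ (X : ℝ) ^ (1 : ℝ) :=
                    Real.rpow_le_rpow_of_exponent_le hX1' (by linarith)
                _ = X := Real.rpow_one _
            have h6 : (1 : ℝ) ≤ x := by exact_mod_cast hx.1.1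
            have h7 : (x : ℝ) ≤ X := by nlinarith
            exact_mod_cast h7
          · intro _ _ _
            positivity
      _ ≤ 2 * (1 + Real.log X) := mul_le_mul_of_nonneg_left (harm X) (by norm_num)
      _ ≤ _ := by linarith
  have h5 : ∑ x ∈ Xs, ∑ y ∈ Ioo (-(x : ℤ)) x, ((x : ℝ) * |SS X H b (Bs X N ρ) x y|) ^ 2 ≤
      (H : ℝ) ^ 2 * (X : ℝ) ^ (-4 * κ) := by
    refine le_trans (le_of_eq ?_) hVs
    apply sum_congr rfl
    intro x _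
    rw [mul_sum]
    apply sum_congr rfl
    intro y _
    rw [mul_pow, sq_abs]
  have h6 : (∑ x ∈ Xs, ∑ y ∈ Ioo (-(x : ℤ)) x, |SS X H b (Bs X N ρ) x y|) ^ 2 ≤
      (2 * (H * (X : ℝ) ^ (-κ))) ^ 2 := by
    refine h3.trans ?_
    calc (∑ x ∈ Xs, ∑ y ∈ Ioo (-(x : ℤ)) x, (1 / (x : ℝ)) ^ 2) *
      (∑ x ∈ Xs, ∑ y ∈ Ioo (-(x : ℤ)) x, ((x : ℝ) * |SS X H b (Bs X N ρ) x y|) ^ 2) ≤
        (2 * (X : ℝ) ^ κ) * ((H : ℝ) ^ 2 * (X : ℝ) ^ (-4 * κ)) := by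
          apply mul_le_mul h4 h5 _ (by positivity)
          exact sum_nonneg fun x _ => sum_nonneg fun y _ => sq_nonneg _
      _ = 2 * ((H : ℝ) ^ 2 * ((X : ℝ) ^ κ * (X : ℝ) ^ (-4 * κ))) := by ring
      _ ≤ 4 * ((H : ℝ) ^ 2 * (X : ℝ) ^ (-2 * κ)) := by
          have h7 : (X : ℝ) ^ κ * (X : ℝ) ^ (-4 * κ) ≤ (X : ℝ) ^ (-2 * κ) :=
            rmul2 X hX1' _ _ _ (by linarith)
          have h8 : (H : ℝ) ^ 2 * ((X : ℝ) ^ κ * (X : ℝ) ^ (-4 * κ)) ≤ (H : ℝ) ^ 2 * (X : ℝ) ^ (-2 * κ) :=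
            mul_le_mul_of_nonneg_left h7 (by positivity)
          have h9 : 0 ≤ (H : ℝ) ^ 2 * (X : ℝ) ^ (-2 * κ) := by positivity
          linarith
      _ = _ := by
          have : (X : ℝ) ^ (-2 * κ) = (X : ℝ) ^ (-κ) * (X : ℝ) ^ (-κ) := by
            rw [← Real.rpow_add hX0]
            congr 1
            ring
          rw [this]
          ring
  exact (abs_le_of_sq_le_sq' h6 (by positivity)).2

end Pool.Agent.H543.DD
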