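import Pool.Agent.H543.DD.Bil

/-!
# The bilinear form, coprime variables
-/

set_option autoImplicit false

namespace Pool.Agent.H543.DD

open Finset Filter
open Pool.Agent.Y346.PA (S_KL)
open scoped Classical

theorem nc_split (S B : Finset ℕ) (hB : ∀ n ∈ B, 1 ≤ n) (t : ℕ → ℕ → ℝ) (ht : ∀ m n, 0 ≤ t m n) :
    ∑ m ∈ S, ∑ n ∈ B.filter (fun n => ¬ Nat.Coprime m n), t m n ≤
      ∑ p ∈ B.biUnion Nat.primeFactors, ∑ m ∈ S.filter (fun m => p ∣ m),
        ∑ n ∈ B.filter (fun n => p ∣ n), t m n := by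
  have h2 : ∀ p, ∑ m ∈ S.filter (fun m => p ∣ m), ∑ n ∈ B.filter (fun n => p ∣ n), t m n =
      ∑ m ∈ S, ∑ n ∈ B, if p ∣ m ∧ p ∣ n then t m n else 0 := by
    intro p
    rw [sum_filter]
    apply sum_congr rfl
    intro m _
    by_cases hp : p ∣ m
    · rw [if_pos hp, sum_filter]
      apply sum_congr rfl
      intro n _
      by_cases hp2 : p ∣ n
      · rw [if_pos hp2, if_pos ⟨hp, hp2⟩]
      · rw [if_neg hp2, if_neg (fun h => hp2 h.2)]
    · rw [if_neg hp]
      symm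
      apply sum_eq_zero
      intro n _
      rw [if_neg (fun h => hp h.1)]
  simp_rw [h2]
  rw [sum_comm]
  apply sum_le_sum
  intro m _
  rw [sum_comm, sum_filter]
  apply sum_le_sum
  intro n hn
  have hnn : 0 ≤ ∑ p ∈ B.biUnion Nat.primeFactors, (if p ∣ m ∧ p ∣ n then t m n else 0) := by
    apply sum_nonneg
    intro p _
    split_ifs
    · exact ht _ _
    · exact le_rfl
  by_cases hc : Nat.Coprime m n
  · rw [if_neg (not_not.2 hc)]
    exact hnn
  · rw [if_pos hc]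
    obtain ⟨p, hp, hp1, hp2⟩ := Nat.Prime.not_coprime_iff_dvd.1 hc
    have hmem : p ∈ B.biUnion Nat.primeFactors := by
      rw [mem_biUnion]
      refine ⟨n, hn, ?_⟩
      rw [Nat.mem_primeFactors]
      have := hB n hn
      exact ⟨hp, hp2, by omega⟩
    calc t m n = (if p ∣ m ∧ p ∣ n then t m n else 0) := by rw [if_pos ⟨hp1, hp2⟩]
      _ ≤ _ := by
          apply single_le_sum (f := fun p => if p ∣ m ∧ p ∣ n then t m n else 0) _ hmem
          intro q _
          split_ifs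
          · exact ht _ _
          · exact le_rfl

/-- squares -/
theorem k_card_p2 (X H p : ℕ) (hp : p.Prime) (h2 : p ≠ 2) :
    (((Ioc (X : ℤ) (X + H)).filter (fun k => ((p * p : ℕ) : ℤ) ∣ k ^ 2 + 1)).card : ℝ) ≤
      2 * ((H : ℝ) / ((p : ℝ) ^ 2) + 1) := by
  have hpp : Prime (p : ℤ) := Nat.prime_iff_prime_int.1 hp
  have hpr : (0 : ℝ) < p := by exact_mod_cast hp.pos
  have hp2 : 1 ≤ p * p := Nat.mul_pos hp.pos hp.pos
  rcases ((Ioc (X : ℤ) (X + H)).filter (fun k => ((p * p : ℕ) : ℤ) ∣ k ^ 2 + 1)).eq_empty_or_nonempty with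
    h | ⟨k0, hk0⟩
  · rw [h, card_empty]
    push_cast
    positivity
  · rw [mem_filter] at hk0
    have hk0p : ¬ (p : ℤ) ∣ k0 := by
      intro h
      have h3 : (p : ℤ) ∣ 1 := by
        have e : (1 : ℤ) = (k0 ^ 2 + 1) - k0 * k0 := by ring
        rw [e]
        apply dvd_sub _ (h.mul_right _)
        refine dvd_trans ?_ hk0.2
        push_cast
        exact dvd_mul_right _ _
      exact hpp.not_isUnit (isUnit_of_dvd_one h3)
    have h3 : (Ioc (X : ℤ) (X + H)).filter (fun k => ((p * p : ℕ) : ℤ) ∣ k ^ 2 + 1) ⊆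
        (Ioc (X : ℤ) (X + H)).filter (fun k => ((p * p : ℕ) : ℤ) ∣ k - k0) ∪
        (Ioc (X : ℤ) (X + H)).filter (fun k => ((p * p : ℕ) : ℤ) ∣ k - (-k0)) := by
      intro k hk
      rw [mem_filter] at hk
      rw [mem_union, mem_filter, mem_filter]
      have h4 : ((p * p : ℕ) : ℤ) ∣ (k - k0) * (k - (-k0)) := by
        have e : (k - k0) * (k - (-k0)) = (k ^ 2 + 1) - (k0 ^ 2 + 1) := by ring
        rw [e]
        exact dvd_sub hk.2 hk0.2
      by_cases h5 : (p : ℤ) ∣ k - k0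
      · left
        refine ⟨hk.1, ?_⟩
        have h6 : ¬ (p : ℤ) ∣ k - (-k0) := by
          intro h6
          have h7 : (p : ℤ) ∣ 2 * k0 := by
            have e : 2 * k0 = (k - (-k0)) - (k - k0) := by ring
            rw [e]
            exact dvd_sub h6 h5
          rcases hpp.dvd_or_dvd h7 with h8 | h8
          · have h9 : p ∣ 2 := by exact_mod_cast h8
            exact h2 ((Nat.prime_dvd_prime_iff_eq hp Nat.prime_two).1 h9)
          · exact hk0p h8
        have hcop : IsCoprime ((p * p : ℕ) : ℤ) (k - (-k0)) := by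
          push_cast
          have := (Prime.coprime_iff_not_dvd hpp).2 h6
          exact IsCoprime.mul_left this this
        exact hcop.dvd_of_dvd_mul_right h4
      · right
        refine ⟨hk.1, ?_⟩
        have hcop : IsCoprime ((p * p : ℕ) : ℤ) (k - k0) := by
          push_cast
          have := (Prime.coprime_iff_not_dvd hpp).2 h5
          exact IsCoprime.mul_left this this
        exact hcop.dvd_of_dvd_mul_left h4
    have h4 := card_le_card h3
    have h5 := h4.trans (card_union_le _ _)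
    have h6 := cls (X : ℤ) (X + H) (by omega) (p * p) hp2 k0
    have h7 := cls (X : ℤ) (X + H) (by omega) (p * p) hp2 (-k0)
    have h8 : (((Ioc (X : ℤ) (X + H)).filter (fun k => ((p * p : ℕ) : ℤ) ∣ k ^ 2 + 1)).card : ℝ) ≤
        ((Ioc (X : ℤ) (X + H)).filter (fun k => ((p * p : ℕ) : ℤ) ∣ k - k0)).card +
        ((Ioc (X : ℤ) (X + H)).filter (fun k => ((p * p : ℕ) : ℤ) ∣ k - (-k0))).card := by
      exact_mod_cast h5
    have e : (((X : ℤ) + H : ℤ) : ℝ) - ((X : ℤ) : ℝ) = H := by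
      push_cast
      ring
    rw [e] at h6 h7
    have e2 : ((p * p : ℕ) : ℝ) = (p : ℝ) ^ 2 := by
      push_cast
      ring
    rw [e2] at h6 h7
    linarith

theorem div_filter (S : Finset ℕ) (k : ℤ) :
    (S.filter (fun m : ℕ => (m : ℤ) ∣ k ^ 2 + 1)).card ≤ (k ^ 2 + 1).natAbs.divisors.card := by
  apply card_le_card
  intro m hm
  rw [mem_filter] at hm
  rw [Nat.mem_divisors]
  refine ⟨Int.natCast_dvd.1 hm.2, ?_⟩
  rw [Int.natAbs_ne_zero]
  positivity

/-- the pairs with the common prime `p` -/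
theorem nc_one (X H : ℕ) (T1 : ℝ) (hT0 : 0 ≤ T1)
    (hT : ∀ k : ℤ, (X : ℤ) < k → k ≤ X + H → ((k ^ 2 + 1).natAbs.divisors.card : ℝ) ≤ T1)
    (S B : Finset ℕ) (p : ℕ) :
    ∑ m ∈ S.filter (fun m => p ∣ m), ∑ n ∈ B.filter (fun n => p ∣ n), cI X H (m * n) ≤
      T1 ^ 2 * (((Ioc (X : ℤ) (X + H)).filter (fun k => ((p * p : ℕ) : ℤ) ∣ k ^ 2 + 1)).card : ℝ) := by
  have h1 : ∀ m ∈ S.filter (fun m => p ∣ m), ∀ n ∈ B.filter (fun n => p ∣ n), cI X H (m * n) ≤
      ∑ k ∈ (Ioc (X : ℤ) (X + H)).filter (fun k => ((p * p : ℕ) : ℤ) ∣ k ^ 2 + 1),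
        (if (m : ℤ) ∣ k ^ 2 + 1 then (1 : ℝ) else 0) * (if (n : ℤ) ∣ k ^ 2 + 1 then (1 : ℝ) else 0) := by
    intro m hm n hn
    rw [mem_filter] at hm hn
    have h2 : cI X H (m * n) = ∑ k ∈ (Ioc (X : ℤ) (X + H)).filter (fun k => ((m * n : ℕ) : ℤ) ∣ k ^ 2 + 1),
        (if (m : ℤ) ∣ k ^ 2 + 1 then (1 : ℝ) else 0) * (if (n : ℤ) ∣ k ^ 2 + 1 then (1 : ℝ) else 0) := by
      unfold cI
      rw [card_eq_sum_ones]
      push_cast
      apply sum_congr rfl
      intro k hk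
      rw [mem_filter] at hk
      push_cast at hk
      rw [if_pos ((dvd_mul_right _ _).trans hk.2), if_pos ((dvd_mul_left _ _).trans hk.2), mul_one]
    rw [h2]
    apply sum_le_sum_of_subset_of_nonneg
    · intro k hk
      rw [mem_filter] at hk ⊢
      refine ⟨hk.1, dvd_trans ?_ hk.2⟩
      have : p * p ∣ m * n := mul_dvd_mul hm.2 hn.2
      exact_mod_cast this
    · intro k _ _
      split_ifs <;> norm_num
  calc ∑ m ∈ S.filter (fun m => p ∣ m), ∑ n ∈ B.filter (fun n => p ∣ n), cI X H (m * n) ≤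
      ∑ m ∈ S.filter (fun m => p ∣ m), ∑ n ∈ B.filter (fun n => p ∣ n),
        ∑ k ∈ (Ioc (X : ℤ) (X + H)).filter (fun k => ((p * p : ℕ) : ℤ) ∣ k ^ 2 + 1),
        (if (m : ℤ) ∣ k ^ 2 + 1 then (1 : ℝ) else 0) * (if (n : ℤ) ∣ k ^ 2 + 1 then (1 : ℝ) else 0) :=
        sum_le_sum fun m hm => sum_le_sum fun n hn => h1 m hm n hn
    _ = ∑ k ∈ (Ioc (X : ℤ) (X + H)).filter (fun k => ((p * p : ℕ) : ℤ) ∣ k ^ 2 + 1),
        (∑ m ∈ S.filter (fun m => p ∣ m), (if (m : ℤ) ∣ k ^ 2 + 1 then (1 : ℝ) else 0)) *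
        (∑ n ∈ B.filter (fun n => p ∣ n), (if (n : ℤ) ∣ k ^ 2 + 1 then (1 : ℝ) else 0)) := by
        simp_rw [sum_mul_sum]
        calc ∑ m ∈ S.filter (fun m => p ∣ m), ∑ n ∈ B.filter (fun n => p ∣ n),
              ∑ k ∈ (Ioc (X : ℤ) (X + H)).filter (fun k => ((p * p : ℕ) : ℤ) ∣ k ^ 2 + 1),
              (if (m : ℤ) ∣ k ^ 2 + 1 then (1 : ℝ) else 0) * (if (n : ℤ) ∣ k ^ 2 + 1 then (1 : ℝ) else 0) =
            ∑ m ∈ S.filter (fun m => p ∣ m),
              ∑ k ∈ (Ioc (X : ℤ) (X + H)).filter (fun k => ((p * p : ℕ) : ℤ) ∣ k ^ 2 + 1),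
              ∑ n ∈ B.filter (fun n => p ∣ n),
              (if (m : ℤ) ∣ k ^ 2 + 1 then (1 : ℝ) else 0) * (if (n : ℤ) ∣ k ^ 2 + 1 then (1 : ℝ) else 0) :=
              sum_congr rfl fun m _ => sum_comm
          _ = _ := sum_comm
    _ ≤ ∑ k ∈ (Ioc (X : ℤ) (X + H)).filter (fun k => ((p * p : ℕ) : ℤ) ∣ k ^ 2 + 1), T1 * T1 := by
        apply sum_le_sum
        intro k hk
        rw [mem_filter, mem_Ioc] at hk
        have h3 := hT k hk.1.1 hk.1.2
        have h4 : ∀ U : Finset ℕ, (∑ m ∈ U, (if (m : ℤ) ∣ k ^ 2 + 1 then (1 : ℝ) else 0)) ≤ T1 := by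
          intro U
          rw [← sum_filter, sum_const, nsmul_eq_mul, mul_one]
          refine le_trans ?_ h3
          exact_mod_cast div_filter U k
        exact mul_le_mul (h4 _) (h4 _) (sum_nonneg fun n _ => by split_ifs <;> norm_num) hT0
    _ = _ := by
        rw [sum_const, nsmul_eq_mul]
        ring

theorem cI_sum_p (X H : ℕ) (T1 : ℝ) (hT0 : 0 ≤ T1)
    (hT : ∀ k : ℤ, (X : ℤ) < k → k ≤ X + H → ((k ^ 2 + 1).natAbs.divisors.card : ℝ) ≤ T1)
    (S : Finset ℕ) (p : ℕ) :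
    ∑ m ∈ S.filter (fun m => p ∣ m), cI X H m ≤
      T1 * (((Ioc (X : ℤ) (X + H)).filter (fun k => (p : ℤ) ∣ k ^ 2 + 1)).card : ℝ) := by
  have h1 : ∀ m ∈ S.filter (fun m => p ∣ m), cI X H m ≤
      ∑ k ∈ (Ioc (X : ℤ) (X + H)).filter (fun k => (p : ℤ) ∣ k ^ 2 + 1),
        (if (m : ℤ) ∣ k ^ 2 + 1 then (1 : ℝ) else 0) := by
    intro m hm
    rw [mem_filter] at hm
    have h2 : cI X H m = ∑ k ∈ (Ioc (X : ℤ) (X + H)).filter (fun k => (m : ℤ) ∣ k ^ 2 + 1),
        (if (m : ℤ) ∣ k ^ 2 + 1 then (1 : ℝ) else 0) := by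
      unfold cI
      rw [card_eq_sum_ones]
      push_cast
      apply sum_congr rfl
      intro k hk
      rw [if_pos (mem_filter.1 hk).2]
    rw [h2]
    apply sum_le_sum_of_subset_of_nonneg
    · intro k hk
      rw [mem_filter] at hk ⊢
      exact ⟨hk.1, dvd_trans (by exact_mod_cast hm.2) hk.2⟩
    · intro k _ _
      split_ifs <;> norm_num
  calc ∑ m ∈ S.filter (fun m => p ∣ m), cI X H m ≤
      ∑ m ∈ S.filter (fun m => p ∣ m),
        ∑ k ∈ (Ioc (X : ℤ) (X + H)).filter (fun k => (p : ℤ) ∣ k ^ 2 + 1),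
        (if (m : ℤ) ∣ k ^ 2 + 1 then (1 : ℝ) else 0) := sum_le_sum h1
    _ = ∑ k ∈ (Ioc (X : ℤ) (X + H)).filter (fun k => (p : ℤ) ∣ k ^ 2 + 1),
        ∑ m ∈ S.filter (fun m => p ∣ m), (if (m : ℤ) ∣ k ^ 2 + 1 then (1 : ℝ) else 0) := sum_comm
    _ ≤ ∑ k ∈ (Ioc (X : ℤ) (X + H)).filter (fun k => (p : ℤ) ∣ k ^ 2 + 1), T1 := by
        apply sum_le_sum
        intro k hk
        rw [mem_filter, mem_Ioc] at hk
        rw [← sum_filter, sum_const, nsmul_eq_mul, mul_one]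
        refine le_trans ?_ (hT k hk.1.1 hk.1.2)
        exact_mod_cast div_filter _ k
    _ = _ := by
        rw [sum_const, nsmul_eq_mul]
        ring

/-- the pairs which are not coprime -/
theorem nc_total (X H N M2 : ℕ) (B : Finset ℕ) (T1 z0 R s : ℝ) (hyp : Hyp X H B N M2 T1 z0 R s)
    (S : Finset ℕ) :
    ∑ m ∈ S, ∑ n ∈ B.filter (fun n => ¬ Nat.Coprime m n), (cI X H (m * n) + gd n * cI X H m) ≤
      4 * T1 ^ 3 * (H / z0) + 2 * T1 ^ 2 * N + 2 * T1 ^ 3 := by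
  have hT0 : 0 ≤ T1 := by linarith [hyp.T0]
  have hz := hyp.z
  refine (nc_split S B (fun n hn => (hyp.B1 n hn).1) (fun m n => cI X H (m * n) + gd n * cI X H m)
    (fun m n => add_nonneg (cI_nonneg _ _ _) (mul_nonneg (gd_nonneg _) (cI_nonneg _ _ _)))).trans ?_
  have hPB : ∀ p ∈ B.biUnion Nat.primeFactors, p.Prime ∧ p ≤ N := by
    intro p hp
    rw [mem_biUnion] at hp
    obtain ⟨n, hn, hpn⟩ := hp
    obtain ⟨c1, c2⟩ := hyp.B1 n hn
    exact ⟨Nat.prime_of_mem_primeFactors hpn,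
      (Nat.le_of_dvd (by omega) (Nat.dvd_of_mem_primeFactors hpn)).trans c2⟩
  have hp : ∀ p ∈ B.biUnion Nat.primeFactors, ∑ m ∈ S.filter (fun m => p ∣ m),
      ∑ n ∈ B.filter (fun n => p ∣ n), (cI X H (m * n) + gd n * cI X H m) ≤
      T1 ^ 2 * (2 * (H * (1 / (p : ℝ) ^ 2) + 1)) +
        T1 ^ 2 * (2 * (H * (1 / (p : ℝ) ^ 2) + 1 / (p : ℝ))) := by
    intro p hpB
    obtain ⟨hpp, hpN⟩ := hPB p hpB
    have hpr : (0 : ℝ) < p := by exact_mod_cast hpp.pos
    have h1 := nc_one X H T1 hT0 hyp.T S B p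
    have h2 := k_card_p2 X H p hpp (hyp.P3 p hpB).1
    have h3 := cI_sum_p X H T1 hT0 hyp.T S p
    have h4 := k_card_p X H p hpp
    have h5 : ∑ m ∈ S.filter (fun m => p ∣ m), ∑ n ∈ B.filter (fun n => p ∣ n), gd n * cI X H m =
        (∑ n ∈ B.filter (fun n => p ∣ n), gd n) * ∑ m ∈ S.filter (fun m => p ∣ m), cI X H m := by
      rw [sum_comm, sum_mul_sum]
    have h6 : ∑ m ∈ S.filter (fun m => p ∣ m), ∑ n ∈ B.filter (fun n => p ∣ n),
        (cI X H (m * n) + gd n * cI X H m) =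
        ∑ m ∈ S.filter (fun m => p ∣ m), ∑ n ∈ B.filter (fun n => p ∣ n), cI X H (m * n) +
        ∑ m ∈ S.filter (fun m => p ∣ m), ∑ n ∈ B.filter (fun n => p ∣ n), gd n * cI X H m := by
      rw [← sum_add_distrib]
      apply sum_congr rfl
      intro m _
      rw [← sum_add_distrib]
    rw [h6, h5]
    apply add_le_add
    · refine h1.trans ?_
      apply mul_le_mul_of_nonneg_left _ (by positivity)
      refine h2.trans (le_of_eq ?_)
      ring
    · calc (∑ n ∈ B.filter (fun n => p ∣ n), gd n) * ∑ m ∈ S.filter (fun m => p ∣ m), cI X H m ≤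
          (T1 / p) * (T1 * (2 * ((H : ℝ) / p + 1))) := by
            apply mul_le_mul (hyp.Gp p hpB) _ (sum_nonneg fun m _ => cI_nonneg _ _ _) (by positivity)
            exact h3.trans (mul_le_mul_of_nonneg_left h4 hT0)
        _ = _ := by
            field_simp
  refine (sum_le_sum hp).trans ?_
  have hcard : ((B.biUnion Nat.primeFactors).card : ℝ) ≤ N := by
    have : (B.biUnion Nat.primeFactors).card ≤ (Icc 1 N).card := by
      apply card_le_card
      intro p hp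
      obtain ⟨c1, c2⟩ := hPB p hp
      rw [mem_Icc]
      exact ⟨c1.one_le, c2⟩
    rw [Nat.card_Icc] at this
    have h2 : (B.biUnion Nat.primeFactors).card ≤ N := by omega
    exact_mod_cast h2
  have e : ∑ p ∈ B.biUnion Nat.primeFactors, (T1 ^ 2 * (2 * (H * (1 / (p : ℝ) ^ 2) + 1)) +
        T1 ^ 2 * (2 * (H * (1 / (p : ℝ) ^ 2) + 1 / (p : ℝ)))) =
      T1 ^ 2 * (4 * H * ∑ p ∈ B.biUnion Nat.primeFactors, (1 / (p : ℝ) ^ 2) +
        2 * ∑ p ∈ B.biUnion Nat.primeFactors, (1 : ℝ) +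
        2 * ∑ p ∈ B.biUnion Nat.primeFactors, (1 / (p : ℝ))) := by
    rw [mul_sum, mul_sum, mul_sum, ← sum_add_distrib, ← sum_add_distrib, mul_sum]
    apply sum_congr rfl
    intro p _
    ring
  rw [e, sum_const, nsmul_eq_mul, mul_one]
  have h1 := hyp.P1
  have h2 := hyp.P2
  have hH0 : (0 : ℝ) ≤ H := Nat.cast_nonneg H
  calc T1 ^ 2 * (4 * H * ∑ p ∈ B.biUnion Nat.primeFactors, (1 / (p : ℝ) ^ 2) +
        2 * ((B.biUnion Nat.primeFactors).card : ℝ) +
        2 * ∑ p ∈ B.biUnion Nat.primeFactors, (1 / (p : ℝ))) ≤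
      T1 ^ 2 * (4 * H * (T1 / z0) + 2 * N + 2 * T1) := by
        apply mul_le_mul_of_nonneg_left _ (by positivity)
        apply add_le_add
        · apply add_le_add
          · exact mul_le_mul_of_nonneg_left h2 (by positivity)
          · linarith
        · linarith
    _ = _ := by ring

/-- **The bilinear form.** -/
theorem bil (kl : S_KL) (ε ρ κ : ℝ) (hκ : 0 < κ) (hκε : 100 * κ ≤ ε) (hκρ : 100 * κ ≤ ρ)
    (hε : ε ≤ 1 / 100) : ∃ X0 : ℕ, ∀ X : ℕ, X0 ≤ X → ∀ H : ℕ, (X : ℝ) ^ (1 - κ) ≤ H → H ≤ X →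
    ∀ N M : ℕ, (N : ℝ) ≤ (X : ℝ) ^ (1 / 12 - ε) → (M : ℝ) ≤ (X : ℝ) ^ (1 - ε) →
    ∀ a b : ℕ → ℝ, (∀ n, |a n| ≤ 1) → (∀ n, |b n| ≤ 1) → (∀ m, a m ≠ 0 → Squarefree m) →
    |∑ m ∈ Icc 1 M, ∑ n ∈ (Bs X N ρ).filter (fun n => Nat.Coprime m n),
      a m * b n * (cI X H (m * n) - H * gd (m * n))| ≤ H * (X : ℝ) ^ (-(κ / 2)) := by
  obtain ⟨X1, hX1⟩ := D_small kl ε ρ κ hκ hκε hκρ hε
  obtain ⟨X2, hX2⟩ := ev_all κ hκ
  obtain ⟨X4, hX4⟩ := hyp_holds κ ρ ε hκ (by linarith) (by linarith)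
  have e1 : ∀ᶠ X : ℕ in atTop, (18 : ℝ) ≤ (X : ℝ) ^ (κ / 2) :=
    tendsto_natCast_atTop_atTop.eventually
      ((tendsto_rpow_atTop (by positivity)).eventually_ge_atTop _)
  obtain ⟨X3, hX3⟩ := eventually_atTop.1 e1
  refine ⟨max (max X1 X2) (max X3 X4), fun X hX H hH1 hH2 N M hN hM a b ha hb hsq => ?_⟩
  obtain ⟨a1, a2, a3, a4⟩ := hX2 X (((le_max_right _ _).trans (le_max_left _ _)).trans hX)
  have b1 := hX3 X (((le_max_left _ _).trans (le_max_right _ _)).trans hX)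
  have hXr : (3 : ℝ) ≤ X := by exact_mod_cast a4
  have hX0 : (0 : ℝ) < X := by linarith
  have hX1' : (1 : ℝ) ≤ X := by linarith
  have hlog : 0 ≤ Real.log X := Real.log_nonneg hX1'
  set T1 : ℝ := (X : ℝ) ^ κ with hT1
  have hT1p : 1 ≤ T1 := Real.one_le_rpow hX1' hκ.le
  have hyp := hX4 X (((le_max_right _ _).trans (le_max_right _ _)).trans hX) H N 0 hH1 hH2
    (hN.trans (Real.rpow_le_rpow_of_exponent_le hX1' (by linarith))) (by push_cast; positivity) (by linarith)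
  set B := Bs X N ρ with hB
  have hBm : ∀ n ∈ B, 1 ≤ n ∧ n ≤ N ∧ Squarefree n := by
    intro n hn
    rw [hB] at hn
    unfold Bs at hn
    rw [mem_filter, mem_Icc] at hn
    exact ⟨hn.1.1, hn.1.2, hn.2.1⟩
  set M0 : ℕ := ⌊(X : ℝ) ^ (9 / 10 : ℝ)⌋₊ with hM0
  have hM0u : (M0 : ℝ) ≤ (X : ℝ) ^ (9 / 10 : ℝ) := Nat.floor_le (by positivity)
  have hM0l : (X : ℝ) ^ (9 / 10 : ℝ) ≤ M0 + 1 := (Nat.lt_floor_add_one _).le
  have hMX : M ≤ X := by
    have : (M : ℝ) ≤ X := by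
      refine hM.trans ?_
      calc (X : ℝ) ^ (1 - ε) ≤ (X : ℝ) ^ (1 : ℝ) := Real.rpow_le_rpow_of_exponent_le hX1' (by linarith)
        _ = X := Real.rpow_one _
    exact_mod_cast this
  have hNX : N ≤ X := by
    have : (N : ℝ) ≤ X := by
      refine hN.trans ?_
      calc (X : ℝ) ^ (1 / 12 - ε) ≤ (X : ℝ) ^ (1 : ℝ) := Real.rpow_le_rpow_of_exponent_le hX1' (by linarith)
        _ = X := Real.rpow_one _
    exact_mod_cast this
  have hD := hX1 X (((le_max_left _ _).trans (le_max_left _ _)).trans hX) H hH1 hH2 N M M0 hN hM hM0l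
    a b ha hb
  rw [← hB] at hD
  have hNC := nc_total X H N 0 B T1 _ _ _ hyp (Ioc M0 M)
  have hR : ∀ m : ℕ, m ≤ X → Squarefree m → ((Rt m).card : ℝ) ≤ T1 := by
    intro m hm hs
    have h1 := a2 m hm hs
    have h2 : (0 : ℝ) ≤ (Rt m).card := Nat.cast_nonneg _
    nlinarith
  -- the split
  set w : ℕ → ℕ → ℝ := fun m n => a m * b n * (cI X H (m * n) - H * gd (m * n)) with hw
  have hIoc : (Icc 1 M).filter (fun m => ¬ m ≤ M0) = Ioc M0 M := by
    ext m
    rw [mem_filter, mem_Icc, mem_Ioc]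
    omega
  rw [← sum_filter_add_sum_filter_not (Icc 1 M) (fun m => m ≤ M0), hIoc]
  -- small `m`
  have hP1 : |∑ m ∈ (Icc 1 M).filter (fun m => m ≤ M0), ∑ n ∈ B.filter (fun n => Nat.Coprime m n), w m n| ≤
      4 * T1 ^ 2 * (M0 * N) := by
    have h1 : ∀ m ∈ (Icc 1 M).filter (fun m => m ≤ M0), ∀ n ∈ B.filter (fun n => Nat.Coprime m n),
        |w m n| ≤ 4 * T1 ^ 2 := by
      intro m hm n hn
      rw [mem_filter, mem_Icc] at hm
      rw [mem_filter] at hn
      obtain ⟨c1, c2, c3⟩ := hBm n hn.1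
      simp only [hw]
      by_cases ham : a m = 0
      · rw [ham]
        simp
        positivity
      · have hms := hsq m ham
        rw [abs_mul, abs_mul]
        have h2 := cI_asym X H (m * n) (Nat.mul_pos hm.1.1 c1)
        rw [Rt_mul m n hm.1.1 c1 hn.2] at h2
        have h3 := hR m (hm.1.2.trans hMX) hms
        have h4 := hR n (c2.trans hNX) c3
        have h5 : ((Rt m).card : ℝ) * (Rt n).card ≤ T1 * T1 :=
          mul_le_mul h3 h4 (Nat.cast_nonneg _) (by linarith)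
        push_cast at h2
        have h6 : |cI X H (m * n) - H * gd (m * n)| ≤ 4 * T1 ^ 2 := by
          refine h2.trans ?_
          nlinarith
        calc |a m| * |b n| * |cI X H (m * n) - H * gd (m * n)| ≤ 1 * 1 * (4 * T1 ^ 2) := by
              apply mul_le_mul _ h6 (abs_nonneg _) (by norm_num)
              exact mul_le_mul (ha m) (hb n) (abs_nonneg _) zero_le_one
          _ = _ := by ring
    calc |∑ m ∈ (Icc 1 M).filter (fun m => m ≤ M0), ∑ n ∈ B.filter (fun n => Nat.Coprime m n), w m n| ≤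
        ∑ m ∈ (Icc 1 M).filter (fun m => m ≤ M0), ∑ n ∈ B.filter (fun n => Nat.Coprime m n), 4 * T1 ^ 2 := by
          refine (abs_sum_le_sum_abs _ _).trans (sum_le_sum fun m hm => ?_)
          exact (abs_sum_le_sum_abs _ _).trans (sum_le_sum fun n hn => h1 m hm n hn)
      _ ≤ ∑ m ∈ Icc 1 M0, ∑ n ∈ Icc 1 N, 4 * T1 ^ 2 := by
          refine le_trans (sum_le_sum (g := fun _ => ∑ n ∈ Icc 1 N, 4 * T1 ^ 2) fun m _ => ?_)
            (sum_le_sum_of_subset_of_nonneg ?_ ?_)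
          · apply sum_le_sum_of_subset_of_nonneg
            · intro n hn
              rw [mem_filter] at hn
              obtain ⟨c1, c2, c3⟩ := hBm n hn.1
              exact mem_Icc.2 ⟨c1, c2⟩
            · intro _ _ _
              positivity
          · intro m hm
            rw [mem_filter, mem_Icc] at hm
            exact mem_Icc.2 ⟨hm.1.1, hm.2⟩
          · intro _ _ _
            positivity
      _ = _ := by
          rw [sum_const, sum_const, nsmul_eq_mul, nsmul_eq_mul, Nat.card_Icc, Nat.card_Icc]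
          simp only [Nat.add_sub_cancel]
          ring
  -- large `m`
  have hP2 : |∑ m ∈ Ioc M0 M, ∑ n ∈ B.filter (fun n => Nat.Coprime m n), w m n| ≤
      2 * (H * (X : ℝ) ^ (-κ)) + (4 * T1 ^ 3 * (H / (X : ℝ) ^ ρ) + 2 * T1 ^ 2 * N + 2 * T1 ^ 3) +
        4 * T1 ^ 2 * M := by
    set nc : ℝ := ∑ m ∈ Ioc M0 M, ∑ n ∈ B.filter (fun n => ¬ Nat.Coprime m n),
      a m * b n * (cI X H (m * n) - gd n * cI X H m) with hnc
    set qq : ℝ := ∑ m ∈ Ioc M0 M, ∑ n ∈ B.filter (fun n => Nat.Coprime m n),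
      a m * b n * (gd n * (cI X H m - H * gd m)) with hqq
    have hsplit : ∑ m ∈ Ioc M0 M, ∑ n ∈ B.filter (fun n => Nat.Coprime m n), w m n =
        ∑ m ∈ Ioc M0 M, ∑ n ∈ B, a m * b n * (cI X H (m * n) - gd n * cI X H m) - nc + qq := by
      rw [hnc, hqq, ← sum_sub_distrib, ← sum_add_distrib]
      apply sum_congr rfl
      intro m hm
      rw [mem_Ioc] at hm
      rw [← sum_filter_add_sum_filter_not B (fun n => Nat.Coprime m n), add_sub_cancel_right,
        ← sum_add_distrib]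
      apply sum_congr rfl
      intro n hn
      rw [mem_filter] at hn
      obtain ⟨c1, c2, c3⟩ := hBm n hn.1
      simp only [hw]
      rw [gd_mul m n (by omega) c1 hn.2]
      ring
    have hncb : |nc| ≤ 4 * T1 ^ 3 * (H / (X : ℝ) ^ ρ) + 2 * T1 ^ 2 * N + 2 * T1 ^ 3 := by
      refine le_trans ?_ hNC
      rw [hnc]
      refine (abs_sum_le_sum_abs _ _).trans (sum_le_sum fun m _ => ?_)
      refine (abs_sum_le_sum_abs _ _).trans (sum_le_sum fun n _ => ?_)
      rw [abs_mul, abs_mul]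
      have h1 : |cI X H (m * n) - gd n * cI X H m| ≤ cI X H (m * n) + gd n * cI X H m := by
        have u1 := cI_nonneg X H (m * n)
        have u2 := mul_nonneg (gd_nonneg n) (cI_nonneg X H m)
        rw [abs_le]
        constructor <;> linarith
      calc |a m| * |b n| * |cI X H (m * n) - gd n * cI X H m| ≤
          1 * 1 * (cI X H (m * n) + gd n * cI X H m) := by
            apply mul_le_mul _ h1 (abs_nonneg _) (by norm_num)
            exact mul_le_mul (ha m) (hb n) (abs_nonneg _) zero_le_one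
        _ = _ := by ring
    have hqqb : |qq| ≤ 4 * T1 ^ 2 * M := by
      rw [hqq]
      calc |∑ m ∈ Ioc M0 M, ∑ n ∈ B.filter (fun n => Nat.Coprime m n),
            a m * b n * (gd n * (cI X H m - H * gd m))| ≤
          ∑ m ∈ Ioc M0 M, ∑ n ∈ B, gd n * (4 * T1) := by
            refine (abs_sum_le_sum_abs _ _).trans (sum_le_sum fun m hm => ?_)
            rw [mem_Ioc] at hm
            refine (abs_sum_le_sum_abs _ _).trans ?_
            refine le_trans (sum_le_sum (g := fun n => gd n * (4 * T1)) fun n hn => ?_)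
              (sum_le_sum_of_subset_of_nonneg (filter_subset _ _) fun n _ _ =>
                mul_nonneg (gd_nonneg n) (by linarith))
            by_cases ham : a m = 0
            · rw [ham]
              simp
              exact mul_nonneg (gd_nonneg n) (by linarith)
            · have hms := hsq m ham
              rw [abs_mul, abs_mul, abs_mul, abs_of_nonneg (gd_nonneg n)]
              have h2 := cI_asym X H m (by omega)
              have h3 := hR m (hm.2.trans hMX) hms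
              have h6 : |cI X H m - H * gd m| ≤ 4 * T1 := by
                refine h2.trans ?_
                linarith
              calc |a m| * |b n| * (gd n * |cI X H m - H * gd m|) ≤ 1 * 1 * (gd n * (4 * T1)) := by
                    apply mul_le_mul _ _ (mul_nonneg (gd_nonneg n) (abs_nonneg _)) (by norm_num)
                    · exact mul_le_mul (ha m) (hb n) (abs_nonneg _) zero_le_one
                    · exact mul_le_mul_of_nonneg_left h6 (gd_nonneg n)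
                _ = _ := by ring
        _ ≤ ∑ m ∈ Ioc M0 M, T1 * (4 * T1) := by
            apply sum_le_sum
            intro m _
            rw [← sum_mul]
            exact mul_le_mul_of_nonneg_right hyp.G (by linarith)
        _ = ((M - M0 : ℕ) : ℝ) * (4 * T1 ^ 2) := by
            rw [sum_const, nsmul_eq_mul, Nat.card_Ioc]
            ring
        _ ≤ M * (4 * T1 ^ 2) := by
            apply mul_le_mul_of_nonneg_right _ (by positivity)
            have : M - M0 ≤ M := Nat.sub_le _ _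
            exact_mod_cast this
        _ = _ := by ring
    rw [hsplit]
    calc |∑ m ∈ Ioc M0 M, ∑ n ∈ B, a m * b n * (cI X H (m * n) - gd n * cI X H m) - nc + qq| ≤
        |∑ m ∈ Ioc M0 M, ∑ n ∈ B, a m * b n * (cI X H (m * n) - gd n * cI X H m) - nc| + |qq| :=
          abs_add_le _ _
      _ ≤ |∑ m ∈ Ioc M0 M, ∑ n ∈ B, a m * b n * (cI X H (m * n) - gd n * cI X H m)| + |nc| + |qq| := by
          have := abs_sub (∑ m ∈ Ioc M0 M, ∑ n ∈ B, a m * b n * (cI X H (m * n) - gd n * cI X H m)) nc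
          linarith
      _ ≤ _ := by linarith
  -- numbers
  have hH0 : (0 : ℝ) < H := lt_of_lt_of_le (by positivity) hH1
  set U : ℝ := H * (X : ℝ) ^ (-κ) with hU
  have hUl : (X : ℝ) ^ (1 - 2 * κ) ≤ U := by
    rw [hU]
    calc (X : ℝ) ^ (1 - 2 * κ) = (X : ℝ) ^ (1 - κ) * (X : ℝ) ^ (-κ) := by
          rw [← Real.rpow_add hX0]
          congr 1
          ring
      _ ≤ _ := mul_le_mul_of_nonneg_right hH1 (by positivity)
  have hT2 : T1 ^ 2 = (X : ℝ) ^ (2 * κ) := by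
    rw [hT1, ← Real.rpow_natCast, ← Real.rpow_mul hX0.le]
    congr 1
    push_cast
    ring
  have hT3 : T1 ^ 3 = (X : ℝ) ^ (3 * κ) := by
    rw [hT1, ← Real.rpow_natCast, ← Real.rpow_mul hX0.le]
    congr 1
    push_cast
    ring
  have q1 : 4 * T1 ^ 2 * (M0 * N) ≤ 4 * U := by
    rw [hT2]
    calc 4 * (X : ℝ) ^ (2 * κ) * (M0 * N) ≤
        4 * (X : ℝ) ^ (2 * κ) * ((X : ℝ) ^ (9 / 10 : ℝ) * (X : ℝ) ^ (1 / 12 - ε)) := by
          apply mul_le_mul_of_nonneg_left _ (by positivity)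
          exact mul_le_mul hM0u hN (Nat.cast_nonneg _) (by positivity)
      _ = 4 * ((X : ℝ) ^ (2 * κ) * (X : ℝ) ^ (9 / 10 : ℝ) * (X : ℝ) ^ (1 / 12 - ε)) := by ring
      _ ≤ 4 * (X : ℝ) ^ (1 - 2 * κ) := by
          apply mul_le_mul_of_nonneg_left _ (by norm_num)
          exact rmul3 X hX1' _ _ _ _ (by linarith)
      _ ≤ _ := by linarith
  have q2 : 4 * T1 ^ 3 * (H / (X : ℝ) ^ ρ) ≤ 4 * U := by
    rw [hT3, hU]
    calc 4 * (X : ℝ) ^ (3 * κ) * (H / (X : ℝ) ^ ρ) =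
        4 * (H * ((X : ℝ) ^ (3 * κ) * (X : ℝ) ^ (-ρ))) := by
          rw [Real.rpow_neg hX0.le]
          ring
      _ ≤ _ := by
          apply mul_le_mul_of_nonneg_left _ (by norm_num)
          apply mul_le_mul_of_nonneg_left _ hH0.le
          exact rmul2 X hX1' _ _ _ (by linarith)
  have q3 : 2 * T1 ^ 2 * N ≤ 2 * U := by
    rw [hT2]
    calc 2 * (X : ℝ) ^ (2 * κ) * N ≤ 2 * (X : ℝ) ^ (2 * κ) * (X : ℝ) ^ (1 / 12 - ε) :=
          mul_le_mul_of_nonneg_left hN (by positivity)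
      _ = 2 * ((X : ℝ) ^ (2 * κ) * (X : ℝ) ^ (1 / 12 - ε)) := by ring
      _ ≤ 2 * (X : ℝ) ^ (1 - 2 * κ) := by
          apply mul_le_mul_of_nonneg_left _ (by norm_num)
          exact rmul2 X hX1' _ _ _ (by linarith)
      _ ≤ _ := by linarith
  have q4 : 2 * T1 ^ 3 ≤ 2 * U := by
    rw [hT3]
    have : (X : ℝ) ^ (3 * κ) ≤ (X : ℝ) ^ (1 - 2 * κ) :=
      Real.rpow_le_rpow_of_exponent_le hX1' (by linarith)
    linarith
  have q5 : 4 * T1 ^ 2 * M ≤ 4 * U := by
    rw [hT2]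
    calc 4 * (X : ℝ) ^ (2 * κ) * M ≤ 4 * (X : ℝ) ^ (2 * κ) * (X : ℝ) ^ (1 - ε) :=
          mul_le_mul_of_nonneg_left hM (by positivity)
      _ = 4 * ((X : ℝ) ^ (2 * κ) * (X : ℝ) ^ (1 - ε)) := by ring
      _ ≤ 4 * (X : ℝ) ^ (1 - 2 * κ) := by
          apply mul_le_mul_of_nonneg_left _ (by norm_num)
          exact rmul2 X hX1' _ _ _ (by linarith)
      _ ≤ _ := by linarith
  have q6 : 18 * U ≤ H * (X : ℝ) ^ (-(κ / 2)) := by
    rw [hU]
    calc 18 * (H * (X : ℝ) ^ (-κ)) ≤ (X : ℝ) ^ (κ / 2) * (H * (X : ℝ) ^ (-κ)) :=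
          mul_le_mul_of_nonneg_right b1 (by positivity)
      _ = H * ((X : ℝ) ^ (κ / 2) * (X : ℝ) ^ (-κ)) := by ring
      _ ≤ _ := by
          apply mul_le_mul_of_nonneg_left _ hH0.le
          exact rmul2 X hX1' _ _ _ (by linarith)
  refine (abs_add_le _ _).trans ?_
  linarith

end Pool.Agent.H543.DD
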