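import Pool.Agent.H543.DD.Sq

/-!
# Counting the points with a common prime
-/

set_option autoImplicit false

namespace Pool.Agent.H543.DD

open Finset
open scoped Classical

theorem cls (a b : ℤ) (hab : a ≤ b) (p : ℕ) (hp : 1 ≤ p) (r : ℤ) :
    (((Ioc a b).filter (fun l => (p : ℤ) ∣ l - r)).card : ℝ) ≤ ((b : ℝ) - a) / p + 1 := by
  have hp0 : (0 : ℤ) < p := by exact_mod_cast hp
  have h1 : (Ioc a b).filter (fun l => (p : ℤ) ∣ l - r) = (Ioc a b).filter (fun l => l ≡ r [ZMOD p]) := by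
    apply filter_congr
    intro l _
    rw [Int.modEq_comm, Int.modEq_iff_dvd]
  have h2 := Int.Ioc_filter_modEq_card a b hp0 r
  rw [h1]
  have h3 : ((((Ioc a b).filter (fun l => l ≡ r [ZMOD p])).card : ℤ) : ℚ) ≤ ((b : ℚ) - a) / p + 1 := by
    rw [h2]
    push_cast
    have hpq : (0 : ℚ) < p := by exact_mod_cast hp
    have habq : (a : ℚ) ≤ b := by exact_mod_cast hab
    apply max_le
    · have e1 := Int.floor_le (((b : ℚ) - r) / ((p : ℤ) : ℚ))
      have e2 := Int.lt_floor_add_one (((a : ℚ) - r) / ((p : ℤ) : ℚ))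
      push_cast at e1 e2
      have e3 : ((b : ℚ) - a) / p = ((b : ℚ) - r) / p - ((a : ℚ) - r) / p := by
        rw [← sub_div]
        congr 1
        ring
      rw [e3]
      linarith
    · have : 0 ≤ ((b : ℚ) - a) / p := div_nonneg (by linarith) hpq.le
      linarith
  have h4 : (((((Ioc a b).filter (fun l => l ≡ r [ZMOD p])).card : ℤ) : ℚ) : ℝ) ≤
      ((((b : ℚ) - a) / p + 1 : ℚ) : ℝ) := by exact_mod_cast h3
  push_cast at h4
  exact h4

/-- parametrisation by `l` -/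
theorem US_param (X H x : ℕ) (hx : 1 ≤ x) (y u0 : ℤ) (hu0 : u0 ∈ US X H x y) (P : ℤ → Prop)
    [DecidablePred P] (a b : ℤ) (ha : a = ⌊((X : ℝ) - kk x y u0) / ((x : ℝ) ^ 2 + (y : ℝ) ^ 2)⌋)
    (hb : b = ⌊((X : ℝ) + H - kk x y u0) / ((x : ℝ) ^ 2 + (y : ℝ) ^ 2)⌋)
    (Q : ℤ → Prop) [DecidablePred Q] (hPQ : ∀ u l : ℤ, u ∈ US X H x y →
      kk x y u = kk x y u0 + ((x : ℤ) ^ 2 + y ^ 2) * l →
      ww x y u - ww x y u0 = l * (2 * kk x y u0 + ((x : ℤ) ^ 2 + y ^ 2) * l) → P u → Q l) :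
    ((US X H x y).filter P).card ≤ ((Ioc a b).filter Q).card := by
  have hx0 : (0 : ℤ) < x := by exact_mod_cast hx
  have hxr : (0 : ℝ) < x := by exact_mod_cast hx
  have hm : (0 : ℝ) < (x : ℝ) ^ 2 + (y : ℝ) ^ 2 := by positivity
  have hmz : (0 : ℤ) < (x : ℤ) ^ 2 + y ^ 2 := by positivity
  obtain ⟨s1, s2, s3, s4, s5⟩ := US_spec X H x y u0 hx0 hu0
  apply card_le_card_of_injOn (fun u => (u - u0) / x)
  · intro u hu
    rw [mem_coe, mem_filter] at hu
    obtain ⟨l, hl⟩ := US_cop X H x y u0 u hu0 hu.1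
    obtain ⟨r1, r2, r3, r4, r5⟩ := US_spec X H x y u hx0 hu.1
    have e0 : (u - u0) / x = l := Int.ediv_eq_of_eq_mul_right hx0.ne' hl
    have e1 : kk x y u = kk x y u0 + ((x : ℤ) ^ 2 + y ^ 2) * l := by
      have : (x : ℤ) * kk x y u = x * (kk x y u0 + ((x : ℤ) ^ 2 + y ^ 2) * l) := by
        rw [r4, mul_add, s4]
        linear_combination ((x : ℤ) ^ 2 + y ^ 2) * hl
      exact mul_left_cancel₀ hx0.ne' this
    have e2 : ww x y u - ww x y u0 = l * (2 * kk x y u0 + ((x : ℤ) ^ 2 + y ^ 2) * l) := by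
      have : ((x : ℤ) ^ 2 + y ^ 2) * (ww x y u - ww x y u0) =
          ((x : ℤ) ^ 2 + y ^ 2) * (l * (2 * kk x y u0 + ((x : ℤ) ^ 2 + y ^ 2) * l)) := by
        rw [mul_sub, ← r3, ← s3, e1]
        ring
      exact mul_left_cancel₀ hmz.ne' this
    rw [mem_coe, mem_filter, mem_Ioc]
    simp only
    rw [e0]
    refine ⟨⟨?_, ?_⟩, hPQ u l hu.1 e1 e2 hu.2⟩
    · rw [ha, Int.floor_lt, div_lt_iff₀ hm]
      rw [e1] at r1
      have : (X : ℝ) < kk x y u0 + ((x : ℝ) ^ 2 + (y : ℝ) ^ 2) * l := by exact_mod_cast r1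
      linarith
    · rw [hb, Int.le_floor, le_div_iff₀ hm]
      rw [e1] at r2
      have : kk x y u0 + ((x : ℝ) ^ 2 + (y : ℝ) ^ 2) * l ≤ (X : ℝ) + H := by exact_mod_cast r2
      linarith
  · intro u hu u' hu' h
    rw [mem_coe, mem_filter] at hu hu'
    obtain ⟨l, hl⟩ := US_cop X H x y u0 u hu0 hu.1
    obtain ⟨l', hl'⟩ := US_cop X H x y u0 u' hu0 hu'.1
    have e0 : (u - u0) / x = l := Int.ediv_eq_of_eq_mul_right hx0.ne' hl
    have e0' : (u' - u0) / x = l' := Int.ediv_eq_of_eq_mul_right hx0.ne' hl'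
    simp only at h
    rw [e0, e0'] at h
    rw [h] at hl
    linarith

theorem ab_len (X H : ℕ) (k m : ℝ) (hm : 0 < m) :
    ⌊((X : ℝ) - k) / m⌋ ≤ ⌊((X : ℝ) + H - k) / m⌋ ∧
      ((⌊((X : ℝ) + H - k) / m⌋ : ℝ) - ⌊((X : ℝ) - k) / m⌋) ≤ H / m + 1 := by
  have hH : (0 : ℝ) ≤ H := Nat.cast_nonneg H
  constructor
  · apply Int.floor_le_floor
    apply div_le_div_of_nonneg_right _ hm.le
    linarith
  · have e1 := Int.floor_le (((X : ℝ) + H - k) / m)
    have e2 := Int.lt_floor_add_one (((X : ℝ) - k) / m)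
    have e3 : ((X : ℝ) + H - k) / m = ((X : ℝ) - k) / m + H / m := by
      rw [← add_div]
      congr 1
      ring
    linarith

theorem US_card (X H x : ℕ) (hx : 1 ≤ x) (y : ℤ) :
    ((US X H x y).card : ℝ) ≤ H / ((x : ℝ) ^ 2 + (y : ℝ) ^ 2) + 1 := by
  have hxr : (0 : ℝ) < x := by exact_mod_cast hx
  have hm : (0 : ℝ) < (x : ℝ) ^ 2 + (y : ℝ) ^ 2 := by positivity
  rcases (US X H x y).eq_empty_or_nonempty with h | ⟨u0, hu0⟩
  · rw [h, card_empty]
    push_cast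
    positivity
  · have h1 := US_param X H x hx y u0 hu0 (fun _ => True) _ _ rfl rfl (fun _ => True)
      (fun _ _ _ _ _ _ => trivial)
    rw [filter_true, filter_true, Int.card_Ioc] at h1
    obtain ⟨h2, h3⟩ := ab_len X H (kk x y u0) _ hm
    refine le_trans ?_ h3
    have h4 : ((US X H x y).card : ℤ) ≤ ⌊((X : ℝ) + H - kk x y u0) / ((x : ℝ) ^ 2 + (y : ℝ) ^ 2)⌋ -
        ⌊((X : ℝ) - kk x y u0) / ((x : ℝ) ^ 2 + (y : ℝ) ^ 2)⌋ := by
      omega
    exact_mod_cast h4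

theorem US_card_p (X H x : ℕ) (hx : 1 ≤ x) (y : ℤ) (p : ℕ) (hp : p.Prime) (h2 : p ≠ 2) :
    (((US X H x y).filter (fun u => (p : ℤ) ∣ ww x y u)).card : ℝ) ≤
      2 * ((H / ((x : ℝ) ^ 2 + (y : ℝ) ^ 2) + 1) / p + 1) := by
  have hx0 : (0 : ℤ) < x := by exact_mod_cast hx
  have hxr : (0 : ℝ) < x := by exact_mod_cast hx
  have hm : (0 : ℝ) < (x : ℝ) ^ 2 + (y : ℝ) ^ 2 := by positivity
  have hpp : Prime (p : ℤ) := Nat.prime_iff_prime_int.1 hp
  have hpr : (0 : ℝ) < p := by exact_mod_cast hp.pos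
  rcases ((US X H x y).filter (fun u => (p : ℤ) ∣ ww x y u)).eq_empty_or_nonempty with h | ⟨u0, hu0⟩
  · rw [h, card_empty]
    push_cast
    positivity
  · rw [mem_filter] at hu0
    obtain ⟨s1, s2, s3, s4, s5⟩ := US_spec X H x y u0 hx0 hu0.1
    set m : ℤ := (x : ℤ) ^ 2 + y ^ 2 with hmdef
    -- the second class
    obtain ⟨r, hr⟩ : ∃ r : ℤ, ∀ l : ℤ, (p : ℤ) ∣ l * (2 * kk x y u0 + m * l) →
        (p : ℤ) ∣ l - 0 ∨ (p : ℤ) ∣ l - r := by
      by_cases hpm : (p : ℤ) ∣ m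
      · refine ⟨0, fun l hl => Or.inl ?_⟩
        rw [sub_zero]
        have h3 : (p : ℤ) ∣ l * (2 * kk x y u0) := by
          have e : l * (2 * kk x y u0) = l * (2 * kk x y u0 + m * l) - m * (l * l) := by ring
          rw [e]
          exact dvd_sub hl (hpm.mul_right _)
        rcases hpp.dvd_or_dvd h3 with h4 | h4
        · exact h4
        · exfalso
          rcases hpp.dvd_or_dvd h4 with h5 | h5
          · have h6 : p ∣ 2 := by exact_mod_cast h5
            exact h2 ((Nat.prime_dvd_prime_iff_eq hp Nat.prime_two).1 h6)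
          · have h6 : (p : ℤ) ∣ 1 := by
              have e : (1 : ℤ) = m * ww x y u0 - kk x y u0 * kk x y u0 := by
                linear_combination s3
              rw [e]
              exact dvd_sub (hpm.mul_right _) (h5.mul_right _)
            exact hpp.not_isUnit (isUnit_of_dvd_one h6)
      · have hcop : IsCoprime (p : ℤ) m := (Prime.coprime_iff_not_dvd hpp).2 hpm
        obtain ⟨c, d, hcd⟩ := hcop
        refine ⟨-(2 * kk x y u0) * d, fun l hl => ?_⟩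
        rcases hpp.dvd_or_dvd hl with h4 | h4
        · left; rwa [sub_zero]
        · right
          have e : l - -(2 * kk x y u0) * d = d * (2 * kk x y u0 + m * l) + p * (c * l) := by
            linear_combination (-l) * hcd
          rw [e]
          exact dvd_add (h4.mul_left _) (dvd_mul_right _ _)
    have h3 := US_param X H x hx y u0 hu0.1 (fun u => (p : ℤ) ∣ ww x y u) _ _ rfl rfl
      (fun l => (p : ℤ) ∣ l - 0 ∨ (p : ℤ) ∣ l - r) (by
        intro u l _ _ e2 hd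
        apply hr
        rw [← e2]
        exact dvd_sub hd hu0.2)
    obtain ⟨h4, h5⟩ := ab_len X H (kk x y u0) _ hm
    set a := ⌊((X : ℝ) - kk x y u0) / ((x : ℝ) ^ 2 + (y : ℝ) ^ 2)⌋
    set b := ⌊((X : ℝ) + H - kk x y u0) / ((x : ℝ) ^ 2 + (y : ℝ) ^ 2)⌋
    have h6 := cls a b h4 p hp.one_le 0
    have h7 := cls a b h4 p hp.one_le r
    have h8 : ((Ioc a b).filter (fun l => (p : ℤ) ∣ l - 0 ∨ (p : ℤ) ∣ l - r)).card ≤
        ((Ioc a b).filter (fun l => (p : ℤ) ∣ l - 0)).card +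
        ((Ioc a b).filter (fun l => (p : ℤ) ∣ l - r)).card := by
      rw [filter_or]
      exact card_union_le _ _
    have h9 : (((US X H x y).filter (fun u => (p : ℤ) ∣ ww x y u)).card : ℝ) ≤
        ((Ioc a b).filter (fun l => (p : ℤ) ∣ l - 0)).card +
        ((Ioc a b).filter (fun l => (p : ℤ) ∣ l - r)).card := by
      exact_mod_cast h3.trans h8
    have h10 : ((b : ℝ) - a) / p ≤ (H / ((x : ℝ) ^ 2 + (y : ℝ) ^ 2) + 1) / p :=
      div_le_div_of_nonneg_right h5 hpr.le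
    linarith

/-- integers with `p ∣ k ^ 2 + 1` -/
theorem k_card_p (X H p : ℕ) (hp : p.Prime) :
    (((Ioc (X : ℤ) (X + H)).filter (fun k => (p : ℤ) ∣ k ^ 2 + 1)).card : ℝ) ≤ 2 * ((H : ℝ) / p + 1) := by
  have hpp : Prime (p : ℤ) := Nat.prime_iff_prime_int.1 hp
  have hpr : (0 : ℝ) < p := by exact_mod_cast hp.pos
  rcases ((Ioc (X : ℤ) (X + H)).filter (fun k => (p : ℤ) ∣ k ^ 2 + 1)).eq_empty_or_nonempty with
    h | ⟨k0, hk0⟩
  · rw [h, card_empty]
    push_cast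
    positivity
  · rw [mem_filter] at hk0
    have h3 : (Ioc (X : ℤ) (X + H)).filter (fun k => (p : ℤ) ∣ k ^ 2 + 1) ⊆
        (Ioc (X : ℤ) (X + H)).filter (fun k => (p : ℤ) ∣ k - k0) ∪
        (Ioc (X : ℤ) (X + H)).filter (fun k => (p : ℤ) ∣ k - (-k0)) := by
      intro k hk
      rw [mem_filter] at hk
      rw [mem_union, mem_filter, mem_filter]
      have h4 : (p : ℤ) ∣ (k - k0) * (k - (-k0)) := by
        have e : (k - k0) * (k - (-k0)) = (k ^ 2 + 1) - (k0 ^ 2 + 1) := by ring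
        rw [e]
        exact dvd_sub hk.2 hk0.2
      rcases hpp.dvd_or_dvd h4 with h5 | h5
      · exact Or.inl ⟨hk.1, h5⟩
      · exact Or.inr ⟨hk.1, h5⟩
    have h4 := card_le_card h3
    have h5 := h4.trans (card_union_le _ _)
    have h6 := cls (X : ℤ) (X + H) (by omega) p hp.one_le k0
    have h7 := cls (X : ℤ) (X + H) (by omega) p hp.one_le (-k0)
    have h8 : (((Ioc (X : ℤ) (X + H)).filter (fun k => (p : ℤ) ∣ k ^ 2 + 1)).card : ℝ) ≤
        ((Ioc (X : ℤ) (X + H)).filter (fun k => (p : ℤ) ∣ k - k0)).card +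
        ((Ioc (X : ℤ) (X + H)).filter (fun k => (p : ℤ) ∣ k - (-k0))).card := by exact_mod_cast h5
    push_cast at h6 h7
    have e : ((X : ℝ) + H - X) / p = H / p := by
      congr 1
      ring
    rw [e] at h6 h7
    linarith

/-- number of divisors -/
theorem m_card (k : ℤ) (M : ℤ) :
    ((Icc 3 M).filter (fun m => m ∣ k ^ 2 + 1)).card ≤ (k ^ 2 + 1).natAbs.divisors.card := by
  apply card_le_card_of_injOn (fun m => m.natAbs)
  · intro m hm
    rw [mem_coe, mem_filter] at hm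
    simp only [mem_coe, Nat.mem_divisors]
    refine ⟨Int.natAbs_dvd_natAbs.2 hm.2, ?_⟩
    rw [Int.natAbs_ne_zero]
    positivity
  · intro m hm m' hm' h
    rw [mem_coe, mem_filter, mem_Icc] at hm hm'
    simp only at h
    omega

/-- the sum over all points -/
theorem sum_pts (X H : ℕ) (M2 : ℕ) (Xs : Finset ℕ) (hXs : ∀ x ∈ Xs, 2 ≤ x ∧ 2 * (x * x) ≤ M2)
    (T1 : ℝ) (hT : ∀ k : ℤ, (X : ℤ) < k → k ≤ X + H → ((k ^ 2 + 1).natAbs.divisors.card : ℝ) ≤ T1)
    (f : ℤ → ℝ) (hf : ∀ w, 0 ≤ f w) (F : ℤ → ℝ) (hF : ∀ k, 0 ≤ F k)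
    (hfF : ∀ k m : ℤ, m ∣ k ^ 2 + 1 → f ((k ^ 2 + 1) / m) ≤ F k) :
    ∑ x ∈ Xs, ∑ y ∈ Ioo (-(x : ℤ)) x, ∑ u ∈ US X H x y, f (ww x y u) ≤
      T1 * ∑ k ∈ Ioc (X : ℤ) (X + H), F k := by
  have h1 := rep_sum X H M2 (fun _ w => f w)
  have h2 : ∑ x ∈ Xs, ∑ y ∈ Ioo (-(x : ℤ)) x, ∑ u ∈ US X H x y, f (ww x y u) ≤
      ∑ x ∈ Icc (1 : ℤ) M2, ∑ y ∈ Ioo (-x) x, (if 3 ≤ x ^ 2 + y ^ 2 ∧ x ^ 2 + y ^ 2 ≤ (M2 : ℤ) then
        ∑ u ∈ US X H x y, f (ww x y u) else 0) := by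
    have h3 : ∑ x ∈ Xs, ∑ y ∈ Ioo (-(x : ℤ)) x, ∑ u ∈ US X H x y, f (ww x y u) =
        ∑ x ∈ Xs.map ⟨fun x : ℕ => (x : ℤ), Nat.cast_injective⟩, ∑ y ∈ Ioo (-x) x,
          (if 3 ≤ x ^ 2 + y ^ 2 ∧ x ^ 2 + y ^ 2 ≤ (M2 : ℤ) then
            ∑ u ∈ US X H x y, f (ww x y u) else 0) := by
      rw [sum_map]
      apply sum_congr rfl
      intro x hx
      simp only [Function.Embedding.coeFn_mk]
      apply sum_congr rfl
      intro y hy
      rw [mem_Ioo] at hy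
      obtain ⟨hx1, hx2⟩ := hXs x hx
      have hx2' : 2 * ((x : ℤ) * x) ≤ M2 := by exact_mod_cast hx2
      have hx1' : (2 : ℤ) ≤ x := by exact_mod_cast hx1
      rw [if_pos]
      have hy2 : y ^ 2 ≤ (x : ℤ) ^ 2 := by
        apply sq_le_sq'
        · linarith [hy.1]
        · linarith [hy.2]
      constructor
      · nlinarith [sq_nonneg y]
      · nlinarith
    rw [h3]
    apply sum_le_sum_of_subset_of_nonneg
    · intro x hx
      rw [mem_map] at hx
      obtain ⟨x', hx', rfl⟩ := hx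
      obtain ⟨hx1, hx2⟩ := hXs x' hx'
      simp only [Function.Embedding.coeFn_mk, mem_Icc]
      constructor
      · exact_mod_cast (by omega : 1 ≤ x')
      · have : x' ≤ M2 := by nlinarith
        exact_mod_cast this
    · intro x _ _
      apply sum_nonneg
      intro y _
      split_ifs
      · exact sum_nonneg fun u _ => hf _
      · exact le_rfl
  refine h2.trans ?_
  rw [h1]
  calc ∑ m ∈ Icc (3 : ℤ) M2, ∑ k ∈ (Ioc (X : ℤ) (X + H)).filter (fun k => m ∣ k ^ 2 + 1),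
        f ((k ^ 2 + 1) / m) ≤
      ∑ m ∈ Icc (3 : ℤ) M2, ∑ k ∈ (Ioc (X : ℤ) (X + H)).filter (fun k => m ∣ k ^ 2 + 1), F k := by
        apply sum_le_sum
        intro m _
        apply sum_le_sum
        intro k hk
        exact hfF k m (mem_filter.1 hk).2
    _ = ∑ k ∈ Ioc (X : ℤ) (X + H), ∑ m ∈ (Icc (3 : ℤ) M2).filter (fun m => m ∣ k ^ 2 + 1), F k := by
        simp_rw [sum_filter]
        rw [sum_comm]
    _ = ∑ k ∈ Ioc (X : ℤ) (X + H), (((Icc (3 : ℤ) M2).filter (fun m => m ∣ k ^ 2 + 1)).card : ℝ) * F k := by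
        apply sum_congr rfl
        intro k _
        rw [sum_const, nsmul_eq_mul]
    _ ≤ ∑ k ∈ Ioc (X : ℤ) (X + H), T1 * F k := by
        apply sum_le_sum
        intro k hk
        rw [mem_Ioc] at hk
        apply mul_le_mul_of_nonneg_right _ (hF k)
        refine le_trans ?_ (hT k hk.1 hk.2)
        exact_mod_cast m_card k M2
    _ = _ := by rw [mul_sum]

end Pool.Agent.H543.DD
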