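import Pool.Agent.H543.DD.Win

/-!
# The coprime pairs
-/

set_option autoImplicit false

namespace Pool.Agent.H543.DD

open Finset
open Pool.Agent.Y346.PA (S_KL)
open scoped Classical

/-- density -/
noncomputable def gd (n : ℕ) : ℝ := ((Rt n).card : ℝ) / n

theorem gd_nonneg (n : ℕ) : 0 ≤ gd n := by unfold gd; positivity

theorem Rt_one : Rt 1 = {0} := by
  unfold Rt
  ext i
  simp

theorem gd_one : gd 1 = 1 := by
  unfold gd
  rw [Rt_one]
  simp

theorem gd_le (n : ℕ) (hn : 1 ≤ n) : gd n ≤ (Rt n).card := by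
  unfold gd
  apply div_le_self (Nat.cast_nonneg _)
  exact_mod_cast hn

theorem tot_real (n : ℕ) : (n.totient : ℝ) = n * ∏ p ∈ n.primeFactors, (1 - (p : ℝ)⁻¹) := by
  have h := Nat.totient_eq_mul_prod_factors n
  have h2 : ((n.totient : ℚ) : ℝ) = ((n * ∏ p ∈ n.primeFactors, (1 - (p : ℚ)⁻¹) : ℚ) : ℝ) := by
    rw [h]
  push_cast at h2
  exact h2

theorem fac01 (n p : ℕ) (hp : p ∈ n.primeFactors) : 0 ≤ 1 - (p : ℝ)⁻¹ ∧ 1 - (p : ℝ)⁻¹ ≤ 1 := by
  have h1 : (1 : ℝ) ≤ p := by exact_mod_cast (Nat.prime_of_mem_primeFactors hp).one_le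
  have h2 : (p : ℝ)⁻¹ ≤ 1 := inv_le_one_of_one_le₀ h1
  have h3 : (0 : ℝ) ≤ (p : ℝ)⁻¹ := by positivity
  exact ⟨by linarith, by linarith⟩

theorem tot_up (x q : ℕ) (hx : 1 ≤ x) (hq : 1 ≤ q) :
    ((x * q).totient : ℝ) / q ≤ x.totient := by
  have hqr : (0 : ℝ) < q := by exact_mod_cast hq
  rw [div_le_iff₀ hqr, tot_real, tot_real x]
  have h1 : ∏ p ∈ (x * q).primeFactors, (1 - (p : ℝ)⁻¹) ≤ ∏ p ∈ x.primeFactors, (1 - (p : ℝ)⁻¹) := by
    have hsub : x.primeFactors ⊆ (x * q).primeFactors :=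
      Nat.primeFactors_mono (dvd_mul_right _ _) (by positivity)
    rw [← prod_sdiff hsub]
    calc (∏ p ∈ (x * q).primeFactors \ x.primeFactors, (1 - (p : ℝ)⁻¹)) *
        ∏ p ∈ x.primeFactors, (1 - (p : ℝ)⁻¹) ≤ 1 * ∏ p ∈ x.primeFactors, (1 - (p : ℝ)⁻¹) := by
          apply mul_le_mul_of_nonneg_right
          · apply prod_le_one
            · intro p hp
              exact (fac01 _ p (mem_sdiff.1 hp).1).1
            · intro p hp
              exact (fac01 _ p (mem_sdiff.1 hp).1).2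
          · exact prod_nonneg fun p hp => (fac01 _ p hp).1
      _ = _ := one_mul _
  push_cast
  calc (x : ℝ) * q * ∏ p ∈ (x * q).primeFactors, (1 - (p : ℝ)⁻¹) ≤
      (x : ℝ) * q * ∏ p ∈ x.primeFactors, (1 - (p : ℝ)⁻¹) :=
        mul_le_mul_of_nonneg_left h1 (by positivity)
    _ = _ := by ring

theorem wei (s : Finset ℕ) (f : ℕ → ℝ) (h : ∀ p ∈ s, 0 ≤ f p ∧ f p ≤ 1) :
    1 - ∑ p ∈ s, f p ≤ ∏ p ∈ s, (1 - f p) := by
  induction s using Finset.induction_on with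
  | empty => simp
  | insert a s ha ih =>
    rw [sum_insert ha, prod_insert ha]
    have h1 := ih (fun p hp => h p (mem_insert_of_mem hp))
    have h2 := h a (mem_insert_self _ _)
    have h3 : ∏ p ∈ s, (1 - f p) ≤ 1 := by
      apply prod_le_one
      · intro p hp
        linarith [(h p (mem_insert_of_mem hp)).2]
      · intro p hp
        linarith [(h p (mem_insert_of_mem hp)).1]
    nlinarith

theorem tot_low (x q : ℕ) (hq : 1 ≤ q) (s : ℝ) (hs : ∑ p ∈ q.primeFactors, (p : ℝ)⁻¹ ≤ s) :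
    (x.totient : ℝ) * (1 - s) ≤ ((x * q).totient : ℝ) / q := by
  have hqr : (0 : ℝ) < q := by exact_mod_cast hq
  rw [le_div_iff₀ hqr]
  have h1 : (x.totient : ℝ) * q.totient ≤ ((x * q).totient : ℝ) := by
    exact_mod_cast Nat.totient_super_multiplicative x q
  refine le_trans ?_ h1
  rw [tot_real q]
  have h2 := wei q.primeFactors (fun p => (p : ℝ)⁻¹) (fun p hp => by
    have := fac01 q p hp
    exact ⟨by positivity, by linarith [this.1]⟩)
  have h3 : 1 - s ≤ ∏ p ∈ q.primeFactors, (1 - (p : ℝ)⁻¹) := by linarith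
  calc (x.totient : ℝ) * (1 - s) * q = (x.totient : ℝ) * (q * (1 - s)) := by ring
    _ ≤ _ := by
        apply mul_le_mul_of_nonneg_left _ (Nat.cast_nonneg _)
        exact mul_le_mul_of_nonneg_left h3 hqr.le

/-- the length of the region -/
noncomputable def TT (X H x h : ℕ) : ℝ :=
  h + (H / x + 2 * (h * ((2 * (X + H : ℕ) + 2) / (x : ℝ) ^ 2)) + 2)

/-- the variation -/
noncomputable def Vv (X H x h : ℕ) : ℝ := h * ((2 * (X + H : ℕ) + 2) / (x : ℝ) ^ 2)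

/-- the error of the second type -/
noncomputable def E2 (C ε : ℝ) (X H x h N : ℕ) : ℝ :=
  (2 * x / h + 1) * (C * ((x * (N * N) : ℕ) : ℝ) ^ ε * (Real.sqrt x * N) +
    C * ((x * (N * N) : ℕ) : ℝ) ^ ε / Real.sqrt x * TT X H x h)

theorem Er_le (C ε : ℝ) (hC : 0 ≤ C) (hε : 0 < ε) (X H x h N q : ℕ) (hx : 1 ≤ x) (hh : 1 ≤ h)
    (hq : 1 ≤ q) (hqN : q ≤ N * N) :
    Er C ε X H (x : ℤ) h (x * q) ≤ (4 * Vv X H x h + 4) / q + E2 C ε X H x h N := by
  have hxr : (0 : ℝ) < x := by exact_mod_cast hx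
  have hqr : (0 : ℝ) < q := by exact_mod_cast hq
  have hhr : (0 : ℝ) < h := by exact_mod_cast hh
  unfold Er E2
  have hV : (h : ℝ) * ((2 * (X + H : ℕ) + 2) / (((x : ℤ) : ℝ)) ^ 2) = Vv X H x h := by
    unfold Vv
    push_cast
    rfl
  have hT : (h : ℝ) + ((H : ℝ) / ((x : ℤ) : ℝ) + 2 * Vv X H x h + 2) = TT X H x h := by
    unfold TT Vv
    push_cast
    rfl
  have hV0 : 0 ≤ Vv X H x h := by unfold Vv; positivity
  have hT0 : 0 ≤ TT X H x h := by rw [← hT]; positivity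
  rw [hV, hT]
  have hxx : ((x : ℤ) : ℝ) = x := by push_cast; rfl
  rw [hxx]
  have hQ : (0 : ℝ) < ((x * q : ℕ) : ℝ) := by push_cast; positivity
  have hQle : ((x * q : ℕ) : ℝ) ≤ ((x * (N * N) : ℕ) : ℝ) := by
    exact_mod_cast Nat.mul_le_mul_left x hqN
  have hpow : ((x * q : ℕ) : ℝ) ^ ε ≤ ((x * (N * N) : ℕ) : ℝ) ^ ε :=
    Real.rpow_le_rpow hQ.le hQle hε.le
  apply add_le_add
  · have h1 : ((x * q).totient : ℝ) / ((x * q : ℕ) : ℝ) ^ 2 ≤ 1 / ((x * q : ℕ) : ℝ) := by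
      rw [div_le_div_iff₀ (by positivity) hQ]
      have h2 : ((x * q).totient : ℝ) ≤ ((x * q : ℕ) : ℝ) := by exact_mod_cast Nat.totient_le _
      nlinarith
    calc 2 * (x : ℝ) * (2 * Vv X H x h + 2) * (((x * q).totient : ℝ) / ((x * q : ℕ) : ℝ) ^ 2) ≤
        2 * (x : ℝ) * (2 * Vv X H x h + 2) * (1 / ((x * q : ℕ) : ℝ)) :=
          mul_le_mul_of_nonneg_left h1 (by positivity)
      _ = _ := by
          push_cast
          field_simp
          ring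
  · apply mul_le_mul_of_nonneg_left _ (by positivity)
    apply add_le_add
    · apply mul_le_mul
      · exact mul_le_mul_of_nonneg_left hpow hC
      · have h1 : Real.sqrt ((x * q : ℕ) : ℝ) ≤ Real.sqrt (x * ((N : ℝ) * N)) := by
          apply Real.sqrt_le_sqrt
          push_cast at hQle ⊢
          exact hQle
        rw [Real.sqrt_mul hxr.le, Real.sqrt_mul_self (Nat.cast_nonneg N)] at h1
        exact h1
      · exact Real.sqrt_nonneg _
      · positivity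
    · apply mul_le_mul_of_nonneg_right _ hT0
      apply div_le_div₀
      · positivity
      · exact mul_le_mul_of_nonneg_left hpow hC
      · exact Real.sqrt_pos.2 hxr
      · apply Real.sqrt_le_sqrt
        push_cast
        have : (1 : ℝ) ≤ q := by exact_mod_cast hq
        nlinarith

/-- the count for coprime `n₁, n₂` -/
theorem CC_asym (kl : S_KL) (ε : ℝ) (hε : 0 < ε) : ∃ C : ℝ, 1 ≤ C ∧ ∀ (X H x h N : ℕ) (l : ℤ),
    1 ≤ x → 1 ≤ h → ∀ (n1 n2 : ℕ), 1 ≤ n1 → 1 ≤ n2 → n1 ≤ N → n2 ≤ N → Nat.Coprime n1 n2 →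
    |(CC X H x l n1 n2 : ℝ) - gd n1 * gd n2 * (AA X H x l h / (x : ℝ) ^ 2) *
        (((x * (n1 * n2)).totient : ℝ) / ((n1 * n2 : ℕ) : ℝ))| ≤
      gd n1 * gd n2 * (4 * Vv X H x h + 4) +
        ((Rt n1).card : ℝ) * (Rt n2).card * E2 C ε X H x h N := by
  obtain ⟨C, hC, hc⟩ := HC_asym kl ε hε
  refine ⟨C, hC, ?_⟩
  intro X H x h N l hx hh n1 n2 hn1 hn2 hN1 hN2 h12
  have hxr : (0 : ℝ) < x := by exact_mod_cast hx
  have hn1r : (0 : ℝ) < n1 := by exact_mod_cast hn1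
  have hn2r : (0 : ℝ) < n2 := by exact_mod_cast hn2
  have hq : 1 ≤ n1 * n2 := Nat.mul_pos hn1 hn2
  have h1 := CC_eq X H x l (by exact_mod_cast hx) n1 n2 hn1 hn2 h12
  have hEr := Er_le C ε (by linarith) hε X H x h N (n1 * n2) hx hh hq (Nat.mul_le_mul hN1 hN2)
  have hcast : ((x : ℤ) * ((n1 * n2 : ℕ) : ℤ)) = ((x * (n1 * n2) : ℕ) : ℤ) := by push_cast; ring
  rw [h1]
  push_cast
  have h2 : ∀ i1 i2 : ℕ, |(HC X H x l ((x : ℤ) * ((n1 * n2 : ℕ) : ℤ)) ((x : ℤ) * JJ n1 n2 i1 i2)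
      ((x : ℤ) * JJ n1 n2 0 l) : ℝ) - AA X H x l h * (((x * (n1 * n2)).totient : ℝ) /
        ((x * (n1 * n2) : ℕ) : ℝ) ^ 2)| ≤ (4 * Vv X H x h + 4) / ((n1 * n2 : ℕ) : ℝ) +
        E2 C ε X H x h N := by
    intro i1 i2
    rw [hcast]
    refine le_trans ?_ hEr
    exact hc X H x l h (by exact_mod_cast hx) hh (x * (n1 * n2)) _ _ (by
      exact Nat.mul_pos hx hq)
  have h3 : gd n1 * gd n2 * (AA X H x l h / (x : ℝ) ^ 2) *
        (((x * (n1 * n2)).totient : ℝ) / ((n1 * n2 : ℕ) : ℝ)) =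
      ∑ i1 ∈ Rt n1, ∑ i2 ∈ Rt n2, AA X H x l h * (((x * (n1 * n2)).totient : ℝ) /
        ((x * (n1 * n2) : ℕ) : ℝ) ^ 2) := by
    rw [sum_const, sum_const, nsmul_eq_mul, nsmul_eq_mul]
    unfold gd
    push_cast
    field_simp
  have h4 : gd n1 * gd n2 * (4 * Vv X H x h + 4) +
        ((Rt n1).card : ℝ) * (Rt n2).card * E2 C ε X H x h N =
      ∑ i1 ∈ Rt n1, ∑ i2 ∈ Rt n2, ((4 * Vv X H x h + 4) / ((n1 * n2 : ℕ) : ℝ) +
        E2 C ε X H x h N) := by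
    rw [sum_const, sum_const, nsmul_eq_mul, nsmul_eq_mul]
    unfold gd
    push_cast
    field_simp
  push_cast at h2 h3 h4
  rw [h3, h4, ← sum_sub_distrib]
  refine (abs_sum_le_sum_abs _ _).trans (sum_le_sum fun i1 _ => ?_)
  rw [← sum_sub_distrib]
  exact (abs_sum_le_sum_abs _ _).trans (sum_le_sum fun i2 _ => h2 i1 i2)

/-- the combination -/
noncomputable def D4 (X H : ℕ) (x l : ℤ) (n1 n2 : ℕ) : ℝ :=
  CC X H x l n1 n2 - gd n2 * CC X H x l n1 1 - gd n1 * CC X H x l 1 n2 +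
    gd n1 * gd n2 * CC X H x l 1 1

theorem D4_bound (kl : S_KL) (ε : ℝ) (hε : 0 < ε) : ∃ C : ℝ, 1 ≤ C ∧ ∀ (X H x h N : ℕ) (l : ℤ),
    1 ≤ x → 1 ≤ h → ∀ (s : ℝ) (n1 n2 : ℕ), 1 ≤ n1 → 1 ≤ n2 → n1 ≤ N → n2 ≤ N → Nat.Coprime n1 n2 →
    ∑ p ∈ n1.primeFactors, (p : ℝ)⁻¹ ≤ s → ∑ p ∈ n2.primeFactors, (p : ℝ)⁻¹ ≤ s →
    |D4 X H x l n1 n2| ≤ gd n1 * gd n2 * (16 * Vv X H x h + 16 + 8 * s * H / x) +
      4 * (((Rt n1).card : ℝ) * (Rt n2).card * E2 C ε X H x h N) := by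
  obtain ⟨C, hC, hc⟩ := CC_asym kl ε hε
  refine ⟨C, hC, ?_⟩
  intro X H x h N l hx hh s n1 n2 hn1 hn2 hN1 hN2 h12 hs1 hs2
  have hxr : (0 : ℝ) < x := by exact_mod_cast hx
  have hx0 : (0 : ℤ) < x := by exact_mod_cast hx
  have hhr : (0 : ℝ) < h := by exact_mod_cast hh
  have hN : 1 ≤ N := hn1.trans hN1
  have a1 := hc X H x h N l hx hh n1 n2 hn1 hn2 hN1 hN2 h12
  have a2 := hc X H x h N l hx hh n1 1 hn1 le_rfl hN1 hN (Nat.coprime_one_right _)
  have a3 := hc X H x h N l hx hh 1 n2 le_rfl hn2 hN hN2 (Nat.coprime_one_left _)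
  have a4 := hc X H x h N l hx hh 1 1 le_rfl le_rfl hN hN (Nat.coprime_one_left _)
  have hg1 := gd_nonneg n1
  have hg2 := gd_nonneg n2
  have hgl1 := gd_le n1 hn1
  have hgl2 := gd_le n2 hn2
  have hR1 : ((Rt 1).card : ℝ) = 1 := by rw [Rt_one]; simp
  rw [gd_one, mul_one, mul_one, hR1, mul_one] at a2
  rw [gd_one, one_mul, one_mul, hR1, one_mul] at a3
  rw [gd_one, hR1] at a4
  simp only [one_mul, mul_one] at a4
  set A := AA X H x l h / (x : ℝ) ^ 2 with hA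
  set V4 := 4 * Vv X H x h + 4 with hV4
  set E := E2 C ε X H x h N with hE
  have hA0 : 0 ≤ A := by
    rw [hA]
    have := AA_nonneg X H x l h
    positivity
  have hA2 : A ≤ 2 * H / (x : ℝ) ^ 2 := by
    rw [hA]
    apply div_le_div_of_nonneg_right _ (by positivity)
    exact AA_le X H x l hx0 h hh
  have hV40 : 0 ≤ V4 := by rw [hV4]; unfold Vv; positivity
  have hE0 : 0 ≤ E := by
    rw [hE]
    unfold E2 TT
    have : 0 ≤ C := by linarith
    positivity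
  set P0 : ℝ := (x.totient : ℝ) with hP0
  set P1 : ℝ := ((x * n1).totient : ℝ) / (n1 : ℝ) with hP1
  set P2 : ℝ := ((x * n2).totient : ℝ) / (n2 : ℝ) with hP2
  set P3 : ℝ := ((x * (n1 * n2)).totient : ℝ) / ((n1 * n2 : ℕ) : ℝ) with hP3
  have hP0n : 0 ≤ P0 := by rw [hP0]; positivity
  have hs12 : ∑ p ∈ (n1 * n2).primeFactors, (p : ℝ)⁻¹ ≤ 2 * s := by
    rw [Nat.primeFactors_mul (by omega) (by omega)]
    refine (sum_le_sum_of_subset_of_nonneg (Finset.Subset.refl _) (fun _ _ _ => by positivity)).trans ?_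
    have h5 : ∑ p ∈ n1.primeFactors ∪ n2.primeFactors, (p : ℝ)⁻¹ ≤
        ∑ p ∈ n1.primeFactors, (p : ℝ)⁻¹ + ∑ p ∈ n2.primeFactors, (p : ℝ)⁻¹ := by
      rw [← sum_union_inter]
      have : 0 ≤ ∑ p ∈ n1.primeFactors ∩ n2.primeFactors, (p : ℝ)⁻¹ :=
        sum_nonneg fun p _ => by positivity
      linarith
    linarith
  have u1 := tot_up x n1 hx hn1
  have u2 := tot_up x n2 hx hn2
  have u3 := tot_up x (n1 * n2) hx (Nat.mul_pos hn1 hn2)
  have l1 := tot_low x n1 hn1 s hs1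
  have l2 := tot_low x n2 hn2 s hs2
  have l3 := tot_low x (n1 * n2) (Nat.mul_pos hn1 hn2) (2 * s) hs12
  have hs0 : 0 ≤ s := le_trans (sum_nonneg fun p _ => by positivity) hs1
  rw [← hP0] at u1 u2 u3 l1 l2 l3
  rw [← hP1] at u1 l1
  rw [← hP2] at u2 l2
  rw [← hP3] at u3 l3
  have hmain : |P3 - P1 - P2 + P0| ≤ 4 * s * P0 := by
    have : 0 ≤ s * P0 := by positivity
    rw [abs_le]
    constructor <;> nlinarith
  have hP0x : P0 ≤ x := by rw [hP0]; exact_mod_cast Nat.totient_le x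
  have hid : D4 X H x l n1 n2 = gd n1 * gd n2 * A * (P3 - P1 - P2 + P0) +
      ((CC X H x l n1 n2 : ℝ) - gd n1 * gd n2 * A * P3) -
      gd n2 * ((CC X H x l n1 1 : ℝ) - gd n1 * A * P1) -
      gd n1 * ((CC X H x l 1 n2 : ℝ) - gd n2 * A * P2) +
      gd n1 * gd n2 * ((CC X H x l 1 1 : ℝ) - A * P0) := by
    unfold D4
    ring
  have b0 : |gd n1 * gd n2 * A * (P3 - P1 - P2 + P0)| ≤ gd n1 * gd n2 * (8 * s * H / x) := by
    rw [abs_mul, abs_of_nonneg (by positivity)]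
    calc gd n1 * gd n2 * A * |P3 - P1 - P2 + P0| ≤ gd n1 * gd n2 * (2 * H / (x : ℝ) ^ 2) * (4 * s * x) := by
          apply mul_le_mul
          · exact mul_le_mul_of_nonneg_left hA2 (by positivity)
          · refine hmain.trans ?_
            exact mul_le_mul_of_nonneg_left hP0x (by positivity)
          · exact abs_nonneg _
          · positivity
      _ = _ := by field_simp; ring
  have b1 : |(CC X H x l n1 n2 : ℝ) - gd n1 * gd n2 * A * P3| ≤ gd n1 * gd n2 * V4 +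
      ((Rt n1).card : ℝ) * (Rt n2).card * E := a1
  have b2 : |gd n2 * ((CC X H x l n1 1 : ℝ) - gd n1 * A * P1)| ≤ gd n1 * gd n2 * V4 +
      ((Rt n1).card : ℝ) * (Rt n2).card * E := by
    rw [abs_mul, abs_of_nonneg hg2]
    calc gd n2 * |(CC X H x l n1 1 : ℝ) - gd n1 * A * P1| ≤ gd n2 * (gd n1 * V4 + (Rt n1).card * E) :=
          mul_le_mul_of_nonneg_left a2 hg2
      _ = gd n1 * gd n2 * V4 + (Rt n1).card * gd n2 * E := by ring
      _ ≤ _ := by
          have : ((Rt n1).card : ℝ) * gd n2 * E ≤ ((Rt n1).card : ℝ) * (Rt n2).card * E :=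
            mul_le_mul_of_nonneg_right (mul_le_mul_of_nonneg_left hgl2 (Nat.cast_nonneg _)) hE0
          linarith
  have b3 : |gd n1 * ((CC X H x l 1 n2 : ℝ) - gd n2 * A * P2)| ≤ gd n1 * gd n2 * V4 +
      ((Rt n1).card : ℝ) * (Rt n2).card * E := by
    rw [abs_mul, abs_of_nonneg hg1]
    calc gd n1 * |(CC X H x l 1 n2 : ℝ) - gd n2 * A * P2| ≤ gd n1 * (gd n2 * V4 + (Rt n2).card * E) :=
          mul_le_mul_of_nonneg_left a3 hg1
      _ = gd n1 * gd n2 * V4 + gd n1 * (Rt n2).card * E := by ring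
      _ ≤ _ := by
          have : gd n1 * ((Rt n2).card : ℝ) * E ≤ ((Rt n1).card : ℝ) * (Rt n2).card * E :=
            mul_le_mul_of_nonneg_right (mul_le_mul_of_nonneg_right hgl1 (Nat.cast_nonneg _)) hE0
          linarith
  have b4 : |gd n1 * gd n2 * ((CC X H x l 1 1 : ℝ) - A * P0)| ≤ gd n1 * gd n2 * V4 +
      ((Rt n1).card : ℝ) * (Rt n2).card * E := by
    rw [abs_mul, abs_of_nonneg (by positivity)]
    have a4' : |(CC X H x l 1 1 : ℝ) - A * P0| ≤ V4 + E := by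
      convert a4 using 3
      push_cast
      rw [div_one]
    calc gd n1 * gd n2 * |(CC X H x l 1 1 : ℝ) - A * P0| ≤ gd n1 * gd n2 * (V4 + E) :=
          mul_le_mul_of_nonneg_left a4' (by positivity)
      _ = gd n1 * gd n2 * V4 + gd n1 * gd n2 * E := by ring
      _ ≤ _ := by
          have : gd n1 * gd n2 * E ≤ ((Rt n1).card : ℝ) * (Rt n2).card * E :=
            mul_le_mul_of_nonneg_right (mul_le_mul hgl1 hgl2 hg2 (Nat.cast_nonneg _)) hE0
          linarith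
  rw [hid]
  have hfin : gd n1 * gd n2 * (16 * Vv X H x h + 16 + 8 * s * H / x) +
      4 * (((Rt n1).card : ℝ) * (Rt n2).card * E) = gd n1 * gd n2 * (8 * s * H / x) +
      4 * (gd n1 * gd n2 * V4 + ((Rt n1).card : ℝ) * (Rt n2).card * E) := by
    rw [hV4]; ring
  rw [hfin]
  rw [abs_le] at b0 b1 b2 b3 b4 ⊢
  constructor <;> linarith [b0.1, b1.1, b2.1, b3.1, b4.1, b0.2, b1.2, b2.2, b3.2, b4.2]

end Pool.Agent.H543.DD
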