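import Pool.Agent.H543.DD.Rep

/-!
# The key identity: divisors of the cofactor and modular hyperbolas
-/

set_option autoImplicit false

namespace Pool.Agent.H543.DD

open Finset

/-- the roots of `-1` modulo `n` -/
def Rt (n : ℕ) : Finset ℕ := (range n).filter (fun i => (n : ℤ) ∣ (i : ℤ) ^ 2 + 1)

theorem key_card (n : ℕ) (hn : 1 ≤ n) (x y u v : ℤ) (h : x * v + y * u = 1) :
    ((Rt n).filter (fun i : ℕ => (n : ℤ) ∣ (i : ℤ) * u - v)).card =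
      if (n : ℤ) ∣ u ^ 2 + v ^ 2 then 1 else 0 := by
  classical
  split_ifs with hd
  · obtain ⟨t, ht⟩ := hd
    set c : ℤ := -x ^ 2 * u + 2 * x * y * v + y ^ 2 * u with hc
    have hcu : u * c + n * (x ^ 2 * t) = 1 := by
      have h1 : (1 : ℤ) = (x * v + y * u) ^ 2 := by rw [h]; ring
      have h2 : (n : ℤ) * (x ^ 2 * t) = x ^ 2 * (u ^ 2 + v ^ 2) := by rw [ht]; ring
      rw [h2, h1, hc]
      ring
    have hcop : IsCoprime (n : ℤ) u := ⟨x ^ 2 * t, c, by linear_combination hcu⟩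
    have hn0 : (0 : ℤ) < n := by exact_mod_cast hn
    obtain ⟨i, hi⟩ : ∃ i : ℕ, (i : ℤ) = (c * v) % n :=
      ⟨((c * v) % n).toNat, Int.toNat_of_nonneg (Int.emod_nonneg _ hn0.ne')⟩
    obtain ⟨q, hq⟩ : ∃ q : ℤ, (i : ℤ) = c * v - n * q := ⟨c * v / n, by rw [hi, Int.emod_def]⟩
    have hin : i < n := by
      have := Int.emod_lt_of_pos (c * v) hn0
      rw [← hi] at this
      exact_mod_cast this
    have hiu : (n : ℤ) ∣ (i : ℤ) * u - v := by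
      refine ⟨-(x ^ 2 * t) * v - q * u, ?_⟩
      rw [hq]
      linear_combination v * hcu
    have hi1 : (n : ℤ) ∣ (i : ℤ) ^ 2 + 1 := by
      apply (hcop.pow_right (n := 2)).dvd_of_dvd_mul_left
      obtain ⟨s, hs⟩ := hiu
      refine ⟨s * (i * u + v) + t, ?_⟩
      have h3 : u ^ 2 * ((i : ℤ) ^ 2 + 1) = ((i : ℤ) * u - v) * (i * u + v) + (u ^ 2 + v ^ 2) := by
        ring
      rw [h3, hs, ht]
      ring
    rw [card_eq_one]
    refine ⟨i, ?_⟩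
    ext i'
    rw [mem_filter, mem_singleton, Rt, mem_filter, mem_range]
    constructor
    · rintro ⟨⟨h1, _⟩, h2⟩
      have h3 : (n : ℤ) ∣ u * ((i' : ℤ) - i) := by
        have h4 : u * ((i' : ℤ) - i) = ((i' : ℤ) * u - v) - ((i : ℤ) * u - v) := by ring
        rw [h4]
        exact dvd_sub h2 hiu
      have h4 := hcop.dvd_of_dvd_mul_left h3
      have h5 : (i' : ℤ) - i = 0 := by
        apply Int.eq_zero_of_abs_lt_dvd h4
        rw [abs_lt]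
        constructor <;> omega
      omega
    · rintro rfl
      exact ⟨⟨hin, hi1⟩, hiu⟩
  · rw [card_eq_zero, filter_eq_empty_iff]
    intro i hi h2
    apply hd
    rw [Rt, mem_filter] at hi
    obtain ⟨s, hs⟩ := h2
    obtain ⟨r, hr⟩ := hi.2
    refine ⟨u ^ 2 * r - s * (i * u + v), ?_⟩
    have h3 : u ^ 2 + v ^ 2 = u ^ 2 * ((i : ℤ) ^ 2 + 1) - ((i : ℤ) * u - v) * (i * u + v) := by
      ring
    rw [h3, hs, hr]
    ring

/-- simultaneous residues -/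
def JJ (n1 n2 : ℕ) (a b : ℤ) : ℤ := a * (n2 * Nat.gcdB n1 n2) + b * (n1 * Nat.gcdA n1 n2)

theorem JJ_one (n1 n2 : ℕ) (h : Nat.Coprime n1 n2) (a b : ℤ) : (n1 : ℤ) ∣ JJ n1 n2 a b - a := by
  have h1 := Nat.gcd_eq_gcd_ab n1 n2
  rw [h] at h1
  refine ⟨(b - a) * Nat.gcdA n1 n2, ?_⟩
  unfold JJ
  push_cast at h1
  linear_combination -a * h1

theorem JJ_two (n1 n2 : ℕ) (h : Nat.Coprime n1 n2) (a b : ℤ) : (n2 : ℤ) ∣ JJ n1 n2 a b - b := by
  have h1 := Nat.gcd_eq_gcd_ab n1 n2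
  rw [h] at h1
  refine ⟨(a - b) * Nat.gcdB n1 n2, ?_⟩
  unfold JJ
  push_cast at h1
  linear_combination -b * h1

/-- the condition modulo `x n₁ n₂` -/
theorem hyp_iff (x y u l : ℤ) (hx : 0 < x) (n1 n2 : ℕ) (h12 : Nat.Coprime n1 n2) (i1 i2 : ℤ) :
    (x * (n1 * n2 : ℕ) ∣ (y + x * JJ n1 n2 i1 i2) * (u + x * JJ n1 n2 0 l) - 1) ↔
      (x ∣ y * u - 1 ∧ (n1 : ℤ) ∣ i1 * u - (1 - y * u) / x ∧
        (n2 : ℤ) ∣ i2 * (u + x * l) - (1 - y * (u + x * l)) / x) := by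
  set j := JJ n1 n2 i1 i2 with hj
  set j' := JJ n1 n2 0 l with hj'
  by_cases h0 : x ∣ y * u - 1
  · obtain ⟨v, hv⟩ : x ∣ 1 - y * u := by
      rw [show 1 - y * u = -(y * u - 1) by ring]
      exact h0.neg_right
    have e1 : (1 - y * u) / x = v := Int.ediv_eq_of_eq_mul_right hx.ne' hv
    have e2 : (1 - y * (u + x * l)) / x = v - y * l := by
      apply Int.ediv_eq_of_eq_mul_right hx.ne'
      linear_combination hv
    rw [e1, e2]
    have e3 : (y + x * j) * (u + x * j') - 1 = x * (j * (u + x * j') - (v - y * j')) := by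
      linear_combination -hv
    rw [e3, Int.mul_dvd_mul_iff_left hx.ne']
    have e4 : (((n1 * n2 : ℕ) : ℤ) ∣ j * (u + x * j') - (v - y * j')) ↔
        ((n1 : ℤ) ∣ j * (u + x * j') - (v - y * j')) ∧
          ((n2 : ℤ) ∣ j * (u + x * j') - (v - y * j')) := by
      constructor
      · intro h
        push_cast at h
        exact ⟨(dvd_mul_right _ _).trans h, (dvd_mul_left _ _).trans h⟩
      · rintro ⟨h1, h2⟩
        push_cast
        exact IsCoprime.mul_dvd (Nat.isCoprime_iff_coprime.2 h12) h1 h2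
    have e5 : ((n1 : ℤ) ∣ j * (u + x * j') - (v - y * j')) ↔ (n1 : ℤ) ∣ i1 * u - v := by
      obtain ⟨s, hs⟩ := JJ_one n1 n2 h12 i1 i2
      obtain ⟨s', hs'⟩ := JJ_one n1 n2 h12 0 l
      have e6 : j * (u + x * j') - (v - y * j') =
          (i1 * u - v) + n1 * (s * u + j * x * s' + y * s') := by
        rw [← hj] at hs
        rw [← hj'] at hs'
        linear_combination u * hs + (j * x + y) * hs'
      rw [e6]
      exact dvd_add_left (dvd_mul_right _ _)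
    have e6 : ((n2 : ℤ) ∣ j * (u + x * j') - (v - y * j')) ↔
        (n2 : ℤ) ∣ i2 * (u + x * l) - (v - y * l) := by
      obtain ⟨s, hs⟩ := JJ_two n1 n2 h12 i1 i2
      obtain ⟨s', hs'⟩ := JJ_two n1 n2 h12 0 l
      have e6 : j * (u + x * j') - (v - y * j') =
          (i2 * (u + x * l) - (v - y * l)) + n2 * (s * (u + x * l) + j * x * s' + y * s') := by
        rw [← hj] at hs
        rw [← hj'] at hs'
        linear_combination (u + x * l) * hs + (j * x + y) * hs'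
      rw [e6]
      exact dvd_add_left (dvd_mul_right _ _)
    rw [e4, e5, e6]
    exact ⟨fun h => ⟨h0, h⟩, fun h => h.2⟩
  · constructor
    · intro h
      exfalso
      apply h0
      have h1 : x ∣ (y + x * j) * (u + x * j') - 1 := (dvd_mul_right _ _).trans h
      have h2 : y * u - 1 = ((y + x * j) * (u + x * j') - 1) - x * (j * u + y * j' + x * j * j') := by
        ring
      rw [h2]
      exact dvd_sub h1 (dvd_mul_right _ _)
    · intro h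
      exact absurd h.1 h0

/-- number of `ι₁, ι₂` with the condition modulo `x n₁ n₂` -/
theorem hyp_count (x y u l : ℤ) (hx : 0 < x) (n1 n2 : ℕ) (hn1 : 1 ≤ n1) (hn2 : 1 ≤ n2)
    (h12 : Nat.Coprime n1 n2) :
    ∑ i1 ∈ Rt n1, ∑ i2 ∈ Rt n2,
      (if x * (n1 * n2 : ℕ) ∣ (y + x * JJ n1 n2 i1 i2) * (u + x * JJ n1 n2 0 l) - 1 then (1 : ℕ) else 0) =
      if x ∣ y * u - 1 ∧ (n1 : ℤ) ∣ ww x y u ∧ (n2 : ℤ) ∣ ww x y (u + x * l) then 1 else 0 := by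
  classical
  have h1 : ∀ i1 i2 : ℤ, (if x * (n1 * n2 : ℕ) ∣
      (y + x * JJ n1 n2 i1 i2) * (u + x * JJ n1 n2 0 l) - 1 then (1 : ℕ) else 0) =
      if x ∣ y * u - 1 then ((if (n1 : ℤ) ∣ i1 * u - (1 - y * u) / x then 1 else 0) *
        (if (n2 : ℤ) ∣ i2 * (u + x * l) - (1 - y * (u + x * l)) / x then 1 else 0)) else 0 := by
    intro i1 i2
    rw [if_congr (hyp_iff x y u l hx n1 n2 h12 i1 i2) rfl rfl]
    by_cases a1 : x ∣ y * u - 1
    · by_cases a2 : (n1 : ℤ) ∣ i1 * u - (1 - y * u) / x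
      · by_cases a3 : (n2 : ℤ) ∣ i2 * (u + x * l) - (1 - y * (u + x * l)) / x
        · rw [if_pos ⟨a1, a2, a3⟩, if_pos a1, if_pos a2, if_pos a3]
        · rw [if_neg (fun h => a3 h.2.2), if_pos a1, if_neg a3, mul_zero]
      · rw [if_neg (fun h => a2 h.2.1), if_pos a1, if_neg a2, zero_mul]
    · rw [if_neg (fun h => a1 h.1), if_neg a1]
  by_cases h0 : x ∣ y * u - 1
  · have h2 : ∑ i1 ∈ Rt n1, ∑ i2 ∈ Rt n2,
      (if x * (n1 * n2 : ℕ) ∣ (y + x * JJ n1 n2 i1 i2) * (u + x * JJ n1 n2 0 l) - 1 then (1 : ℕ) else 0) =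
      (∑ i1 ∈ Rt n1, if (n1 : ℤ) ∣ (i1 : ℤ) * u - (1 - y * u) / x then 1 else 0) *
      (∑ i2 ∈ Rt n2, if (n2 : ℤ) ∣ (i2 : ℤ) * (u + x * l) - (1 - y * (u + x * l)) / x then 1 else 0) := by
      rw [sum_mul_sum]
      apply sum_congr rfl
      intro i1 _
      apply sum_congr rfl
      intro i2 _
      rw [h1, if_pos h0]
    have h3 : x * ((1 - y * u) / x) + y * u = 1 := vv_eq x y u h0
    have h0' : x ∣ y * (u + x * l) - 1 := by
      have : y * (u + x * l) - 1 = (y * u - 1) + x * (y * l) := by ring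
      rw [this]
      exact dvd_add h0 (dvd_mul_right _ _)
    have h4 : x * ((1 - y * (u + x * l)) / x) + y * (u + x * l) = 1 := vv_eq x y (u + x * l) h0'
    have h5 := key_card n1 hn1 x y u _ h3
    have h6 := key_card n2 hn2 x y (u + x * l) _ h4
    rw [card_filter] at h5 h6
    rw [h2, h5, h6]
    unfold ww
    by_cases a2 : (n1 : ℤ) ∣ u ^ 2 + ((1 - y * u) / x) ^ 2
    · by_cases a3 : (n2 : ℤ) ∣ (u + x * l) ^ 2 + ((1 - y * (u + x * l)) / x) ^ 2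
      · rw [if_pos a2, if_pos a3, if_pos ⟨h0, a2, a3⟩]
      · rw [if_neg a3, mul_zero, if_neg (fun h => a3 h.2.2)]
    · rw [if_neg a2, zero_mul, if_neg (fun h => a2 h.2.1)]
  · rw [if_neg (fun h => h0 h.1)]
    apply sum_eq_zero
    intro i1 _
    apply sum_eq_zero
    intro i2 _
    rw [h1, if_neg h0]

/-- lower end with shift -/
noncomputable def lo1 (X : ℕ) (x l y : ℤ) : ℝ := lo X x y + x * (max (-l) 0 : ℤ)

/-- upper end with shift -/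
noncomputable def hi1 (X H : ℕ) (x l y : ℤ) : ℝ := lo (X + H) x y - x * (max l 0 : ℤ)

/-- the count for the shift `l` -/
noncomputable def CC (X H : ℕ) (x l : ℤ) (n1 n2 : ℕ) : ℕ :=
  ∑ y ∈ Ioo (-x) x, ((US X H x y).filter (fun u => u + x * l ∈ US X H x y ∧
    (n1 : ℤ) ∣ ww x y u ∧ (n2 : ℤ) ∣ ww x y (u + x * l))).card

/-- points on a modular hyperbola -/
noncomputable def HC (X H : ℕ) (x l : ℤ) (Q s t : ℤ) : ℕ :=
  ∑ y ∈ Ioo (-x) x, ((Ioc ⌊lo1 X x l y⌋ ⌊hi1 X H x l y⌋).filter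
    (fun u => Q ∣ (y + s) * (u + t) - 1)).card

theorem CC_eq (X H : ℕ) (x l : ℤ) (hx : 0 < x) (n1 n2 : ℕ) (hn1 : 1 ≤ n1) (hn2 : 1 ≤ n2)
    (h12 : Nat.Coprime n1 n2) : CC X H x l n1 n2 = ∑ i1 ∈ Rt n1, ∑ i2 ∈ Rt n2,
      HC X H x l (x * (n1 * n2 : ℕ)) (x * JJ n1 n2 i1 i2) (x * JJ n1 n2 0 l) := by
  classical
  unfold CC HC
  have h1 : ∀ y ∈ Ioo (-x) x, ((US X H x y).filter (fun u => u + x * l ∈ US X H x y ∧
    (n1 : ℤ) ∣ ww x y u ∧ (n2 : ℤ) ∣ ww x y (u + x * l))).card =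
      ∑ u ∈ Ioc ⌊lo1 X x l y⌋ ⌊hi1 X H x l y⌋,
      (if x ∣ y * u - 1 ∧ (n1 : ℤ) ∣ ww x y u ∧ (n2 : ℤ) ∣ ww x y (u + x * l) then 1 else 0) := by
    intro y _
    rw [← card_filter]
    congr 1
    ext u
    unfold US lo1 hi1
    simp only [mem_filter, mem_Ioc]
    have hxl : (0 : ℝ) < x := by exact_mod_cast hx
    have hdv : (x ∣ y * (u + x * l) - 1) ↔ (x ∣ y * u - 1) := by
      have : y * (u + x * l) - 1 = (y * u - 1) + x * (y * l) := by ring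
      rw [this]
      exact dvd_add_left (dvd_mul_right _ _)
    have e1 : ∀ (a : ℝ) (z : ℤ), ⌊a⌋ < z ↔ a < z := fun a z => Int.floor_lt
    have e2 : ∀ (a : ℝ) (z : ℤ), z ≤ ⌊a⌋ ↔ (z : ℝ) ≤ a := fun a z => Int.le_floor
    rw [hdv, e1, e1, e1, e2, e2, e2]
    push_cast
    rcases le_total 0 l with hl | hl
    · have e3 : max (-l) 0 = 0 := max_eq_right (by linarith)
      have e4 : max l 0 = l := max_eq_left hl
      have hl' : (0 : ℝ) ≤ l := by exact_mod_cast hl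
      have hxl' : 0 ≤ (x : ℝ) * l := by positivity
      have e3' : max (-(l : ℝ)) 0 = 0 := max_eq_right (by linarith)
      have e4' : max (l : ℝ) 0 = l := max_eq_left hl'
      simp only [e3', e4', mul_zero, add_zero]
      constructor
      · rintro ⟨⟨⟨h1, h2⟩, h3⟩, ⟨⟨h4, h5⟩, h6⟩, h7, h8⟩
        exact ⟨⟨h1, by linarith⟩, h3, h7, h8⟩
      · rintro ⟨⟨h1, h2⟩, h3, h7, h8⟩
        exact ⟨⟨⟨h1, by linarith⟩, h3⟩, ⟨⟨by linarith, by linarith⟩, h3⟩, h7, h8⟩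
    · have hl' : (l : ℝ) ≤ 0 := by exact_mod_cast hl
      have hxl' : (x : ℝ) * l ≤ 0 := mul_nonpos_of_nonneg_of_nonpos hxl.le hl'
      have e3' : max (-(l : ℝ)) 0 = -l := max_eq_left (by linarith)
      have e4' : max (l : ℝ) 0 = 0 := max_eq_right hl'
      simp only [e3', e4', mul_zero, sub_zero]
      constructor
      · rintro ⟨⟨⟨h1, h2⟩, h3⟩, ⟨⟨h4, h5⟩, h6⟩, h7, h8⟩
        exact ⟨⟨by linarith, by linarith⟩, h3, h7, h8⟩
      · rintro ⟨⟨h1, h2⟩, h3, h7, h8⟩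
        exact ⟨⟨⟨by linarith, by linarith⟩, h3⟩, ⟨⟨by linarith, by linarith⟩, h3⟩, h7, h8⟩
  rw [sum_congr rfl h1]
  have h2 : ∑ i1 ∈ Rt n1, ∑ i2 ∈ Rt n2, ∑ y ∈ Ioo (-x) x,
      ((Ioc ⌊lo1 X x l y⌋ ⌊hi1 X H x l y⌋).filter
        (fun u => x * (n1 * n2 : ℕ) ∣ (y + x * JJ n1 n2 i1 i2) * (u + x * JJ n1 n2 0 l) - 1)).card =
      ∑ y ∈ Ioo (-x) x, ∑ u ∈ Ioc ⌊lo1 X x l y⌋ ⌊hi1 X H x l y⌋, ∑ i1 ∈ Rt n1, ∑ i2 ∈ Rt n2,
      (if x * (n1 * n2 : ℕ) ∣ (y + x * JJ n1 n2 i1 i2) * (u + x * JJ n1 n2 0 l) - 1 then (1 : ℕ)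
        else 0) := by
    simp_rw [card_filter]
    calc ∑ i1 ∈ Rt n1, ∑ i2 ∈ Rt n2, ∑ y ∈ Ioo (-x) x, ∑ u ∈ Ioc ⌊lo1 X x l y⌋ ⌊hi1 X H x l y⌋,
          (if x * (n1 * n2 : ℕ) ∣ (y + x * JJ n1 n2 i1 i2) * (u + x * JJ n1 n2 0 l) - 1 then (1 : ℕ)
        else 0) = ∑ i1 ∈ Rt n1, ∑ y ∈ Ioo (-x) x, ∑ i2 ∈ Rt n2, ∑ u ∈ Ioc ⌊lo1 X x l y⌋ ⌊hi1 X H x l y⌋,
          (if x * (n1 * n2 : ℕ) ∣ (y + x * JJ n1 n2 i1 i2) * (u + x * JJ n1 n2 0 l) - 1 then (1 : ℕ)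
        else 0) := sum_congr rfl fun i1 _ => sum_comm
      _ = ∑ y ∈ Ioo (-x) x, ∑ i1 ∈ Rt n1, ∑ i2 ∈ Rt n2, ∑ u ∈ Ioc ⌊lo1 X x l y⌋ ⌊hi1 X H x l y⌋,
          (if x * (n1 * n2 : ℕ) ∣ (y + x * JJ n1 n2 i1 i2) * (u + x * JJ n1 n2 0 l) - 1 then (1 : ℕ)
        else 0) := sum_comm
      _ = ∑ y ∈ Ioo (-x) x, ∑ i1 ∈ Rt n1, ∑ u ∈ Ioc ⌊lo1 X x l y⌋ ⌊hi1 X H x l y⌋, ∑ i2 ∈ Rt n2,
          (if x * (n1 * n2 : ℕ) ∣ (y + x * JJ n1 n2 i1 i2) * (u + x * JJ n1 n2 0 l) - 1 then (1 : ℕ)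
        else 0) := sum_congr rfl fun y _ => sum_congr rfl fun i1 _ => sum_comm
      _ = _ := sum_congr rfl fun y _ => sum_comm
  rw [h2]
  apply sum_congr rfl
  intro y _
  apply sum_congr rfl
  intro u _
  exact (hyp_count x y u l hx n1 n2 hn1 hn2 h12).symm

end Pool.Agent.H543.DD
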