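import Mathlib

/-!
# The divisors of `k ^ 2 + 1`, `k` in an interval, and Gaussian integers
-/

set_option autoImplicit false

namespace Pool.Agent.H543.DD

open Finset

/-- existence of the Gaussian divisor -/
theorem exists_rep (k m : ℤ) (hm : 3 ≤ m) (hk : m ∣ k ^ 2 + 1) :
    ∃ x y : ℤ, 0 < x ∧ |y| < x ∧ x ^ 2 + y ^ 2 = m ∧ m ∣ k * x + y := by
  have hm0 : 0 < m := by linarith
  obtain ⟨D, hD⟩ : ∃ D : ℕ, (D : ℤ) = m := ⟨m.toNat, Int.toNat_of_nonneg (by linarith)⟩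
  have hD1 : 1 ≤ D := by omega
  have hs1 : 0 < Nat.sqrt D := Nat.sqrt_pos.2 hD1
  obtain ⟨j, q, hk0, hk1, hk2⟩ := Real.exists_int_int_abs_mul_sub_le ((k : ℝ) / m) hs1
  have hmr : (0 : ℝ) < m := by exact_mod_cast hm0
  have hDr : (D : ℝ) = m := by exact_mod_cast hD
  have hqm : q ^ 2 ≤ m := by
    have h1 : q ^ 2 ≤ ((Nat.sqrt D : ℕ) : ℤ) ^ 2 := pow_le_pow_left₀ hk0.le hk1 2
    have h2 : ((Nat.sqrt D : ℕ) : ℤ) ^ 2 ≤ (D : ℤ) := by exact_mod_cast Nat.sqrt_le' D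
    rw [hD] at h2
    exact h1.trans h2
  obtain ⟨r, hr⟩ : ∃ r : ℤ, r = j * m - k * q := ⟨_, rfl⟩
  have hrm : r ^ 2 < m := by
    have h1 : (D : ℝ) < ((Nat.sqrt D : ℕ) + 1 : ℝ) ^ 2 := by exact_mod_cast Nat.lt_succ_sqrt' D
    have hS : (0 : ℝ) < (Nat.sqrt D : ℕ) + 1 := by positivity
    have h2 : |(r : ℝ)| ≤ m / ((Nat.sqrt D : ℕ) + 1) := by
      have h3 : (r : ℝ) = -((q * ((k : ℝ) / m) - j) * m) := by
        rw [hr]
        push_cast
        field_simp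
        ring
      rw [h3, abs_neg, abs_mul, abs_of_pos hmr]
      calc |(q : ℝ) * ((k : ℝ) / m) - j| * m ≤ 1 / ((Nat.sqrt D : ℕ) + 1) * m := by gcongr
        _ = _ := by ring
    have h4 : ((r : ℝ)) ^ 2 < m := by
      rw [← sq_abs]
      calc |(r : ℝ)| ^ 2 ≤ (m / ((Nat.sqrt D : ℕ) + 1)) ^ 2 := by gcongr
        _ = m ^ 2 / ((Nat.sqrt D : ℕ) + 1 : ℝ) ^ 2 := by rw [div_pow]
        _ < m ^ 2 / D := by
            apply div_lt_div_of_pos_left (by positivity) (by rw [hDr]; exact hmr) h1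
        _ = m := by
            rw [hDr]
            field_simp
    exact_mod_cast h4
  have hdvd : m ∣ k * q + r := ⟨j, by rw [hr]; ring⟩
  have hdvd2 : m ∣ q ^ 2 + r ^ 2 := by
    have h1 : q ^ 2 + r ^ 2 = (k * q + r) * (r - k * q) + q ^ 2 * (k ^ 2 + 1) := by ring
    rw [h1]
    exact dvd_add (Dvd.dvd.mul_right hdvd _) (Dvd.dvd.mul_left hk _)
  have hq2 : 0 < q ^ 2 := by positivity
  have hsum : q ^ 2 + r ^ 2 = m := by
    obtain ⟨c, hc⟩ := hdvd2
    have h1 : 0 < m * c := by rw [← hc]; positivity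
    have h2 : m * c < m * 2 := by rw [← hc]; linarith
    have h3 : 0 < c := by
      by_contra hcon
      push Not at hcon
      nlinarith
    have h4 : c < 2 := lt_of_mul_lt_mul_left h2 hm0.le
    have h5 : c = 1 := by omega
    rw [hc, h5, mul_one]
  have hcop : IsCoprime q r := by
    obtain ⟨u, hu⟩ := hdvd
    obtain ⟨w, hw⟩ := hk
    have hcopk : IsCoprime m k := ⟨w, -k, by linear_combination -hw⟩
    have h1 : m ∣ k * (q - k * r) := by
      have h2 : k * (q - k * r) = (k * q + r) - r * (k ^ 2 + 1) := by ring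
      rw [h2, hu, hw]
      exact ⟨u - r * w, by ring⟩
    obtain ⟨v, hv⟩ := hcopk.dvd_of_dvd_mul_left h1
    refine ⟨v, u, ?_⟩
    have h3 : m * (v * q + u * r) = m * 1 := by
      have h4 : m * (v * q + u * r) = q * (m * v) + r * (m * u) := by ring
      rw [h4, ← hv, ← hu, ← hsum]
      ring
    exact mul_left_cancel₀ hm0.ne' h3
  rcases lt_trichotomy |r| q with h | h | h
  · exact ⟨q, r, hk0, h, hsum, hdvd⟩
  · exfalso
    have h1 : IsUnit q := by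
      rcases abs_choice r with h2 | h2
      · rw [h2] at h
        rw [h] at hcop
        exact isCoprime_self.1 hcop
      · rw [h2] at h
        rw [show r = -q by linarith] at hcop
        exact isCoprime_self.1 ((IsCoprime.neg_right_iff q q).1 hcop)
    rcases Int.isUnit_iff.1 h1 with h2 | h2
    · rw [h2] at h hsum
      have h3 : r ^ 2 = 1 := by rw [← sq_abs, h]; norm_num
      rw [h3] at hsum
      omega
    · omega
  · rcases le_or_gt 0 r with h0 | h0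
    · rw [abs_of_nonneg h0] at h
      refine ⟨r, -q, by linarith, by rw [abs_neg, abs_of_pos hk0]; exact h, by rw [← hsum]; ring, ?_⟩
      have h1 : k * r + -q = k * (k * q + r) - q * (k ^ 2 + 1) := by ring
      rw [h1]
      exact dvd_sub (Dvd.dvd.mul_left hdvd _) (Dvd.dvd.mul_left hk _)
    · rw [abs_of_neg h0] at h
      refine ⟨-r, q, by linarith, by rw [abs_of_pos hk0]; exact h, by rw [← hsum]; ring, ?_⟩
      have h1 : k * -r + q = -(k * (k * q + r)) + q * (k ^ 2 + 1) := by ring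
      rw [h1]
      exact dvd_add ((Dvd.dvd.mul_left hdvd _).neg_right) (Dvd.dvd.mul_left hk _)

/-- uniqueness of the Gaussian divisor -/
theorem rep_unique (k m x y x' y' : ℤ) (hm : 0 < m) (hk : m ∣ k ^ 2 + 1) (hy : |y| < x)
    (hy' : |y'| < x') (h : x ^ 2 + y ^ 2 = m) (h' : x' ^ 2 + y' ^ 2 = m) (hd : m ∣ k * x + y)
    (hd' : m ∣ k * x' + y') : x = x' ∧ y = y' := by
  have hx : 0 < x := lt_of_le_of_lt (abs_nonneg y) hy
  have hx' : 0 < x' := lt_of_le_of_lt (abs_nonneg y') hy'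
  obtain ⟨t, ht⟩ : m ∣ x * y' - x' * y := by
    have h1 : x * y' - x' * y = x * (k * x' + y') - x' * (k * x + y) := by ring
    rw [h1]
    exact dvd_sub (Dvd.dvd.mul_left hd' _) (Dvd.dvd.mul_left hd _)
  obtain ⟨s, hs⟩ : m ∣ x * x' + y * y' := by
    have h1 : x * x' + y * y' = x * x' * (k ^ 2 + 1) + (k * x + y) * (k * x' + y')
        - k * x * (k * x' + y') - k * x' * (k * x + y) := by ring
    rw [h1]
    exact dvd_sub (dvd_sub (dvd_add (Dvd.dvd.mul_left hk _) (Dvd.dvd.mul_right hd _))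
      (Dvd.dvd.mul_left hd' _)) (Dvd.dvd.mul_left hd _)
  have hpos : 0 < x * x' + y * y' := by
    have h1 : |y * y'| < x * x' := by
      rw [abs_mul]
      exact mul_lt_mul'' hy hy' (abs_nonneg _) (abs_nonneg _)
    have := neg_abs_le (y * y')
    linarith
  have hs0 : 0 < s := by
    rw [hs] at hpos
    by_contra hc
    push Not at hc
    nlinarith
  have hst : s ^ 2 + t ^ 2 = 1 := by
    have h1 : m ^ 2 * (s ^ 2 + t ^ 2) = m ^ 2 * 1 := by
      have h2 : m ^ 2 * (s ^ 2 + t ^ 2) = (m * s) ^ 2 + (m * t) ^ 2 := by ring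
      rw [h2, ← hs, ← ht]
      have h3 : (x * x' + y * y') ^ 2 + (x * y' - x' * y) ^ 2 =
        (x ^ 2 + y ^ 2) * (x' ^ 2 + y' ^ 2) := by ring
      rw [h3, h, h']
      ring
    exact mul_left_cancel₀ (by positivity) h1
  have ht0 : t = 0 := by
    by_contra hc
    have h1 : 0 < t ^ 2 := by positivity
    have h2 : 0 < s ^ 2 := by positivity
    omega
  have hs1 : s = 1 := by
    rw [ht0] at hst
    nlinarith
  rw [ht0, mul_zero] at ht
  rw [hs1, mul_one] at hs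
  constructor
  · have h1 : m * x = m * x' := by
      have h2 : x' * (x ^ 2 + y ^ 2) = x * (x * x' + y * y') - y * (x * y' - x' * y) := by ring
      rw [h, hs, ht] at h2
      linarith
    exact mul_left_cancel₀ hm.ne' h1
  · have h1 : m * y = m * y' := by
      have h2 : y' * (x ^ 2 + y ^ 2) = x * (x * y' - x' * y) + y * (x * x' + y * y') := by ring
      rw [h, hs, ht] at h2
      linarith
    exact mul_left_cancel₀ hm.ne' h1

/-- lower end of the range of `u` -/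
noncomputable def lo (X : ℕ) (x y : ℤ) : ℝ := ((x : ℝ) * X + y) / ((x : ℝ) ^ 2 + (y : ℝ) ^ 2)

/-- the points for one Gaussian divisor `x + i y` -/
noncomputable def US (X H : ℕ) (x y : ℤ) : Finset ℤ :=
  (Ioc ⌊lo X x y⌋ ⌊lo (X + H) x y⌋).filter (fun u => x ∣ y * u - 1)

/-- the cofactor -/
def ww (x y u : ℤ) : ℤ := u ^ 2 + ((1 - y * u) / x) ^ 2

/-- the integer `k` -/
def kk (x y u : ℤ) : ℤ := x * u - y * ((1 - y * u) / x)

theorem mem_US (X H : ℕ) (x y u : ℤ) (hx : 0 < x) : u ∈ US X H x y ↔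
    (x ∣ y * u - 1 ∧ x * X + y < (x ^ 2 + y ^ 2) * u ∧
      (x ^ 2 + y ^ 2) * u ≤ x * ((X : ℤ) + H) + y) := by
  have hm : (0 : ℝ) < (x : ℝ) ^ 2 + (y : ℝ) ^ 2 := by
    have : (0 : ℝ) < x := by exact_mod_cast hx
    positivity
  unfold US
  rw [mem_filter, mem_Ioc, Int.floor_lt, Int.le_floor]
  unfold lo
  rw [div_lt_iff₀ hm, le_div_iff₀ hm]
  have h1 : ((x : ℝ) * (X : ℕ) + y < u * ((x : ℝ) ^ 2 + (y : ℝ) ^ 2)) ↔
      (x * X + y < (x ^ 2 + y ^ 2) * u) := by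
    rw [mul_comm (u : ℝ)]
    exact_mod_cast Iff.rfl
  have h2 : ((u : ℝ) * ((x : ℝ) ^ 2 + (y : ℝ) ^ 2) ≤ (x : ℝ) * ((X + H : ℕ) : ℝ) + y) ↔
      ((x ^ 2 + y ^ 2) * u ≤ x * ((X : ℤ) + H) + y) := by
    rw [mul_comm (u : ℝ)]
    push_cast
    exact_mod_cast Iff.rfl
  rw [h1, h2]
  tauto

theorem vv_eq (x y u : ℤ) (h : x ∣ y * u - 1) :
    x * ((1 - y * u) / x) + y * u = 1 := by
  have h1 : x ∣ 1 - y * u := by
    rw [show 1 - y * u = -(y * u - 1) by ring]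
    exact h.neg_right
  rw [Int.mul_ediv_cancel' h1]
  ring

/-- all relations -/
theorem US_spec (X H : ℕ) (x y u : ℤ) (hx : 0 < x) (h : u ∈ US X H x y) :
    (X : ℤ) < kk x y u ∧ kk x y u ≤ X + H ∧
      (kk x y u) ^ 2 + 1 = (x ^ 2 + y ^ 2) * ww x y u ∧
      x * kk x y u = (x ^ 2 + y ^ 2) * u - y ∧
      (x ^ 2 + y ^ 2) ∣ kk x y u * x + y := by
  rw [mem_US X H x y u hx] at h
  obtain ⟨h1, h2, h3⟩ := h
  have h4 := vv_eq x y u h1
  set v := (1 - y * u) / x with hv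
  have h5 : kk x y u = x * u - y * v := rfl
  have h6 : x * kk x y u = (x ^ 2 + y ^ 2) * u - y := by
    rw [h5]
    linear_combination (-y) * h4
  refine ⟨?_, ?_, ?_, h6, ⟨u, by linear_combination h6⟩⟩
  · have h7 : x * X < x * kk x y u := by rw [h6]; linarith
    exact lt_of_mul_lt_mul_left h7 hx.le
  · have h7 : x * kk x y u ≤ x * (X + H) := by rw [h6]; linarith
    exact le_of_mul_le_mul_left h7 hx
  · have h7 : ww x y u = u ^ 2 + v ^ 2 := rfl
    rw [h7, h5]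
    have h8 : (1 : ℤ) = (x * v + y * u) ^ 2 := by rw [h4]; ring
    calc (x * u - y * v) ^ 2 + 1 = (x * u - y * v) ^ 2 + (x * v + y * u) ^ 2 := by rw [← h8]
      _ = _ := by ring

/-- the sum over the divisors -/
theorem rep_sum (X H : ℕ) (M : ℤ) (f : ℤ → ℤ → ℝ) :
    ∑ x ∈ Icc 1 M, ∑ y ∈ Ioo (-x) x, (if 3 ≤ x ^ 2 + y ^ 2 ∧ x ^ 2 + y ^ 2 ≤ M then
        ∑ u ∈ US X H x y, f (x ^ 2 + y ^ 2) (ww x y u) else 0) =
      ∑ m ∈ Icc 3 M, ∑ k ∈ (Ioc (X : ℤ) (X + H)).filter (fun k => m ∣ k ^ 2 + 1),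
        f m ((k ^ 2 + 1) / m) := by
  classical
  have h1 : ∑ x ∈ Icc 1 M, ∑ y ∈ Ioo (-x) x, (if 3 ≤ x ^ 2 + y ^ 2 ∧ x ^ 2 + y ^ 2 ≤ M then
        ∑ u ∈ US X H x y, f (x ^ 2 + y ^ 2) (ww x y u) else 0) =
      ∑ t ∈ ((Icc 1 M).sigma (fun x : ℤ => (Ioo (-x) x).sigma (fun y => US X H x y))).filter
        (fun t => 3 ≤ t.1 ^ 2 + t.2.1 ^ 2 ∧ t.1 ^ 2 + t.2.1 ^ 2 ≤ M),
        f (t.1 ^ 2 + t.2.1 ^ 2) (ww t.1 t.2.1 t.2.2) := by
    rw [sum_filter, sum_sigma]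
    apply sum_congr rfl
    intro x _
    rw [sum_sigma]
    apply sum_congr rfl
    intro y _
    split_ifs
    · rfl
    · simp
  have h2 : ∑ m ∈ Icc 3 M, ∑ k ∈ (Ioc (X : ℤ) (X + H)).filter (fun k => m ∣ k ^ 2 + 1),
        f m ((k ^ 2 + 1) / m) =
      ∑ t ∈ (Icc 3 M).sigma (fun m : ℤ => (Ioc (X : ℤ) (X + H)).filter (fun k => m ∣ k ^ 2 + 1)),
        f t.1 ((t.2 ^ 2 + 1) / t.1) := by
    rw [sum_sigma]
  rw [h1, h2]
  apply sum_bij (fun t _ => (⟨t.1 ^ 2 + t.2.1 ^ 2, kk t.1 t.2.1 t.2.2⟩ : (_ : ℤ) × ℤ))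
  · rintro ⟨x, y, u⟩ ht
    simp only [mem_filter, mem_sigma, mem_Icc, mem_Ioo] at ht
    obtain ⟨⟨hx, hy, hu⟩, hm⟩ := ht
    obtain ⟨s1, s2, s3, s4, s5⟩ := US_spec X H x y u (by omega) hu
    simp only [mem_sigma, mem_Icc, mem_filter, mem_Ioc]
    exact ⟨hm, ⟨s1, s2⟩, ⟨_, s3⟩⟩
  · rintro ⟨x, y, u⟩ ht ⟨x', y', u'⟩ ht' heq
    simp only [mem_filter, mem_sigma, mem_Icc, mem_Ioo] at ht ht'
    obtain ⟨⟨hx, hy, hu⟩, hm⟩ := ht
    obtain ⟨⟨hx', hy', hu'⟩, hm'⟩ := ht'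
    obtain ⟨s1, s2, s3, s4, s5⟩ := US_spec X H x y u (by omega) hu
    obtain ⟨r1, r2, r3, r4, r5⟩ := US_spec X H x' y' u' (by omega) hu'
    simp only [Sigma.mk.injEq, heq_eq_eq] at heq
    obtain ⟨e1, e2⟩ := heq
    have e3 := rep_unique (kk x y u) (x ^ 2 + y ^ 2) x y x' y' (by linarith [hm.1]) ⟨_, s3⟩
      (abs_lt.2 hy) (abs_lt.2 hy') rfl e1.symm s5 (by rw [e1, e2]; exact r5)
    obtain ⟨rfl, rfl⟩ := e3
    rw [e2] at s4
    have e4 : (x ^ 2 + y ^ 2) * u = (x ^ 2 + y ^ 2) * u' := by linarith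
    have e5 : u = u' := mul_left_cancel₀ (by have := hm.1; positivity) e4
    rw [e5]
  · rintro ⟨m, k⟩ ht
    simp only [mem_sigma, mem_Icc, mem_filter, mem_Ioc] at ht
    obtain ⟨hm, ⟨hk1, hk2⟩, hk⟩ := ht
    obtain ⟨x, y, hx, hy, hxy, hd⟩ := exists_rep k m hm.1 hk
    have hm0 : 0 < m := by linarith [hm.1]
    obtain ⟨u, hu⟩ := hd
    obtain ⟨w, hw⟩ := hk
    have hcopk : IsCoprime m k := ⟨w, -k, by linear_combination -hw⟩
    have h3 : m ∣ k * (x - k * y) := by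
      have h4 : k * (x - k * y) = (k * x + y) - y * (k ^ 2 + 1) := by ring
      rw [h4, hu, hw]
      exact ⟨u - y * w, by ring⟩
    obtain ⟨v, hv⟩ := hcopk.dvd_of_dvd_mul_left h3
    have e1 : x * v + y * u = 1 := by
      have h4 : m * (x * v + y * u) = m * 1 := by
        have h5 : m * (x * v + y * u) = x * (m * v) + y * (m * u) := by ring
        rw [h5, ← hv, ← hu, ← hxy]
        ring
      exact mul_left_cancel₀ hm0.ne' h4
    have e2 : (1 - y * u) / x = v := by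
      apply Int.ediv_eq_of_eq_mul_right hx.ne'
      linarith
    have e3 : kk x y u = k := by
      unfold kk
      rw [e2]
      have h4 : m * (x * u - y * v) = m * k := by
        have h5 : m * (x * u - y * v) = x * (m * u) - y * (m * v) := by ring
        rw [h5, ← hv, ← hu, ← hxy]
        ring
      exact mul_left_cancel₀ hm0.ne' h4
    have hxM : x ≤ M := by
      have : x ≤ x ^ 2 := by nlinarith
      have := sq_nonneg y
      linarith [hm.2]
    have hE : x * k = (x ^ 2 + y ^ 2) * u - y := by rw [hxy, ← hu]; ring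
    refine ⟨⟨x, y, u⟩, ?_, ?_⟩
    · simp only [mem_filter, mem_sigma, mem_Icc, mem_Ioo]
      refine ⟨⟨⟨by omega, hxM⟩, abs_lt.1 hy, ?_⟩, by rw [hxy]; exact hm⟩
      rw [mem_US X H x y u hx]
      refine ⟨⟨-v, by linarith⟩, ?_, ?_⟩
      · have h4 : x * X < x * k := mul_lt_mul_of_pos_left hk1 hx
        linarith
      · have h4 : x * k ≤ x * (X + H) := mul_le_mul_of_nonneg_left hk2 hx.le
        linarith
    · simp only [Sigma.mk.injEq, heq_eq_eq]
      exact ⟨hxy, e3⟩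
  · rintro ⟨x, y, u⟩ ht
    simp only [mem_filter, mem_sigma, mem_Icc, mem_Ioo] at ht
    obtain ⟨⟨hx, hy, hu⟩, hm⟩ := ht
    obtain ⟨s1, s2, s3, s4, s5⟩ := US_spec X H x y u (by omega) hu
    simp only
    rw [s3, Int.mul_ediv_cancel_left _ (by linarith [hm.1] : x ^ 2 + y ^ 2 ≠ 0)]

end Pool.Agent.H543.DD
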