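import Pool.Agent.H543.DD.Ty7

/-!
# The weighted linear sieve with factorable weights: the theorem
-/

set_option autoImplicit false

namespace Pool.Agent.H543.DD

open Finset Filter
open Pool.Agent.W23.DC
open Pool.Agent.Y882
open Pool.Agent.Y882.KW
open Pool.Agent.Y882.JR (prod_large alg_low alg_up)

theorem exE (x : ℝ) (hx : 0 < x) : ∃ E : ℕ, 0 < E ∧ (1 : ℝ) / E ≤ x := by
  obtain ⟨m, hm⟩ := exists_nat_ge (1 / x)
  refine ⟨m + 1, by omega, ?_⟩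
  have hm0 : (0 : ℝ) < ((m + 1 : ℕ) : ℝ) := by positivity
  rw [div_le_iff₀ hm0]
  rw [div_le_iff₀ hx] at hm
  push_cast
  nlinarith

open Classical in
/-- **the weighted linear sieve with factorable weights** -/
theorem coreF (κ : ℕ) (A0 : ℝ) (F f : ℝ → ℝ) (hSF : SF A0 F f) (α β ζ υ aw bw α' ε : ℝ)
    (hζ : 0 < ζ) (hζq : ∃ q : ℚ, (q : ℝ) = ζ) (h2 : 2 * ζ < α + β) (h5 : ζ < υ → α + β ≤ 5 * ζ)
    (hτ1 : α + β ≤ 1) (hζυ : ζ ≤ υ) (hυα : υ < α) (hβ : 0 < β) (ha : 0 ≤ aw) (hb : 0 ≤ bw)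
    (hab : bw * υ ≤ aw) (hα : α < α') (hε : 0 < ε) :
    ∃ ε₁ η : ℝ, 0 < ε₁ ∧ ε₁ ≤ ζ ∧ 0 < η ∧ ∃ Kf Y0 : ℕ, ∀ Y : ℕ, Y0 ≤ Y →
      ∃ wU wL : Finset ℕ → ℝ,
      Fac (PZ Y υ) (pr Y ε₁ υ) Y α' β Kf (5 * (1 + aw) * Real.log Y) wU ∧
      Fac (PZ Y υ) (pr Y ε₁ υ) Y α' β Kf (5 * (1 + aw) * Real.log Y) wL ∧
      (∀ N : ℕ, VV (PZ Y υ) wL (fun p => if p ∣ N then 1 else 0) ≤ WW Y ζ υ aw bw N ∧
        (if ∀ p ∈ PZ Y ζ, ¬ p ∣ N then 1 else 0) ≤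
          VV (PZ Y υ) wU (fun p => if p ∣ N then 1 else 0)) ∧
      ∀ h : ℕ → ℝ, (∀ p ∈ PZ Y υ, 0 ≤ h p) → (∀ p ∈ PZ Y υ, h p ≤ 1) →
        (∀ p ∈ PZ Y υ, κ < p → h p ≤ κ / ((p : ℝ) - 1)) →
        Mer (pr Y ε₁ υ) (tt Y) h ε₁ υ η →
        (f ((α + β) / ζ) - ζ * A0 * (∫ x in ζ..υ, (aw - bw * x) * Phi ζ (α + β - x) / x) - ε) *
          ∏ p ∈ PZ Y ζ, (1 - h p) ≤ VV (PZ Y υ) wL h ∧
        VV (PZ Y υ) wU h ≤ (F ((α + β) / ζ) + ε) * ∏ p ∈ PZ Y ζ, (1 - h p) := by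
  obtain ⟨C, hC1, HF⟩ := flw
  set τ : ℝ := α + β with hτdef
  have hs1 : 1 ≤ τ / ζ := by rw [le_div_iff₀ hζ]; linarith
  set Fs : ℝ := F (τ / ζ) with hFs
  set Ig : ℝ := ∫ x in ζ..υ, (aw - bw * x) * Phi ζ (τ - x) / x with hIg
  set fs : ℝ := f (τ / ζ) - ζ * A0 * Ig with hfs
  have hFs1 : 1 ≤ Fs := hSF.F1 _ hs1
  set M : ℝ := Fs + |fs| + 2 with hM
  have hfs0 : 0 ≤ |fs| := abs_nonneg _
  have hM3 : 3 ≤ M := by linarith
  set κ₀ : ℝ := min ε 1 / (8 * M) with hκ₀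
  have hκ0 : 0 < κ₀ := div_pos (lt_min hε one_pos) (by linarith)
  have hκε : κ₀ * (8 * M) ≤ ε := by
    rw [hκ₀, div_mul_cancel₀ _ (by positivity)]
    exact min_le_left _ _
  have hκ1 : κ₀ * (8 * M) ≤ 1 := by
    rw [hκ₀, div_mul_cancel₀ _ (by positivity)]
    exact min_le_right _ _
  have hκ24 : κ₀ ≤ 1 / 24 := by nlinarith
  obtain ⟨b, hb1, hb2⟩ : ∃ b : ℕ, C * (κ + 1) ≤ b ∧ (1 / 2 : ℝ) ^ b ≤ κ₀ := by
    obtain ⟨m, hm⟩ := exists_pow_lt_of_lt_one hκ0 (show (1 / 2 : ℝ) < 1 by norm_num)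
    refine ⟨max m (C * (κ + 1)), le_max_right _ _, ?_⟩
    have h6 : (1 / 2 : ℝ) ^ (max m (C * (κ + 1))) ≤ (1 / 2) ^ m :=
      pow_le_pow_of_le_one (by norm_num) (by norm_num) (le_max_left _ _)
    exact h6.trans hm.le
  have hb0 : 1 ≤ b := le_trans (Nat.mul_pos hC1 (by omega)) hb1
  have hCb : (1 : ℝ) ≤ C * b := by
    have : 1 ≤ C * b := Nat.mul_pos hC1 (by omega)
    exact_mod_cast this
  obtain ⟨E, hE, hEm⟩ := exE (min (min (min ζ (1 / 2)) β) ((α' - α) / (4 * (C * b))))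
    (lt_min (lt_min (lt_min hζ (by norm_num)) hβ) (div_pos (by linarith) (by linarith)))
  set ε₁ : ℝ := 1 / (E : ℝ) with hε₁
  have hE0 : (0 : ℝ) < E := by exact_mod_cast hE
  have hε0 : 0 < ε₁ := by positivity
  have hεζ : ε₁ ≤ ζ := hEm.trans (((min_le_left _ _).trans (min_le_left _ _)).trans (min_le_left _ _))
  have hεh : ε₁ ≤ 1 / 2 :=
    hEm.trans (((min_le_left _ _).trans (min_le_left _ _)).trans (min_le_right _ _))
  have hεβ : ε₁ ≤ β := hEm.trans ((min_le_left _ _).trans (min_le_right _ _))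
  have hεb : 2 * ε₁ * (C * b) ≤ (α' - α) / 2 := by
    have h6 : ε₁ ≤ (α' - α) / (4 * (C * b)) := hEm.trans (min_le_right _ _)
    rw [le_div_iff₀ (by linarith)] at h6
    linarith
  obtain ⟨K0, η₀, hη₀, HL'⟩ := prov A0 F f hSF α β ζ υ aw bw hζ hζq h2 h5 hτ1 hζυ hυα hβ ha hb hab
    (κ₀ / ζ) (by positivity) E hE hεζ hεβ
  rw [← hε₁] at HL'
  simp only [← hτdef] at HL'
  obtain ⟨Y2, hJ⟩ := exJ ε₁ hε0
  obtain ⟨Y5, hPL⟩ := prod_large κ ζ ε₁ κ₀ hε0 hεζ hκ0 (by linarith)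
  set z0 : ℕ := C * (κ + 1) with hz0
  set B : ℕ := ∏ p ∈ (Icc 1 z0), p with hB
  have ev1 : ∀ᶠ Y : ℕ in atTop, (B : ℝ) ≤ (Y : ℝ) ^ ((α' - α) / 2) :=
    tendsto_natCast_atTop_atTop.eventually
      ((tendsto_rpow_atTop (by linarith)).eventually_ge_atTop _)
  have ev5 : ∀ᶠ Y : ℕ in atTop, 3 ≤ Real.log Y :=
    (Real.tendsto_log_atTop.comp tendsto_natCast_atTop_atTop).eventually_ge_atTop _
  obtain ⟨Y3, hY3⟩ := eventually_atTop.1 (ev1.and (ev5.and (eventually_ge_atTop 3)))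
  refine ⟨ε₁, min η₀ (κ₀ / 4), hε0, hεζ, lt_min hη₀ (by linarith), 3 * K0,
    max (max Y2 Y3) Y5, ?_⟩
  intro Y hY
  have hYY2 : Y2 ≤ Y := ((le_max_left _ _).trans (le_max_left _ _)).trans hY
  have hYY5 : Y5 ≤ Y := (le_max_right _ _).trans hY
  obtain ⟨e1, e5, e4⟩ := hY3 Y (((le_max_right _ _).trans (le_max_left _ _)).trans hY)
  obtain ⟨J, hJ1, hJ2⟩ := hJ Y hYY2
  have hYr : (3 : ℝ) ≤ Y := by exact_mod_cast e4
  have hY1r : (1 : ℝ) ≤ Y := by linarith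
  have hlY : 0 < Real.log Y := by linarith
  have hlog2 : 0.69 < Real.log 2 := by linarith [Real.log_two_gt_d9]
  -- size of J
  have hJc : (J : ℝ) + 3 ≤ 5 * Real.log Y := by
    have h6 := Real.log_le_log (by positivity) hJ2
    rw [Real.log_rpow (by linarith), Real.log_pow] at h6
    push_cast at h6
    have h6' : (J : ℝ) ≤ 2 ^ J := by exact_mod_cast Nat.lt_two_pow_self.le
    have h7 : (2 : ℝ) ^ J * 0.69 ≤ 2 * ε₁ * Real.log Y := by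
      refine le_trans ?_ h6
      apply mul_le_mul_of_nonneg_left hlog2.le (by positivity)
    have h8 : ε₁ * Real.log Y ≤ 1 / 2 * Real.log Y := by
      apply mul_le_mul_of_nonneg_right _ hlY.le
      linarith
    nlinarith
  -- the three sets of primes
  set P0 : Finset ℕ := (PZ Y ε₁).filter (fun p => p ≤ z0) with hP0
  set P1 : Finset ℕ := (PZ Y ε₁).filter (fun p => ¬ p ≤ z0) with hP1
  set P2 : Finset ℕ := pr Y ε₁ υ with hP2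
  have hQ : P0 ∪ P1 = PZ Y ε₁ := filter_union_filter_not_eq _ _
  have hd01 : Disjoint P0 P1 := disjoint_filter_filter_not _ _ _
  have hPZ : ∀ p, p ∈ PZ Y ε₁ → p.Prime ∧ p ≤ Y ∧ (p : ℝ) < (Y : ℝ) ^ ε₁ := by
    intro p hp
    unfold PZ at hp
    rw [mem_filter, mem_Icc] at hp
    exact ⟨hp.2.1, hp.1.2, (tt_lt Y p ε₁ (by omega) hp.2.1.pos).1 hp.2.2⟩
  have hd2 : Disjoint (PZ Y ε₁) P2 := by
    rw [disjoint_left]
    intro p hp hp'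
    unfold PZ at hp
    rw [hP2] at hp'
    unfold pr at hp'
    rw [mem_filter] at hp hp'
    linarith [hp.2.2, hp'.2.2.1]
  have hP2pr : ∀ p ∈ PZ Y ε₁ ∪ P2, p.Prime := by
    intro p hp
    rw [mem_union] at hp
    rcases hp with hp | hp
    · exact (hPZ p hp).1
    · rw [hP2] at hp
      unfold pr at hp
      rw [mem_filter] at hp
      exact hp.2.1
  have hunion : ∀ z : ℝ, ε₁ ≤ z → PZ Y ε₁ ∪ pr Y ε₁ z = PZ Y z := by
    intro z hz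
    ext p
    rw [mem_union]
    unfold PZ pr
    rw [mem_filter, mem_filter, mem_filter]
    constructor
    · rintro (⟨h6, h7, h8⟩ | ⟨h6, h7, h8, h9⟩)
      · exact ⟨h6, h7, h8.trans_le hz⟩
      · exact ⟨h6, h7, h9⟩
    · rintro ⟨h6, h7, h8⟩
      rcases lt_or_ge (tt Y p) ε₁ with h9 | h9
      · exact Or.inl ⟨h6, h7, h9⟩
      · exact Or.inr ⟨h6, h7, h9, h8⟩
  have hPall : PZ Y ε₁ ∪ P2 = PZ Y υ := hunion υ (hεζ.trans hζυ)
  have hPζ : PZ Y ε₁ ∪ pr Y ε₁ ζ = PZ Y ζ := hunion ζ hεζ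
  have hlt2 : ∀ p ∈ PZ Y ε₁, p < 2 ^ 2 ^ J := by
    intro p hp
    have h6 := (hPZ p hp).2.2.trans_le hJ1
    exact_mod_cast h6
  -- the weights
  obtain ⟨cU, cL, g1, g2, g3, g4⟩ := HF κ b J z0 P1 hb1 le_rfl (by
    intro p hp
    rw [hP1, mem_filter] at hp
    exact ⟨(hPZ p hp.1).1, by omega, (hlt2 p hp.1).le⟩)
  obtain ⟨yU, yL, k1, kU, kL, k3, k4⟩ := HL' Y (by omega)
  set W : (Finset ℕ → ℝ) → (Finset ℕ → ℝ) → Finset ℕ → ℝ := fun α β T =>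
    (fun U => (-1) ^ (U ∩ P0).card * α (U ∩ P1)) (T ∩ PZ Y ε₁) * β (T ∩ P2) with hW
  have hVW : ∀ (α β : Finset ℕ → ℝ) (h : ℕ → ℝ), VV (PZ Y υ) (W α β) h =
      (∏ p ∈ P0, (1 - h p)) * VV P1 α h * VV P2 β h := by
    intro α β h
    rw [← hPall]
    have h6 := VV_union (PZ Y ε₁) P2 hd2 (fun U => (-1) ^ (U ∩ P0).card * α (U ∩ P1)) β h
    simp only [hW]
    rw [h6]
    congr 1
    have h7 := VV_union P0 P1 hd01 (fun U => (-1) ^ U.card) α h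
    rw [VV_mu, hQ] at h7
    exact h7
  -- factorable
  have hJs : ((2 : ℝ) ^ 2 ^ J) ^ (C * b) ≤ (Y : ℝ) ^ ((α' - α) / 2) := by
    calc ((2 : ℝ) ^ 2 ^ J) ^ (C * b) ≤ ((Y : ℝ) ^ (2 * ε₁)) ^ (C * b) := by gcongr
      _ ≤ _ := by
          rw [← Real.rpow_natCast, ← Real.rpow_mul (by linarith)]
          apply Real.rpow_le_rpow_of_exponent_le hY1r
          push_cast
          exact hεb
  have hJ0 : (0 : ℝ) ≤ J := Nat.cast_nonneg _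
  have haw : (0 : ℝ) ≤ 1 + aw := by linarith
  have hfW : ∀ (G : ℝ) (γ y : Finset ℕ → ℝ), 0 ≤ G → G ≤ J + 1 → (∀ U, |γ U| ≤ G) →
      (∀ T ⊆ P1, γ T ≠ 0 → ∏ p ∈ T, p ≤ (2 ^ 2 ^ J) ^ (C * b)) →
      Fac P2 P2 Y α β K0 (1 + aw) y →
      Fac (PZ Y υ) P2 Y α' β K0 (5 * (1 + aw) * Real.log Y) (W γ y) := by
    intro G γ y hG0 hG hγ hγ2 hy
    have h6 := fac_W Y z0 C b J (by omega) ε₁ υ α β (α' - α) B K0 (1 + aw) G haw hG0 (PZ Y ε₁) P0 P1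
      P2 (PZ Y υ) hPall hd2 hP2pr hQ (by
        intro p hp
        rw [hP0, mem_filter] at hp
        exact ⟨(hPZ p hp.1).1.pos, hp.2⟩) hB e1 hJs γ y hγ hγ2 hy
    apply fac_mono _ _ Y (by omega) _ β α' β _ _ _ _ _ h6 (by linarith) le_rfl le_rfl
    calc G * (1 + aw) ≤ (5 * Real.log Y) * (1 + aw) :=
          mul_le_mul_of_nonneg_right (by linarith) haw
      _ = _ := by ring
  have f1 := hfW 1 cU yU zero_le_one (by linarith) (fun U => (g1 U).1)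
    (fun T hT hne => g2 T hT (Or.inl hne)) kU
  have f2 := hfW (J + 1) cL yU (by linarith) le_rfl (fun U => (g1 U).2)
    (fun T hT hne => g2 T hT (Or.inr hne)) kU
  have f3 := hfW 1 cU yL zero_le_one (by linarith) (fun U => (g1 U).1)
    (fun T hT hne => g2 T hT (Or.inl hne)) kL
  have hC0 : 0 ≤ 5 * (1 + aw) * Real.log Y := by positivity
  refine ⟨W cU yU, fun T => W cL yU T + W cU yL T - W cU yU T, ?_, ?_, ?_, ?_⟩
  · exact fac_mono _ _ Y (by omega) α' β α' β _ _ _ _ _ f1 le_rfl le_rfl (by omega) le_rfl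
  · have h6 := fac_add _ _ _ _ _ _ _ _ _ _ (fac_add _ _ _ _ _ _ _ _ _ _ f2 f3) (fac_neg _ _ _ _ _ _ _ _ f1)
    have h7 := fac_mono _ _ Y (by omega) α' β α' β _ (3 * K0) _ _ _ h6 le_rfl le_rfl (by omega) le_rfl
    apply fac_congr _ _ _ _ _ _ _ _ _ h7
    intro T _
    ring
  · intro N
    obtain ⟨a1, a2⟩ := g3 N
    obtain ⟨a3, a4⟩ := k3 N
    rw [VV_sub, VV_add, hVW, hVW, hVW]
    have hX0 : ∏ p ∈ P0, (1 - (if p ∣ N then (1 : ℝ) else 0)) = if ∀ p ∈ P0, ¬ p ∣ N then 1 else 0 := by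
      have : ∀ p ∈ P0, 1 - (if p ∣ N then (1 : ℝ) else 0) = if ¬ p ∣ N then 1 else 0 := by
        intro p _
        split_ifs <;> norm_num
      rw [prod_congr rfl this, Finset.prod_ite_zero]
      simp
    rw [hX0]
    have hS0 : 0 ≤ ∑ q ∈ pr Y ζ υ, (aw - bw * tt Y q) * (if q ∣ N then (1 : ℝ) else 0) := by
      apply sum_nonneg
      intro q hq
      unfold pr at hq
      rw [mem_filter] at hq
      have h6 : bw * tt Y q ≤ bw * υ := mul_le_mul_of_nonneg_left hq.2.2.2.le hb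
      apply mul_nonneg (by linarith)
      split_ifs <;> norm_num
    have a4' : (if ∀ p ∈ pr Y ε₁ ζ, ¬ p ∣ N then (1 : ℝ) else 0) ≤
        VV P2 yU (fun p => if p ∣ N then 1 else 0) := by
      refine le_trans (le_of_eq ?_) a4
      congr
    have a3' : VV P2 yL (fun p => if p ∣ N then 1 else 0) ≤
        (if ∀ p ∈ pr Y ε₁ ζ, ¬ p ∣ N then (1 : ℝ) else 0) *
          (1 - ∑ q ∈ pr Y ζ υ, (aw - bw * tt Y q) * (if q ∣ N then (1 : ℝ) else 0)) := by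
      unfold WB at a3
      exact a3
    exact core_ineq (PZ Y ε₁) P0 P1 P2 (PZ Y ζ) hQ (pr Y ε₁ ζ) hPζ N _ hS0 _ _ _ _ a1 a2 a3' a4'
  · intro h hh0 hh1 hhκ hMer
    rw [VV_sub, VV_add, hVW, hVW, hVW]
    have hzκ : κ ≤ z0 := by
      rw [hz0]
      calc κ ≤ 1 * (κ + 1) := by omega
        _ ≤ C * (κ + 1) := Nat.mul_le_mul_right _ hC1
    have hsub1 : ∀ p ∈ PZ Y ε₁, p ∈ PZ Y υ := fun p hp => by
      rw [← hPall]; exact mem_union_left _ hp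
    have hsub2 : ∀ p ∈ P2, p ∈ PZ Y υ := fun p hp => by
      rw [← hPall]; exact mem_union_right _ hp
    have hsub3 : ∀ p ∈ pr Y ε₁ ζ, p ∈ P2 := by
      intro p hp
      rw [hP2]
      unfold pr at hp ⊢
      rw [mem_filter] at hp ⊢
      exact ⟨hp.1, hp.2.1, hp.2.2.1, hp.2.2.2.trans_le hζυ⟩
    have hgn0 : ∀ p ∈ P1, 0 ≤ h p ∧ h p ≤ (κ : ℝ) / ((p : ℝ) - 1) := by
      intro p hp
      rw [hP1, mem_filter] at hp
      exact ⟨hh0 p (hsub1 p hp.1), hhκ p (hsub1 p hp.1) (by omega)⟩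
    have hgn2 : ∀ p ∈ P2, 0 ≤ h p := fun p hp => hh0 p (hsub2 p hp)
    obtain ⟨a1, a2, a3, a4⟩ := g4 h hgn0
    obtain ⟨a5, a6⟩ := k4 h hgn2 (mer_mono _ _ _ _ _ _ _ hMer (min_le_left _ _))
    have hMζ : Mer (pr Y ε₁ ζ) (tt Y) h ε₁ ζ (κ₀ / 4) := by
      intro x y hx hxy hy
      have h1 := hMer x y hx hxy (hy.trans hζυ)
      have h3 : (pr Y ε₁ ζ).filter (fun p => x ≤ tt Y p ∧ tt Y p < y) =
          (pr Y ε₁ υ).filter (fun p => x ≤ tt Y p ∧ tt Y p < y) := by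
        ext p
        rw [mem_filter, mem_filter]
        constructor
        · rintro ⟨h5, h6⟩
          exact ⟨hsub3 p h5, h6⟩
        · rintro ⟨h5, h6⟩
          unfold pr at h5 ⊢
          rw [mem_filter] at h5 ⊢
          exact ⟨⟨h5.1, h5.2.1, h5.2.2.1, h6.2.trans_le hy⟩, h6⟩
      rw [h3]
      exact h1.trans (min_le_right _ _)
    obtain ⟨a7, a8⟩ := hPL Y hYY5 h (fun p hp => hgn2 p (hsub3 p hp))
      (fun p hp hκp => hhκ p (hsub2 p (hsub3 p hp)) hκp) hMζ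
    have hd2ζ : Disjoint (PZ Y ε₁) (pr Y ε₁ ζ) :=
      disjoint_of_subset_right hsub3 hd2
    have hVV : ∏ p ∈ PZ Y ζ, (1 - h p) = ((∏ p ∈ P0, (1 - h p)) * ∏ p ∈ P1, (1 - h p)) *
        ∏ p ∈ pr Y ε₁ ζ, (1 - h p) := by
      rw [← hPζ, prod_union hd2ζ, ← hQ, prod_union hd01]
    rw [hVV]
    set V0 := ∏ p ∈ P0, (1 - h p)
    set V1 := ∏ p ∈ P1, (1 - h p)
    set R2 := ∏ p ∈ pr Y ε₁ ζ, (1 - h p)
    have hfac : ∀ p ∈ PZ Y ε₁, 0 ≤ 1 - h p := fun p hp => by linarith [hh1 p (hsub1 p hp)]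
    have hV0 : 0 ≤ V0 := prod_nonneg fun p hp => hfac p (by rw [← hQ]; exact mem_union_left _ hp)
    have hV1 : 0 ≤ V1 := prod_nonneg fun p hp => hfac p (by rw [← hQ]; exact mem_union_right _ hp)
    have a5' : ε₁ / ζ * (fs - κ₀) ≤ VV P2 yL h := by
      refine le_trans (le_of_eq ?_) a5
      rw [hfs, hIg]
      field_simp
    have a6' : VV P2 yU h ≤ ε₁ / ζ * (Fs + κ₀) := by
      refine a6.trans (le_of_eq ?_)
      rw [hFs]
      field_simp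
    have q1 : κ₀ * (2 * M + 1 + ε) ≤ ε := by
      have c1 : κ₀ * ε ≤ 1 / 24 * ε := mul_le_mul_of_nonneg_right hκ24 hε.le
      have c2 : κ₀ * (2 * M + 1 + ε) = κ₀ * (8 * M) / 4 + κ₀ + κ₀ * ε := by ring
      have c3 : κ₀ * 24 ≤ κ₀ * (8 * M) := mul_le_mul_of_nonneg_left (by linarith) hκ0.le
      rw [c2]
      linarith
    rw [hM] at q1
    have he0 : 0 < ε₁ / ζ := by positivity
    exact ⟨alg_low V0 V1 R2 (VV P1 cU h) (VV P1 cL h) (VV P2 yU h) (VV P2 yL h) (ε₁ / ζ)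
      ((1 / 2) ^ b) κ₀ Fs fs ε hV0 hV1 he0 hκ0 hκ24 hb2
      (by linarith) hε q1 a1 a2 a3 a4 a5' a6' a7 a8,
      alg_up V0 V1 R2 (VV P1 cU h) (VV P2 yU h) (ε₁ / ζ) ((1 / 2) ^ b) κ₀ Fs fs ε hV0 hV1 he0 hκ0
      hκ24 hb2 (by linarith) hε q1 a3 a4 a6' a7⟩

end Pool.Agent.H543.DD
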