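import Pool.Agent.H543.DD.Bil2
import Pool.Agent.H543.DD.Ty8
import Pool.Graph.R_seed8.Y882.KW.Core4

/-!
# The weighted sieve for `n ^ 2 + 1` in short intervals
-/

set_option autoImplicit false

namespace Pool.Agent.H543.DD

open Finset Filter
open Pool.Agent.W23.DC
open Pool.Agent.Y882
open Pool.Agent.Y882.KW
open Pool.Agent.Y882.SI
open Pool.Agent.Y882.PX (ro ro_eq)
open Pool.Agent.Y346.PA (S_KL)

theorem gd_prod (T : Finset ℕ) (hT : ∀ p ∈ T, p.Prime) : gd (∏ p ∈ T, p) = ∏ p ∈ T, gd p := by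
  classical
  induction T using Finset.induction_on with
  | empty =>
    rw [prod_empty, prod_empty]
    unfold gd
    rw [Rt_one]
    simp
  | insert p T hp ih =>
    have hT' : ∀ q ∈ T, q.Prime := fun q hq => hT q (mem_insert_of_mem hq)
    have hpp := hT p (mem_insert_self _ _)
    rw [prod_insert hp, prod_insert hp, gd_mul _ _ hpp.one_le, ih hT']
    · exact Nat.pos_of_ne_zero (prod_ne_zero_iff.2 fun q hq => (hT' q hq).ne_zero)
    · apply Nat.Coprime.prod_right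
      intro q hq
      rw [Nat.coprime_primes hpp (hT' q hq)]
      rintro rfl
      exact hp hq

theorem gd_ro (p : ℕ) : gd p = (ro (QF 1) 0 p : ℝ) / p := by
  unfold gd
  rw [Rt_ro]

theorem gd_prime (p : ℕ) (hp : p.Prime) : gd p ≤ 2 / 3 ∧ (2 < p → gd p ≤ (2 : ℕ) / ((p : ℝ) - 1)) := by
  have hp0 : (0 : ℝ) < p := by exact_mod_cast hp.pos
  have hr2 : (ro (QF 1) 0 p : ℝ) ≤ 2 := by exact_mod_cast ro_quad_le 1 p hp
  rw [gd_ro]
  constructor
  · rw [div_le_iff₀ hp0]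
    by_cases h2 : p = 2
    · subst h2
      rw [ro_quad_two]
      norm_num
    · have : 3 ≤ p := by
        have := hp.two_le
        omega
      have : (3 : ℝ) ≤ p := by exact_mod_cast this
      linarith
  · intro h2
    have : (2 : ℝ) < p := by exact_mod_cast h2
    push_cast
    exact div_le_div₀ (by norm_num) hr2 (by linarith) (by linarith)

/-- the number of `n` in the interval -/
theorem cI_nat2 (X H d : ℕ) : cI X H d =
    (((Ioc X (X + H)).filter (fun n : ℕ => d ∣ n ^ 2 + 1)).card : ℝ) := by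
  rw [cI_nat]
  congr 2
  apply filter_congr
  intro n _
  rw [QF_eval]
  constructor
  · intro h
    exact_mod_cast h
  · intro h
    exact_mod_cast h

theorem not_sq_neg_one : ¬ IsSquare (-1 : ℤ) := by
  rintro ⟨x, hx⟩
  nlinarith [mul_self_nonneg x]

/-- the sum of the weights over the interval -/
theorem sum_VV (P : Finset ℕ) (hP : ∀ p ∈ P, p.Prime) (w : Finset ℕ → ℝ) (X H : ℕ) :
    ∑ n ∈ Ioc X (X + H), VV P w (fun p => if p ∣ n ^ 2 + 1 then 1 else 0) =
      H * VV P w gd + ∑ T ∈ P.powerset, w T * (cI X H (∏ p ∈ T, p) - H * gd (∏ p ∈ T, p)) := by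
  unfold VV
  rw [sum_comm, mul_sum, ← sum_add_distrib]
  apply sum_congr rfl
  intro T hT
  rw [mem_powerset] at hT
  have hT' : ∀ p ∈ T, p.Prime := fun p hp => hP p (hT hp)
  rw [← gd_prod T hT', cI_nat2, card_filter, ← mul_sum]
  push_cast
  have h1 : ∀ n ∈ Ioc X (X + H), ∏ p ∈ T, (if p ∣ n ^ 2 + 1 then (1 : ℝ) else 0) =
      if (∏ p ∈ T, p) ∣ n ^ 2 + 1 then 1 else 0 := fun n _ => PX.prod_ind T hT' (n ^ 2 + 1)
  rw [sum_congr rfl h1]
  ring

open Classical in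
/-- **the weighted sieve for `n ^ 2 + 1` in short intervals** -/
theorem siS (kl : S_KL) (A0 : ℝ) (F f : ℝ → ℝ) (hSF : SF A0 F f) (α β ζ υ aw bw ε : ℝ)
    (hζ : 0 < ζ) (hζq : ∃ q : ℚ, (q : ℝ) = ζ) (h2 : 2 * ζ < α + β) (h5 : ζ < υ → α + β ≤ 5 * ζ)
    (hζυ : ζ ≤ υ) (hυα : υ < α) (hβ : 0 < β) (ha : 0 ≤ aw) (hb : 0 ≤ bw)
    (hab : bw * υ ≤ aw) (hα2 : α < 1 / 2) (hβ2 : β < 1 / 24) (hε : 0 < ε) :
    ∃ δ : ℝ, 0 < δ ∧ ∃ X0 : ℕ, ∀ X : ℕ, X0 ≤ X → ∀ H : ℕ, (X : ℝ) ^ (1 - δ) ≤ H → H ≤ X →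
      (H : ℝ) * ((f ((α + β) / ζ) -
        ζ * A0 * (∫ x in ζ..υ, (aw - bw * x) * Phi ζ (α + β - x) / x) - ε) *
          ∏ p ∈ PZ (X ^ 2) ζ, (1 - gd p)) ≤
        ∑ n ∈ Ioc X (X + H), WW (X ^ 2) ζ υ aw bw (n ^ 2 + 1) ∧
      (((Ioc X (X + H)).filter (fun n => ∀ p ∈ PZ (X ^ 2) ζ, ¬ p ∣ n ^ 2 + 1)).card : ℝ) ≤
        H * ((F ((α + β) / ζ) + ε) * ∏ p ∈ PZ (X ^ 2) ζ, (1 - gd p)) := by
  set α' : ℝ := (α + 1 / 2) / 2 with hα'
  obtain ⟨ε₁, η, hε₁, hεζ, hη, Kf, Y0, HC⟩ := coreF 2 A0 F f hSF α β ζ υ aw bw α' (ε / 2) hζ hζq h2 h5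
    (by linarith) hζυ hυα hβ ha hb hab (by linarith) (by linarith)
  set fs : ℝ := f ((α + β) / ζ) - ζ * A0 * (∫ x in ζ..υ, (aw - bw * x) * Phi ζ (α + β - x) / x)
    with hfs
  set ε0 : ℝ := min (min (1 - 2 * α') (1 / 12 - 2 * β)) (1 / 100) with hε0
  have hε00 : 0 < ε0 := lt_min (lt_min (by linarith) (by linarith)) (by norm_num)
  have hε01 : ε0 ≤ 1 - 2 * α' := (min_le_left _ _).trans (min_le_left _ _)
  have hε02 : ε0 ≤ 1 / 12 - 2 * β := (min_le_left _ _).trans (min_le_right _ _)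
  set κ : ℝ := min (ε0 / 100) (2 * ε₁ / 100) with hκdef
  have hκ : 0 < κ := lt_min (by positivity) (by positivity)
  have hκ1 : κ ≤ ε0 / 100 := min_le_left _ _
  have hκ2 : κ ≤ 2 * ε₁ / 100 := min_le_right _ _
  obtain ⟨X1, HB⟩ := bil kl ε0 (2 * ε₁) κ hκ (by linarith) (by linarith) (min_le_right _ _)
  obtain ⟨Y1, HM⟩ := mer_quad 1 not_sq_neg_one ε₁ υ η hε₁ (by linarith) hη
  obtain ⟨c, hc, HL⟩ := lo_quad 1 not_sq_neg_one
  set C1 : ℝ := Kf * (5 * (1 + aw)) * 4 * (2 / (ε * c)) + 1 with hC1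
  have hC10 : 0 < C1 := by positivity
  have ev1 : ∀ᶠ X : ℕ in atTop, C1 * (Real.log X) ^ 2 ≤ (X : ℝ) ^ (κ / 2) := by
    have h1 : Tendsto (fun x : ℝ => Real.log x ^ ((2 : ℕ) : ℝ) / x ^ (κ / 2)) atTop (nhds 0) := by
      have := isLittleO_log_rpow_rpow_atTop (((2 : ℕ) : ℝ)) (show 0 < κ / 2 by linarith)
      exact this.tendsto_div_nhds_zero
    have h2 := h1.eventually_le_const (show (0 : ℝ) < 1 / C1 by positivity)
    have h3 := tendsto_natCast_atTop_atTop.eventually (h2.and (eventually_gt_atTop (0 : ℝ)))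
    filter_upwards [h3] with X hX
    obtain ⟨h4, h5⟩ := hX
    have h6 : (0 : ℝ) < (X : ℝ) ^ (κ / 2) := by positivity
    rw [div_le_div_iff₀ h6 (by positivity), one_mul, Real.rpow_natCast] at h4
    linarith
  obtain ⟨X2, hX2⟩ := eventually_atTop.1 ev1
  refine ⟨κ, hκ, max (max X1 X2) (max (max Y0 Y1) 3), ?_⟩
  intro X hX H hH1 hH2
  have hX1 : X1 ≤ X := ((le_max_left _ _).trans (le_max_left _ _)).trans hX
  have hX2' : X2 ≤ X := ((le_max_right _ _).trans (le_max_left _ _)).trans hX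
  have hX3 : 3 ≤ X := ((le_max_right _ _).trans (le_max_right _ _)).trans hX
  have hXX : X ≤ X ^ 2 := by nlinarith
  have hY0 : Y0 ≤ X ^ 2 :=
    (((le_max_left _ _).trans ((le_max_left _ _).trans (le_max_right _ _))).trans hX).trans hXX
  have hY1 : Y1 ≤ X ^ 2 :=
    (((le_max_right _ _).trans ((le_max_left _ _).trans (le_max_right _ _))).trans hX).trans hXX
  have hXr : (3 : ℝ) ≤ X := by exact_mod_cast hX3
  have hX0 : (0 : ℝ) < X := by linarith
  have hlX : 1 < Real.log X := by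
    rw [Real.lt_log_iff_exp_lt hX0]
    linarith [Real.exp_one_lt_d9]
  set Y : ℕ := X ^ 2 with hY
  have hYr : (Y : ℝ) = (X : ℝ) ^ (2 : ℝ) := by
    rw [hY]
    push_cast
    exact (Real.rpow_natCast _ 2).symm
  have hYp : ∀ x : ℝ, (Y : ℝ) ^ x = (X : ℝ) ^ (2 * x) := by
    intro x
    rw [hYr, ← Real.rpow_mul hX0.le]
  have hlY : Real.log Y = 2 * Real.log X := by
    rw [hYr, Real.log_rpow hX0]
  have hY3 : 3 ≤ Y := hX3.trans hXX
  obtain ⟨wU, wL, fU, fL, hN, hV⟩ := HC Y hY0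
  have hPp : ∀ p ∈ PZ Y υ, p.Prime := by
    intro p hp
    unfold PZ at hp
    rw [mem_filter] at hp
    exact hp.2.1
  have hPp2 : ∀ p ∈ pr Y ε₁ υ, p.Prime := by
    intro p hp
    unfold pr at hp
    rw [mem_filter] at hp
    exact hp.2.1
  have hsub : pr Y ε₁ υ ⊆ PZ Y υ := by
    intro p hp
    unfold pr at hp
    unfold PZ
    rw [mem_filter] at hp ⊢
    exact ⟨hp.1, hp.2.1, hp.2.2.2⟩
  have hmer : Mer (pr Y ε₁ υ) (tt Y) gd ε₁ υ η := by
    have h6 := HM Y hY1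
    have h7 : gd = fun p => (ro (QF 1) 0 p : ℝ) / p := funext gd_ro
    rw [h7]
    exact h6
  obtain ⟨hVL, hVU⟩ := hV gd (fun p _ => gd_nonneg p) (fun p hp => by
    have := (gd_prime p (hPp p hp)).1
    linarith) (fun p hp h => (gd_prime p (hPp p hp)).2 h) hmer
  set V : ℝ := ∏ p ∈ PZ Y ζ, (1 - gd p) with hVdef
  -- the local factor
  have hVlow : c / (2 * Real.log X) ≤ V := by
    have h6 := HL Y hY3
    rw [hlY] at h6
    refine h6.trans ?_
    unfold Pool.Agent.Y882.SI.lo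
    have hsub2 : PZ Y ζ ⊆ (Icc 1 Y).filter Nat.Prime := by
      intro p hp
      unfold PZ at hp
      rw [mem_filter] at hp ⊢
      exact ⟨hp.1, hp.2.1⟩
    have hfac : ∀ p ∈ (Icc 1 Y).filter Nat.Prime, 0 ≤ 1 - gd p ∧ 1 - gd p ≤ 1 := by
      intro p hp
      have h7 := (gd_prime p (mem_filter.1 hp).2).1
      have h8 := gd_nonneg p
      constructor <;> linarith
    have e1 : ∏ p ∈ (Icc 1 Y).filter Nat.Prime, (1 - (ro (QF 1) 0 p : ℝ) / p) =
        ∏ p ∈ (Icc 1 Y).filter Nat.Prime, (1 - gd p) := by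
      apply prod_congr rfl
      intro p _
      rw [gd_ro]
    rw [e1, ← prod_sdiff hsub2]
    calc (∏ p ∈ (Icc 1 Y).filter Nat.Prime \ PZ Y ζ, (1 - gd p)) * ∏ p ∈ PZ Y ζ, (1 - gd p) ≤
        1 * ∏ p ∈ PZ Y ζ, (1 - gd p) := by
          apply mul_le_mul_of_nonneg_right
          · apply prod_le_one
            · intro p hp
              exact (hfac p (mem_sdiff.1 hp).1).1
            · intro p hp
              exact (hfac p (mem_sdiff.1 hp).1).2
          · exact prod_nonneg fun p hp => (hfac p (hsub2 hp)).1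
      _ = V := one_mul _
  have hV0 : 0 < V := lt_of_lt_of_le (by positivity) hVlow
  -- the error term
  have hHr : (0 : ℝ) ≤ H := Nat.cast_nonneg _
  set C : ℝ := 5 * (1 + aw) * Real.log Y with hCdef
  have hC0 : 0 < C := by
    rw [hCdef, hlY]
    positivity
  have herr : ∀ w : Finset ℕ → ℝ, Fac (PZ Y υ) (pr Y ε₁ υ) Y α' β Kf C w →
      |∑ T ∈ (PZ Y υ).powerset, w T * (cI X H (∏ p ∈ T, p) - H * gd (∏ p ∈ T, p))| ≤
        H * (ε / 2 * V) := by
    intro w hw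
    have h6 := fac_err (PZ Y υ) (pr Y ε₁ υ) hPp hPp2 hsub Y α' β Kf C hC0 w hw ⌊(Y : ℝ) ^ α'⌋₊
      (Bs X ⌊(Y : ℝ) ^ β⌋₊ (2 * ε₁)) (Nat.lt_floor_add_one _) ?_ ?_
      (fun d => cI X H d - H * gd d) (H * (X : ℝ) ^ (-(κ / 2))) ?_
    · refine h6.trans ?_
      have h7 : (Kf : ℝ) * (C * (H * (X : ℝ) ^ (-(κ / 2)))) = H * (Kf * C * (X : ℝ) ^ (-(κ / 2))) := by
        ring
      rw [h7]
      apply mul_le_mul_of_nonneg_left _ hHr
      have hlX0 : 0 < Real.log X := by linarith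
      have h8 : ε / 2 * (c / (2 * Real.log X)) ≤ ε / 2 * V :=
        mul_le_mul_of_nonneg_left hVlow (by positivity)
      refine le_trans ?_ h8
      rw [Real.rpow_neg hX0.le, ← div_eq_mul_inv, div_le_iff₀ (by positivity)]
      have h9 := hX2 X hX2'
      calc (Kf : ℝ) * C = ε / 2 * (c / (2 * Real.log X)) *
            ((Kf * (5 * (1 + aw)) * 4 * (2 / (ε * c))) * (Real.log X) ^ 2) := by
              rw [hCdef, hlY]
              field_simp
              ring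
        _ ≤ ε / 2 * (c / (2 * Real.log X)) * (C1 * (Real.log X) ^ 2) := by
              apply mul_le_mul_of_nonneg_left _ (by positivity)
              apply mul_le_mul_of_nonneg_right _ (by positivity)
              rw [hC1]
              linarith
        _ ≤ ε / 2 * (c / (2 * Real.log X)) * (X : ℝ) ^ (κ / 2) := by
              exact mul_le_mul_of_nonneg_left h9 (by positivity)
    · intro n hn1 hn2 hn3 hn4
      unfold Bs
      rw [mem_filter, mem_Icc]
      refine ⟨⟨hn1, Nat.le_floor hn2⟩, hn3, ?_⟩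
      intro p hp
      have h6 := hn4 hp
      have h7 := hPp2 p h6
      unfold pr at h6
      rw [mem_filter] at h6
      rw [← hYp]
      by_contra hc
      push Not at hc
      exact absurd ((tt_lt Y p ε₁ (by omega) h7.pos).2 hc) (not_lt.2 h6.2.2.1)
    · intro n hn
      unfold Bs at hn
      rw [mem_filter, mem_Icc] at hn
      exact ⟨hn.1.1, hn.2.1⟩
    · intro a b h1 h2 h3
      apply HB X hX1 H hH1 hH2 ⌊(Y : ℝ) ^ β⌋₊ ⌊(Y : ℝ) ^ α'⌋₊ ?_ ?_ a b h1 h2 h3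
      · refine (Nat.floor_le (by positivity)).trans ?_
        rw [hYp]
        exact Real.rpow_le_rpow_of_exponent_le (by linarith) (by linarith)
      · refine (Nat.floor_le (by positivity)).trans ?_
        rw [hYp]
        exact Real.rpow_le_rpow_of_exponent_le (by linarith) (by linarith)
  constructor
  · calc (H : ℝ) * ((fs - ε) * V) = H * ((fs - ε / 2) * V) - H * (ε / 2 * V) := by ring
      _ ≤ H * VV (PZ Y υ) wL gd + ∑ T ∈ (PZ Y υ).powerset, wL T *
          (cI X H (∏ p ∈ T, p) - H * gd (∏ p ∈ T, p)) := by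
          have h6 := mul_le_mul_of_nonneg_left hVL hHr
          have h7 := neg_le_of_abs_le (herr wL fL)
          linarith
      _ = ∑ n ∈ Ioc X (X + H), VV (PZ Y υ) wL (fun p => if p ∣ n ^ 2 + 1 then 1 else 0) :=
          (sum_VV _ hPp wL X H).symm
      _ ≤ _ := sum_le_sum fun n _ => (hN (n ^ 2 + 1)).1
  · refine le_trans (b := ∑ n ∈ Ioc X (X + H), VV (PZ Y υ) wU (fun p => if p ∣ n ^ 2 + 1 then 1 else 0))
      ?_ ?_
    · rw [card_filter]
      push_cast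
      apply sum_le_sum
      intro n _
      refine le_trans (le_of_eq ?_) (hN (n ^ 2 + 1)).2
      congr
    rw [sum_VV _ hPp wU X H]
    have h7 := mul_le_mul_of_nonneg_left hVU hHr
    have h8 := le_of_abs_le (herr wU fU)
    calc (H : ℝ) * VV (PZ Y υ) wU gd + ∑ T ∈ (PZ Y υ).powerset, wU T *
          (cI X H (∏ p ∈ T, p) - H * gd (∏ p ∈ T, p)) ≤
        H * ((F ((α + β) / ζ) + ε / 2) * V) + H * (ε / 2 * V) := add_le_add h7 h8
      _ = _ := by ring

end Pool.Agent.H543.DD
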