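import Pool.Agent.H543.DD.Cop

/-!
# Expanding the square
-/

set_option autoImplicit false

namespace Pool.Agent.H543.DD

open Finset
open scoped Classical

/-- indicator of divisibility -/
noncomputable def dv (n : ℕ) (w : ℤ) : ℝ := if (n : ℤ) ∣ w then 1 else 0

theorem dv_nonneg (n : ℕ) (w : ℤ) : 0 ≤ dv n w := by unfold dv; split_ifs <;> norm_num

/-- the balanced divisor function -/
noncomputable def FF (b : ℕ → ℝ) (B : Finset ℕ) (w : ℤ) : ℝ := ∑ n ∈ B, b n * (dv n w - gd n)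

/-- the sum for one Gaussian divisor -/
noncomputable def SS (X H : ℕ) (b : ℕ → ℝ) (B : Finset ℕ) (x y : ℤ) : ℝ :=
  ∑ u ∈ US X H x y, FF b B (ww x y u)

theorem US_cop (X H : ℕ) (x y u u' : ℤ) (hu : u ∈ US X H x y)
    (hu' : u' ∈ US X H x y) : x ∣ u' - u := by
  unfold US at hu hu'
  rw [mem_filter] at hu hu'
  have h1 : x ∣ y * (u' - u) := by
    have : y * (u' - u) = (y * u' - 1) - (y * u - 1) := by ring
    rw [this]
    exact dvd_sub hu'.2 hu.2
  have hc : IsCoprime x y := by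
    obtain ⟨t, ht⟩ := hu.2
    exact ⟨-t, u, by linear_combination ht⟩
  exact hc.dvd_of_dvd_mul_left h1

/-- the range of `l` -/
theorem US_l (X H x : ℕ) (hx : 1 ≤ x) (y u l : ℤ) (hu : u ∈ US X H x y)
    (hu' : u + x * l ∈ US X H x y) : |l| ≤ (H / (x * x) : ℕ) := by
  have hx0 : (0 : ℤ) < x := by exact_mod_cast hx
  rw [mem_US X H x y _ hx0] at hu hu'
  obtain ⟨_, h1, h2⟩ := hu
  obtain ⟨_, h3, h4⟩ := hu'
  set m : ℤ := (x : ℤ) ^ 2 + y ^ 2 with hm
  have e1 : m * (u + x * l) = m * u + x * (m * l) := by ring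
  rw [e1] at h3 h4
  have h5 : (x : ℤ) * (m * l) < x * H := by linarith
  have h6 : -((x : ℤ) * H) < x * (m * l) := by linarith
  have h7 : m * l < H := lt_of_mul_lt_mul_left h5 hx0.le
  have h8 : -(H : ℤ) < m * l := by
    have : (x : ℤ) * (-(H : ℤ)) < x * (m * l) := by linarith
    exact lt_of_mul_lt_mul_left this hx0.le
  have hm0 : 0 < m := by rw [hm]; positivity
  have h9 : m * |l| < H := by
    have : m * |l| = |m * l| := by rw [abs_mul, abs_of_pos hm0]
    rw [this, abs_lt]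
    exact ⟨h8, h7⟩
  have h10 : ((x * x : ℕ) : ℤ) * |l| ≤ H := by
    have : ((x * x : ℕ) : ℤ) ≤ m := by rw [hm]; push_cast; nlinarith [sq_nonneg y]
    have h11 : ((x * x : ℕ) : ℤ) * |l| ≤ m * |l| := mul_le_mul_of_nonneg_right this (abs_nonneg l)
    linarith
  have h12 : l.natAbs ≤ H / (x * x) := by
    rw [Nat.le_div_iff_mul_le (by positivity)]
    have : (l.natAbs : ℤ) = |l| := Int.natCast_natAbs l
    rw [← this] at h10
    have h13 : x * x * l.natAbs ≤ H := by exact_mod_cast h10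
    linarith
  have : (l.natAbs : ℤ) = |l| := Int.natCast_natAbs l
  rw [← this]
  exact_mod_cast h12

/-- pairs and shifts -/
theorem pairs_l (X H x : ℕ) (hx : 1 ≤ x) (y : ℤ) (f : ℤ → ℤ → ℝ) :
    ∑ u ∈ US X H x y, ∑ u' ∈ (US X H x y).erase u, f u u' =
      ∑ l ∈ (Icc (-((H / (x * x) : ℕ) : ℤ)) (H / (x * x) : ℕ)).erase 0,
        ∑ u ∈ (US X H x y).filter (fun u => u + x * l ∈ US X H x y), f u (u + x * l) := by
  have hx0 : (x : ℤ) ≠ 0 := by
    have : (0 : ℤ) < x := by exact_mod_cast hx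
    exact this.ne'
  have h1 : ∑ l ∈ (Icc (-((H / (x * x) : ℕ) : ℤ)) (H / (x * x) : ℕ)).erase 0,
        ∑ u ∈ (US X H x y).filter (fun u => u + x * l ∈ US X H x y), f u (u + x * l) =
      ∑ u ∈ US X H x y, ∑ l ∈ ((Icc (-((H / (x * x) : ℕ) : ℤ)) (H / (x * x) : ℕ)).erase 0).filter
        (fun l => u + x * l ∈ US X H x y), f u (u + x * l) := by
    simp_rw [sum_filter]
    rw [sum_comm]
  rw [h1]
  apply sum_congr rfl
  intro u hu
  symm
  apply sum_bij (fun l _ => u + x * l)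
  · intro l hl
    rw [mem_filter, mem_erase] at hl
    rw [mem_erase]
    refine ⟨?_, hl.2⟩
    intro h
    have h2 : (x : ℤ) * l = 0 := by linarith
    rcases mul_eq_zero.1 h2 with h3 | h3
    · exact hx0 h3
    · exact hl.1.1 h3
  · intro l _ l' _ h
    have h2 : (x : ℤ) * l = x * l' := by linarith
    exact mul_left_cancel₀ hx0 h2
  · intro u' hu'
    rw [mem_erase] at hu'
    obtain ⟨l, hl⟩ := US_cop X H x y u u' hu hu'.2
    have e : u + x * l = u' := by linarith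
    refine ⟨l, ?_, e⟩
    rw [mem_filter, mem_erase, e]
    refine ⟨⟨?_, ?_⟩, hu'.2⟩
    · rintro rfl
      apply hu'.1
      linarith
    · have h3 := US_l X H x hx y u l hu (by rw [e]; exact hu'.2)
      rw [mem_Icc]
      exact abs_le.1 h3
  · intro l _
    rfl

/-- the combination as a sum -/
theorem D4_eq (X H x : ℕ) (l : ℤ) (n1 n2 : ℕ) :
    D4 X H x l n1 n2 = ∑ y ∈ Ioo (-(x : ℤ)) x,
      ∑ u ∈ (US X H x y).filter (fun u => u + x * l ∈ US X H x y),
        (dv n1 (ww x y u) - gd n1) * (dv n2 (ww x y (u + x * l)) - gd n2) := by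
  have h : ∀ m1 m2 : ℕ, (CC X H x l m1 m2 : ℝ) = ∑ y ∈ Ioo (-(x : ℤ)) x,
      ∑ u ∈ (US X H x y).filter (fun u => u + x * l ∈ US X H x y),
        dv m1 (ww x y u) * dv m2 (ww x y (u + x * l)) := by
    intro m1 m2
    unfold CC
    push_cast
    apply sum_congr rfl
    intro y _
    rw [← filter_filter, card_filter]
    push_cast
    apply sum_congr rfl
    intro u _
    unfold dv
    by_cases h1 : (m1 : ℤ) ∣ ww x y u
    · by_cases h2 : (m2 : ℤ) ∣ ww x y (u + x * l)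
      · rw [if_pos ⟨h1, h2⟩, if_pos h1, if_pos h2]; norm_num
      · rw [if_neg (fun h => h2 h.2), if_neg h2]; ring
    · rw [if_neg (fun h => h1 h.1), if_neg h1]; ring
  have h1 : ∀ w : ℤ, dv 1 w = 1 := by
    intro w
    unfold dv
    rw [if_pos (by simp)]
  unfold D4
  rw [h, h, h, h]
  simp_rw [h1, mul_sum]
  rw [← sum_sub_distrib, ← sum_sub_distrib, ← sum_add_distrib]
  apply sum_congr rfl
  intro y _
  rw [← sum_sub_distrib, ← sum_sub_distrib, ← sum_add_distrib]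
  apply sum_congr rfl
  intro u _
  ring

/-- the bound for the pairs which are not coprime -/
theorem nc_bound (b : ℕ → ℝ) (hb : ∀ n, |b n| ≤ 1) (B : Finset ℕ) (hB : ∀ n ∈ B, 1 ≤ n) (w w' : ℤ) :
    ∑ n1 ∈ B, ∑ n2 ∈ B.filter (fun n2 => ¬ Nat.Coprime n1 n2),
      b n1 * b n2 * ((dv n1 w - gd n1) * (dv n2 w' - gd n2)) ≤
    ∑ p ∈ B.biUnion Nat.primeFactors, (∑ n ∈ B.filter (fun n => p ∣ n), (dv n w + gd n)) *
      (∑ n ∈ B.filter (fun n => p ∣ n), (dv n w' + gd n)) := by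
  have hpos : ∀ (n : ℕ) (v : ℤ), 0 ≤ dv n v + gd n := fun n v =>
    add_nonneg (dv_nonneg n v) (gd_nonneg n)
  have h1 : ∀ n1 n2 : ℕ, b n1 * b n2 * ((dv n1 w - gd n1) * (dv n2 w' - gd n2)) ≤
      (dv n1 w + gd n1) * (dv n2 w' + gd n2) := by
    intro n1 n2
    refine (le_abs_self _).trans ?_
    rw [abs_mul, abs_mul, abs_mul]
    have a1 : ∀ (n : ℕ) (v : ℤ), |dv n v - gd n| ≤ dv n v + gd n := by
      intro n v
      rw [abs_le]
      constructor <;> linarith [dv_nonneg n v, gd_nonneg n]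
    calc |b n1| * |b n2| * (|dv n1 w - gd n1| * |dv n2 w' - gd n2|) ≤
        1 * 1 * ((dv n1 w + gd n1) * (dv n2 w' + gd n2)) := by
          apply mul_le_mul
          · exact mul_le_mul (hb _) (hb _) (abs_nonneg _) zero_le_one
          · exact mul_le_mul (a1 _ _) (a1 _ _) (abs_nonneg _) (hpos _ _)
          · positivity
          · norm_num
      _ = _ := by ring
  have h2 : ∀ p, (∑ n ∈ B.filter (fun n => p ∣ n), (dv n w + gd n)) *
      (∑ n ∈ B.filter (fun n => p ∣ n), (dv n w' + gd n)) =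
      ∑ n1 ∈ B, ∑ n2 ∈ B, if p ∣ n1 ∧ p ∣ n2 then (dv n1 w + gd n1) * (dv n2 w' + gd n2) else 0 := by
    intro p
    rw [sum_mul_sum, sum_filter]
    apply sum_congr rfl
    intro n1 _
    by_cases hp : p ∣ n1
    · rw [if_pos hp, sum_filter]
      apply sum_congr rfl
      intro n2 _
      by_cases hp2 : p ∣ n2
      · rw [if_pos hp2, if_pos ⟨hp, hp2⟩]
      · rw [if_neg hp2, if_neg (fun h => hp2 h.2)]
    · rw [if_neg hp]
      symm
      apply sum_eq_zero
      intro n2 _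
      rw [if_neg (fun h => hp h.1)]
  simp_rw [h2]
  rw [sum_comm]
  apply sum_le_sum
  intro n1 hn1
  rw [sum_comm, sum_filter]
  apply sum_le_sum
  intro n2 hn2
  have hnn : 0 ≤ ∑ p ∈ B.biUnion Nat.primeFactors, (if p ∣ n1 ∧ p ∣ n2 then
      (dv n1 w + gd n1) * (dv n2 w' + gd n2) else 0) := by
    apply sum_nonneg
    intro p _
    split_ifs
    · exact mul_nonneg (hpos _ _) (hpos _ _)
    · exact le_rfl
  by_cases hc : Nat.Coprime n1 n2
  · rw [if_neg (not_not.2 hc)]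
    exact hnn
  · rw [if_pos hc]
    obtain ⟨p, hp, hp1, hp2⟩ := Nat.Prime.not_coprime_iff_dvd.1 hc
    have hmem : p ∈ B.biUnion Nat.primeFactors := by
      rw [mem_biUnion]
      refine ⟨n1, hn1, ?_⟩
      rw [Nat.mem_primeFactors]
      have := hB n1 hn1
      exact ⟨hp, hp1, by omega⟩
    refine (h1 n1 n2).trans ?_
    calc (dv n1 w + gd n1) * (dv n2 w' + gd n2) = (if p ∣ n1 ∧ p ∣ n2 then
          (dv n1 w + gd n1) * (dv n2 w' + gd n2) else 0) := by rw [if_pos ⟨hp1, hp2⟩]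
      _ ≤ _ := by
          apply single_le_sum (f := fun p => if p ∣ n1 ∧ p ∣ n2 then
            (dv n1 w + gd n1) * (dv n2 w' + gd n2) else 0) _ hmem
          intro q _
          split_ifs
          · exact mul_nonneg (hpos _ _) (hpos _ _)
          · exact le_rfl

/-- **The square.** -/
theorem sq_expand (X H x : ℕ) (hx : 1 ≤ x) (b : ℕ → ℝ) (hb : ∀ n, |b n| ≤ 1) (B : Finset ℕ)
    (hB : ∀ n ∈ B, 1 ≤ n) :
    ∑ y ∈ Ioo (-(x : ℤ)) x, (SS X H b B x y) ^ 2 ≤
      ∑ y ∈ Ioo (-(x : ℤ)) x, ∑ u ∈ US X H x y, (FF b B (ww x y u)) ^ 2 +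
      ∑ l ∈ (Icc (-((H / (x * x) : ℕ) : ℤ)) (H / (x * x) : ℕ)).erase 0,
        ∑ n1 ∈ B, ∑ n2 ∈ B.filter (fun n2 => Nat.Coprime n1 n2), |D4 X H x l n1 n2| +
      ∑ p ∈ B.biUnion Nat.primeFactors, ∑ y ∈ Ioo (-(x : ℤ)) x, (∑ u ∈ US X H x y,
        ∑ n ∈ B.filter (fun n => p ∣ n), (dv n (ww x y u) + gd n)) ^ 2 := by
  have hpos : ∀ (n : ℕ) (v : ℤ), 0 ≤ dv n v + gd n := fun n v =>
    add_nonneg (dv_nonneg n v) (gd_nonneg n)
  -- the coprime part and the other part
  set cp : ℤ → ℤ → ℝ := fun w w' => ∑ n1 ∈ B, ∑ n2 ∈ B.filter (fun n2 => Nat.Coprime n1 n2),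
      b n1 * b n2 * ((dv n1 w - gd n1) * (dv n2 w' - gd n2)) with hcp
  set nc : ℤ → ℤ → ℝ := fun w w' => ∑ n1 ∈ B, ∑ n2 ∈ B.filter (fun n2 => ¬ Nat.Coprime n1 n2),
      b n1 * b n2 * ((dv n1 w - gd n1) * (dv n2 w' - gd n2)) with hnc
  have hFF : ∀ w w' : ℤ, FF b B w * FF b B w' = cp w w' + nc w w' := by
    intro w w'
    unfold FF
    rw [sum_mul_sum, hcp, hnc]
    simp only
    rw [← sum_add_distrib]
    apply sum_congr rfl
    intro n1 _
    rw [sum_filter_add_sum_filter_not]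
    apply sum_congr rfl
    intro n2 _
    ring
  have h1 : ∀ y : ℤ, (SS X H b B x y) ^ 2 = ∑ u ∈ US X H x y, (FF b B (ww x y u)) ^ 2 +
      (∑ u ∈ US X H x y, ∑ u' ∈ (US X H x y).erase u, cp (ww x y u) (ww x y u') +
       ∑ u ∈ US X H x y, ∑ u' ∈ (US X H x y).erase u, nc (ww x y u) (ww x y u')) := by
    intro y
    unfold SS
    rw [sq, sum_mul_sum, ← sum_add_distrib, ← sum_add_distrib]
    apply sum_congr rfl
    intro u hu
    rw [← add_sum_erase _ _ hu, sq, ← sum_add_distrib]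
    congr 1
    apply sum_congr rfl
    intro u' _
    exact hFF _ _
  rw [sum_congr rfl (fun y _ => h1 y), sum_add_distrib, sum_add_distrib, ← add_assoc]
  apply add_le_add
  · apply add_le_add le_rfl
    -- coprime part
    have h2 : ∑ y ∈ Ioo (-(x : ℤ)) x, ∑ u ∈ US X H x y, ∑ u' ∈ (US X H x y).erase u,
        cp (ww x y u) (ww x y u') =
        ∑ l ∈ (Icc (-((H / (x * x) : ℕ) : ℤ)) (H / (x * x) : ℕ)).erase 0,
        ∑ n1 ∈ B, ∑ n2 ∈ B.filter (fun n2 => Nat.Coprime n1 n2), b n1 * b n2 * D4 X H x l n1 n2 := by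
      rw [sum_congr rfl (fun y _ => pairs_l X H x hx y (fun u u' => cp (ww x y u) (ww x y u')))]
      rw [sum_comm]
      apply sum_congr rfl
      intro l _
      simp only [hcp]
      simp_rw [D4_eq, mul_sum]
      calc ∑ y ∈ Ioo (-(x : ℤ)) x, ∑ u ∈ (US X H x y).filter (fun u => u + x * l ∈ US X H x y),
            ∑ n1 ∈ B, ∑ n2 ∈ B.filter (fun n2 => Nat.Coprime n1 n2),
            b n1 * b n2 * ((dv n1 (ww x y u) - gd n1) * (dv n2 (ww x y (u + x * l)) - gd n2)) =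
          ∑ y ∈ Ioo (-(x : ℤ)) x, ∑ n1 ∈ B, ∑ u ∈ (US X H x y).filter (fun u => u + x * l ∈ US X H x y),
            ∑ n2 ∈ B.filter (fun n2 => Nat.Coprime n1 n2),
            b n1 * b n2 * ((dv n1 (ww x y u) - gd n1) * (dv n2 (ww x y (u + x * l)) - gd n2)) :=
            sum_congr rfl fun y _ => sum_comm
        _ = ∑ n1 ∈ B, ∑ y ∈ Ioo (-(x : ℤ)) x, ∑ u ∈ (US X H x y).filter (fun u => u + x * l ∈ US X H x y),
            ∑ n2 ∈ B.filter (fun n2 => Nat.Coprime n1 n2),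
            b n1 * b n2 * ((dv n1 (ww x y u) - gd n1) * (dv n2 (ww x y (u + x * l)) - gd n2)) :=
            sum_comm
        _ = ∑ n1 ∈ B, ∑ y ∈ Ioo (-(x : ℤ)) x, ∑ n2 ∈ B.filter (fun n2 => Nat.Coprime n1 n2),
            ∑ u ∈ (US X H x y).filter (fun u => u + x * l ∈ US X H x y),
            b n1 * b n2 * ((dv n1 (ww x y u) - gd n1) * (dv n2 (ww x y (u + x * l)) - gd n2)) :=
            sum_congr rfl fun n1 _ => sum_congr rfl fun y _ => sum_comm
        _ = _ := sum_congr rfl fun n1 _ => sum_comm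
    rw [h2]
    apply sum_le_sum
    intro l _
    apply sum_le_sum
    intro n1 _
    apply sum_le_sum
    intro n2 _
    refine (le_abs_self _).trans ?_
    rw [abs_mul, abs_mul]
    calc |b n1| * |b n2| * |D4 X H x l n1 n2| ≤ 1 * 1 * |D4 X H x l n1 n2| := by
          apply mul_le_mul_of_nonneg_right _ (abs_nonneg _)
          exact mul_le_mul (hb _) (hb _) (abs_nonneg _) zero_le_one
      _ = _ := by ring
  · rw [sum_comm]
    apply sum_le_sum
    intro y _
    calc ∑ u ∈ US X H x y, ∑ u' ∈ (US X H x y).erase u, nc (ww x y u) (ww x y u') ≤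
        ∑ u ∈ US X H x y, ∑ u' ∈ (US X H x y).erase u, ∑ p ∈ B.biUnion Nat.primeFactors,
          (∑ n ∈ B.filter (fun n => p ∣ n), (dv n (ww x y u) + gd n)) *
          (∑ n ∈ B.filter (fun n => p ∣ n), (dv n (ww x y u') + gd n)) :=
          sum_le_sum fun u _ => sum_le_sum fun u' _ => nc_bound b hb B hB _ _
      _ ≤ ∑ u ∈ US X H x y, ∑ u' ∈ US X H x y, ∑ p ∈ B.biUnion Nat.primeFactors,
          (∑ n ∈ B.filter (fun n => p ∣ n), (dv n (ww x y u) + gd n)) *
          (∑ n ∈ B.filter (fun n => p ∣ n), (dv n (ww x y u') + gd n)) := by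
          apply sum_le_sum
          intro u _
          apply sum_le_sum_of_subset_of_nonneg (erase_subset _ _)
          intro u' _ _
          apply sum_nonneg
          intro p _
          exact mul_nonneg (sum_nonneg fun n _ => hpos _ _) (sum_nonneg fun n _ => hpos _ _)
      _ = _ := by
          calc ∑ u ∈ US X H x y, ∑ u' ∈ US X H x y, ∑ p ∈ B.biUnion Nat.primeFactors,
              (∑ n ∈ B.filter (fun n => p ∣ n), (dv n (ww x y u) + gd n)) *
              (∑ n ∈ B.filter (fun n => p ∣ n), (dv n (ww x y u') + gd n)) =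
              ∑ u ∈ US X H x y, ∑ p ∈ B.biUnion Nat.primeFactors, ∑ u' ∈ US X H x y,
              (∑ n ∈ B.filter (fun n => p ∣ n), (dv n (ww x y u) + gd n)) *
              (∑ n ∈ B.filter (fun n => p ∣ n), (dv n (ww x y u') + gd n)) :=
                sum_congr rfl fun u _ => sum_comm
            _ = ∑ p ∈ B.biUnion Nat.primeFactors, ∑ u ∈ US X H x y, ∑ u' ∈ US X H x y,
              (∑ n ∈ B.filter (fun n => p ∣ n), (dv n (ww x y u) + gd n)) *
              (∑ n ∈ B.filter (fun n => p ∣ n), (dv n (ww x y u') + gd n)) := sum_comm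
            _ = _ := by
                apply sum_congr rfl
                intro p _
                rw [sq, sum_mul_sum]

end Pool.Agent.H543.DD
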