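import Pool.Graph.R_seed8.Y882.LSW

/-!
# The coefficients of the linear sieve as functions of the cells of the primes
-/

set_option autoImplicit false

namespace Pool.Agent.H543.DD

open Finset
open Pool.Agent.W23.DC
open Pool.Agent.Y882
open scoped Classical

theorem LL_shift (P : Finset ℕ) (t : ℕ → ℝ) (G : ℕ → ℝ) (k : ℕ) :
    ∀ (b : Bool) (τ ζ : ℝ) (d e : ℕ),
      LL P t G k b τ ζ (d * e) = LL P t (fun x => G (d * x)) k b τ ζ e := by
  induction k with
  | zero =>
    intro b τ ζ d e
    cases b <;> simp [LL]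
  | succ k ih =>
    intro b τ ζ d e
    cases b
    · simp only [LL]
      congr 1
      apply sum_congr rfl
      intro p _
      rw [mul_assoc, ih]
    · simp only [LL]
      congr 1
      apply sum_congr rfl
      intro p _
      rw [mul_assoc, ih]

theorem LL_supp (P : Finset ℕ) (t : ℕ → ℝ) (G : ℕ → ℝ) (k : ℕ) :
    ∀ (b : Bool) (τ ζ : ℝ) (d : ℕ),
      (∀ U ⊆ P.filter (fun p => t p < ζ), G (d * ∏ p ∈ U, p) = 0) → LL P t G k b τ ζ d = 0 := by
  induction k with
  | zero =>
    intro b τ ζ d h
    cases b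
    · simp [LL]
    · have := h ∅ (empty_subset _)
      rw [prod_empty, mul_one] at this
      simp only [LL]
      exact this
  | succ k ih =>
    intro b τ ζ d h
    have h0 : G d = 0 := by
      have := h ∅ (empty_subset _)
      rwa [prod_empty, mul_one] at this
    have hstep : ∀ p ∈ P, t p < ζ → ∀ b' τ', LL P t G k b' τ' (t p) (d * p) = 0 := by
      intro p hp hpζ b' τ'
      apply ih
      intro U hU
      have hpU : p ∉ U := by
        intro h1
        have := (mem_filter.1 (hU h1)).2
        exact lt_irrefl _ this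
      have h2 := h (insert p U) (by
        intro q hq
        rw [mem_insert] at hq
        rw [mem_filter]
        rcases hq with rfl | hq
        · exact ⟨hp, hpζ⟩
        · have h3 := mem_filter.1 (hU hq)
          exact ⟨h3.1, h3.2.trans hpζ⟩)
      rw [prod_insert hpU, ← mul_assoc] at h2
      exact h2
    cases b
    · simp only [LL]
      rw [h0, sum_eq_zero, sub_zero]
      intro p hp
      rw [mem_filter] at hp
      exact hstep p hp.1 hp.2 _ _
    · simp only [LL]
      rw [h0, sum_eq_zero, sub_zero]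
      intro p hp
      rw [mem_filter] at hp
      exact hstep p hp.1 hp.2.1 _ _

theorem lc_zero_of (P : Finset ℕ) (t : ℕ → ℝ) (hs : Siz P t) (k : ℕ) (b : Bool) (τ ζ : ℝ)
    (S : Finset ℕ) (hS : S ⊆ P) (p : ℕ) (hp : p ∈ S) (hpζ : ζ ≤ t p) : lc P t k b τ ζ S = 0 := by
  unfold lc
  apply LL_supp
  intro U hU
  rw [one_mul, if_neg]
  intro h
  have hUP : U ⊆ P := hU.trans (filter_subset _ _)
  have h1 := prod_inj P hs.pr hUP hS h
  rw [h1] at hU
  have h2 := (mem_filter.1 (hU hp)).2
  linarith

theorem lc_one (P : Finset ℕ) (t : ℕ → ℝ) (hs : Siz P t) (k : ℕ) (b : Bool) (τ ζ : ℝ)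
    (S : Finset ℕ) (hS : S ⊆ P) (p : ℕ) (hp : p ∈ P) :
    LL P t (fun e => if e = ∏ q ∈ S, q then (1 : ℝ) else 0) k b τ ζ (1 * p) =
      if p ∈ S then lc P t k b τ ζ (S.erase p) else 0 := by
  have hpp := hs.pr p hp
  rw [one_mul, ← mul_one p, LL_shift]
  split_ifs with h
  · unfold lc
    rw [mul_one] at h
    congr 1
    funext x
    have h1 : ∏ q ∈ S, q = p * ∏ q ∈ S.erase p, q := (mul_prod_erase S (fun q => q) h).symm
    rw [h1]
    have h2 : (p * x = p * ∏ q ∈ S.erase p, q) ↔ (x = ∏ q ∈ S.erase p, q) :=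
      Nat.mul_right_inj hpp.ne_zero
    rw [mul_one]
    exact if_congr h2 rfl rfl
  · apply LL_supp
    intro U _
    rw [if_neg]
    intro h1
    rw [mul_one] at h
    apply h
    have h2 : p ∣ ∏ q ∈ S, q := by
      rw [← h1]
      exact (dvd_mul_right _ _)
    rw [hpp.prime.dvd_finsetProd_iff] at h2
    obtain ⟨q, hq, hpq⟩ := h2
    have := (Nat.prime_dvd_prime_iff_eq hpp (hs.pr q (hS hq))).1 hpq
    rw [this]
    exact hq

/-- the recursion for the coefficients -/
theorem lc_cons (P : Finset ℕ) (t : ℕ → ℝ) (hs : Siz P t) (k : ℕ) (b : Bool) (τ ζ : ℝ)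
    (S : Finset ℕ) (hS : S ⊆ P) (p : ℕ) (hp : p ∈ P) (hpS : ∀ q ∈ S, q < p) :
    lc P t (k + 1) b τ ζ (insert p S) =
      if t p < ζ ∧ (b = true → 3 * t p < τ) then -lc P t k (!b) (τ - t p) (t p) S else 0 := by
  have hpnS : p ∉ S := fun h => lt_irrefl _ (hpS p h)
  have hins : insert p S ⊆ P := by
    intro q hq
    rw [mem_insert] at hq
    rcases hq with rfl | hq
    · exact hp
    · exact hS hq
  have h1 : (1 : ℕ) ≠ ∏ q ∈ insert p S, q := by
    rw [prod_insert hpnS]
    intro h
    have := Nat.eq_one_of_mul_eq_one_right h.symm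
    exact (hs.pr p hp).ne_one this
  -- the terms
  have hterm : ∀ q ∈ P, ∀ b' τ', q ≠ p →
      LL P t (fun e => if e = ∏ r ∈ insert p S, r then (1 : ℝ) else 0) k b' τ' (t q) (1 * q) = 0 := by
    intro q hq b' τ' hqp
    rw [lc_one P t hs k b' τ' (t q) (insert p S) hins q hq]
    split_ifs with h
    · apply lc_zero_of P t hs k b' τ' (t q) _ ((erase_subset _ _).trans hins) p
      · rw [mem_erase]
        exact ⟨Ne.symm hqp, mem_insert_self _ _⟩
      · rw [mem_insert] at h
        rcases h with h | h
        · exact absurd h hqp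
        · exact ((hs.mono q hq p hp).2 (hpS q h)).le
    · rfl
  have hterm2 : ∀ b' τ', LL P t (fun e => if e = ∏ r ∈ insert p S, r then (1 : ℝ) else 0) k b' τ'
      (t p) (1 * p) = lc P t k b' τ' (t p) S := by
    intro b' τ'
    rw [lc_one P t hs k b' τ' (t p) (insert p S) hins p hp, if_pos (mem_insert_self _ _),
      erase_insert hpnS]
  have hgen : ∀ (Q : Finset ℕ) (b' : Bool), Q ⊆ P →
      ∑ q ∈ Q, LL P t (fun e => if e = ∏ r ∈ insert p S, r then (1 : ℝ) else 0) k b' (τ - t q) (t q)
        (1 * q) = if p ∈ Q then lc P t k b' (τ - t p) (t p) S else 0 := by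
    intro Q b' hQ
    split_ifs with h
    · rw [sum_eq_single p]
      · exact hterm2 _ _
      · intro q hq hqp
        exact hterm q (hQ hq) _ _ hqp
      · intro h'; exact absurd h h'
    · apply sum_eq_zero
      intro q hq
      apply hterm q (hQ hq)
      rintro rfl
      exact h hq
  unfold lc
  cases b
  · simp only [LL]
    rw [if_neg h1, hgen _ _ (filter_subset _ _)]
    simp only [mem_filter, Bool.not_false, Bool.false_eq_true, false_imp_iff, and_true, hp, true_and]
    split_ifs
    · rw [zero_sub]; rfl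
    · rw [sub_zero]
  · simp only [LL]
    rw [if_neg h1, hgen _ _ (filter_subset _ _)]
    simp only [mem_filter, Bool.not_true, forall_const, hp, true_and]
    split_ifs
    · rw [zero_sub]; rfl
    · rw [sub_zero]

theorem lc_nil (P : Finset ℕ) (t : ℕ → ℝ) (hs : Siz P t) (k : ℕ) (b : Bool) (τ ζ : ℝ) :
    lc P t (k + 1) b τ ζ ∅ = 1 := by
  have hterm : ∀ q ∈ P, ∀ b' τ', LL P t (fun e => if e = ∏ r ∈ (∅ : Finset ℕ), r then (1 : ℝ) else 0)
      k b' τ' (t q) (1 * q) = 0 := by
    intro q hq b' τ'
    rw [lc_one P t hs k b' τ' (t q) ∅ (empty_subset _) q hq]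
    simp
  unfold lc
  cases b
  · simp only [LL]
    rw [if_pos (by simp), sum_eq_zero, sub_zero]
    intro q hq
    exact hterm q (mem_filter.1 hq).1 _ _
  · simp only [LL]
    rw [if_pos (by simp), sum_eq_zero, sub_zero]
    intro q hq
    exact hterm q (mem_filter.1 hq).1 _ _

/-- the coefficients as a function of the list of the cells, largest first; `L` is the level -/
noncomputable def LCc : ℕ → Bool → ℤ → List ℕ → ℝ
  | 0, true, _, [] => 1
  | 0, true, _, _ :: _ => 0
  | 0, false, _, _ => 0
  | _ + 1, _, _, [] => 1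
  | k + 1, true, L, j :: l => if 3 * (j : ℤ) < L then -LCc k false (L - j) l else 0
  | k + 1, false, L, j :: l => -LCc k true (L - j) l

theorem LCc_abs (k : ℕ) : ∀ (b : Bool) (L : ℤ) (l : List ℕ), |LCc k b L l| ≤ 1 := by
  induction k with
  | zero =>
    intro b L l
    cases b
    · simp [LCc]
    · cases l <;> simp [LCc]
  | succ k ih =>
    intro b L l
    cases l with
    | nil => simp [LCc]
    | cons j l =>
      cases b
      · simp only [LCc]
        rw [abs_neg]
        exact ih _ _ _
      · simp only [LCc]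
        split_ifs
        · rw [abs_neg]
          exact ih _ _ _
        · simp

/-- the sizes: `n t = cell + small part` -/
structure Cel (P : Finset ℕ) (t : ℕ → ℝ) (n : ℕ) (c : ℕ → ℕ) (θ : ℝ) : Prop where
  n0 : 0 < n
  lo : ∀ p ∈ P, (c p : ℝ) ≤ n * t p
  hi : ∀ p ∈ P, n * t p ≤ c p + θ
  θ0 : 0 ≤ θ

theorem lc_LCc (P : Finset ℕ) (t : ℕ → ℝ) (hs : Siz P t) (n : ℕ) (c : ℕ → ℕ) (θ : ℝ)
    (hc : Cel P t n c θ) (k : ℕ) : ∀ (b : Bool) (τ ζ σ : ℝ) (L : ℤ) (l : List ℕ),
      n * τ = L - σ → 1 / 2 ≤ σ → σ + (k + 3) * θ < 1 → l.Pairwise (· > ·) →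
      (∀ p ∈ l, p ∈ P) → (∀ p ∈ l, t p < ζ) →
      lc P t k b τ ζ l.toFinset = LCc k b L (l.map c) := by
  have hn0 : (0 : ℝ) < n := by exact_mod_cast hc.n0
  induction k with
  | zero =>
    intro b τ ζ σ L l _ _ _ hl hP _
    cases b
    · simp [lc, LL, LCc]
    · cases l with
      | nil => simp [lc, LL, LCc]
      | cons p l =>
        simp only [lc, LL, LCc, List.map_cons]
        rw [if_neg]
        intro h
        have h1 : p ∣ ∏ q ∈ (p :: l).toFinset, q := dvd_prod_of_mem (fun q => q) (by simp)
        rw [← h] at h1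
        exact (hs.pr p (hP p (by simp))).not_dvd_one h1
  | succ k ih =>
    intro b τ ζ σ L l hτ hσ hσ2 hl hP hζ
    cases l with
    | nil =>
      rw [List.toFinset_nil, lc_nil P t hs]
      simp [LCc]
    | cons p l =>
      have hpP : p ∈ P := hP p (by simp)
      rw [List.pairwise_cons] at hl
      have hlP : ∀ q ∈ l, q ∈ P := fun q hq => hP q (by simp [hq])
      have hS : l.toFinset ⊆ P := by
        intro q hq
        exact hlP q (List.mem_toFinset.1 hq)
      rw [List.toFinset_cons, lc_cons P t hs k b τ ζ l.toFinset hS p hpP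
        (fun q hq => hl.1 q (List.mem_toFinset.1 hq)), List.map_cons]
      have hpζ : t p < ζ := hζ p (by simp)
      have h1 := hc.lo p hpP
      have h2 := hc.hi p hpP
      have hθ := hc.θ0
      have hkθ : 0 ≤ (k : ℝ) * θ := by positivity
      have hrec := ih (!b) (τ - t p) (t p) (σ + (n * t p - c p)) (L - c p) l (by
        push_cast
        linear_combination hτ) (by linarith) (by
        push_cast at hσ2
        nlinarith) hl.2 hlP (fun q hq => (hs.mono q (hlP q hq) p hpP).2 (hl.1 q hq))
      cases b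
      · rw [if_pos ⟨hpζ, fun h => by simp at h⟩]
        simp only [LCc, Bool.not_false] at hrec ⊢
        rw [hrec]
      · have hiff : (3 * t p < τ) ↔ (3 * (c p : ℤ) < L) := by
          push_cast at hσ2
          constructor
          · intro h
            have h3 : 3 * (n * t p) < L - σ := by
              rw [← hτ]
              have := mul_lt_mul_of_pos_left h hn0
              linarith
            have h4 : (3 * (c p : ℤ) : ℝ) < (L : ℝ) := by
              push_cast
              linarith
            exact_mod_cast h4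
          · intro h
            have h3 : 3 * (c p : ℤ) + 1 ≤ L := h
            have h4 : 3 * (c p : ℝ) + 1 ≤ (L : ℝ) := by exact_mod_cast h3
            have h5 : n * (3 * t p) < n * τ := by
              rw [hτ]
              nlinarith
            exact lt_of_mul_lt_mul_left h5 hn0.le
        simp only [LCc, Bool.not_true] at hrec ⊢
        by_cases h3 : 3 * (c p : ℤ) < L
        · rw [if_pos ⟨hpζ, fun _ => hiff.2 h3⟩, if_pos h3, hrec]
        · rw [if_neg (fun h => h3 (hiff.1 (h.2 trivial))), if_neg h3]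

end Pool.Agent.H543.DD
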