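import Pool.Agent.H543.DD.Ty1

/-!
# Weights which depend on the cells of the primes are factorable
-/

set_option autoImplicit false

namespace Pool.Agent.H543.DD

open Finset
open Pool.Agent.W23.DC
open Pool.Agent.Y882
open scoped Classical

/-- the cells of the elements of `T` -/
def typ (c : ℕ → ℕ) (T : Finset ℕ) : Multiset ℕ := T.val.map c

/-- the size of the cells -/
def cs (σ : Multiset ℕ) : ℕ := (σ.map (fun j => j + 1)).sum

theorem typ_split (c : ℕ → ℕ) (T U : Finset ℕ) (h : U ⊆ T) : typ c U + typ c (T \ U) = typ c T := by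
  unfold typ
  rw [← Multiset.map_add]
  congr 1
  rw [sdiff_val]
  exact add_tsub_cancel_of_le (val_le_iff.2 h)

theorem typ_card (c : ℕ → ℕ) (T : Finset ℕ) : Multiset.card (typ c T) = T.card := by
  unfold typ
  rw [Multiset.card_map]
  rfl

theorem cs_typ (c : ℕ → ℕ) (T : Finset ℕ) : cs (typ c T) = ∑ p ∈ T, (c p + 1) := by
  unfold cs typ
  rw [Multiset.map_map]
  rfl

theorem cs_add (σ σ' : Multiset ℕ) : cs (σ + σ') = cs σ + cs σ' := by
  unfold cs
  rw [Multiset.map_add, Multiset.sum_add]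

theorem powerset_map' (c : ℕ → ℕ) (s : Multiset ℕ) :
    (s.map c).powerset = s.powerset.map (Multiset.map c) := by
  induction s using Multiset.induction with
  | empty => simp
  | cons a s ih =>
    rw [Multiset.map_cons, Multiset.powerset_cons, Multiset.powerset_cons, Multiset.map_add, ih,
      Multiset.map_map, Multiset.map_map]
    congr 1
    apply Multiset.map_congr rfl
    intro x _
    simp

theorem powerset_val' (T : Finset ℕ) : T.powerset.val.map Finset.val = T.val.powerset := by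
  simp [Finset.powerset, Multiset.map_pmap, Multiset.pmap_eq_map, Multiset.map_id']

theorem count_sub (c : ℕ → ℕ) (T : Finset ℕ) (σ1 : Multiset ℕ) :
    (T.powerset.filter (fun U => typ c U = σ1)).card = (typ c T).powerset.count σ1 := by
  have h1 : (typ c T).powerset = T.powerset.val.map (typ c) := by
    unfold typ
    rw [powerset_map', ← powerset_val', Multiset.map_map]
    rfl
  rw [h1, Multiset.count_map]
  rw [card_def, filter_val]
  congr 1
  apply Multiset.filter_congr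
  intro U _
  exact eq_comm

theorem sort_typ (c : ℕ → ℕ) (T : Finset ℕ) (hc : ∀ p ∈ T, ∀ q ∈ T, p ≤ q → c p ≤ c q) :
    (T.sort (· ≥ ·)).map c = (typ c T).sort (· ≥ ·) := by
  have h1 : ((T.sort (· ≥ ·)).map c).Pairwise (· ≥ ·) := by
    rw [List.pairwise_map]
    apply List.Pairwise.imp_of_mem _ (T.pairwise_sort (· ≥ ·))
    intro a b ha hb hab
    exact hc b ((Finset.mem_sort _).1 hb) a ((Finset.mem_sort _).1 ha) hab
  have h2 : ((typ c T).sort (· ≥ ·)).Pairwise (· ≥ ·) := Multiset.pairwise_sort _ _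
  apply List.Perm.eq_of_pairwise' h1 h2
  rw [← Multiset.coe_eq_coe, Multiset.sort_eq, ← Multiset.map_coe, Finset.sort_eq]
  rfl

/-- factorable weights -/
def Fac (P P2 : Finset ℕ) (Y : ℕ) (α β : ℝ) (K : ℕ) (C : ℝ) (w : Finset ℕ → ℝ) : Prop :=
  ∃ (ι : Type) (I : Finset ι) (u v : ι → Finset ℕ → ℝ), I.card ≤ K ∧
    (∀ i ∈ I, ∀ T, |u i T| ≤ C ∧ |v i T| ≤ 1) ∧
    (∀ i ∈ I, ∀ T, u i T ≠ 0 → T ⊆ P ∧ ((∏ p ∈ T, p : ℕ) : ℝ) ≤ (Y : ℝ) ^ α) ∧
    (∀ i ∈ I, ∀ T, v i T ≠ 0 → T ⊆ P2 ∧ ((∏ p ∈ T, p : ℕ) : ℝ) ≤ (Y : ℝ) ^ β) ∧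
    ∀ T ⊆ P, w T = ∑ i ∈ I, ∑ U ∈ T.powerset, u i U * v i (T \ U)

theorem prod_cs (Y n : ℕ) (hY : 1 ≤ Y) (hn : 0 < n) (c : ℕ → ℕ) (U : Finset ℕ)
    (hU : ∀ p ∈ U, (p : ℝ) ≤ (Y : ℝ) ^ (((c p : ℝ) + 1) / n)) (A : ℝ) (h : (cs (typ c U) : ℝ) ≤ A) :
    ((∏ p ∈ U, p : ℕ) : ℝ) ≤ (Y : ℝ) ^ (A / n) := by
  have hY1 : (1 : ℝ) ≤ Y := by exact_mod_cast hY
  have hn0 : (0 : ℝ) < n := by exact_mod_cast hn
  push_cast
  calc ∏ p ∈ U, (p : ℝ) ≤ ∏ p ∈ U, (Y : ℝ) ^ (((c p : ℝ) + 1) / n) :=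
        prod_le_prod (fun p _ => Nat.cast_nonneg p) hU
    _ = (Y : ℝ) ^ (∑ p ∈ U, (((c p : ℝ) + 1) / n)) :=
        (Real.rpow_sum_of_pos (by linarith) _ _).symm
    _ = (Y : ℝ) ^ ((cs (typ c U) : ℝ) / n) := by
        congr 1
        rw [cs_typ, ← sum_div]
        push_cast
        rfl
    _ ≤ _ := by
        apply Real.rpow_le_rpow_of_exponent_le hY1
        exact div_le_div_of_nonneg_right h hn0.le

/-- **weights which depend on the cells are factorable** -/
theorem fac_type (P : Finset ℕ) (Y n : ℕ) (hY : 1 ≤ Y) (hn : 0 < n) (c : ℕ → ℕ) (Nc : ℕ)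
    (hc : ∀ p ∈ P, c p < Nc) (hP : ∀ p ∈ P, (p : ℝ) ≤ (Y : ℝ) ^ (((c p : ℝ) + 1) / n))
    (Λ : Multiset ℕ → ℝ) (C : ℝ) (hC : ∀ σ, |Λ σ| ≤ C) (A B : ℝ) (M : ℕ)
    (hM : ∀ T ⊆ P, Λ (typ c T) ≠ 0 → T.card ≤ M)
    (hs : ∀ T ⊆ P, Λ (typ c T) ≠ 0 → ∃ U ⊆ T, (cs (typ c U) : ℝ) ≤ A ∧ (cs (typ c (T \ U)) : ℝ) ≤ B) :
    Fac P P Y (A / n) (B / n) ((M + 1) ^ Nc) C (fun T => Λ (typ c T)) := by
  set Sg : Finset (Multiset ℕ) := (P.powerset.filter (fun T => Λ (typ c T) ≠ 0)).image (typ c) with hSg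
  have hex : ∀ σ ∈ Sg, ∃ σ1 σ2 : Multiset ℕ, σ1 + σ2 = σ ∧ (cs σ1 : ℝ) ≤ A ∧ (cs σ2 : ℝ) ≤ B := by
    intro σ hσ
    rw [hSg, mem_image] at hσ
    obtain ⟨T, hT, rfl⟩ := hσ
    rw [mem_filter, mem_powerset] at hT
    obtain ⟨U, hU, h1, h2⟩ := hs T hT.1 hT.2
    exact ⟨typ c U, typ c (T \ U), typ_split c T U hU, h1, h2⟩
  choose! s1 s2 hs12 using hex
  have hC0 : 0 ≤ C := (abs_nonneg _).trans (hC 0)
  refine ⟨Multiset ℕ, Sg, fun σ U => if U ⊆ P ∧ typ c U = s1 σ then
      Λ σ / (σ.powerset.count (s1 σ) : ℝ) else 0,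
    fun σ V => if V ⊆ P ∧ typ c V = s2 σ then 1 else 0, ?_, ?_, ?_, ?_, ?_⟩
  · -- number of types
    have h1 : Sg.card ≤ (Fintype.piFinset (fun _ : Fin Nc => range (M + 1))).card := by
      apply card_le_card_of_injOn (fun σ => fun j : Fin Nc => σ.count (j : ℕ))
      · intro σ hσ
        rw [mem_coe, hSg, mem_image] at hσ
        obtain ⟨T, hT, rfl⟩ := hσ
        rw [mem_filter, mem_powerset] at hT
        have h2 := hM T hT.1 hT.2
        simp only [mem_coe, Fintype.mem_piFinset, mem_range]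
        intro j
        have h3 : (typ c T).count (j : ℕ) ≤ Multiset.card (typ c T) := Multiset.count_le_card _ _
        rw [typ_card] at h3
        omega
      · intro σ hσ σ' hσ' h
        rw [mem_coe, hSg, mem_image] at hσ hσ'
        obtain ⟨T, hT, rfl⟩ := hσ
        obtain ⟨T', hT', rfl⟩ := hσ'
        rw [mem_filter, mem_powerset] at hT hT'
        ext j
        by_cases hj : j < Nc
        · exact congrFun h ⟨j, hj⟩
        · have h3 : ∀ S ⊆ P, (typ c S).count j = 0 := by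
            intro S hS
            rw [Multiset.count_eq_zero]
            intro h4
            unfold typ at h4
            rw [Multiset.mem_map] at h4
            obtain ⟨p, hp, hpj⟩ := h4
            exact hj (hpj ▸ hc p (hS hp))
          rw [h3 T hT.1, h3 T' hT'.1]
    refine h1.trans (le_of_eq ?_)
    rw [Fintype.card_piFinset]
    simp
  · intro σ hσ T
    constructor
    · simp only
      split_ifs
      · rw [abs_div]
        have h1 : s1 σ ≤ σ := by
          obtain ⟨h2, _⟩ := hs12 σ hσ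
          calc s1 σ ≤ s1 σ + s2 σ := Multiset.le_add_right _ _
            _ = σ := h2
        have h2 : 1 ≤ σ.powerset.count (s1 σ) :=
          Multiset.one_le_count_iff_mem.2 (Multiset.mem_powerset.2 h1)
        have h3 : (1 : ℝ) ≤ (σ.powerset.count (s1 σ) : ℝ) := by exact_mod_cast h2
        rw [abs_of_nonneg (by linarith : (0 : ℝ) ≤ (σ.powerset.count (s1 σ) : ℝ))]
        exact (div_le_self (abs_nonneg _) h3).trans (hC σ)
      · rw [abs_zero]; exact hC0
    · simp only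
      split_ifs <;> norm_num
  · intro σ hσ T hT
    simp only at hT
    split_ifs at hT with h
    · refine ⟨h.1, ?_⟩
      apply prod_cs Y n hY hn c T (fun p hp => hP p (h.1 hp)) A
      rw [h.2]
      exact (hs12 σ hσ).2.1
    · exact absurd rfl hT
  · intro σ hσ T hT
    simp only at hT
    split_ifs at hT with h
    · refine ⟨h.1, ?_⟩
      apply prod_cs Y n hY hn c T (fun p hp => hP p (h.1 hp)) B
      rw [h.2]
      exact (hs12 σ hσ).2.2
    · exact absurd rfl hT
  · intro T hT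
    simp only
    have hz : ∀ σ ∈ Sg, σ ≠ typ c T → ∑ U ∈ T.powerset, (if U ⊆ P ∧ typ c U = s1 σ then
        Λ σ / (σ.powerset.count (s1 σ) : ℝ) else 0) * (if T \ U ⊆ P ∧ typ c (T \ U) = s2 σ then
          (1 : ℝ) else 0) = 0 := by
      intro σ hσ hne
      apply sum_eq_zero
      intro U hU
      rw [mem_powerset] at hU
      by_cases h1 : U ⊆ P ∧ typ c U = s1 σ
      · by_cases h2 : T \ U ⊆ P ∧ typ c (T \ U) = s2 σ
        · exfalso
          apply hne
          rw [← (hs12 σ hσ).1, ← h1.2, ← h2.2]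
          exact typ_split c T U hU
        · rw [if_neg h2, mul_zero]
      · rw [if_neg h1, zero_mul]
    by_cases hmem : typ c T ∈ Sg
    · rw [sum_eq_single (typ c T) (fun σ hσ hne => hz σ hσ hne) (fun h => absurd hmem h)]
      obtain ⟨h2, _, _⟩ := hs12 (typ c T) hmem
      have h1 : s1 (typ c T) ≤ typ c T := by
        calc s1 (typ c T) ≤ s1 (typ c T) + s2 (typ c T) := Multiset.le_add_right _ _
          _ = typ c T := h2
      have h3 : 1 ≤ (typ c T).powerset.count (s1 (typ c T)) :=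
        Multiset.one_le_count_iff_mem.2 (Multiset.mem_powerset.2 h1)
      have h4 : ((typ c T).powerset.count (s1 (typ c T)) : ℝ) ≠ 0 := by
        have : (0 : ℝ) < ((typ c T).powerset.count (s1 (typ c T)) : ℝ) := by exact_mod_cast h3
        exact this.ne'
      have h5 : ∀ U ∈ T.powerset, (if U ⊆ P ∧ typ c U = s1 (typ c T) then
        Λ (typ c T) / ((typ c T).powerset.count (s1 (typ c T)) : ℝ) else 0) *
          (if T \ U ⊆ P ∧ typ c (T \ U) = s2 (typ c T) then (1 : ℝ) else 0) =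
          if typ c U = s1 (typ c T) then
            Λ (typ c T) / ((typ c T).powerset.count (s1 (typ c T)) : ℝ) else 0 := by
        intro U hU
        rw [mem_powerset] at hU
        by_cases h6 : typ c U = s1 (typ c T)
        · have h7 : typ c (T \ U) = s2 (typ c T) := by
            have h8 := typ_split c T U hU
            rw [h6] at h8
            exact Multiset.add_right_inj.1 (h8.trans h2.symm)
          rw [if_pos ⟨hU.trans hT, h6⟩, if_pos ⟨sdiff_subset.trans hT, h7⟩, if_pos h6, mul_one]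
        · rw [if_neg (fun h => h6 h.2), if_neg h6, zero_mul]
      rw [sum_congr rfl h5, ← sum_filter, sum_const, nsmul_eq_mul, count_sub]
      field_simp
    · rw [sum_eq_zero (fun σ hσ => hz σ hσ (fun h => hmem (h ▸ hσ)))]
      by_contra h
      apply hmem
      rw [hSg, mem_image]
      exact ⟨T, by rw [mem_filter, mem_powerset]; exact ⟨hT, h⟩, rfl⟩

end Pool.Agent.H543.DD
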