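import Pool.Agent.H543.DD.Ty2

/-!
# Factorable weights: closure properties and the error term
-/

set_option autoImplicit false

namespace Pool.Agent.H543.DD

open Finset
open scoped Classical

theorem fac_mono (P P2 : Finset ℕ) (Y : ℕ) (hY : 1 ≤ Y) (α β α' β' : ℝ) (K K' : ℕ) (C C' : ℝ)
    (w : Finset ℕ → ℝ) (h : Fac P P2 Y α β K C w) (hα : α ≤ α') (hβ : β ≤ β') (hK : K ≤ K')
    (hC : C ≤ C') : Fac P P2 Y α' β' K' C' w := by
  have hY1 : (1 : ℝ) ≤ Y := by exact_mod_cast hY
  obtain ⟨ι, I, u, v, h1, h2, h3, h4, h5⟩ := h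
  refine ⟨ι, I, u, v, h1.trans hK, fun i hi T => ⟨(h2 i hi T).1.trans hC, (h2 i hi T).2⟩, ?_, ?_, h5⟩
  · intro i hi T hT
    exact ⟨(h3 i hi T hT).1, (h3 i hi T hT).2.trans (Real.rpow_le_rpow_of_exponent_le hY1 hα)⟩
  · intro i hi T hT
    exact ⟨(h4 i hi T hT).1, (h4 i hi T hT).2.trans (Real.rpow_le_rpow_of_exponent_le hY1 hβ)⟩

theorem fac_congr (P P2 : Finset ℕ) (Y : ℕ) (α β : ℝ) (K : ℕ) (C : ℝ) (w w' : Finset ℕ → ℝ)
    (h : Fac P P2 Y α β K C w) (hw : ∀ T ⊆ P, w' T = w T) : Fac P P2 Y α β K C w' := by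
  obtain ⟨ι, I, u, v, h1, h2, h3, h4, h5⟩ := h
  exact ⟨ι, I, u, v, h1, h2, h3, h4, fun T hT => (hw T hT).trans (h5 T hT)⟩

theorem fac_zero (P P2 : Finset ℕ) (Y : ℕ) (α β : ℝ) (K : ℕ) (C : ℝ) :
    Fac P P2 Y α β K C (fun _ => 0) := by
  refine ⟨ℕ, ∅, fun _ _ => 0, fun _ _ => 0, by simp, by simp, by simp, by simp, ?_⟩
  intro T _
  simp

theorem fac_add (P P2 : Finset ℕ) (Y : ℕ) (α β : ℝ) (K K' : ℕ) (C : ℝ) (w w' : Finset ℕ → ℝ)
    (h : Fac P P2 Y α β K C w) (h' : Fac P P2 Y α β K' C w') :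
    Fac P P2 Y α β (K + K') C (fun T => w T + w' T) := by
  obtain ⟨ι, I, u, v, h1, h2, h3, h4, h5⟩ := h
  obtain ⟨ι', I', u', v', h1', h2', h3', h4', h5'⟩ := h'
  refine ⟨ι ⊕ ι', I.disjSum I', Sum.elim u u', Sum.elim v v', ?_, ?_, ?_, ?_, ?_⟩
  · rw [card_disjSum]
    exact Nat.add_le_add h1 h1'
  · intro i hi T
    rcases i with i | i
    · exact h2 i (inl_mem_disjSum.1 hi) T
    · exact h2' i (inr_mem_disjSum.1 hi) T
  · intro i hi T hT
    rcases i with i | i
    · exact h3 i (inl_mem_disjSum.1 hi) T hT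
    · exact h3' i (inr_mem_disjSum.1 hi) T hT
  · intro i hi T hT
    rcases i with i | i
    · exact h4 i (inl_mem_disjSum.1 hi) T hT
    · exact h4' i (inr_mem_disjSum.1 hi) T hT
  · intro T hT
    beta_reduce
    rw [h5 T hT, h5' T hT, sum_disjSum]
    rfl

theorem fac_neg (P P2 : Finset ℕ) (Y : ℕ) (α β : ℝ) (K : ℕ) (C : ℝ) (w : Finset ℕ → ℝ)
    (h : Fac P P2 Y α β K C w) : Fac P P2 Y α β K C (fun T => -w T) := by
  obtain ⟨ι, I, u, v, h1, h2, h3, h4, h5⟩ := h
  refine ⟨ι, I, fun i T => -u i T, v, h1, ?_, ?_, h4, ?_⟩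
  · intro i hi T
    rw [abs_neg]
    exact h2 i hi T
  · intro i hi T hT
    exact h3 i hi T (fun h => hT (by simp only; rw [h, neg_zero]))
  · intro T hT
    beta_reduce
    rw [h5 T hT, ← sum_neg_distrib]
    apply sum_congr rfl
    intro i _
    rw [← sum_neg_distrib]
    apply sum_congr rfl
    intro U _
    ring

theorem fac_sum (P P2 : Finset ℕ) (Y : ℕ) (α β : ℝ) (K : ℕ) (C : ℝ) (S : Finset ℕ)
    (w : ℕ → Finset ℕ → ℝ) (h : ∀ j ∈ S, Fac P P2 Y α β K C (w j)) :
    Fac P P2 Y α β (S.card * K) C (fun T => ∑ j ∈ S, w j T) := by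
  induction S using Finset.induction_on with
  | empty =>
    simp only [sum_empty, card_empty, zero_mul]
    exact fac_zero _ _ _ _ _ _ _
  | insert a S ha ih =>
    have h1 := fac_add P P2 Y α β K (S.card * K) C (w a) (fun T => ∑ j ∈ S, w j T)
      (h a (mem_insert_self _ _)) (ih fun j hj => h j (mem_insert_of_mem hj))
    have e : K + S.card * K = (insert a S).card * K := by
      rw [card_insert_of_notMem ha]
      ring
    rw [e] at h1
    apply fac_congr _ _ _ _ _ _ _ _ _ h1
    intro T _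
    rw [sum_insert ha]

/-- one additional prime -/
theorem fac_insert (P R : Finset ℕ) (hd : Disjoint P R) (Y : ℕ) (hY : 1 ≤ Y) (α β γ : ℝ) (K : ℕ)
    (C a : ℝ) (ha : 0 ≤ a) (w0 : Finset ℕ → ℝ) (h : Fac P P Y α β K C w0) (Rj : Finset ℕ) (hRj : Rj ⊆ R)
    (ω : ℕ → ℝ) (hω : ∀ q ∈ Rj, |ω q| ≤ a) (hq : ∀ q ∈ Rj, (q : ℝ) ≤ (Y : ℝ) ^ γ) (hC : 0 ≤ C) :
    Fac (P ∪ R) (P ∪ R) Y (γ + α) β K (a * C) (fun T => ∑ q ∈ Rj, if q ∈ T ∧ T.erase q ⊆ P then
      ω q * w0 (T.erase q) else 0) := by
  have hY0 : (0 : ℝ) < Y := by exact_mod_cast hY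
  obtain ⟨ι, I, u, v, h1, h2, h3, h4, h5⟩ := h
  have huniq : ∀ (U : Finset ℕ) (q q' : ℕ), q ∈ Rj → q' ∈ Rj → q ∈ U → U.erase q ⊆ P → q' ∈ U → q' = q := by
    intro U q q' hq hq' hqU hU hqU'
    by_contra hne
    have h6 : q' ∈ P := hU (mem_erase.2 ⟨hne, hqU'⟩)
    exact (disjoint_left.1 hd) h6 (hRj hq')
  have hone : ∀ (f : ℕ → Finset ℕ → ℝ) (U : Finset ℕ), (∑ q ∈ Rj, if q ∈ U ∧ U.erase q ⊆ P then
      f q U else 0) ≠ 0 → ∃ q ∈ Rj, q ∈ U ∧ U.erase q ⊆ P ∧ (∑ q ∈ Rj, if q ∈ U ∧ U.erase q ⊆ P then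
      f q U else 0) = f q U := by
    intro f U hne
    obtain ⟨q, hq, hq2⟩ := exists_ne_zero_of_sum_ne_zero hne
    have hq3 : q ∈ U ∧ U.erase q ⊆ P := by
      by_contra hc
      rw [if_neg hc] at hq2
      exact hq2 rfl
    refine ⟨q, hq, hq3.1, hq3.2, ?_⟩
    rw [sum_eq_single q]
    · rw [if_pos hq3]
    · intro q' hq' hne'
      rw [if_neg]
      rintro ⟨h6, _⟩
      exact hne' (huniq U q q' hq hq' hq3.1 hq3.2 h6)
    · intro h6; exact absurd hq h6
  refine ⟨ι, I, fun i U => ∑ q ∈ Rj, if q ∈ U ∧ U.erase q ⊆ P then ω q * u i (U.erase q) else 0, v,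
    h1, ?_, ?_, ?_, ?_⟩
  · intro i hi U
    refine ⟨?_, (h2 i hi U).2⟩
    by_cases hne : (∑ q ∈ Rj, if q ∈ U ∧ U.erase q ⊆ P then ω q * u i (U.erase q) else 0) = 0
    · simp only
      rw [hne, abs_zero]
      positivity
    · obtain ⟨q, hq, hqU, hU, he⟩ := hone (fun q U => ω q * u i (U.erase q)) U hne
      simp only at he ⊢
      rw [he, abs_mul]
      exact mul_le_mul (hω q hq) (h2 i hi _).1 (abs_nonneg _) ha
  · intro i hi U hU
    obtain ⟨q, hqR, hqU, hUP, he⟩ := hone (fun q U => ω q * u i (U.erase q)) U hU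
    simp only at he hU
    rw [he] at hU
    have h6 : u i (U.erase q) ≠ 0 := right_ne_zero_of_mul hU
    obtain ⟨h7, h8⟩ := h3 i hi _ h6
    constructor
    · intro p hp
      rw [mem_union]
      by_cases hpq : p = q
      · right; rw [hpq]; exact hRj hqR
      · left; exact hUP (mem_erase.2 ⟨hpq, hp⟩)
    · have h9 : ∏ p ∈ U, p = q * ∏ p ∈ U.erase q, p := (mul_prod_erase U (fun p => p) hqU).symm
      rw [h9, Real.rpow_add hY0]
      push_cast
      push_cast at h8
      exact mul_le_mul (hq q hqR) h8 (by positivity) (by positivity)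
  · intro i hi V hV
    obtain ⟨h7, h8⟩ := h4 i hi V hV
    exact ⟨h7.trans subset_union_left, h8⟩
  · intro T hT
    -- both sides are sums over `q`
    have hL : ∀ q ∈ Rj, (if q ∈ T ∧ T.erase q ⊆ P then ω q * w0 (T.erase q) else 0) =
        ∑ i ∈ I, ∑ U ∈ T.powerset, (if q ∈ U ∧ U.erase q ⊆ P then ω q * u i (U.erase q) else 0) *
          v i (T \ U) := by
      intro q hqR
      have hqP : q ∉ P := fun h' => (disjoint_left.1 hd) h' (hRj hqR)
      by_cases hc : q ∈ T ∧ T.erase q ⊆ P
      · rw [if_pos hc, h5 _ hc.2, mul_sum]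
        apply sum_congr rfl
        intro i hi
        rw [mul_sum]
        have e1 : ∑ U ∈ T.powerset, (if q ∈ U ∧ U.erase q ⊆ P then ω q * u i (U.erase q) else 0) *
            v i (T \ U) = ∑ U ∈ T.powerset.filter (fun U => q ∈ U), ω q * (u i (U.erase q) * v i (T \ U)) := by
          rw [sum_filter]
          apply sum_congr rfl
          intro U hU
          rw [mem_powerset] at hU
          by_cases h6 : q ∈ U
          · rw [if_pos ⟨h6, (erase_subset_erase q hU).trans hc.2⟩, if_pos h6]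
            ring
          · rw [if_neg (fun h => h6 h.1), if_neg h6, zero_mul]
        rw [e1]
        apply sum_nbij' (fun U => insert q U) (fun U => U.erase q)
        · intro U hU
          rw [mem_powerset] at hU
          rw [mem_filter, mem_powerset]
          refine ⟨?_, mem_insert_self _ _⟩
          intro p hp
          rw [mem_insert] at hp
          rcases hp with rfl | hp
          · exact hc.1
          · exact (mem_erase.1 (hU hp)).2
        · intro U hU
          rw [mem_filter, mem_powerset] at hU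
          rw [mem_powerset]
          exact erase_subset_erase q hU.1
        · intro U hU
          rw [mem_powerset] at hU
          apply erase_insert
          intro h6
          exact (mem_erase.1 (hU h6)).1 rfl
        · intro U hU
          rw [mem_filter] at hU
          exact insert_erase hU.2
        · intro U hU
          rw [mem_powerset] at hU
          have hqU : q ∉ U := fun h6 => (mem_erase.1 (hU h6)).1 rfl
          rw [erase_insert hqU]
          congr 2
          congr 1
          ext p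
          simp only [mem_sdiff, mem_erase, mem_insert]
          tauto
      · rw [if_neg hc]
        symm
        apply sum_eq_zero
        intro i hi
        apply sum_eq_zero
        intro U hU
        rw [mem_powerset] at hU
        by_cases h6 : q ∈ U ∧ U.erase q ⊆ P
        · by_cases h7 : v i (T \ U) = 0
          · rw [h7, mul_zero]
          · exfalso
            apply hc
            refine ⟨hU h6.1, ?_⟩
            intro p hp
            rw [mem_erase] at hp
            by_cases hpU : p ∈ U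
            · exact h6.2 (mem_erase.2 ⟨hp.1, hpU⟩)
            · exact (h4 i hi _ h7).1 (mem_sdiff.2 ⟨hp.2, hpU⟩)
        · rw [if_neg h6, zero_mul]
    beta_reduce
    rw [sum_congr rfl hL, sum_comm]
    apply sum_congr rfl
    intro i _
    rw [sum_comm]
    apply sum_congr rfl
    intro U _
    rw [sum_mul]

/-- small primes -/
theorem fac_prod (Ps P2 : Finset ℕ) (hd : Disjoint Ps P2) (hpr : ∀ p ∈ Ps ∪ P2, p.Prime) (Y : ℕ)
    (hY : 1 ≤ Y) (α β δ : ℝ) (K : ℕ) (C G : ℝ) (w0 : Finset ℕ → ℝ) (h : Fac P2 P2 Y α β K C w0)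
    (γ : Finset ℕ → ℝ) (hG : ∀ U, |γ U| ≤ G) (hG0 : 0 ≤ G) (hC : 0 ≤ C)
    (hγ : ∀ U ⊆ Ps, γ U ≠ 0 → ((∏ p ∈ U, p : ℕ) : ℝ) ≤ (Y : ℝ) ^ δ) :
    Fac (Ps ∪ P2) P2 Y (δ + α) β K (G * C) (fun T => γ (T ∩ Ps) * w0 (T ∩ P2)) := by
  have hY0 : (0 : ℝ) < Y := by exact_mod_cast hY
  obtain ⟨ι, I, u, v, h1, h2, h3, h4, h5⟩ := h
  refine ⟨ι, I, fun i U => if U ⊆ Ps ∪ P2 then γ (U ∩ Ps) * u i (U ∩ P2) else 0, v, h1, ?_, ?_, h4, ?_⟩
  · intro i hi U
    refine ⟨?_, (h2 i hi U).2⟩
    simp only
    split_ifs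
    · rw [abs_mul]
      exact mul_le_mul (hG _) (h2 i hi _).1 (abs_nonneg _) hG0
    · rw [abs_zero]; positivity
  · intro i hi U hU
    simp only at hU
    by_cases hUP : U ⊆ Ps ∪ P2
    · rw [if_pos hUP] at hU
      refine ⟨hUP, ?_⟩
      have h6 := hγ (U ∩ Ps) inter_subset_right (left_ne_zero_of_mul hU)
      have h7 := (h3 i hi _ (right_ne_zero_of_mul hU)).2
      have h8 : ∏ p ∈ U, p = (∏ p ∈ U ∩ Ps, p) * ∏ p ∈ U ∩ P2, p := by
        rw [← prod_union]
        · congr 1
          rw [← inter_union_distrib_left]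
          exact (inter_eq_left.2 hUP).symm
        · exact disjoint_of_subset_left inter_subset_right
            (disjoint_of_subset_right inter_subset_right hd)
      rw [h8, Real.rpow_add hY0]
      push_cast
      push_cast at h6 h7
      exact mul_le_mul h6 h7 (by positivity) (by positivity)
    · rw [if_neg hUP] at hU
      exact absurd rfl hU
  · intro T hT
    beta_reduce
    rw [h5 (T ∩ P2) inter_subset_right, mul_sum]
    apply sum_congr rfl
    intro i hi
    rw [mul_sum]
    have e1 : ∑ U ∈ T.powerset, (if U ⊆ Ps ∪ P2 then γ (U ∩ Ps) * u i (U ∩ P2) else 0) * v i (T \ U) =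
        ∑ U ∈ T.powerset.filter (fun U => T \ U ⊆ P2), γ (T ∩ Ps) * (u i (U ∩ P2) * v i (T \ U)) := by
      rw [sum_filter]
      apply sum_congr rfl
      intro U hU
      rw [mem_powerset] at hU
      rw [if_pos (hU.trans hT)]
      by_cases h6 : T \ U ⊆ P2
      · rw [if_pos h6]
        have h7 : U ∩ Ps = T ∩ Ps := by
          ext p
          rw [mem_inter, mem_inter]
          constructor
          · rintro ⟨h7, h8⟩
            exact ⟨hU h7, h8⟩
          · rintro ⟨h7, h8⟩
            refine ⟨?_, h8⟩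
            by_contra h9
            exact (disjoint_left.1 hd) h8 (h6 (mem_sdiff.2 ⟨h7, h9⟩))
        rw [h7]
        ring
      · rw [if_neg h6]
        have h7 : v i (T \ U) = 0 := by
          by_contra h8
          exact h6 (h4 i hi _ h8).1
        rw [h7, mul_zero]
    rw [e1]
    apply sum_nbij' (fun U => (T ∩ Ps) ∪ U) (fun U => U ∩ P2)
    · intro U hU
      rw [mem_powerset] at hU
      rw [mem_filter, mem_powerset]
      refine ⟨union_subset inter_subset_left (hU.trans inter_subset_left), ?_⟩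
      intro p hp
      rw [mem_sdiff, mem_union, mem_inter] at hp
      push Not at hp
      have := hT hp.1
      rw [mem_union] at this
      rcases this with h6 | h6
      · exact absurd h6 (hp.2.1 hp.1)
      · exact h6
    · intro U hU
      rw [mem_filter, mem_powerset] at hU
      rw [mem_powerset]
      exact inter_subset_inter_right hU.1
    · intro U hU
      rw [mem_powerset] at hU
      ext p
      simp only [mem_inter, mem_union]
      constructor
      · rintro ⟨h6 | h6, h7⟩
        · exact absurd h7 (fun h7 => (disjoint_left.1 hd) h6.2 h7)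
        · exact h6
      · intro h6
        exact ⟨Or.inr h6, (mem_inter.1 (hU h6)).2⟩
    · intro U hU
      rw [mem_filter, mem_powerset] at hU
      ext p
      simp only [mem_inter, mem_union]
      constructor
      · rintro (⟨h6, h7⟩ | ⟨h6, h7⟩)
        · by_contra h8
          exact (disjoint_left.1 hd) h7 (hU.2 (mem_sdiff.2 ⟨h6, h8⟩))
        · exact h6
      · intro h6
        have := hT (hU.1 h6)
        rw [mem_union] at this
        rcases this with h7 | h7
        · exact Or.inl ⟨hU.1 h6, h7⟩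
        · exact Or.inr ⟨h6, h7⟩
    · intro U hU
      rw [mem_powerset] at hU
      have h6 : (T ∩ Ps ∪ U) ∩ P2 = U := by
        ext p
        simp only [mem_inter, mem_union]
        constructor
        · rintro ⟨h6 | h6, h7⟩
          · exact absurd h7 (fun h7 => (disjoint_left.1 hd) h6.2 h7)
          · exact h6
        · intro h6
          exact ⟨Or.inr h6, (mem_inter.1 (hU h6)).2⟩
      have h7 : T \ (T ∩ Ps ∪ U) = (T ∩ P2) \ U := by
        ext p
        simp only [mem_sdiff, mem_inter, mem_union, not_or, not_and]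
        constructor
        · rintro ⟨h7, h8, h9⟩
          have := hT h7
          rw [mem_union] at this
          rcases this with h10 | h10
          · exact absurd h10 (h8 h7)
          · exact ⟨⟨h7, h10⟩, h9⟩
        · rintro ⟨⟨h7, h8⟩, h9⟩
          exact ⟨h7, fun _ h10 => (disjoint_left.1 hd) h10 h8, h9⟩
      rw [h6, h7]

/-- **the error term** -/
theorem fac_err (P P2 : Finset ℕ) (hpr : ∀ p ∈ P, p.Prime) (hpr2 : ∀ p ∈ P2, p.Prime) (hP2 : P2 ⊆ P)
    (Y : ℕ) (α β : ℝ) (K : ℕ) (C : ℝ) (hC : 0 < C) (w : Finset ℕ → ℝ) (h : Fac P P2 Y α β K C w)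
    (M : ℕ) (B : Finset ℕ) (hM : (Y : ℝ) ^ α < M + 1)
    (hB : ∀ n : ℕ, 1 ≤ n → (n : ℝ) ≤ (Y : ℝ) ^ β → Squarefree n → n.primeFactors ⊆ P2 → n ∈ B)
    (hB1 : ∀ n ∈ B, 1 ≤ n ∧ Squarefree n)
    (G : ℕ → ℝ) (E : ℝ)
    (hE : ∀ a b : ℕ → ℝ, (∀ n, |a n| ≤ 1) → (∀ n, |b n| ≤ 1) → (∀ m, a m ≠ 0 → Squarefree m) →
      |∑ m ∈ Icc 1 M, ∑ n ∈ B.filter (fun n => Nat.Coprime m n), a m * b n * G (m * n)| ≤ E) :
    |∑ T ∈ P.powerset, w T * G (∏ p ∈ T, p)| ≤ K * (C * E) := by
  obtain ⟨ι, I, u, v, h1, h2, h3, h4, h5⟩ := h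
  have hE0 : 0 ≤ E := (abs_nonneg _).trans (hE (fun _ => 0) (fun _ => 0) (by simp) (by simp) (by simp))
  have hpos : ∀ S ⊆ P, 1 ≤ ∏ p ∈ S, p := by
    intro S hS
    exact Nat.pos_of_ne_zero (prod_ne_zero_iff.2 fun p hp => (hpr p (hS hp)).ne_zero)
  have hpf : ∀ S ⊆ P, (∏ p ∈ S, p).primeFactors = S := fun S hS =>
    Nat.primeFactors_prod (fun p hp => hpr p (hS hp))
  have hsqf : ∀ S ⊆ P, Squarefree (∏ p ∈ S, p) := by
    intro S hS
    apply Finset.squarefree_prod_of_pairwise_isCoprime
    · intro p hp q hq hpq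
      exact Nat.coprime_iff_isRelPrime.1 ((Nat.coprime_primes (hpr p (hS hp)) (hpr q (hS hq))).2 hpq)
    · intro p hp
      exact (hpr p (hS hp)).squarefree
  -- one piece
  have hone : ∀ i ∈ I, |∑ T ∈ P.powerset, ∑ U ∈ T.powerset, u i U * v i (T \ U) * G (∏ p ∈ T, p)| ≤
      C * E := by
    intro i hi
    set a : ℕ → ℝ := fun m => if Squarefree m then u i m.primeFactors / C else 0 with ha
    set b : ℕ → ℝ := fun n => v i n.primeFactors with hb
    have hab : ∑ T ∈ P.powerset, ∑ U ∈ T.powerset, u i U * v i (T \ U) * G (∏ p ∈ T, p) =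
        C * ∑ m ∈ Icc 1 M, ∑ n ∈ B.filter (fun n => Nat.Coprime m n), a m * b n * G (m * n) := by
      rw [mul_sum, sum_sigma', sum_congr rfl (fun m _ => mul_sum _ _ _), sum_sigma']
      apply sum_bij_ne_zero (fun (s : (_ : Finset ℕ) × Finset ℕ) _ _ =>
        (⟨∏ p ∈ s.2, p, ∏ p ∈ s.1 \ s.2, p⟩ : (_ : ℕ) × ℕ))
      · rintro ⟨T, U⟩ hs hne
        simp only [mem_sigma, mem_powerset] at hs
        simp only at hne ⊢
        have hUP : U ⊆ P := hs.2.trans hs.1
        have hVP : T \ U ⊆ P := sdiff_subset.trans hs.1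
        have hu : u i U ≠ 0 := left_ne_zero_of_mul (left_ne_zero_of_mul hne)
        have hv : v i (T \ U) ≠ 0 := right_ne_zero_of_mul (left_ne_zero_of_mul hne)
        simp only [mem_sigma, mem_Icc, mem_filter]
        refine ⟨⟨hpos U hUP, ?_⟩, ?_, ?_⟩
        · have h6 := (h3 i hi U hu).2
          have h7 : ((∏ p ∈ U, p : ℕ) : ℝ) < ((M + 1 : ℕ) : ℝ) := by
            push_cast at h6 ⊢
            linarith
          have h8 : ∏ p ∈ U, p < M + 1 := by exact_mod_cast h7
          omega
        · apply hB _ (hpos _ hVP) (h4 i hi _ hv).2 (hsqf _ hVP)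
          rw [hpf _ hVP]
          exact (h4 i hi _ hv).1
        · apply Nat.Coprime.prod_left
          intro p hp
          apply Nat.Coprime.prod_right
          intro q hq
          rw [Nat.coprime_primes (hpr p (hUP hp)) (hpr q (hVP hq))]
          rintro rfl
          exact (mem_sdiff.1 hq).2 hp
      · rintro ⟨T, U⟩ hs _ ⟨T', U'⟩ hs' _ heq
        simp only [mem_sigma, mem_powerset] at hs hs'
        simp only [Sigma.mk.injEq, heq_eq_eq] at heq
        have e1 : U = U' := by
          rw [← hpf U (hs.2.trans hs.1), heq.1, hpf U' (hs'.2.trans hs'.1)]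
        have e2 : T \ U = T' \ U' := by
          rw [← hpf (T \ U) (sdiff_subset.trans hs.1), heq.2, hpf (T' \ U') (sdiff_subset.trans hs'.1)]
        have e3 : T = T' := by
          rw [← sdiff_union_of_subset hs.2, ← sdiff_union_of_subset hs'.2, e2, e1]
        rw [e3, e1]
      · rintro ⟨m, n⟩ hs hne
        simp only [mem_sigma, mem_Icc, mem_filter] at hs
        simp only at hne
        have ham : a m ≠ 0 := by
          intro h6
          apply hne
          rw [h6]
          ring
        have hbn : b n ≠ 0 := by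
          intro h6
          apply hne
          rw [h6]
          ring
        have hsqm : Squarefree m := by
          by_contra h6
          exact ham (by simp only [ha]; rw [if_neg h6])
        have hum : u i m.primeFactors ≠ 0 := by
          intro h6
          apply ham
          simp only [ha]
          rw [if_pos hsqm, h6, zero_div]
        obtain ⟨hn1, hsqn⟩ := hB1 n hs.2.1
        have em : ∏ p ∈ m.primeFactors, p = m := Nat.prod_primeFactors_of_squarefree hsqm
        have en : ∏ p ∈ n.primeFactors, p = n := Nat.prod_primeFactors_of_squarefree hsqn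
        have hdis : Disjoint m.primeFactors n.primeFactors := hs.2.2.disjoint_primeFactors
        have hsd : (m.primeFactors ∪ n.primeFactors) \ m.primeFactors = n.primeFactors :=
          union_sdiff_cancel_left hdis
        refine ⟨⟨m.primeFactors ∪ n.primeFactors, m.primeFactors⟩, ?_, ?_, ?_⟩
        · simp only [mem_sigma, mem_powerset]
          exact ⟨union_subset (h3 i hi _ hum).1 ((h4 i hi _ hbn).1.trans hP2), subset_union_left⟩
        · simp only
          rw [hsd, prod_union hdis, em, en]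
          intro h6
          apply hne
          simp only [ha, hb]
          rw [if_pos hsqm]
          have : C * (u i m.primeFactors / C * v i n.primeFactors * G (m * n)) =
              u i m.primeFactors * v i n.primeFactors * G (m * n) := by
            field_simp
          rw [this, h6]
        · simp only
          rw [hsd, em, en]
      · rintro ⟨T, U⟩ hs hne
        simp only [mem_sigma, mem_powerset] at hs
        simp only [ha, hb]
        have hUP : U ⊆ P := hs.2.trans hs.1
        have hVP : T \ U ⊆ P := sdiff_subset.trans hs.1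
        rw [if_pos (hsqf U hUP), hpf U hUP, hpf _ hVP]
        have h6 : ∏ p ∈ T, p = (∏ p ∈ U, p) * ∏ p ∈ T \ U, p := by
          rw [mul_comm]
          exact (prod_sdiff hs.2).symm
        rw [h6]
        field_simp
    rw [hab, abs_mul, abs_of_pos hC]
    apply mul_le_mul_of_nonneg_left _ hC.le
    apply hE a b
    · intro m
      simp only [ha]
      split_ifs
      · rw [abs_div, abs_of_pos hC, div_le_one hC]
        exact (h2 i hi _).1
      · rw [abs_zero]; norm_num
    · intro n
      exact (h2 i hi _).2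
    · intro m hm
      by_contra h6
      exact hm (by simp only [ha]; rw [if_neg h6])
  have htot : ∑ T ∈ P.powerset, w T * G (∏ p ∈ T, p) =
      ∑ i ∈ I, ∑ T ∈ P.powerset, ∑ U ∈ T.powerset, u i U * v i (T \ U) * G (∏ p ∈ T, p) := by
    rw [sum_comm]
    apply sum_congr rfl
    intro T hT
    rw [h5 T (mem_powerset.1 hT), sum_mul]
    apply sum_congr rfl
    intro i _
    rw [sum_mul]
  rw [htot]
  calc |∑ i ∈ I, ∑ T ∈ P.powerset, ∑ U ∈ T.powerset, u i U * v i (T \ U) * G (∏ p ∈ T, p)| ≤
      ∑ i ∈ I, C * E := (abs_sum_le_sum_abs _ _).trans (sum_le_sum hone)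
    _ = (I.card : ℝ) * (C * E) := by rw [sum_const, nsmul_eq_mul]
    _ ≤ _ := by
        apply mul_le_mul_of_nonneg_right _ (by positivity)
        exact_mod_cast h1

end Pool.Agent.H543.DD
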