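import Pool.Agent.H543.DD.Ty3

/-!
# The coefficients of the linear sieve are factorable; the modified sizes
-/

set_option autoImplicit false

namespace Pool.Agent.H543.DD

open Finset
open Pool.Agent.W23.DC
open Pool.Agent.Y882
open scoped Classical

/-- the coefficients of the linear sieve are factorable -/
theorem fac_lc (P : Finset ℕ) (t : ℕ → ℝ) (hs : Siz P t) (ht0 : ∀ p, 0 ≤ t p) (Y n : ℕ) (hY : 1 ≤ Y)
    (c : ℕ → ℕ) (θ : ℝ) (hc : Cel P t n c θ) (hcm : ∀ p ∈ P, ∀ q ∈ P, p ≤ q → c p ≤ c q)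
    (hcN : ∀ p ∈ P, c p < n) (hP : ∀ p ∈ P, (p : ℝ) ≤ (Y : ℝ) ^ (((c p : ℝ) + 1) / n))
    (ε₁ : ℝ) (hε : 0 < ε₁) (E : ℕ) (hE : 1 ≤ ε₁ * E) (hPε : ∀ p ∈ P, ε₁ ≤ t p) (K : ℕ) (b : Bool)
    (τ ζ : ℝ) (L : ℤ) (hτ : n * τ = L - 1 / 2) (hθ : 1 / 2 + (K + 3) * θ < 1)
    (hPζ : ∀ p ∈ P, t p < ζ) (hτ0 : 0 ≤ τ) (hτ1 : τ ≤ 1) (hb : b = false → 2 * ζ ≤ τ)
    (α β : ℝ) (hα : (E : ℝ) / n ≤ α) (hβ : τ + 2 * E / n ≤ α + β) (hατ : α - E / n ≤ τ) :
    Fac P P Y α β ((E + 1) ^ n) 1 (lc P t K b τ ζ) := by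
  have hn : 0 < n := hc.n0
  have hn0 : (0 : ℝ) < n := by exact_mod_cast hn
  have hev : ∀ T ⊆ P, lc P t K b τ ζ T = LCc K b L ((typ c T).sort (· ≥ ·)) := by
    intro T hT
    rw [← sort_typ c T (fun p hp q hq hpq => hcm p (hT hp) q (hT hq) hpq)]
    have h1 := lc_LCc P t hs n c θ hc K b τ ζ (1 / 2) L (T.sort (· ≥ ·)) hτ le_rfl hθ ?_ ?_ ?_
    · rw [Finset.sort_toFinset] at h1
      exact h1
    · exact (T.sortedGT_sort).pairwise
    · intro p hp
      exact hT ((Finset.mem_sort _).1 hp)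
    · intro p hp
      exact hPζ p (hT ((Finset.mem_sort _).1 hp))
  have hsum : ∀ T ⊆ P, lc P t K b τ ζ T ≠ 0 → ∑ p ∈ T, t p ≤ τ := by
    intro T hT hne
    have h1 := lc_EE P t hs K b τ ζ hτ0 hb T hne
    have h2 := EE_sz P t hs ht0 τ ζ hτ0 _ h1
    unfold sz at h2
    rwa [Nat.primeFactors_prod (fun p hp => hs.pr p (hT hp))] at h2
  have hcard : ∀ T ⊆ P, lc P t K b τ ζ T ≠ 0 → T.card ≤ E := by
    intro T hT hne
    have h1 := hsum T hT hne
    have h2 : (T.card : ℝ) * ε₁ ≤ ∑ p ∈ T, t p := by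
      rw [← nsmul_eq_mul]
      exact card_nsmul_le_sum T t ε₁ (fun p hp => hPε p (hT hp))
    have h3 : (T.card : ℝ) * ε₁ ≤ E * ε₁ := by linarith
    have h4 : (T.card : ℝ) ≤ E := le_of_mul_le_mul_right h3 hε
    exact_mod_cast h4
  have hcs : ∀ (T U : Finset ℕ) (a : ℝ), T ⊆ P → T.card ≤ E → U ⊆ T → ∑ p ∈ U, t p ≤ a →
      (cs (typ c U) : ℝ) ≤ n * a + E := by
    intro T U a hT hTE hU ha
    rw [cs_typ]
    push_cast
    rw [sum_add_distrib, sum_const, nsmul_eq_mul, mul_one]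
    have h1 : ∑ p ∈ U, (c p : ℝ) ≤ ∑ p ∈ U, n * t p :=
      sum_le_sum fun p hp => hc.lo p (hT (hU hp))
    rw [← mul_sum] at h1
    have h2 : (U.card : ℝ) ≤ E := by exact_mod_cast (card_le_card hU).trans hTE
    have h3 : n * ∑ p ∈ U, t p ≤ n * a := mul_le_mul_of_nonneg_left ha hn0.le
    linarith
  have h := fac_type P Y n hY hn c n hcN hP (fun σ => LCc K b L (σ.sort (· ≥ ·))) 1
    (fun σ => LCc_abs K b L _) (n * α) (n * β) E ?_ ?_
  · rw [mul_div_cancel_left₀ _ hn0.ne', mul_div_cancel_left₀ _ hn0.ne'] at h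
    exact fac_congr _ _ _ _ _ _ _ _ _ h hev
  · intro T hT hne
    rw [← hev T hT] at hne
    exact hcard T hT hne
  · intro T hT hne
    rw [← hev T hT] at hne
    have hEE := lc_EE P t hs K b τ ζ hτ0 hb T hne
    unfold EE at hEE
    rw [mem_filter] at hEE
    obtain ⟨u, v, huv, hu, hv⟩ := hEE.2 (α - E / n) (τ - (α - E / n)) (by linarith) (by linarith) (by ring)
    have hTne : ∏ p ∈ T, p ≠ 0 := prod_ne_zero_iff.2 fun p hp => (hs.pr p (hT hp)).ne_zero
    have hsq : Squarefree (∏ p ∈ T, p) := by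
      apply Finset.squarefree_prod_of_pairwise_isCoprime
      · intro p hp q hq hpq
        exact Nat.coprime_iff_isRelPrime.1
          ((Nat.coprime_primes (hs.pr p (hT hp)) (hs.pr q (hT hq))).2 hpq)
      · intro p hp
        exact (hs.pr p (hT hp)).squarefree
    have hcop : Nat.Coprime u v := by
      rw [← huv] at hsq
      exact Nat.coprime_of_squarefree_mul hsq
    have hun : u.primeFactors ∪ v.primeFactors = T := by
      rw [← hcop.primeFactors_mul, huv, Nat.primeFactors_prod (fun p hp => hs.pr p (hT hp))]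
    have hUT : u.primeFactors ⊆ T := by
      rw [← hun]
      exact subset_union_left
    have hsd : T \ u.primeFactors = v.primeFactors := by
      rw [← hun]
      exact union_sdiff_cancel_left hcop.disjoint_primeFactors
    have hTE := hcard T hT hne
    refine ⟨u.primeFactors, hUT, ?_, ?_⟩
    · refine (hcs T _ _ hT hTE hUT hu).trans (le_of_eq ?_)
      field_simp
      ring
    · rw [hsd]
      refine (hcs T _ _ hT hTE (by rw [← hsd]; exact sdiff_subset) hv).trans ?_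
      have h5 : (n : ℝ) * (τ - (α - E / n)) + E = n * (τ + 2 * E / n - α) := by
        field_simp
        ring
      rw [h5]
      apply mul_le_mul_of_nonneg_left _ hn0.le
      linarith

/-- the cell of a prime -/
noncomputable def cc (Y n : ℕ) (p : ℕ) : ℕ := ⌊(n : ℝ) * tt Y p⌋₊

/-- the modified size -/
noncomputable def tm (Y n : ℕ) (θ : ℝ) (p : ℕ) : ℝ := ((cc Y n p : ℝ) + θ * tt Y p) / n

theorem tt_nn (Y p : ℕ) : 0 ≤ tt Y p :=
  div_nonneg (Real.log_natCast_nonneg p) (Real.log_natCast_nonneg Y)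

theorem cc_le (Y n p : ℕ) : (cc Y n p : ℝ) ≤ n * tt Y p :=
  Nat.floor_le (mul_nonneg (Nat.cast_nonneg n) (tt_nn Y p))

theorem cc_lt (Y n p : ℕ) : (n : ℝ) * tt Y p < cc Y n p + 1 := Nat.lt_floor_add_one _

theorem tm_nn (Y n : ℕ) (θ : ℝ) (hθ : 0 ≤ θ) (p : ℕ) : 0 ≤ tm Y n θ p := by
  unfold tm
  have := tt_nn Y p
  positivity

theorem tm_close (Y n : ℕ) (hn : 0 < n) (θ : ℝ) (hθ : 0 ≤ θ) (hθ1 : θ ≤ 1) (p : ℕ)
    (hp : tt Y p ≤ 1) : |tm Y n θ p - tt Y p| ≤ 1 / n := by
  have hn0 : (0 : ℝ) < n := by exact_mod_cast hn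
  have h1 := cc_le Y n p
  have h2 := cc_lt Y n p
  have h0 := tt_nn Y p
  have h3 : tm Y n θ p - tt Y p = (cc Y n p + θ * tt Y p - n * tt Y p) / n := by
    unfold tm
    field_simp
  rw [h3, abs_div, abs_of_pos hn0]
  apply div_le_div_of_nonneg_right _ hn0.le
  rw [abs_le]
  have h4 : θ * tt Y p ≤ 1 := by nlinarith
  have h5 : 0 ≤ θ * tt Y p := by positivity
  constructor <;> linarith

theorem tm_siz (Y n : ℕ) (hY : 2 ≤ Y) (hn : 0 < n) (θ : ℝ) (hθ : 0 < θ) (P : Finset ℕ)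
    (hP : ∀ p ∈ P, p.Prime) : Siz P (tm Y n θ) := by
  have hn0 : (0 : ℝ) < n := by exact_mod_cast hn
  have hY2 : (2 : ℝ) ≤ Y := by exact_mod_cast hY
  have hlY : 0 < Real.log Y := Real.log_pos (by linarith)
  have hpos : ∀ p ∈ P, 0 < tt Y p := by
    intro p hp
    unfold tt
    apply div_pos _ hlY
    apply Real.log_pos
    exact_mod_cast (hP p hp).one_lt
  have hlt : ∀ p ∈ P, ∀ q ∈ P, p < q → tm Y n θ p < tm Y n θ q := by
    intro p hp q hq hpq
    have hp0 : (0 : ℝ) < p := by exact_mod_cast (hP p hp).pos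
    have h1 : tt Y p < tt Y q := by
      unfold tt
      rw [div_lt_div_iff_of_pos_right hlY]
      apply Real.log_lt_log hp0
      exact_mod_cast hpq
    have h2 : cc Y n p ≤ cc Y n q := by
      unfold cc
      apply Nat.floor_le_floor
      exact mul_le_mul_of_nonneg_left h1.le hn0.le
    have h3 : (cc Y n p : ℝ) ≤ cc Y n q := by exact_mod_cast h2
    unfold tm
    apply div_lt_div_of_pos_right _ hn0
    have := mul_lt_mul_of_pos_left h1 hθ
    linarith
  refine ⟨hP, ?_, ?_⟩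
  · intro p hp
    unfold tm
    have := hpos p hp
    positivity
  · intro p hp q hq
    constructor
    · intro h
      by_contra hc
      push Not at hc
      rcases hc.lt_or_eq with h1 | h1
      · have := hlt q hq p hp h1
        linarith
      · rw [h1] at h
        exact lt_irrefl _ h
    · exact hlt p hp q hq

theorem tm_cel (Y n : ℕ) (hn : 0 < n) (θ : ℝ) (hθ : 0 ≤ θ) (P : Finset ℕ)
    (hP : ∀ p ∈ P, tt Y p ≤ 1) : Cel P (tm Y n θ) n (cc Y n) θ := by
  have hn0 : (0 : ℝ) < n := by exact_mod_cast hn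
  have he : ∀ p, (n : ℝ) * tm Y n θ p = cc Y n p + θ * tt Y p := by
    intro p
    unfold tm
    field_simp
  refine ⟨hn, ?_, ?_, hθ⟩
  · intro p _
    rw [he]
    have := mul_nonneg hθ (tt_nn Y p)
    linarith
  · intro p hp
    rw [he]
    have := mul_le_mul_of_nonneg_left (hP p hp) hθ
    linarith

theorem cc_mono (Y n : ℕ) (p q : ℕ) (hp : 0 < p) (h : p ≤ q) : cc Y n p ≤ cc Y n q := by
  unfold cc
  apply Nat.floor_le_floor
  apply mul_le_mul_of_nonneg_left _ (Nat.cast_nonneg n)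
  unfold tt
  apply div_le_div_of_nonneg_right _ (Real.log_natCast_nonneg Y)
  apply Real.log_le_log
  · exact_mod_cast hp
  · exact_mod_cast h

theorem tm_ge (Y n : ℕ) (hn : 0 < n) (θ : ℝ) (hθ : 0 ≤ θ) (e : ℝ) (m : ℕ) (hm : (n : ℝ) * e = m)
    (p : ℕ) (hp : e ≤ tt Y p) : e ≤ tm Y n θ p := by
  have hn0 : (0 : ℝ) < n := by exact_mod_cast hn
  have h1 : m ≤ cc Y n p := by
    unfold cc
    apply Nat.le_floor
    rw [← hm]
    exact mul_le_mul_of_nonneg_left hp hn0.le
  have h2 : (m : ℝ) ≤ cc Y n p := by exact_mod_cast h1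
  unfold tm
  rw [le_div_iff₀ hn0, mul_comm, hm]
  have := mul_nonneg hθ (tt_nn Y p)
  linarith

theorem tm_lt (Y n : ℕ) (hn : 0 < n) (θ : ℝ) (hθ : 0 ≤ θ) (hθ1 : θ < 1) (z : ℝ) (hz1 : z ≤ 1) (m : ℕ)
    (hm : (n : ℝ) * z = m) (p : ℕ) (hp : tt Y p < z) : tm Y n θ p < z := by
  have hn0 : (0 : ℝ) < n := by exact_mod_cast hn
  have h1 : cc Y n p < m := by
    unfold cc
    rw [Nat.floor_lt (mul_nonneg hn0.le (tt_nn Y p)), ← hm]
    exact mul_lt_mul_of_pos_left hp hn0
  have h2 : (cc Y n p : ℝ) + 1 ≤ m := by exact_mod_cast h1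
  unfold tm
  rw [div_lt_iff₀ hn0, mul_comm z, hm]
  have h3 := tt_nn Y p
  have : θ * tt Y p ≤ θ * 1 := mul_le_mul_of_nonneg_left (by linarith) hθ
  linarith

theorem tm_pow (Y n : ℕ) (hY : 2 ≤ Y) (hn : 0 < n) (p : ℕ) (hp : 0 < p) :
    (p : ℝ) ≤ (Y : ℝ) ^ (((cc Y n p : ℝ) + 1) / n) := by
  have hn0 : (0 : ℝ) < n := by exact_mod_cast hn
  have hY2 : (2 : ℝ) ≤ Y := by exact_mod_cast hY
  have hlY : 0 < Real.log Y := Real.log_pos (by linarith)
  have hp0 : (0 : ℝ) < p := by exact_mod_cast hp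
  rw [← Real.log_le_log_iff hp0 (by positivity), Real.log_rpow (by linarith)]
  have h1 := (cc_lt Y n p).le
  have h2 : tt Y p ≤ ((cc Y n p : ℝ) + 1) / n := by
    rw [le_div_iff₀ hn0]
    linarith
  have h3 : Real.log p = tt Y p * Real.log Y := by
    unfold tt
    field_simp
  rw [h3]
  exact mul_le_mul_of_nonneg_right h2 hlY.le

/-- transfer of Mertens' formula -/
theorem mer_tr (P : Finset ℕ) (t t' g : ℕ → ℝ) (ε₁ w η d : ℝ) (hε : 0 < ε₁) (hd : 0 ≤ d)
    (hg : ∀ p ∈ P, 0 ≤ g p) (hP : ∀ p ∈ P, ε₁ ≤ t p ∧ t p < w) (hcl : ∀ p ∈ P, |t' p - t p| ≤ d)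
    (hM : Mer P t g ε₁ w η) (hη : 0 ≤ η) : Mer P t' g ε₁ w (η + 2 * d / ε₁) := by
  intro a b ha hab hb
  have ha0 : 0 < a := by linarith
  have hb0 : 0 < b := by linarith
  have hdd : 0 ≤ d / ε₁ := by positivity
  have h2d : 2 * d / ε₁ = 2 * (d / ε₁) := by ring
  have hlog1 : ∀ x y : ℝ, ε₁ ≤ x → x ≤ y → y ≤ x + d → Real.log (y / x) ≤ d / ε₁ := by
    intro x y hx hxy hy
    have hx0 : 0 < x := by linarith
    have hy0 : 0 < y := by linarith
    have h1 : Real.log (y / x) ≤ y / x - 1 := Real.log_le_sub_one_of_pos (by positivity)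
    have h2 : y / x - 1 ≤ d / x := by
      rw [div_sub_one hx0.ne']
      exact div_le_div_of_nonneg_right (by linarith) hx0.le
    have h3 : d / x ≤ d / ε₁ := div_le_div_of_nonneg_left hd hε hx
    linarith
  rw [abs_le]
  constructor
  · -- lower bound
    by_cases hc : b - a ≤ 2 * d
    · have h0 : 0 ≤ ∑ p ∈ P.filter (fun p => a ≤ t' p ∧ t' p < b), g p :=
        sum_nonneg fun p hp => hg p (mem_filter.1 hp).1
      have h1 : Real.log (b / a) ≤ b / a - 1 := Real.log_le_sub_one_of_pos (by positivity)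
      have h2 : b / a - 1 ≤ 2 * d / a := by
        rw [div_sub_one ha0.ne']
        exact div_le_div_of_nonneg_right hc ha0.le
      have h3 : 2 * d / a ≤ 2 * d / ε₁ := div_le_div_of_nonneg_left (by positivity) hε ha
      linarith
    · push Not at hc
      have h1 := hM (a + d) (b - d) (by linarith) (by linarith) (by linarith)
      have h2 : ∑ p ∈ P.filter (fun p => a + d ≤ t p ∧ t p < b - d), g p ≤
          ∑ p ∈ P.filter (fun p => a ≤ t' p ∧ t' p < b), g p := by
        apply sum_le_sum_of_subset_of_nonneg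
        · intro p hp
          rw [mem_filter] at hp ⊢
          have h3 := abs_le.1 (hcl p hp.1)
          exact ⟨hp.1, by linarith [hp.2.1], by linarith [hp.2.2]⟩
        · intro p hp _
          exact hg p (mem_filter.1 hp).1
      have h3 : Real.log (b / a) = Real.log ((b - d) / (a + d)) + Real.log (b / (b - d)) +
          Real.log ((a + d) / a) := by
        have e1 : b / a = (b - d) / (a + d) * (b / (b - d)) * ((a + d) / a) := by
          have : b - d ≠ 0 := by linarith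
          have : a + d ≠ 0 := by linarith
          field_simp
        have p1 : 0 < b - d := by linarith
        have p2 : 0 < a + d := by linarith
        have q1 : (b - d) / (a + d) ≠ 0 := (div_pos p1 p2).ne'
        have q2 : b / (b - d) ≠ 0 := (div_pos hb0 p1).ne'
        have q3 : (a + d) / a ≠ 0 := (div_pos p2 ha0).ne'
        rw [e1, Real.log_mul (mul_ne_zero q1 q2) q3, Real.log_mul q1 q2]
      have h4 := hlog1 (b - d) b (by linarith) (by linarith) (by linarith)
      have h5 := hlog1 a (a + d) ha (by linarith) le_rfl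
      have h6 := (abs_le.1 h1).1
      rw [h3, h2d]
      linarith
  · -- upper bound
    set a' := max (a - d) ε₁ with ha'
    set b' := min (b + d) w with hb'
    have ha1 : ε₁ ≤ a' := le_max_right _ _
    have ha2 : a' ≤ a := max_le (by linarith) ha
    have ha3 : a ≤ a' + d := by linarith [le_max_left (a - d) ε₁]
    have hb1 : b' ≤ w := min_le_right _ _
    have hb2 : b ≤ b' := le_min (by linarith) hb
    have hb3 : b' ≤ b + d := min_le_left _ _
    have h1 := hM a' b' ha1 (by linarith) hb1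
    have h2 : ∑ p ∈ P.filter (fun p => a ≤ t' p ∧ t' p < b), g p ≤
        ∑ p ∈ P.filter (fun p => a' ≤ t p ∧ t p < b'), g p := by
      apply sum_le_sum_of_subset_of_nonneg
      · intro p hp
        rw [mem_filter] at hp ⊢
        have h3 := abs_le.1 (hcl p hp.1)
        have h4 := hP p hp.1
        exact ⟨hp.1, max_le (by linarith [hp.2.1]) h4.1, lt_min (by linarith [hp.2.2]) h4.2⟩
      · intro p hp _
        exact hg p (mem_filter.1 hp).1
    have ha'0 : 0 < a' := by linarith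
    have hb'0 : 0 < b' := by linarith
    have h3 : Real.log (b' / a') = Real.log (b / a) + Real.log (b' / b) + Real.log (a / a') := by
      have e1 : b' / a' = b / a * (b' / b) * (a / a') := by
        field_simp
      rw [e1, Real.log_mul (by positivity) (by positivity), Real.log_mul (by positivity) (by positivity)]
    have h4 := hlog1 b b' (by linarith) hb2 hb3
    have h5 := hlog1 a' a ha1 ha2 ha3
    have h6 := (abs_le.1 h1).2
    rw [h3] at h6
    rw [h2d]
    linarith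

end Pool.Agent.H543.DD
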