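import Pool.Agent.H543.DD.Ty4
import Pool.Graph.R_seed8.Y882.KW.Lsw4

/-!
# The functions of the linear sieve; sums over the middle primes
-/

set_option autoImplicit false

namespace Pool.Agent.H543.DD

open Finset
open Pool.Agent.W23.DC
open Pool.Agent.Y882
open scoped Classical

theorem F_le (A0 : ℝ) (F f : ℝ → ℝ) (hSF : SF A0 F f) (s : ℝ) (h1 : 1 ≤ s) (h5 : s ≤ 5) :
    F s ≤ A0 * (1 + (max 0 (s - 3)) ^ 2 / 4) / s := by
  have hA := hSF.pos
  have hs0 : 0 < s := by linarith
  rcases le_total s 3 with h3 | h3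
  · rw [hSF.F3 s h1 h3, max_eq_left (by linarith)]
    simp
  · rw [max_eq_right (by linarith), le_div_iff₀ hs0, mul_comm, hSF.eF s h3]
    have hint : ∫ x in (3 : ℝ)..s, f (x - 1) ≤ ∫ x in (3 : ℝ)..s, A0 * ((x - 3) / 2) := by
      apply intervalIntegral.integral_mono_on h3
      · apply ContinuousOn.intervalIntegrable
        rw [Set.uIcc_of_le h3]
        apply hSF.cf.comp (by fun_prop)
        intro x hx
        rw [Set.mem_Ici]
        linarith [hx.1]
      · apply ContinuousOn.intervalIntegrable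
        fun_prop
      · intro x hx
        rw [hSF.f4 (x - 1) (by linarith [hx.1]) (by linarith [hx.2])]
        have e1 : x - 1 - 1 = x - 2 := by ring
        rw [e1, mul_div_assoc]
        apply mul_le_mul_of_nonneg_left _ hA.le
        have h6 : Real.log (x - 2) ≤ x - 2 - 1 := Real.log_le_sub_one_of_pos (by linarith [hx.1])
        rw [div_le_div_iff₀ (by linarith [hx.1]) (by norm_num)]
        have h7 := hx.1
        nlinarith
    have hval : ∫ x in (3 : ℝ)..s, A0 * ((x - 3) / 2) = A0 * ((s - 3) ^ 2 / 4) := by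
      have hd : ∀ x ∈ Set.uIcc 3 s, HasDerivAt (fun x : ℝ => A0 * ((x - 3) ^ 2 / 4))
          (A0 * ((x - 3) / 2)) x := by
        intro x _
        have h8 := (((hasDerivAt_id x).sub_const 3).pow 2).div_const 4
        have h9 := h8.const_mul A0
        refine h9.congr_deriv ?_
        have e2 : (id x - 3) ^ (2 - 1) = x - 3 := by norm_num
        rw [e2]
        push_cast
        ring
      rw [intervalIntegral.integral_eq_sub_of_hasDerivAt hd]
      · ring
      · apply ContinuousOn.intervalIntegrable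
        fun_prop
    rw [hval] at hint
    linarith

theorem f_ge (A0 : ℝ) (F f : ℝ → ℝ) (hSF : SF A0 F f) (s : ℝ) (h2 : 2 ≤ s) (h5 : s ≤ 5) :
    A0 * Real.log (s - 1) / s ≤ f s := by
  have hA := hSF.pos
  have hs0 : 0 < s := by linarith
  rw [div_le_iff₀ hs0, mul_comm (f s), hSF.ef s h2, ← Pool.Agent.W366.DC.SFXaux.int_inv h2,
    ← intervalIntegral.integral_const_mul]
  apply intervalIntegral.integral_mono_on h2
  · apply ContinuousOn.intervalIntegrable
    rw [Set.uIcc_of_le h2]
    apply ContinuousOn.mul continuousOn_const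
    apply ContinuousOn.div continuousOn_const (by fun_prop)
    intro x hx
    linarith [hx.1]
  · apply ContinuousOn.intervalIntegrable
    rw [Set.uIcc_of_le h2]
    apply hSF.cF.comp (by fun_prop)
    intro x hx
    rw [Set.mem_Ici]
    linarith [hx.1]
  · intro x hx
    have hx1 : 0 < x - 1 := by linarith [hx.1]
    have key : A0 / (x - 1) ≤ F (x - 1) := by
      rcases le_total (x - 1) 3 with h3 | h3
      · rw [hSF.F3 (x - 1) (by linarith [hx.1]) h3]
      · rw [div_le_iff₀ hx1, mul_comm, hSF.eF _ h3]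
        have : 0 ≤ ∫ y in (3 : ℝ)..(x - 1), f (y - 1) := by
          apply intervalIntegral.integral_nonneg h3
          intro y hy
          rw [hSF.f4 (y - 1) (by linarith [hy.1]) (by linarith [hy.2, hx.2])]
          have h6 : 0 ≤ Real.log (y - 1 - 1) := Real.log_nonneg (by linarith [hy.1])
          have h7 : 0 < y - 1 := by linarith [hy.1]
          positivity
        linarith
    calc A0 * (1 / (x - 1)) = A0 / (x - 1) := by ring
      _ ≤ _ := key

/-- the sum over the middle primes -/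
theorem mid' (h : ℝ → ℝ) (ζ υ : ℝ) (hζ : 0 < ζ) (hζυ : ζ ≤ υ) (hυ1 : υ ≤ 1)
    (hcon : ContinuousOn h (Set.Icc ζ υ)) (c : ℝ) (hc : 0 < c) (ε₁ : ℝ) (hε : 0 < ε₁)
    (hεζ : ε₁ ≤ ζ) : ∃ η : ℝ, 0 < η ∧ ∀ (P : Finset ℕ)
      (t g : ℕ → ℝ), (∀ p ∈ P, 0 ≤ g p) → Mer P t g ε₁ υ η →
      ∑ p ∈ P.filter (fun p => ζ ≤ t p ∧ t p < υ), g p * h (t p) ≤
        (∫ x in ζ..υ, h x / x) + c := by
  classical
  obtain ⟨H, hH⟩ := isCompact_Icc.exists_bound_of_continuousOn hcon
  have hu := isCompact_Icc.uniformContinuousOn_of_continuous hcon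
  rw [Metric.uniformContinuousOn_iff_le] at hu
  set κ : ℝ := c / (2 * Real.log (1 / ε₁) + 2) with hκ
  have hlog : 0 ≤ Real.log (1 / ε₁) := by
    apply Real.log_nonneg
    rw [le_div_iff₀ hε]
    linarith
  have hden : 0 < 2 * Real.log (1 / ε₁) + 2 := by linarith
  have hκ0 : 0 < κ := by positivity
  obtain ⟨ρ, hρ, hρ'⟩ := hu κ hκ0
  obtain ⟨η, hη, HM⟩ := Pool.Agent.W505.DC.MI ε₁ ρ κ (|H| + 1) hε (by linarith) hρ hκ0
    (by positivity)
  refine ⟨η, hη, fun P t g hg hM => ?_⟩
  have h1 := HM P t g υ (by linarith) hg hM ζ υ h hεζ hζυ le_rfl hcon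
    (fun x hx => by
      have := hH x hx
      rw [Real.norm_eq_abs] at this
      linarith [le_abs_self H])
    (fun x hx y hy hxy => by
      have := hρ' x hx y hy (by rw [Real.dist_eq]; exact hxy)
      rwa [Real.dist_eq] at this)
  rw [abs_le] at h1
  have h2 : κ * (2 * Real.log (1 / ε₁) + 2) = c := by
    rw [hκ]; field_simp
  rw [h2] at h1
  linarith [h1.2]

theorem MM_min (P : Finset ℕ) (t g : ℕ → ℝ) (hpos : ∀ p ∈ P, 0 < t p) (k : ℕ) (τ ζ : ℝ) :
    MM P t g k true τ ζ = MM P t g k true τ (min ζ τ) := by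
  cases k with
  | zero => simp [MM]
  | succ k =>
    simp only [MM]
    congr 1
    apply sum_congr _ (fun _ _ => rfl)
    ext p
    simp only [mem_filter, lt_min_iff]
    constructor
    · rintro ⟨h1, h2, h3⟩
      have := hpos p h1
      exact ⟨h1, ⟨h2, by linarith⟩, h3⟩
    · rintro ⟨h1, h2, h3⟩
      exact ⟨h1, h2.1, h3⟩

/-- the upper bound function -/
noncomputable def Phi (ζ x : ℝ) : ℝ := (1 + (max 0 (x / ζ - 3)) ^ 2 / 4) / x

theorem Phi_cont (ζ : ℝ) (s : Set ℝ) (hs : ∀ x ∈ s, 0 < x) :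
    ContinuousOn (Phi ζ) s := by
  unfold Phi
  apply ContinuousOn.div
  · fun_prop
  · fun_prop
  · intro x hx
    exact (hs x hx).ne'

theorem Phi_nn (ζ x : ℝ) (hx : 0 < x) : 0 ≤ Phi ζ x := by
  unfold Phi
  positivity

end Pool.Agent.H543.DD
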