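import Pool.Agent.H543.DD.Ty5

/-!
# The weighted linear sieve with factorable weights: the large primes
-/

set_option autoImplicit false

namespace Pool.Agent.H543.DD

open Finset
open Pool.Agent.W23.DC
open Pool.Agent.Y882
open Pool.Agent.Y882.KW
open scoped Classical

theorem fac_part (P R : Finset ℕ) (Y : ℕ) (α β : ℝ) (K : ℕ)
    (C : ℝ) (w0 : Finset ℕ → ℝ) (h : Fac P P Y α β K C w0) :
    Fac (P ∪ R) (P ∪ R) Y α β K C (fun T => if T ⊆ P then w0 T else 0) := by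
  obtain ⟨ι, I, u, v, h1, h2, h3, h4, h5⟩ := h
  refine ⟨ι, I, u, v, h1, h2, ?_, ?_, ?_⟩
  · intro i hi T hT
    exact ⟨(h3 i hi T hT).1.trans subset_union_left, (h3 i hi T hT).2⟩
  · intro i hi T hT
    exact ⟨(h4 i hi T hT).1.trans subset_union_left, (h4 i hi T hT).2⟩
  · intro T _
    beta_reduce
    by_cases hT : T ⊆ P
    · rw [if_pos hT, h5 T hT]
    · rw [if_neg hT]
      symm
      apply sum_eq_zero
      intro i hi
      apply sum_eq_zero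
      intro U _
      by_cases h6 : u i U = 0
      · rw [h6, zero_mul]
      · by_cases h7 : v i (T \ U) = 0
        · rw [h7, mul_zero]
        · exfalso
          apply hT
          intro p hp
          by_cases hpU : p ∈ U
          · exact (h3 i hi _ h6).1 hpU
          · exact (h4 i hi _ h7).1 (mem_sdiff.2 ⟨hp, hpU⟩)

theorem mer_mono (P : Finset ℕ) (t g : ℕ → ℝ) (ε₁ w η η' : ℝ) (h : Mer P t g ε₁ w η)
    (hη : η ≤ η') : Mer P t g ε₁ w η' := fun x y hx hxy hy => (h x y hx hxy hy).trans hη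

theorem Phi_bd (A0 : ℝ) (F f : ℝ → ℝ) (hSF : SF A0 F f) (ε₁ ζ x : ℝ) (hε : 0 < ε₁) (hζ : 0 < ζ)
    (hx : 0 < x) (hx5 : x ≤ 5 * ζ) :
    ε₁ / (min ζ x) * F (x / min ζ x) ≤ ε₁ * A0 * Phi ζ x := by
  have hA := hSF.pos
  rcases le_total ζ x with h | h
  · rw [min_eq_left h]
    have h1 := F_le A0 F f hSF (x / ζ) (by rw [le_div_iff₀ hζ]; linarith)
      (by rw [div_le_iff₀ hζ]; exact hx5)
    unfold Phi
    calc ε₁ / ζ * F (x / ζ) ≤ ε₁ / ζ * (A0 * (1 + (max 0 (x / ζ - 3)) ^ 2 / 4) / (x / ζ)) :=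
          mul_le_mul_of_nonneg_left h1 (by positivity)
      _ = _ := by field_simp
  · rw [min_eq_right h]
    have h1 : x / x = 1 := div_self hx.ne'
    rw [h1, hSF.F3 1 le_rfl (by norm_num)]
    unfold Phi
    have h2 : 0 ≤ ε₁ * A0 * ((max 0 (x / ζ - 3)) ^ 2 / 4 / x) := by positivity
    have h3 : ε₁ * A0 * ((1 + (max 0 (x / ζ - 3)) ^ 2 / 4) / x) = ε₁ / x * (A0 / 1) +
        ε₁ * A0 * ((max 0 (x / ζ - 3)) ^ 2 / 4 / x) := by ring
    rw [h3]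
    linarith

theorem cont_rad (f : ℝ → ℝ) (hf : ContinuousOn f (Set.Ici 1)) (τ ζ κ : ℝ) (hζ : 0 < ζ)
    (h1 : ζ < τ) (hκ : 0 < κ) : ∃ r : ℝ, 0 < r ∧ ∀ x, |x - τ| ≤ r →
      |f (x / ζ) - f (τ / ζ)| ≤ κ := by
  have h2 : 1 < τ / ζ := by rw [lt_div_iff₀ hζ]; linarith
  have h3 : ContinuousAt f (τ / ζ) := hf.continuousAt (Ici_mem_nhds h2)
  have h4 : ContinuousAt (fun x => f (x / ζ)) τ := by
    apply ContinuousAt.comp (g := f) (f := fun x => x / ζ) h3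
    fun_prop
  rw [Metric.continuousAt_iff] at h4
  obtain ⟨r, hr, h5⟩ := h4 κ hκ
  refine ⟨r / 2, by positivity, fun x hx => ?_⟩
  have h6 := h5 (x := x) (by rw [Real.dist_eq]; linarith)
  rw [Real.dist_eq] at h6
  exact h6.le

/-- the weights -/
noncomputable def wA (P : Finset ℕ) (t : ℕ → ℝ) (K : ℕ) (b : Bool) (τ ζ : ℝ) (T : Finset ℕ) : ℝ :=
  if T ⊆ P then lc P t K b τ ζ T else 0

/-- the weights of the middle primes -/
noncomputable def wM (P : Finset ℕ) (t : ℕ → ℝ) (K : ℕ) (ζ : ℝ) (ω ta : ℕ → ℝ) (q : ℕ)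
    (T : Finset ℕ) : ℝ :=
  if q ∈ T ∧ T.erase q ⊆ P then ω q * lc P t K true (ta q) ζ (T.erase q) else 0

theorem wM_abs (P R : Finset ℕ) (hd : Disjoint P R) (t : ℕ → ℝ) (hsiz : Siz P t) (K : ℕ) (ζ : ℝ)
    (ω ta : ℕ → ℝ) (a : ℝ) (ha : 0 ≤ a) (hω : ∀ q ∈ R, 0 ≤ ω q ∧ ω q ≤ a)
    (hta : ∀ q ∈ R, 0 ≤ ta q) (T : Finset ℕ) : |∑ q ∈ R, wM P t K ζ ω ta q T| ≤ a := by
  unfold wM
  by_cases hex : ∃ q ∈ R, q ∈ T ∧ T.erase q ⊆ P
  · obtain ⟨q, hq, hqT, hqP⟩ := hex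
    rw [sum_eq_single q]
    · rw [if_pos ⟨hqT, hqP⟩, abs_mul, abs_of_nonneg (hω q hq).1]
      calc ω q * |lc P t K true (ta q) ζ (T.erase q)| ≤ a * 1 := by
            apply mul_le_mul (hω q hq).2 _ (abs_nonneg _) ha
            exact lc_le _ _ hsiz K true _ _ (hta q hq) (fun h => by simp at h) _
        _ = a := mul_one a
    · intro q' hq' hne
      rw [if_neg]
      rintro ⟨h6, -⟩
      have h7 : q' ∈ T.erase q := mem_erase.2 ⟨hne, h6⟩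
      exact (disjoint_left.1 hd) (hqP h7) hq'
    · intro h; exact absurd hq h
  · push Not at hex
    rw [sum_eq_zero]
    · rw [abs_zero]; exact ha
    · intro q hq
      rw [if_neg]
      rintro ⟨h6, h7⟩
      exact hex q hq h6 h7

theorem wA_abs (P : Finset ℕ) (t : ℕ → ℝ) (hsiz : Siz P t) (K : ℕ) (b : Bool) (τ ζ : ℝ)
    (hτ : 0 ≤ τ) (hb : b = false → 2 * ζ ≤ τ) (T : Finset ℕ) : |wA P t K b τ ζ T| ≤ 1 := by
  unfold wA
  split_ifs
  · exact lc_le _ _ hsiz K b τ ζ hτ hb T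
  · simp

/-- the weights are factorable -/
theorem wM_fac (P R : Finset ℕ) (hd : Disjoint P R) (t : ℕ → ℝ) (hsiz : Siz P t)
    (ht0 : ∀ p, 0 ≤ t p) (Y n : ℕ) (hY : 1 ≤ Y) (hn : 0 < n) (c : ℕ → ℕ) (θ : ℝ)
    (hcel : Cel P t n c θ) (hcm : ∀ p ∈ P, ∀ q ∈ P, p ≤ q → c p ≤ c q) (hcN : ∀ p ∈ P, c p < n)
    (hpow : ∀ p : ℕ, 0 < p → (p : ℝ) ≤ (Y : ℝ) ^ (((c p : ℝ) + 1) / n)) (hpos : ∀ p ∈ P, 0 < p)
    (hposR : ∀ p ∈ R, 0 < p) (ε₁ : ℝ) (hε : 0 < ε₁) (E : ℕ) (hE : 1 ≤ ε₁ * E)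
    (hPε : ∀ p ∈ P, ε₁ ≤ t p) (K : ℕ) (τ' ζ : ℝ) (L : ℤ) (hτ : n * τ' = L - 1 / 2)
    (hθ : 1 / 2 + (K + 3) * θ < 1) (hPζ : ∀ p ∈ P, t p < ζ) (hτ1 : τ' ≤ 1)
    (hb : 2 * ζ ≤ τ') (α β υ a : ℝ) (eN iN : ℝ) (heN : (E : ℝ) / n = eN) (hiN : 1 / (n : ℝ) = iN)
    (heN0 : 0 < eN) (hiN0 : 0 < iN) (h1 : τ' + 2 * eN ≤ α + β) (h2 : α - eN ≤ τ') (ha : 0 ≤ a)
    (hυ0 : 0 ≤ υ) (h3 : υ + iN + eN ≤ α) (h4 : υ + iN ≤ τ') (ω : ℕ → ℝ)
    (hω : ∀ q ∈ R, |ω q| ≤ a) (hcυ : ∀ q ∈ R, (c q : ℝ) < n * υ) (hυ1 : υ < 1) (ta : ℕ → ℝ)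
    (hta : ∀ q, ta q = τ' - ((c q : ℝ) + 1) / n) (hτ0 : 0 ≤ τ') :
    Fac (P ∪ R) (P ∪ R) Y α β ((E + 1) ^ n + n * (E + 1) ^ n) (1 + a) (wA P t K true τ' ζ) ∧
    Fac (P ∪ R) (P ∪ R) Y α β ((E + 1) ^ n + n * (E + 1) ^ n) (1 + a)
      (fun T => wA P t K false τ' ζ T - ∑ q ∈ R, wM P t K ζ ω ta q T) := by
  have hn0 : (0 : ℝ) < n := by exact_mod_cast hn
  have hlev : ∀ b : Bool, Fac (P ∪ R) (P ∪ R) Y α β ((E + 1) ^ n) (1 + a) (wA P t K b τ' ζ) := by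
    intro b
    have h6 := fac_lc P t hsiz ht0 Y n hY c θ hcel hcm hcN (fun p hp => hpow p (hpos p hp))
      ε₁ hε E hE hPε K b τ' ζ L hτ hθ hPζ hτ0 hτ1 (fun _ => hb) α β
      (by rw [heN]; linarith only [h3, hυ0, hiN0]) (by
        have : 2 * (E : ℝ) / n = 2 * (E / n) := by ring
        rw [this, heN]; exact h1) (by rw [heN]; exact h2)
    have h7 := fac_part P R Y α β _ 1 _ h6
    exact fac_mono _ _ Y hY α β α β _ _ 1 (1 + a) _ h7 le_rfl le_rfl le_rfl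
      (by linarith only [ha])
  constructor
  · exact fac_mono _ _ Y hY α β α β _ _ _ _ _ (hlev true) le_rfl le_rfl (Nat.le_add_right _ _) le_rfl
  · -- the middle primes
    set S : Finset ℕ := (range n).filter (fun j => (j : ℝ) < n * υ) with hS
    have hScard : S.card ≤ n := by
      rw [hS]
      exact (card_filter_le _ _).trans (by rw [card_range])
    have hmaps : ∀ q ∈ R, c q ∈ S := by
      intro q hq
      rw [hS, mem_filter, mem_range]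
      refine ⟨?_, hcυ q hq⟩
      have h9 : (c q : ℝ) < n := by
        calc (c q : ℝ) < n * υ := hcυ q hq
          _ ≤ n * 1 := mul_le_mul_of_nonneg_left hυ1.le hn0.le
          _ = n := mul_one _
      exact_mod_cast h9
    have hj : ∀ j ∈ S, Fac (P ∪ R) (P ∪ R) Y α β ((E + 1) ^ n) (1 + a) (fun T =>
        ∑ q ∈ R.filter (fun q => c q = j), if q ∈ T ∧ T.erase q ⊆ P then
          ω q * lc P t K true (τ' - ((j : ℝ) + 1) / n) ζ (T.erase q) else 0) := by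
      intro j hjS
      rw [hS, mem_filter, mem_range] at hjS
      obtain ⟨x, hx⟩ : ∃ x : ℝ, x = (j : ℝ) / n := ⟨_, rfl⟩
      have hx0 : 0 ≤ x := by rw [hx]; positivity
      have hjυ : x < υ := by
        rw [hx, div_lt_iff₀ hn0, mul_comm]
        exact hjS.2
      have hj1 : ((j : ℝ) + 1) / n = x + iN := by rw [hx, ← hiN]; ring
      have hτj : (n : ℝ) * (τ' - ((j : ℝ) + 1) / n) = ((L - j - 1 : ℤ) : ℝ) - 1 / 2 := by
        push_cast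
        have : (n : ℝ) * (τ' - ((j : ℝ) + 1) / n) = n * τ' - (j + 1) := by field_simp
        rw [this, hτ]
        ring
      rw [hj1] at hτj ⊢
      have h9 := fac_lc P t hsiz ht0 Y n hY c θ hcel hcm hcN (fun p hp =>
        hpow p (hpos p hp)) ε₁ hε E hE hPε K true (τ' - (x + iN)) ζ
        (L - j - 1) hτj hθ hPζ (by linarith only [hjυ, h4]) (by linarith only [hτ1, hx0, hiN0])
        (fun h => by simp at h) (α - (x + iN)) β
        (by rw [heN]; linarith only [h3, hjυ]) (by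
          have : 2 * (E : ℝ) / n = 2 * (E / n) := by ring
          rw [this, heN]; linarith only [h1]) (by rw [heN]; linarith only [h2])
      have h10 := fac_insert P R hd Y hY (α - (x + iN)) β (x + iN) _ 1 a
        ha _ h9 (R.filter (fun q => c q = j)) (filter_subset _ _) ω
        (fun q hq => hω q (mem_filter.1 hq).1)
        (fun q hq => by
          have h11 := hpow q (hposR q (mem_filter.1 hq).1)
          rw [(mem_filter.1 hq).2, hj1] at h11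
          exact h11) zero_le_one
      exact fac_mono _ _ Y hY _ β α β _ _ (a * 1) (1 + a) _ h10 (by linarith only) le_rfl le_rfl
        (by linarith only)
    have h9 := fac_neg _ _ _ _ _ _ _ _ (fac_sum (P ∪ R) (P ∪ R) Y α β ((E + 1) ^ n) (1 + a) S _ hj)
    have h10 := fac_add _ _ _ _ _ _ _ _ _ _ (hlev false) h9
    have h11 := fac_mono _ _ Y hY α β α β _ ((E + 1) ^ n + n * (E + 1) ^ n) (1 + a) (1 + a) _
      h10 le_rfl le_rfl (Nat.add_le_add_left (Nat.mul_le_mul_right _ hScard) _) le_rfl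
    apply fac_congr _ _ _ _ _ _ _ _ _ h11
    intro T _
    have h12 : ∑ q ∈ R, wM P t K ζ ω ta q T = ∑ j ∈ S, ∑ q ∈ R.filter (fun q => c q = j),
        if q ∈ T ∧ T.erase q ⊆ P then
          ω q * lc P t K true (τ' - ((j : ℝ) + 1) / n) ζ (T.erase q) else 0 := by
      rw [← sum_fiberwise_of_maps_to hmaps]
      apply sum_congr rfl
      intro j _
      apply sum_congr rfl
      intro q hq
      rw [mem_filter] at hq
      unfold wM
      rw [hta q, hq.2]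
    rw [h12]
    ring

theorem wA_VV (P R : Finset ℕ) (t : ℕ → ℝ) (K : ℕ) (b : Bool) (τ ζ : ℝ) (g : ℕ → ℝ) :
    VV (P ∪ R) (wA P t K b τ ζ) g = VV P (lc P t K b τ ζ) g := by
  have h : wA P t K b τ ζ = fun T => if T ⊆ P then lc P t K b τ ζ T else 0 := by
    funext T
    unfold wA
    rfl
  rw [h]
  exact VV_part P R (lc P t K b τ ζ) g

theorem wM_VV (P R : Finset ℕ) (hd : Disjoint P R) (t : ℕ → ℝ) (K : ℕ) (ζ : ℝ) (ω ta : ℕ → ℝ)
    (q : ℕ) (hq : q ∈ R) (g : ℕ → ℝ) :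
    VV (P ∪ R) (wM P t K ζ ω ta q) g = g q * (ω q * VV P (lc P t K true (ta q) ζ) g) := by
  have h : wM P t K ζ ω ta q = fun T => if q ∈ T ∧ T.erase q ⊆ P then
      (fun U => ω q * lc P t K true (ta q) ζ U) (T.erase q) else 0 := by
    funext T
    unfold wM
    rfl
  rw [h, VV_one P R hd q hq (fun U => ω q * lc P t K true (ta q) ζ U) g]
  congr 1
  unfold VV
  rw [mul_sum]
  apply sum_congr rfl
  intro T _
  ring

open Classical in
theorem w_ineq (P R : Finset ℕ) (hd : Disjoint P R) (t : ℕ → ℝ) (hsiz : Siz P t) (K : ℕ)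
    (τ' ζ : ℝ) (hPζ : ∀ p ∈ P, t p < ζ) (hτ0 : 0 ≤ τ') (hb : 2 * ζ ≤ τ') (ω ta : ℕ → ℝ)
    (hω : ∀ q ∈ R, 0 ≤ ω q) (hta : ∀ q ∈ R, 0 ≤ ta q) (N : ℕ) :
    VV (P ∪ R) (fun T => wA P t K false τ' ζ T - ∑ q ∈ R, wM P t K ζ ω ta q T)
        (fun p => if p ∣ N then 1 else 0) ≤
      (if ∀ p ∈ P, ¬ p ∣ N then 1 else 0) * (1 - ∑ q ∈ R, ω q * (if q ∣ N then 1 else 0)) ∧
    (if ∀ p ∈ P, ¬ p ∣ N then 1 else 0) ≤
      VV (P ∪ R) (wA P t K true τ' ζ) (fun p => if p ∣ N then 1 else 0) := by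
  constructor
  · rw [VV_sub, VV_sum, wA_VV]
    have h1 := (lc_ind P t hsiz K τ' ζ hτ0 hb hPζ N).1
    rw [mul_sub, mul_one, mul_sum]
    apply sub_le_sub h1
    apply sum_le_sum
    intro q hq
    rw [wM_VV P R hd t K ζ ω ta q hq]
    have h3 := lc_ind_up P t hsiz K (ta q) ζ (hta q hq) N
    have h5 : (0 : ℝ) ≤ if q ∣ N then 1 else 0 := by split_ifs <;> norm_num
    calc (if ∀ p ∈ P, ¬ p ∣ N then (1 : ℝ) else 0) * (ω q * (if q ∣ N then 1 else 0)) =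
        (if q ∣ N then 1 else 0) * (ω q * (if ∀ p ∈ P, ¬ p ∣ N then (1 : ℝ) else 0)) := by
          ring
      _ ≤ (if q ∣ N then 1 else 0) * (ω q * VV P (lc P t K true (ta q) ζ)
            (fun p => if p ∣ N then 1 else 0)) := by
          apply mul_le_mul_of_nonneg_left _ h5
          exact mul_le_mul_of_nonneg_left h3 (hω q hq)
  · rw [wA_VV]
    exact lc_ind_up P t hsiz K τ' ζ hτ0 N

/-- the parameters -/
theorem exPar (α β ζ υ r η₁ ε₁ : ℝ) (hζ : 0 < ζ) (hζq : ∃ q : ℚ, (q : ℝ) = ζ)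
    (h2 : 2 * ζ < α + β) (hυα : υ < α) (hβ : 0 < β) (hr : 0 < r) (hη : 0 < η₁) (E : ℕ) (hE : 0 < E)
    (hε₁ : ε₁ = 1 / (E : ℝ)) :
    ∃ (n : ℕ) (L : ℤ) (τ' eN iN : ℝ) (m1 m2 : ℕ), 0 < n ∧ (E : ℝ) / n = eN ∧ 1 / (n : ℝ) = iN ∧
      0 < eN ∧ 0 < iN ∧ (n : ℝ) * τ' = L - 1 / 2 ∧ τ' ≤ α + β - 2 * eN ∧
      α + β - 2 * eN - iN ≤ τ' ∧ 2 * eN + 2 * iN ≤ r ∧ 2 * eN + 2 * iN ≤ α - υ ∧
      2 * eN + 2 * iN ≤ α + β - 2 * ζ ∧ 2 * eN + 2 * iN ≤ β ∧ 2 * eN + 2 * iN ≤ η₁ * ε₁ / 4 ∧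
      (n : ℝ) * ε₁ = m1 ∧ (n : ℝ) * ζ = m2 := by
  have hE0 : (0 : ℝ) < E := by exact_mod_cast hE
  have hε : 0 < ε₁ := by rw [hε₁]; positivity
  obtain ⟨qζ, hqζ⟩ := hζq
  have hDr : (0 : ℝ) < (qζ.den : ℝ) := by exact_mod_cast qζ.den_pos
  have hqnum : 0 < qζ.num := by
    rw [Rat.num_pos]
    have : (0 : ℝ) < qζ := by rw [hqζ]; exact hζ
    exact_mod_cast this
  have hDζ : (qζ.den : ℝ) * ζ = (qζ.num.toNat : ℝ) := by
    rw [← hqζ]
    have h6 : ((qζ.num.toNat : ℕ) : ℤ) = qζ.num := Int.toNat_of_nonneg hqnum.le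
    have h7 : ((qζ.num.toNat : ℕ) : ℝ) = ((qζ.num : ℤ) : ℝ) := by
      rw [← h6]
      push_cast
      rfl
    rw [h7]
    have h8 : (qζ.den : ℚ) * qζ = qζ.num := by
      rw [mul_comm]
      exact Rat.mul_den_eq_num qζ
    exact_mod_cast h8
  obtain ⟨rr, hrr0, q1, q2, q3, q4, q5⟩ : ∃ rr : ℝ, 0 < rr ∧ rr ≤ r ∧ rr ≤ α - υ ∧
      rr ≤ α + β - 2 * ζ ∧ rr ≤ β ∧ rr ≤ η₁ * ε₁ / 4 := by
    refine ⟨min (min r (α - υ)) (min (min (α + β - 2 * ζ) β) (η₁ * ε₁ / 4)),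
      lt_min (lt_min hr (by linarith only [hυα])) (lt_min (lt_min (by linarith only [h2]) hβ)
        (by positivity)), ?_, ?_, ?_, ?_, ?_⟩
    · exact (min_le_left _ _).trans (min_le_left _ _)
    · exact (min_le_left _ _).trans (min_le_right _ _)
    · exact ((min_le_right _ _).trans (min_le_left _ _)).trans (min_le_left _ _)
    · exact ((min_le_right _ _).trans (min_le_left _ _)).trans (min_le_right _ _)
    · exact (min_le_right _ _).trans (min_le_right _ _)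
  obtain ⟨m, hm⟩ := exists_nat_ge ((2 * E + 2) / rr)
  obtain ⟨n, hn⟩ : ∃ n : ℕ, n = (m + 1) * (E * qζ.den) := ⟨_, rfl⟩
  have hnpos : 0 < n := by rw [hn]; positivity
  have hn0 : (0 : ℝ) < n := by exact_mod_cast hnpos
  have hnm : (m : ℝ) ≤ n := by
    have : m ≤ n := by
      rw [hn]
      calc m ≤ (m + 1) * 1 := by omega
        _ ≤ _ := Nat.mul_le_mul_left _ (Nat.mul_pos hE qζ.den_pos)
    exact_mod_cast this
  have hrn : 2 * ((E : ℝ) / n) + 2 * (1 / (n : ℝ)) ≤ rr := by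
    have h6 : 2 * ((E : ℝ) / n) + 2 * (1 / (n : ℝ)) = (2 * E + 2) / (n : ℝ) := by ring
    rw [h6, div_le_iff₀ hn0]
    rw [div_le_iff₀ hrr0] at hm
    refine hm.trans ?_
    rw [mul_comm rr]
    exact mul_le_mul_of_nonneg_right hnm hrr0.le
  obtain ⟨L, hL⟩ : ∃ L : ℤ, L = ⌊(n : ℝ) * (α + β) - 2 * E + 1 / 2⌋ := ⟨_, rfl⟩
  have hL1 : (L : ℝ) ≤ n * (α + β) - 2 * E + 1 / 2 := by rw [hL]; exact Int.floor_le _
  have hL2 : (n : ℝ) * (α + β) - 2 * E + 1 / 2 < L + 1 := by rw [hL]; exact Int.lt_floor_add_one _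
  refine ⟨n, L, ((L : ℝ) - 1 / 2) / n, (E : ℝ) / n, 1 / (n : ℝ), (m + 1) * qζ.den,
    (m + 1) * E * qζ.num.toNat, hnpos, rfl, rfl, by positivity, by positivity, ?_, ?_, ?_,
    hrn.trans q1, hrn.trans q2, hrn.trans q3, hrn.trans q4, hrn.trans q5, ?_, ?_⟩
  · field_simp
  · rw [div_le_iff₀ hn0]
    have : (α + β - 2 * ((E : ℝ) / n)) * (n : ℝ) = n * (α + β) - 2 * E := by field_simp
    rw [this]
    linarith only [hL1]
  · rw [le_div_iff₀ hn0]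
    have : (α + β - 2 * ((E : ℝ) / n) - 1 / n) * (n : ℝ) = n * (α + β) - 2 * E - 1 := by field_simp
    rw [this]
    linarith only [hL2]
  · rw [hn, hε₁]
    push_cast
    field_simp
  · rw [hn]
    push_cast
    rw [← hDζ]
    ring

/-- the estimate for the middle primes -/
theorem est_mid (A0 : ℝ) (F f : ℝ → ℝ) (hSF : SF A0 F f) (ε₁ ζ υ τ β a b κ η' r : ℝ) (hε : 0 < ε₁)
    (hζ : 0 < ζ) (hβ : 0 < β) (h5 : ζ < υ → τ ≤ 5 * ζ) (hκ : 0 < κ) (hη' : 0 < η')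
    (hr : ∀ x ∈ Set.Icc β τ, ∀ y ∈ Set.Icc β τ, dist x y ≤ r → dist (Phi ζ x) (Phi ζ y) ≤ κ)
    (P R : Finset ℕ) (t t0 g ta : ℕ → ℝ) (K : ℕ) (hpos : ∀ p ∈ P, 0 < t p)
    (hR : ∀ q ∈ R, 0 ≤ t0 q ∧ ζ ≤ t0 q ∧ t0 q < υ)
    (hta : ∀ q ∈ R, β ≤ ta q ∧ ta q ≤ τ - t0 q ∧ τ - t0 q ≤ ta q + r)
    (hw : ∀ q ∈ R, 0 ≤ a - b * t0 q ∧ a - b * t0 q ≤ a) (hg : ∀ q ∈ R, 0 ≤ g q)
    (hMM : ∀ q ∈ R, MM P t g K true (ta q) (min ζ (ta q)) ≤
      ε₁ / (min ζ (ta q)) * F (ta q / min ζ (ta q)) + η') :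
    ∑ q ∈ R, g q * ((a - b * t0 q) * MM P t g K true (ta q) ζ) ≤
      ε₁ * A0 * (∑ q ∈ R, g q * ((a - b * t0 q) * Phi ζ (τ - t0 q))) +
        (ε₁ * A0 * κ + η') * (a * ∑ q ∈ R, g q) := by
  have hA0 := hSF.pos
  rw [mul_sum, mul_sum, mul_sum, ← sum_add_distrib]
  apply sum_le_sum
  intro q hq
  rw [MM_min P t g hpos K (ta q) ζ]
  obtain ⟨t1, t2, t3⟩ := hta q hq
  obtain ⟨hq0, hq1, hq2⟩ := hR q hq
  have hτ5 := h5 (lt_of_le_of_lt hq1 hq2)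
  have h10 := hMM q hq
  have h11 := Phi_bd A0 F f hSF ε₁ ζ (ta q) hε hζ (by linarith only [t1, hβ])
    (by linarith only [t2, hq0, hτ5])
  have h12 : Phi ζ (ta q) ≤ Phi ζ (τ - t0 q) + κ := by
    have h13 := hr (ta q) ⟨t1, by linarith only [t2, hq0]⟩ (τ - t0 q)
      ⟨by linarith only [t1, t2], by linarith only [hq0]⟩ (by
      rw [Real.dist_eq, abs_le]
      constructor
      · linarith only [t3]
      · linarith only [t2, t3])
    rw [Real.dist_eq, abs_le] at h13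
    linarith only [h13.2]
  have hwq := hw q hq
  have hgq := hg q hq
  have h14 : ε₁ * A0 * Phi ζ (ta q) ≤ ε₁ * A0 * (Phi ζ (τ - t0 q) + κ) :=
    mul_le_mul_of_nonneg_left h12 (by positivity)
  calc g q * ((a - b * t0 q) * MM P t g K true (ta q) (min ζ (ta q))) ≤
      g q * ((a - b * t0 q) * (ε₁ * A0 * (Phi ζ (τ - t0 q) + κ) + η')) := by
        apply mul_le_mul_of_nonneg_left _ hgq
        exact mul_le_mul_of_nonneg_left (by linarith only [h10, h11, h14]) hwq.1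
    _ = ε₁ * A0 * (g q * ((a - b * t0 q) * Phi ζ (τ - t0 q))) +
        (ε₁ * A0 * κ + η') * ((a - b * t0 q) * g q) := by ring
    _ ≤ ε₁ * A0 * (g q * ((a - b * t0 q) * Phi ζ (τ - t0 q))) + (ε₁ * A0 * κ + η') * (a * g q) := by
        have h15 : (ε₁ * A0 * κ + η') * ((a - b * t0 q) * g q) ≤
            (ε₁ * A0 * κ + η') * (a * g q) := by
          apply mul_le_mul_of_nonneg_left _ (by positivity)
          exact mul_le_mul_of_nonneg_right hwq.2 hgq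
        linarith only [h15]

/-- **the weighted linear sieve with factorable weights** (large primes) -/
theorem prov (A0 : ℝ) (F f : ℝ → ℝ) (hSF : SF A0 F f) (α β ζ υ a b : ℝ) (hζ : 0 < ζ)
    (hζq : ∃ q : ℚ, (q : ℝ) = ζ) (h2 : 2 * ζ < α + β) (h5 : ζ < υ → α + β ≤ 5 * ζ)
    (hτ1 : α + β ≤ 1)
    (hζυ : ζ ≤ υ) (hυα : υ < α) (hβ : 0 < β) (ha : 0 ≤ a) (hb : 0 ≤ b) (hab : b * υ ≤ a)
    (δ : ℝ) (hδ : 0 < δ) (E : ℕ) (hE : 0 < E) (hEζ : (1 : ℝ) / E ≤ ζ) (hEβ : (1 : ℝ) / E ≤ β) :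
    ∃ (Kf : ℕ) (η : ℝ), 0 < η ∧ ∀ Y : ℕ, 2 ≤ Y → ∃ cU cL : Finset ℕ → ℝ,
      (∀ T, |cU T| ≤ 1 ∧ |cL T| ≤ 1 + a) ∧
      Fac (pr Y (1 / E) υ) (pr Y (1 / E) υ) Y α β Kf (1 + a) cU ∧
      Fac (pr Y (1 / E) υ) (pr Y (1 / E) υ) Y α β Kf (1 + a) cL ∧
      (∀ N : ℕ, VV (pr Y (1 / E) υ) cL (fun p => if p ∣ N then 1 else 0) ≤
          WB Y (1 / E) ζ υ a b N ∧
          (if ∀ p ∈ pr Y (1 / E) ζ, ¬ p ∣ N then 1 else 0) ≤
            VV (pr Y (1 / E) υ) cU (fun p => if p ∣ N then 1 else 0)) ∧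
      ∀ g : ℕ → ℝ, (∀ p ∈ pr Y (1 / E) υ, 0 ≤ g p) →
        Mer (pr Y (1 / E) υ) (tt Y) g (1 / E) υ η →
        (1 / E) * (f ((α + β) / ζ) / ζ -
          A0 * (∫ x in ζ..υ, (a - b * x) * Phi ζ (α + β - x) / x) - δ) ≤
            VV (pr Y (1 / E) υ) cL g ∧
          VV (pr Y (1 / E) υ) cU g ≤ (1 / E) * (F ((α + β) / ζ) / ζ + δ) := by
  have hA0 := hSF.pos
  have hE0 : (0 : ℝ) < E := by exact_mod_cast hE
  obtain ⟨τ, hτdef⟩ : ∃ τ : ℝ, τ = α + β := ⟨_, rfl⟩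
  obtain ⟨ε₁, hε₁⟩ : ∃ ε₁ : ℝ, ε₁ = 1 / (E : ℝ) := ⟨_, rfl⟩
  rw [← hτdef] at h2 h5 hτ1 ⊢
  rw [← hε₁] at hEζ hEβ ⊢
  have hε : 0 < ε₁ := by rw [hε₁]; positivity
  have hα0 : 0 < α := by linarith only [hζ, hζυ, hυα]
  have hτα : α < τ := by linarith only [hτdef, hβ]
  have hτ0 : 0 < τ := by linarith only [hα0, hτα]
  have hζτ : ζ < τ := by linarith only [h2, hζ]
  have hυ1 : υ < 1 := by linarith only [hυα, hτα, hτ1]
  have hζ1 : ζ ≤ 1 := by linarith only [hζυ, hυ1]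
  have hε1 : ε₁ ≤ 1 := hEζ.trans hζ1
  obtain ⟨K, hK⟩ := exists_nat_ge (τ / ε₁)
  have hKτ : τ ≤ (K + 2) * ε₁ := by
    rw [div_le_iff₀ hε] at hK
    refine hK.trans ?_
    apply mul_le_mul_of_nonneg_right _ hε.le
    linarith only
  obtain ⟨Bd, hBd⟩ : ∃ Bd : ℝ, Bd = Real.log (υ / ζ) + 1 := ⟨_, rfl⟩
  have hBd0 : 0 < Bd := by
    have hlogυ : 0 ≤ Real.log (υ / ζ) :=
      Real.log_nonneg (by rw [le_div_iff₀ hζ]; linarith only [hζυ])
    linarith only [hlogυ, hBd]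
  -- constants
  obtain ⟨η', hη'0, hη'1⟩ : ∃ η' : ℝ, 0 < η' ∧ η' * (1 + a * Bd) = ε₁ * δ / 5 := by
    refine ⟨ε₁ * δ / (5 * (1 + a * Bd)), by positivity, by field_simp⟩
  obtain ⟨κ, hκ0, hκ1⟩ : ∃ κ : ℝ, 0 < κ ∧ A0 * (a * Bd) * κ ≤ δ / 5 := by
    refine ⟨δ / (5 * (A0 * (a * Bd) + 1)), by positivity, ?_⟩
    rw [mul_div_assoc', div_le_iff₀ (by positivity)]
    have h6 : 0 ≤ A0 * (a * Bd) := by positivity
    have h7 : δ / 5 * (5 * (A0 * (a * Bd) + 1)) = A0 * (a * Bd) * δ + δ := by ring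
    rw [h7]
    linarith only [hδ]
  obtain ⟨η₁, hη₁, H⟩ := Pool.Agent.W505.DC.MT Pool.Agent.W505.DC.MI A0 F f hSF ε₁
    η' K hε hε1 hη'0
  -- the function of the middle primes
  have hcon : ContinuousOn (fun x => (a - b * x) * Phi ζ (τ - x)) (Set.Icc ζ υ) := by
    apply ContinuousOn.mul (by fun_prop)
    apply ContinuousOn.comp (g := Phi ζ) (f := fun x => τ - x) (t := Set.Ioi 0)
    · exact Phi_cont ζ _ (fun x hx => hx)
    · fun_prop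
    · intro x hx
      have := hx.2
      rw [Set.mem_Ioi]
      linarith only [this, hυα, hτα]
  obtain ⟨η₂, hη₂, H2⟩ := mid' (fun x => (a - b * x) * Phi ζ (τ - x)) ζ υ hζ hζυ hυ1.le hcon
    (δ / (5 * A0)) (by positivity) ε₁ hε hEζ
  -- radii
  obtain ⟨r1, hr1, hr1'⟩ := cont_rad f hSF.cf τ ζ (δ * ζ / 5) hζ hζτ (by positivity)
  obtain ⟨r2, hr2, hr2'⟩ := cont_rad F hSF.cF τ ζ (δ * ζ / 5) hζ hζτ (by positivity)
  have hPhic : ContinuousOn (Phi ζ) (Set.Icc β τ) :=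
    Phi_cont ζ _ (fun x hx => lt_of_lt_of_le hβ hx.1)
  have hPhiu := isCompact_Icc.uniformContinuousOn_of_continuous hPhic
  rw [Metric.uniformContinuousOn_iff_le] at hPhiu
  obtain ⟨r3, hr3, hr3'⟩ := hPhiu κ hκ0
  obtain ⟨n, L, τ', eN, iN, m1, m2, hnpos, heN, hiN, heN0, hiN0, hτ'n, hτ'1, hτ'2, p1, p2, p3, p4, p5,
    hnε, hnζ⟩ := exPar α β ζ υ (min (min r1 r2) r3) η₁ ε₁ hζ hζq (by rw [← hτdef]; exact h2) hυα hβ
      (lt_min (lt_min hr1 hr2) hr3) hη₁ E hE hε₁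
  rw [← hτdef] at hτ'1 hτ'2 p3
  have hn0 : (0 : ℝ) < n := by exact_mod_cast hnpos
  have p11 : 2 * eN + 2 * iN ≤ r1 := p1.trans ((min_le_left _ _).trans (min_le_left _ _))
  have p12 : 2 * eN + 2 * iN ≤ r2 := p1.trans ((min_le_left _ _).trans (min_le_right _ _))
  have p13 : 2 * eN + 2 * iN ≤ r3 := p1.trans (min_le_right _ _)
  have hζτ' : 2 * ζ ≤ τ' := by linarith only [hτ'2, p3, hiN0]
  have hτ'0 : 0 < τ' := by linarith only [hζτ', hζ]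
  have hτ'le : τ' ≤ 1 := by linarith only [hτ'1, hτ1, heN0]
  have hττ' : τ' ≤ τ := by linarith only [hτ'1, heN0]
  obtain ⟨θ, hθ0, hθK⟩ : ∃ θ : ℝ, 0 < θ ∧ (K + 3 : ℝ) * θ = 1 / 4 :=
    ⟨1 / (4 * (K + 3)), by positivity, by field_simp⟩
  have hθ1 : θ < 1 := by
    have h6 : (3 : ℝ) * θ ≤ (K + 3) * θ := by
      apply mul_le_mul_of_nonneg_right _ hθ0.le
      have : (0 : ℝ) ≤ K := Nat.cast_nonneg K
      linarith only [this]
    linarith only [h6, hθK, hθ0]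
  have hθK2 : 1 / 2 + (K + 3 : ℝ) * θ < 1 := by rw [hθK]; norm_num
  have hfacE : 1 ≤ ε₁ * E := by
    rw [hε₁]
    exact le_of_eq (by field_simp)
  refine ⟨(E + 1) ^ n + n * (E + 1) ^ n, min (min (η₁ / 2) η₂) 1,
    lt_min (lt_min (by positivity) hη₂) one_pos, ?_⟩
  intro Y hY
  have hmem : ∀ u v : ℝ, ∀ p ∈ pr Y u v, p.Prime ∧ u ≤ tt Y p ∧ tt Y p < v := by
    intro u v p hp
    unfold pr at hp
    rw [mem_filter] at hp
    exact hp.2
  have hPR : pr Y ε₁ ζ ∪ pr Y ζ υ = pr Y ε₁ υ := by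
    ext p
    unfold pr
    rw [mem_union, mem_filter, mem_filter, mem_filter]
    constructor
    · rintro (⟨h1, h2, h3, h4⟩ | ⟨h1, h2, h3, h4⟩)
      · exact ⟨h1, h2, h3, h4.trans_le hζυ⟩
      · exact ⟨h1, h2, hEζ.trans h3, h4⟩
    · rintro ⟨h1, h2, h3, h4⟩
      rcases lt_or_ge (tt Y p) ζ with h | h
      · exact Or.inl ⟨h1, h2, h3, h⟩
      · exact Or.inr ⟨h1, h2, h, h4⟩
  have hd : Disjoint (pr Y ε₁ ζ) (pr Y ζ υ) := by
    rw [disjoint_left]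
    intro p hp hp'
    have h1 := (hmem _ _ p hp).2.2
    have h2 := (hmem _ _ p hp').2.1
    linarith only [h1, h2]
  have hfilP : ∀ x y : ℝ, y ≤ ζ → (pr Y ε₁ ζ).filter (fun p => x ≤ tt Y p ∧ tt Y p < y) =
      (pr Y ε₁ υ).filter (fun p => x ≤ tt Y p ∧ tt Y p < y) := by
    intro x y hy
    ext p
    rw [mem_filter, mem_filter, ← hPR, mem_union]
    constructor
    · rintro ⟨h5, h6⟩
      exact ⟨Or.inl h5, h6⟩
    · rintro ⟨h5 | h5, h6⟩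
      · exact ⟨h5, h6⟩
      · have h7 := (hmem _ _ p h5).2.1
        exact absurd (h6.2.trans_le hy) (not_lt.2 h7)
  have hRf : (pr Y ε₁ υ).filter (fun p => ζ ≤ tt Y p ∧ tt Y p < υ) = pr Y ζ υ := by
    ext p
    rw [mem_filter, ← hPR, mem_union]
    constructor
    · rintro ⟨h5 | h5, h6⟩
      · exact absurd (hmem _ _ p h5).2.2 (not_lt.2 h6.1)
      · exact h5
    · intro h5
      exact ⟨Or.inr h5, (hmem _ _ p h5).2⟩
  obtain ⟨P, hP⟩ : ∃ P : Finset ℕ, P = pr Y ε₁ ζ := ⟨_, rfl⟩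
  obtain ⟨R, hR⟩ : ∃ R : Finset ℕ, R = pr Y ζ υ := ⟨_, rfl⟩
  have hPm : ∀ p ∈ P, p.Prime ∧ ε₁ ≤ tt Y p ∧ tt Y p < ζ := by rw [hP]; exact hmem _ _
  have hRm : ∀ p ∈ R, p.Prime ∧ ζ ≤ tt Y p ∧ tt Y p < υ := by rw [hR]; exact hmem _ _
  have hWB : ∀ N, WB Y ε₁ ζ υ a b N = (if ∀ p ∈ P, ¬ p ∣ N then 1 else 0) *
      (1 - ∑ q ∈ R, (a - b * tt Y q) * (if q ∣ N then 1 else 0)) := by
    intro N
    rw [hP, hR]
    unfold WB
    rfl
  rw [← hP, ← hR] at hPR hd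
  rw [← hR] at hRf
  rw [← hP] at hfilP
  rw [← hPR]
  rw [← hPR] at hRf hfilP
  obtain ⟨t, ht⟩ : ∃ t : ℕ → ℝ, t = tm Y n θ := ⟨_, rfl⟩
  obtain ⟨c, hc⟩ : ∃ c : ℕ → ℕ, c = cc Y n := ⟨_, rfl⟩
  have hsiz : Siz P t := by rw [ht]; exact tm_siz Y n hY hnpos θ hθ0 P (fun p hp => (hPm p hp).1)
  have ht0 : ∀ p, 0 ≤ t p := by rw [ht]; exact fun p => tm_nn Y n θ hθ0.le p
  have hPt1 : ∀ p ∈ P, tt Y p ≤ 1 := fun p hp => (hPm p hp).2.2.le.trans hζ1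
  have hcel : Cel P t n c θ := by rw [ht, hc]; exact tm_cel Y n hnpos θ hθ0.le P hPt1
  have hPε : ∀ p ∈ P, ε₁ ≤ t p := by
    rw [ht]
    exact fun p hp => tm_ge Y n hnpos θ hθ0.le ε₁ _ hnε p (hPm p hp).2.1
  have hPζ : ∀ p ∈ P, t p < ζ := by
    rw [ht]
    exact fun p hp => tm_lt Y n hnpos θ hθ0.le hθ1 ζ hζ1 _ hnζ p (hPm p hp).2.2
  have hcm : ∀ p ∈ P, ∀ q ∈ P, p ≤ q → c p ≤ c q := by
    rw [hc]
    exact fun p hp q _ hpq => cc_mono Y n p q (hPm p hp).1.pos hpq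
  have hcle : ∀ p, (c p : ℝ) ≤ n * tt Y p := by rw [hc]; exact fun p => cc_le Y n p
  have hclt : ∀ p, (n : ℝ) * tt Y p < c p + 1 := by rw [hc]; exact fun p => cc_lt Y n p
  have hcN : ∀ p ∈ P, c p < n := by
    intro p hp
    have h6 : (c p : ℝ) < n := by
      calc (c p : ℝ) ≤ n * tt Y p := hcle p
        _ < n * 1 := mul_lt_mul_of_pos_left ((hPm p hp).2.2.trans_le hζ1) hn0
        _ = n := mul_one _
    exact_mod_cast h6
  have hpow : ∀ p : ℕ, 0 < p → (p : ℝ) ≤ (Y : ℝ) ^ (((c p : ℝ) + 1) / n) := by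
    rw [hc]
    exact fun p hp => tm_pow Y n hY hnpos p hp
  have htc : ∀ p ∈ P, |t p - tt Y p| ≤ iN := by
    rw [ht, ← hiN]
    exact fun p hp => tm_close Y n hnpos θ hθ0.le hθ1.le p (hPt1 p hp)
  obtain ⟨t0, ht0d⟩ : ∃ t0 : ℕ → ℝ, t0 = tt Y := ⟨_, rfl⟩
  have ht0n : ∀ q, 0 ≤ t0 q := by rw [ht0d]; exact fun q => tt_nn Y q
  simp only [← ht0d] at hPm hRm hWB hPt1 hcle hclt htc hfilP hRf ⊢
  clear ht hc ht0d hmem
  -- the level for the middle primes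
  obtain ⟨ta, hta⟩ : ∃ ta : ℕ → ℝ, ta = fun q => τ' - ((c q : ℝ) + 1) / n := ⟨_, rfl⟩
  have hta' : ∀ q, ta q = τ' - ((c q : ℝ) + 1) / n := fun q => by rw [hta]
  clear hta
  have htaR : ∀ q ∈ R, β ≤ ta q ∧ ta q ≤ τ - t0 q ∧ τ - t0 q ≤ ta q + r3 := by
    intro q hq
    have h6 := (hRm q hq).2.2
    obtain ⟨x, hx⟩ : ∃ x : ℝ, x = (c q : ℝ) / n := ⟨_, rfl⟩
    have h7 : x ≤ t0 q := by
      rw [hx, div_le_iff₀ hn0, mul_comm]
      exact hcle q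
    have h8 : t0 q ≤ x + iN := by
      have h9 : x + iN = ((c q : ℝ) + 1) / n := by rw [hx, ← hiN]; ring
      rw [h9, le_div_iff₀ hn0, mul_comm]
      exact (hclt q).le
    have h10 : ta q = τ' - (x + iN) := by rw [hta' q, hx, ← hiN]; ring
    rw [h10]
    refine ⟨?_, ?_, ?_⟩
    · linarith only [hτ'2, h7, h6, p2, hτdef, heN0, hiN0]
    · linarith only [hτ'1, h8, heN0]
    · linarith only [hτ'2, h7, p13, heN0]
  have hta0 : ∀ q ∈ R, 0 ≤ ta q := fun q hq => hβ.le.trans (htaR q hq).1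
  have hwR : ∀ q ∈ R, 0 ≤ a - b * t0 q ∧ a - b * t0 q ≤ a := by
    intro q hq
    have h1 := (hRm q hq).2.2
    constructor
    · have : b * t0 q ≤ b * υ := mul_le_mul_of_nonneg_left h1.le hb
      linarith only [this, hab]
    · have : 0 ≤ b * t0 q := mul_nonneg hb (ht0n q)
      linarith only [this]
  refine ⟨wA P t K true τ' ζ, fun T => wA P t K false τ' ζ T -
    ∑ q ∈ R, wM P t K ζ (fun q => a - b * t0 q) ta q T, ?_, ?_, ?_, ?_, ?_⟩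
  · intro T
    refine ⟨wA_abs P t hsiz K true τ' ζ hτ'0.le (fun _ => hζτ') T, ?_⟩
    have h3 := wA_abs P t hsiz K false τ' ζ hτ'0.le (fun _ => hζτ') T
    have h5 := wM_abs P R hd t hsiz K ζ (fun q => a - b * t0 q) ta a ha hwR hta0 T
    exact (abs_sub _ _).trans (add_le_add h3 h5)
  · exact (wM_fac P R hd t hsiz ht0 Y n (by omega) hnpos c θ hcel hcm hcN hpow
      (fun p hp => (hPm p hp).1.pos) (fun p hp => (hRm p hp).1.pos) ε₁ hε E hfacE hPε K τ' ζ L hτ'n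
      hθK2 hPζ hτ'le hζτ' α β υ a eN iN heN hiN heN0 hiN0 (by linarith only [hτ'1, hτdef])
      (by linarith only [hτ'2, hτdef, p4, hiN0, heN0]) ha (hζ.le.trans hζυ)
      (by linarith only [p2, heN0, hiN0]) (by linarith only [hτ'2, hτα, p2, hiN0, heN0])
      (fun q => a - b * t0 q) (fun q hq => by
        rw [abs_of_nonneg (hwR q hq).1]
        exact (hwR q hq).2) (fun q hq => lt_of_le_of_lt (hcle q)
          (mul_lt_mul_of_pos_left (hRm q hq).2.2 hn0)) hυ1 ta hta' hτ'0.le).1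
  · exact (wM_fac P R hd t hsiz ht0 Y n (by omega) hnpos c θ hcel hcm hcN hpow
      (fun p hp => (hPm p hp).1.pos) (fun p hp => (hRm p hp).1.pos) ε₁ hε E hfacE hPε K τ' ζ L hτ'n
      hθK2 hPζ hτ'le hζτ' α β υ a eN iN heN hiN heN0 hiN0 (by linarith only [hτ'1, hτdef])
      (by linarith only [hτ'2, hτdef, p4, hiN0, heN0]) ha (hζ.le.trans hζυ)
      (by linarith only [p2, heN0, hiN0]) (by linarith only [hτ'2, hτα, p2, hiN0, heN0])
      (fun q => a - b * t0 q) (fun q hq => by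
        rw [abs_of_nonneg (hwR q hq).1]
        exact (hwR q hq).2) (fun q hq => lt_of_le_of_lt (hcle q)
          (mul_lt_mul_of_pos_left (hRm q hq).2.2 hn0)) hυ1 ta hta' hτ'0.le).2
  · intro N
    have h6 := w_ineq P R hd t hsiz K τ' ζ hPζ hτ'0.le hζτ' (fun q => a - b * t0 q) ta
      (fun q hq => (hwR q hq).1) hta0 N
    refine ⟨?_, ?_⟩
    · rw [hWB]
      refine h6.1.trans (le_of_eq ?_)
      congr
    · refine le_trans (le_of_eq ?_) h6.2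
      by_cases h9 : ∀ p ∈ pr Y ε₁ ζ, ¬p ∣ N
      · rw [if_pos h9, if_pos (by rw [hP]; exact h9)]
      · rw [if_neg h9, if_neg (by rw [hP]; exact h9)]
  · intro g hg hM
    have hgP : ∀ p ∈ P, 0 ≤ g p := fun p hp => hg p (mem_union_left _ hp)
    have hgR : ∀ p ∈ R, 0 ≤ g p := fun p hp => hg p (mem_union_right _ hp)
    have hM1 : Mer P t0 g ε₁ ζ (η₁ / 2) := by
      intro x y hx hxy hy
      have h1 := hM x y hx hxy (hy.trans hζυ)
      rw [hfilP x y hy]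
      exact h1.trans ((min_le_left _ _).trans (min_le_left _ _))
    have hM1' : Mer P t g ε₁ ζ η₁ := by
      have h6 := mer_tr P t0 t g ε₁ ζ (η₁ / 2) iN hε hiN0.le hgP
        (fun p hp => (hPm p hp).2) htc hM1 (by positivity)
      apply mer_mono _ _ _ _ _ _ _ h6
      have h7 : 2 * iN / ε₁ ≤ η₁ / 4 := by
        rw [div_le_iff₀ hε]
        linarith only [p5, heN0]
      linarith only [h7, hη₁]
    have hM2 : Mer (P ∪ R) t0 g ε₁ υ η₂ := fun x y hx hxy hy =>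
      (hM x y hx hxy hy).trans ((min_le_left _ _).trans (min_le_right _ _))
    have h7 := H P t g ζ hζ1 hgP hPε hM1' K le_rfl
      τ' ζ (hττ'.trans hKτ) hEζ le_rfl (by linarith only [hζτ', hζ]) hτ'le
    have habs : |τ' - τ| ≤ 2 * eN + 2 * iN := by
      rw [abs_le]
      constructor
      · linarith only [hτ'2, hiN0]
      · linarith only [hττ', heN0, hiN0]
    have hft := hr1' τ' (habs.trans p11)
    have hFt := hr2' τ' (habs.trans p12)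
    rw [abs_le] at hft hFt
    constructor
    · rw [VV_sub, VV_sum, wA_VV, lc_V _ _ hsiz K false τ' ζ hτ'0.le (fun _ => hζτ')]
      have h8 := h7.2 hζτ'
      have h9 : ∑ q ∈ R, VV (P ∪ R) (wM P t K ζ (fun q => a - b * t0 q) ta q) g =
          ∑ q ∈ R, g q * ((a - b * t0 q) * MM P t g K true (ta q) ζ) := by
        apply sum_congr rfl
        intro q hq
        rw [wM_VV P R hd t K ζ _ ta q hq, lc_V _ _ hsiz K true (ta q) ζ (hta0 q hq)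
          (fun h => by simp at h)]
      have h9' := est_mid A0 F f hSF ε₁ ζ υ τ β a b κ η' r3 hε hζ hβ h5 hκ0 hη'0 hr3' P R t t0 g ta K
        hsiz.pos (fun q hq => ⟨ht0n q, (hRm q hq).2⟩) htaR hwR hgR (fun q hq => by
          obtain ⟨t1, t2, t3⟩ := htaR q hq
          have hq0 := ht0n q
          have hz0 : 0 < min ζ (ta q) := lt_min hζ (by linarith only [t1, hβ])
          exact (H P t g ζ hζ1 hgP hPε hM1' K le_rfl
            (ta q) (min ζ (ta q)) (by linarith only [t2, hq0, hKτ])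
            (le_min hEζ (by linarith only [t1, hEβ])) (min_le_left _ _)
            (min_le_right _ _) (by linarith only [t2, hq0, hτ1])).1)
      rw [← h9] at h9'
      have h11 := H2 (P ∪ R) t0 g hg hM2
      rw [hRf] at h11
      have h12 : ∑ q ∈ R, g q ≤ Bd := by
        have h13 := hM ζ υ hEζ hζυ le_rfl
        rw [hRf, abs_le] at h13
        have h14 : min (min (η₁ / 2) η₂) 1 ≤ 1 := min_le_right _ _
        linarith only [h13.2, h14, hBd]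
      obtain ⟨Iv, hIv⟩ : ∃ Iv : ℝ, Iv = ∫ x in ζ..υ, (a - b * x) * Phi ζ (τ - x) / x := ⟨_, rfl⟩
      have h11' : ∑ q ∈ R, g q * ((a - b * t0 q) * Phi ζ (τ - t0 q)) ≤ Iv + δ / (5 * A0) := by
        rw [hIv]
        exact h11
      rw [← hIv]
      have h15 : ε₁ * A0 * (∑ q ∈ R, g q * ((a - b * t0 q) * Phi ζ (τ - t0 q))) ≤
          ε₁ * A0 * (Iv + δ / (5 * A0)) :=
        mul_le_mul_of_nonneg_left h11' (by positivity)
      have h15' : ε₁ * A0 * (Iv + δ / (5 * A0)) = ε₁ * (A0 * Iv) + ε₁ * δ / 5 := by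
        field_simp
      have h16 : (ε₁ * A0 * κ + η') * (a * ∑ q ∈ R, g q) ≤ (ε₁ * A0 * κ + η') * (a * Bd) := by
        apply mul_le_mul_of_nonneg_left _ (by positivity)
        exact mul_le_mul_of_nonneg_left h12 ha
      have h17 : (ε₁ * A0 * κ + η') * (a * Bd) + η' ≤ ε₁ * δ / 5 + ε₁ * δ / 5 := by
        have e1 : (ε₁ * A0 * κ + η') * (a * Bd) + η' = ε₁ * (A0 * (a * Bd) * κ) +
            η' * (1 + a * Bd) := by ring
        rw [e1, hη'1]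
        have e2 : ε₁ * (A0 * (a * Bd) * κ) ≤ ε₁ * (δ / 5) := mul_le_mul_of_nonneg_left hκ1 hε.le
        linarith only [e2]
      have h18 : ε₁ * (f (τ / ζ) / ζ) - ε₁ * δ / 5 ≤ ε₁ / ζ * f (τ' / ζ) := by
        have e1 : ε₁ / ζ * (f (τ / ζ) - δ * ζ / 5) ≤ ε₁ / ζ * f (τ' / ζ) :=
          mul_le_mul_of_nonneg_left (by linarith only [hft.1]) (by positivity)
        have e2 : ε₁ / ζ * (f (τ / ζ) - δ * ζ / 5) = ε₁ * (f (τ / ζ) / ζ) - ε₁ * δ / 5 := by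
          field_simp
        linarith only [e1, e2]
      have h20 : ε₁ * (f (τ / ζ) / ζ - A0 * Iv - δ) =
          ε₁ * (f (τ / ζ) / ζ) - ε₁ * (A0 * Iv) - ε₁ * δ := by ring
      rw [h20]
      have h21 : 0 < ε₁ * δ := by positivity
      linarith only [h8, h9', h15, h15', h16, h17, h18, h21]
    · rw [wA_VV, lc_V _ _ hsiz K true τ' ζ hτ'0.le (fun _ => hζτ')]
      have h9 := h7.1
      have h10 : ε₁ / ζ * F (τ' / ζ) ≤ ε₁ * (F (τ / ζ) / ζ) + ε₁ * δ / 5 := by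
        have e1 : ε₁ / ζ * F (τ' / ζ) ≤ ε₁ / ζ * (F (τ / ζ) + δ * ζ / 5) :=
          mul_le_mul_of_nonneg_left (by linarith only [hFt.2]) (by positivity)
        have e2 : ε₁ / ζ * (F (τ / ζ) + δ * ζ / 5) = ε₁ * (F (τ / ζ) / ζ) + ε₁ * δ / 5 := by
          field_simp
        linarith only [e1, e2]
      have h11 : η' ≤ ε₁ * δ / 5 := by
        have h6 : η' * 1 ≤ η' * (1 + a * Bd) := by
          apply mul_le_mul_of_nonneg_left _ hη'0.le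
          have : 0 ≤ a * Bd := by positivity
          linarith only [this]
        linarith only [h6, hη'1]
      have h12 : 0 < ε₁ * δ := by positivity
      have h13 : ε₁ * (F (τ / ζ) / ζ + δ) = ε₁ * (F (τ / ζ) / ζ) + ε₁ * δ := by ring
      rw [h13]
      linarith only [h9, h10, h11, h12]

end Pool.Agent.H543.DD
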