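import Pool.Agent.H543.DD.Ty6
import Pool.Graph.R_seed8.Y882.JR.Core5
import Pool.Graph.R_seed8.Y882.KW.Core3

/-!
# The weighted linear sieve with factorable weights: all primes
-/

set_option autoImplicit false

namespace Pool.Agent.H543.DD

open Finset Filter
open Pool.Agent.W23.DC
open Pool.Agent.Y882
open Pool.Agent.Y882.KW
open Pool.Agent.Y882.JR (prod_large alg_low alg_up)

open Classical in
/-- the weights are factorable -/
theorem fac_W (Y z0 C b J : ℕ) (hY : 1 ≤ Y) (ε₁ υ α β δ' : ℝ) (B : ℕ) (K : ℕ) (Cc G : ℝ)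
    (hCc : 0 ≤ Cc) (hG : 0 ≤ G) (Q P0 P1 P2 PU : Finset ℕ) (hPU : Q ∪ P2 = PU) (hd2 : Disjoint Q P2)
    (hpr : ∀ p ∈ Q ∪ P2, p.Prime) (hQ : P0 ∪ P1 = Q)
    (hP0 : ∀ p ∈ P0, 1 ≤ p ∧ p ≤ z0) (hB : B = ∏ p ∈ Icc 1 z0, p)
    (hBs : (B : ℝ) ≤ (Y : ℝ) ^ (δ' / 2)) (hJ : ((2 : ℝ) ^ 2 ^ J) ^ (C * b) ≤ (Y : ℝ) ^ (δ' / 2))
    (γ y : Finset ℕ → ℝ) (hγ : ∀ U, |γ U| ≤ G)
    (hγ2 : ∀ T ⊆ P1, γ T ≠ 0 → ∏ p ∈ T, p ≤ (2 ^ 2 ^ J) ^ (C * b))
    (hy : Fac P2 P2 Y α β K Cc y) :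
    Fac PU P2 Y (δ' + α) β K (G * Cc) (fun T =>
      (fun U => (-1) ^ (U ∩ P0).card * γ (U ∩ P1)) (T ∩ Q) * y (T ∩ P2)) := by
  rw [← hPU]
  have hY1r : (1 : ℝ) ≤ Y := by exact_mod_cast hY
  refine fac_prod Q P2 hd2 hpr Y hY α β δ' K Cc G y hy
    (fun U => (-1) ^ (U ∩ P0).card * γ (U ∩ P1)) ?_ hG hCc ?_
  · intro U
    rw [abs_mul, abs_neg_one_pow, one_mul]
    exact hγ _
  · intro U hU hne
    have h1 : γ (U ∩ P1) ≠ 0 := right_ne_zero_of_mul hne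
    have h2 := hγ2 _ inter_subset_right h1
    have h3 : U = (U ∩ P0) ∪ (U ∩ P1) := by
      rw [← inter_union_distrib_left, hQ]
      exact (inter_eq_left.2 hU).symm
    have hpos : ∀ S ⊆ U, 1 ≤ ∏ p ∈ S, p := by
      intro S hS
      refine Nat.pos_of_ne_zero (prod_ne_zero_iff.2 fun p hp => ?_)
      exact (hpr p (mem_union_left _ (hU (hS hp)))).ne_zero
    have h4 : ∏ p ∈ U, p ≤ (∏ p ∈ U ∩ P0, p) * ∏ p ∈ U ∩ P1, p := by
      conv_lhs => rw [h3]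
      rw [← prod_union_inter]
      apply Nat.le_mul_of_pos_right
      exact hpos _ (inter_subset_left.trans inter_subset_left)
    have h10 : ∏ p ∈ U ∩ P0, p ≤ B := by
      rw [hB]
      apply prod_le_prod_of_subset_of_one_le'
      · intro p hp
        have h11 := hP0 p (mem_inter.1 hp).2
        exact mem_Icc.2 h11
      · intro p hp _
        exact (mem_Icc.1 hp).1
    have h12 : ∏ p ∈ U, p ≤ B * (2 ^ 2 ^ J) ^ (C * b) := h4.trans (Nat.mul_le_mul h10 h2)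
    have h13 : ((∏ p ∈ U, p : ℕ) : ℝ) ≤ (B : ℝ) * ((2 : ℝ) ^ 2 ^ J) ^ (C * b) := by
      exact_mod_cast h12
    refine h13.trans ?_
    calc (B : ℝ) * ((2 : ℝ) ^ 2 ^ J) ^ (C * b) ≤ (Y : ℝ) ^ (δ' / 2) * (Y : ℝ) ^ (δ' / 2) := by
          gcongr
      _ = (Y : ℝ) ^ δ' := by
          rw [← Real.rpow_add (by linarith)]
          congr 1
          ring

open Classical in
/-- the pointwise inequalities -/
theorem core_ineq (Q P0 P1 P2 Pζ : Finset ℕ) (hQ : P0 ∪ P1 = Q) (ζs : Finset ℕ)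
    (hPζ : Q ∪ ζs = Pζ) (N : ℕ) (S : ℝ) (hS0 : 0 ≤ S) (L U l u : ℝ)
    (a1 : L ≤ if ∀ p ∈ P1, ¬ p ∣ N then 1 else 0) (a2 : (if ∀ p ∈ P1, ¬ p ∣ N then 1 else 0) ≤ U)
    (a3 : l ≤ (if ∀ p ∈ ζs, ¬ p ∣ N then 1 else 0) * (1 - S))
    (a4 : (if ∀ p ∈ ζs, ¬ p ∣ N then 1 else 0) ≤ u) :
    (if ∀ p ∈ P0, ¬ p ∣ N then (1 : ℝ) else 0) * L * u + (if ∀ p ∈ P0, ¬ p ∣ N then 1 else 0) * U * l -
        (if ∀ p ∈ P0, ¬ p ∣ N then 1 else 0) * U * u ≤
      (if ∀ p ∈ Pζ, ¬ p ∣ N then 1 else 0) * (1 - S) ∧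
    (if ∀ p ∈ Pζ, ¬ p ∣ N then (1 : ℝ) else 0) ≤ (if ∀ p ∈ P0, ¬ p ∣ N then 1 else 0) * U * u := by
  set x : ℝ := if ∀ p ∈ P1, ¬ p ∣ N then 1 else 0 with hx
  set y : ℝ := if ∀ p ∈ ζs, ¬ p ∣ N then 1 else 0 with hy
  have hx0 : 0 ≤ x := by rw [hx]; split_ifs <;> norm_num
  have hy0 : 0 ≤ y := by rw [hy]; split_ifs <;> norm_num
  have hyS : y * (1 - S) ≤ y := by
    have := mul_nonneg hy0 hS0
    linarith
  have key : L * u + U * l - U * u ≤ x * (y * (1 - S)) := by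
    have b1 : 0 ≤ (U - x) * (u - l) := mul_nonneg (by linarith) (by linarith)
    have b2 : 0 ≤ x * (y * (1 - S) - l) := mul_nonneg hx0 (by linarith)
    have b3 : 0 ≤ (x - L) * u := mul_nonneg (by linarith) (by linarith)
    nlinarith
  have key2 : x * y ≤ U * u := mul_le_mul a2 a4 hy0 (by linarith)
  by_cases hc0 : ∀ p ∈ P0, ¬ p ∣ N
  · rw [if_pos hc0]
    have hxy : x * y = if ∀ p ∈ Pζ, ¬ p ∣ N then (1 : ℝ) else 0 := by
      by_cases hc1 : ∀ p ∈ P1, ¬ p ∣ N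
      · by_cases hc2 : ∀ p ∈ ζs, ¬ p ∣ N
        · rw [hx, hy, if_pos hc1, if_pos hc2, if_pos, mul_one]
          intro p hp
          rw [← hPζ, ← hQ, mem_union, mem_union] at hp
          rcases hp with (hp | hp) | hp
          · exact hc0 p hp
          · exact hc1 p hp
          · exact hc2 p hp
        · rw [hy, if_neg hc2, if_neg, mul_zero]
          intro hc
          apply hc2
          intro p hp
          exact hc p (by rw [← hPζ]; exact mem_union_right _ hp)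
      · rw [hx, if_neg hc1, if_neg, zero_mul]
        intro hc
        apply hc1
        intro p hp
        exact hc p (by rw [← hPζ, ← hQ]; exact mem_union_left _ (mem_union_right _ hp))
    rw [← hxy]
    constructor
    · have e6 : x * y * (1 - S) = x * (y * (1 - S)) := by ring
      rw [e6]
      linarith
    · linarith
  · rw [if_neg hc0]
    have h6 : (if ∀ p ∈ Pζ, ¬ p ∣ N then (1 : ℝ) else 0) = 0 := by
      rw [if_neg]
      intro hc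
      apply hc0
      intro p hp
      exact hc p (by rw [← hPζ, ← hQ]; exact mem_union_left _ (mem_union_left _ hp))
    rw [h6]
    simp

end Pool.Agent.H543.DD
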