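import Pool.Agent.H543.DD.Par

/-!
# The bound for the variance
-/

set_option autoImplicit false

namespace Pool.Agent.H543.DD

open Finset Filter
open Pool.Agent.Y346.PA (S_KL)
open scoped Classical

theorem rmul2 (X : ℝ) (hX : 1 ≤ X) (a b c : ℝ) (h : a + b ≤ c) : X ^ a * X ^ b ≤ X ^ c := by
  rw [← Real.rpow_add (by linarith)]
  exact Real.rpow_le_rpow_of_exponent_le hX h

theorem rmul3 (X : ℝ) (hX : 1 ≤ X) (a b c d : ℝ) (h : a + b + c ≤ d) : X ^ a * X ^ b * X ^ c ≤ X ^ d := by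
  rw [← Real.rpow_add (by linarith), ← Real.rpow_add (by linarith)]
  exact Real.rpow_le_rpow_of_exponent_le hX h

/-- the window -/
noncomputable def hwd (X : ℕ) (κ : ℝ) (x : ℕ) : ℕ := ⌊(x : ℝ) * (X : ℝ) ^ (-20 * κ)⌋₊ + 1

/-- bounds for one `x` -/
theorem one_x (C κ ε : ℝ) (hC : 1 ≤ C) (hκ : 0 < κ) (hκε : 100 * κ ≤ ε) (hε : ε ≤ 1 / 100) (X H x N : ℕ)
    (hX : 1 ≤ X) (hHX : H ≤ X) (hx1 : (X : ℝ) ^ (11 / 25 : ℝ) ≤ x) (hx2 : (x : ℝ) ^ 2 ≤ (X : ℝ) ^ (1 - ε))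
    (hN : (N : ℝ) ≤ (X : ℝ) ^ (1 / 12 - ε)) :
    16 * Vv X H x (hwd X κ x) + 16 ≤ 1 / x * (X * (208 * (X : ℝ) ^ (-20 * κ))) ∧
    E2 C κ X H x (hwd X κ x) N ≤ 1 / x * (90 * C * (X : ℝ) ^ (5 / 6 - 7 * ε / 4 + 21 * κ)) := by
  have hXr : (1 : ℝ) ≤ X := by exact_mod_cast hX
  have hX0 : (0 : ℝ) < X := by linarith
  have hx0 : (0 : ℝ) < x := lt_of_lt_of_le (by positivity) hx1
  have hxn : 1 ≤ x := by
    have : 0 < x := by exact_mod_cast hx0
    exact this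
  have hxr1 : (1 : ℝ) ≤ x := by exact_mod_cast hxn
  have hHr : (H : ℝ) ≤ X := by exact_mod_cast hHX
  have hH0 : (0 : ℝ) ≤ H := Nat.cast_nonneg H
  set h := hwd X κ x with hh
  have hκ' : κ ≤ 1 / 10000 := by linarith
  -- the window
  have w1 : (1 : ℝ) ≤ (x : ℝ) * (X : ℝ) ^ (-20 * κ) := by
    calc (1 : ℝ) = (X : ℝ) ^ (0 : ℝ) := (Real.rpow_zero _).symm
      _ ≤ (X : ℝ) ^ (11 / 25 + -20 * κ) := Real.rpow_le_rpow_of_exponent_le hXr (by linarith)
      _ = (X : ℝ) ^ (11 / 25 : ℝ) * (X : ℝ) ^ (-20 * κ) := Real.rpow_add hX0 _ _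
      _ ≤ _ := mul_le_mul_of_nonneg_right hx1 (by positivity)
  have w2 : (h : ℝ) ≤ 2 * (x * (X : ℝ) ^ (-20 * κ)) := by
    rw [hh]
    unfold hwd
    push_cast
    have := Nat.floor_le (show 0 ≤ (x : ℝ) * (X : ℝ) ^ (-20 * κ) by positivity)
    linarith
  have w3 : (x : ℝ) * (X : ℝ) ^ (-20 * κ) ≤ h := by
    rw [hh]
    unfold hwd
    push_cast
    exact (Nat.lt_floor_add_one _).le
  have hh0 : (0 : ℝ) < h := by linarith
  -- sizes
  have hxx : (x : ℝ) ≤ (X : ℝ) ^ ((1 - ε) / 2) := by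
    rw [← Real.sqrt_sq hx0.le]
    have h1 : Real.sqrt ((x : ℝ) ^ 2) ≤ Real.sqrt ((X : ℝ) ^ (1 - ε)) := Real.sqrt_le_sqrt hx2
    refine h1.trans (le_of_eq ?_)
    rw [Real.sqrt_eq_rpow, ← Real.rpow_mul hX0.le]
    congr 1
    ring
  have hx2X : (x : ℝ) ^ 2 ≤ X := by
    refine hx2.trans ?_
    calc (X : ℝ) ^ (1 - ε) ≤ (X : ℝ) ^ (1 : ℝ) := Real.rpow_le_rpow_of_exponent_le hXr (by linarith)
      _ = X := Real.rpow_one _
  have hxX : (x : ℝ) ≤ 1 / x * X := by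
    rw [div_mul_eq_mul_div, one_mul, le_div_iff₀ hx0]
    nlinarith
  have h1X : (1 : ℝ) ≤ 1 / x * X := hxr1.trans hxX
  -- variation
  have hV : Vv X H x h ≤ 1 / x * (12 * (X * (X : ℝ) ^ (-20 * κ))) := by
    unfold Vv
    have h1 : (2 * ((X + H : ℕ) : ℝ) + 2) ≤ 6 * X := by
      push_cast
      linarith
    calc (h : ℝ) * ((2 * ((X + H : ℕ) : ℝ) + 2) / (x : ℝ) ^ 2) ≤
        (2 * (x * (X : ℝ) ^ (-20 * κ))) * (6 * X / (x : ℝ) ^ 2) := by
          apply mul_le_mul w2 _ (by positivity) (by positivity)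
          exact div_le_div_of_nonneg_right h1 (by positivity)
      _ = _ := by
          field_simp
          ring
  have hVn : 0 ≤ Vv X H x h := by unfold Vv; positivity
  have hr1 : (X : ℝ) ^ (-20 * κ) ≤ 1 := Real.rpow_le_one_of_one_le_of_nonpos hXr (by linarith)
  have hr0 : (0 : ℝ) < (X : ℝ) ^ (-20 * κ) := by positivity
  constructor
  · have h2 : (1 : ℝ) ≤ 1 / x * (X * (X : ℝ) ^ (-20 * κ)) := by
      rw [div_mul_eq_mul_div, one_mul, le_div_iff₀ hx0, one_mul]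
      calc (x : ℝ) ≤ (X : ℝ) ^ ((1 - ε) / 2) := hxx
        _ ≤ (X : ℝ) ^ (1 + -20 * κ) := Real.rpow_le_rpow_of_exponent_le hXr (by linarith)
        _ = (X : ℝ) ^ (1 : ℝ) * (X : ℝ) ^ (-20 * κ) := Real.rpow_add hX0 _ _
        _ = _ := by rw [Real.rpow_one]
    calc 16 * Vv X H x h + 16 ≤ 16 * (1 / x * (12 * (X * (X : ℝ) ^ (-20 * κ)))) +
        16 * (1 / x * (X * (X : ℝ) ^ (-20 * κ))) := by linarith
      _ = _ := by ring
  · -- the error
    have hT : TT X H x h ≤ 1 / x * (29 * X) := by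
      have e : TT X H x h = h + (H / x + 2 * Vv X H x h + 2) := by
        unfold TT Vv
        push_cast
        ring
      rw [e]
      have h3 : (h : ℝ) ≤ 2 * (1 / x * X) := by
        refine w2.trans ?_
        have : (x : ℝ) * (X : ℝ) ^ (-20 * κ) ≤ x * 1 := mul_le_mul_of_nonneg_left hr1 hx0.le
        linarith
      have h4 : (H : ℝ) / x ≤ 1 / x * X := by
        rw [div_mul_eq_mul_div, one_mul]
        exact div_le_div_of_nonneg_right hHr hx0.le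
      have h5 : Vv X H x h ≤ 12 * (1 / x * X) := by
        refine hV.trans ?_
        have : 1 / (x : ℝ) * X * (X : ℝ) ^ (-20 * κ) ≤ 1 / x * X * 1 :=
          mul_le_mul_of_nonneg_left hr1 (by positivity)
        linarith
      linarith
    have hTn : 0 ≤ TT X H x h := by unfold TT; positivity
    have hZ : ((x * (N * N) : ℕ) : ℝ) ^ κ ≤ (X : ℝ) ^ κ := by
      apply Real.rpow_le_rpow (Nat.cast_nonneg _) _ hκ.le
      push_cast
      calc (x : ℝ) * (N * N) ≤ (X : ℝ) ^ ((1 - ε) / 2) * ((X : ℝ) ^ (1 / 12 - ε) * (X : ℝ) ^ (1 / 12 - ε)) := by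
            apply mul_le_mul hxx _ (by positivity) (by positivity)
            exact mul_le_mul hN hN (Nat.cast_nonneg _) (by positivity)
        _ = (X : ℝ) ^ ((1 - ε) / 2) * (X : ℝ) ^ (1 / 12 - ε) * (X : ℝ) ^ (1 / 12 - ε) := by ring
        _ ≤ (X : ℝ) ^ (1 : ℝ) := rmul3 X hXr _ _ _ _ (by linarith)
        _ = X := Real.rpow_one _
    have hZ0 : (0 : ℝ) ≤ ((x * (N * N) : ℕ) : ℝ) ^ κ := by positivity
    have hsx : Real.sqrt x ≤ (X : ℝ) ^ ((1 - ε) / 4) := by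
      have h1 := Real.sqrt_le_sqrt hxx
      refine h1.trans (le_of_eq ?_)
      rw [Real.sqrt_eq_rpow, ← Real.rpow_mul hX0.le]
      congr 1
      ring
    have hsx2 : (X : ℝ) ^ (11 / 50 : ℝ) ≤ Real.sqrt x := by
      have h1 := Real.sqrt_le_sqrt hx1
      refine le_trans (le_of_eq ?_) h1
      rw [Real.sqrt_eq_rpow, ← Real.rpow_mul hX0.le]
      congr 1
      norm_num
    have hsx0 : 0 < Real.sqrt x := Real.sqrt_pos.2 hx0
    have hA : Real.sqrt x * N ≤ 1 / x * (X : ℝ) ^ (5 / 6 - 7 * ε / 4) := by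
      rw [div_mul_eq_mul_div, one_mul, le_div_iff₀ hx0]
      calc Real.sqrt x * N * x ≤ (X : ℝ) ^ ((1 - ε) / 4) * (X : ℝ) ^ (1 / 12 - ε) * (X : ℝ) ^ ((1 - ε) / 2) := by
            apply mul_le_mul _ hxx hx0.le (by positivity)
            exact mul_le_mul hsx hN (Nat.cast_nonneg _) (by positivity)
        _ ≤ _ := rmul3 X hXr _ _ _ _ (by linarith)
    have hB : 1 / Real.sqrt x * TT X H x h ≤ 1 / x * (29 * (X : ℝ) ^ (5 / 6 - 7 * ε / 4)) := by
      calc 1 / Real.sqrt x * TT X H x h ≤ (X : ℝ) ^ (-(11 / 50) : ℝ) * (1 / x * (29 * X)) := by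
            apply mul_le_mul _ hT hTn (by positivity)
            rw [Real.rpow_neg hX0.le, ← one_div]
            exact one_div_le_one_div_of_le (by positivity) hsx2
        _ = 1 / x * (29 * ((X : ℝ) ^ (1 : ℝ) * (X : ℝ) ^ (-(11 / 50) : ℝ))) := by
            rw [Real.rpow_one]
            ring
        _ ≤ _ := by
            apply mul_le_mul_of_nonneg_left _ (by positivity)
            apply mul_le_mul_of_nonneg_left _ (by norm_num)
            exact rmul2 X hXr _ _ _ (by linarith)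
    have hW : 2 * (x : ℝ) / h + 1 ≤ 3 * (X : ℝ) ^ (20 * κ) := by
      have h1 : 2 * (x : ℝ) / h ≤ 2 * (X : ℝ) ^ (20 * κ) := by
        rw [div_le_iff₀ hh0]
        calc 2 * (x : ℝ) = 2 * (X : ℝ) ^ (20 * κ) * (x * (X : ℝ) ^ (-20 * κ)) := by
              have : (X : ℝ) ^ (20 * κ) * (X : ℝ) ^ (-20 * κ) = 1 := by
                rw [← Real.rpow_add hX0]
                rw [show 20 * κ + -20 * κ = 0 by ring, Real.rpow_zero]
              linear_combination (-2 * (x : ℝ)) * this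
          _ ≤ _ := mul_le_mul_of_nonneg_left w3 (by positivity)
      have h2 : (1 : ℝ) ≤ (X : ℝ) ^ (20 * κ) := Real.one_le_rpow hXr (by positivity)
      linarith
    unfold E2
    calc (2 * (x : ℝ) / h + 1) * (C * ((x * (N * N) : ℕ) : ℝ) ^ κ * (Real.sqrt x * N) +
        C * ((x * (N * N) : ℕ) : ℝ) ^ κ / Real.sqrt x * TT X H x h) =
        (2 * (x : ℝ) / h + 1) * (C * ((x * (N * N) : ℕ) : ℝ) ^ κ * (Real.sqrt x * N +
          1 / Real.sqrt x * TT X H x h)) := by ring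
      _ ≤ (3 * (X : ℝ) ^ (20 * κ)) * (C * (X : ℝ) ^ κ * (1 / x * (X : ℝ) ^ (5 / 6 - 7 * ε / 4) +
          1 / x * (29 * (X : ℝ) ^ (5 / 6 - 7 * ε / 4)))) := by
          apply mul_le_mul hW _ (by positivity) (by positivity)
          apply mul_le_mul _ (add_le_add hA hB) (by positivity) (by positivity)
          exact mul_le_mul_of_nonneg_left hZ (by linarith)
      _ = 1 / x * (90 * C * ((X : ℝ) ^ (20 * κ) * (X : ℝ) ^ κ * (X : ℝ) ^ (5 / 6 - 7 * ε / 4))) := by ring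
      _ ≤ _ := by
          apply mul_le_mul_of_nonneg_left _ (by positivity)
          apply mul_le_mul_of_nonneg_left _ (by linarith)
          exact rmul3 X hXr _ _ _ _ (by linarith)

/-- **The variance is small.** -/
theorem V_small (kl : S_KL) (ε ρ κ : ℝ) (hκ : 0 < κ) (hκε : 100 * κ ≤ ε) (hκρ : 100 * κ ≤ ρ)
    (hε : ε ≤ 1 / 100) : ∃ X0 : ℕ, ∀ X : ℕ, X0 ≤ X → ∀ H : ℕ, (X : ℝ) ^ (1 - κ) ≤ H → H ≤ X →
    ∀ N : ℕ, (N : ℝ) ≤ (X : ℝ) ^ (1 / 12 - ε) →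
    ∀ b : ℕ → ℝ, (∀ n, |b n| ≤ 1) → ∀ Xs : Finset ℕ,
    (∀ x ∈ Xs, (X : ℝ) ^ (11 / 25 : ℝ) ≤ x ∧ (x : ℝ) ^ 2 ≤ (X : ℝ) ^ (1 - ε)) →
    ∑ x ∈ Xs, (x : ℝ) ^ 2 * ∑ y ∈ Ioo (-(x : ℤ)) x, (SS X H b (Bs X N ρ) x y) ^ 2 ≤
      (H : ℝ) ^ 2 * (X : ℝ) ^ (-4 * κ) := by
  obtain ⟨C, hC, hV⟩ := V_total kl κ hκ
  obtain ⟨X1, hX1⟩ := hyp_holds κ ρ ε hκ (by linarith) (by linarith)
  obtain ⟨X2, hX2⟩ := ev_all κ hκ
  have e1 : ∀ᶠ X : ℕ in atTop, 8 + 36 + 32 + 2 * (216 + 360 * C) ≤ (X : ℝ) ^ (12 * κ) :=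
    tendsto_natCast_atTop_atTop.eventually
      ((tendsto_rpow_atTop (by positivity)).eventually_ge_atTop _)
  have e2 : ∀ᶠ X : ℕ in atTop, (2 : ℝ) ≤ (X : ℝ) ^ (11 / 25 : ℝ) :=
    tendsto_natCast_atTop_atTop.eventually
      ((tendsto_rpow_atTop (by positivity)).eventually_ge_atTop _)
  obtain ⟨X3, hX3⟩ := eventually_atTop.1 (e1.and e2)
  refine ⟨max (max X1 X2) X3, fun X hX H hH1 hH2 N hN b hb Xs hXs => ?_⟩
  obtain ⟨a1, a2, a3, a4⟩ := hX2 X (((le_max_right _ _).trans (le_max_left _ _)).trans hX)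
  obtain ⟨b1, b2⟩ := hX3 X ((le_max_right _ _).trans hX)
  have hXr : (3 : ℝ) ≤ X := by exact_mod_cast a4
  have hX0 : (0 : ℝ) < X := by linarith
  have hX1' : (1 : ℝ) ≤ X := by linarith
  set M2 : ℕ := ⌊2 * (X : ℝ) ^ (1 - ε)⌋₊ with hM2
  have hM2r : (M2 : ℝ) ≤ 2 * (X : ℝ) ^ (1 - ε) := Nat.floor_le (by positivity)
  have hyp := hX1 X (((le_max_left _ _).trans (le_max_left _ _)).trans hX) H N M2 hH1 hH2
    (hN.trans (Real.rpow_le_rpow_of_exponent_le hX1' (by linarith))) hM2r (by linarith)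
  have hXs' : ∀ x ∈ Xs, 2 ≤ x ∧ 2 * (x * x) ≤ M2 := by
    intro x hx
    obtain ⟨h1, h2⟩ := hXs x hx
    constructor
    · have : (2 : ℝ) ≤ x := b2.trans h1
      exact_mod_cast this
    · apply Nat.le_floor
      push_cast
      nlinarith
  have key := hV X H (Bs X N ρ) N M2 _ _ _ _ hyp b hb Xs hXs' (hwd X κ) (fun x => by unfold hwd; omega)
  refine key.trans ?_
  have hH0 : (0 : ℝ) < H := lt_of_lt_of_le (by positivity) hH1
  have hXH : (X : ℝ) ≤ H * (X : ℝ) ^ κ := by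
    calc (X : ℝ) = (X : ℝ) ^ (1 - κ) * (X : ℝ) ^ κ := by
          rw [← Real.rpow_add hX0]
          rw [show 1 - κ + κ = 1 by ring, Real.rpow_one]
      _ ≤ _ := mul_le_mul_of_nonneg_right hH1 (by positivity)
  have hT3 : ((X : ℝ) ^ κ) ^ 3 = (X : ℝ) ^ (3 * κ) := by
    rw [← Real.rpow_natCast, ← Real.rpow_mul hX0.le]
    congr 1
    push_cast
    ring
  have hT4 : ((X : ℝ) ^ κ) ^ 4 = (X : ℝ) ^ (4 * κ) := by
    rw [← Real.rpow_natCast, ← Real.rpow_mul hX0.le]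
    congr 1
    push_cast
    ring
  have hT2 : ((X : ℝ) ^ κ) ^ 2 = (X : ℝ) ^ (2 * κ) := by
    rw [← Real.rpow_natCast, ← Real.rpow_mul hX0.le]
    congr 1
    push_cast
    ring
  have hr16 : (0 : ℝ) < (X : ℝ) ^ (-16 * κ) := by positivity
  have hHH : (0 : ℝ) ≤ (H : ℝ) ^ 2 := by positivity
  have t1 : 4 * ((X : ℝ) ^ κ) ^ 3 * M2 * H ≤ 8 * ((H : ℝ) ^ 2 * (X : ℝ) ^ (-16 * κ)) := by
    rw [hT3]
    calc 4 * (X : ℝ) ^ (3 * κ) * M2 * H ≤ 4 * (X : ℝ) ^ (3 * κ) * (2 * (X : ℝ) ^ (1 - ε)) * H := by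
          gcongr
      _ = 8 * (H * ((X : ℝ) ^ (1 - κ) * ((X : ℝ) ^ (3 * κ) * (X : ℝ) ^ (κ - ε)))) := by
          have : (X : ℝ) ^ (1 - ε) = (X : ℝ) ^ (1 - κ) * (X : ℝ) ^ (κ - ε) := by
            rw [← Real.rpow_add hX0]
            congr 1
            ring
          rw [this]
          ring
      _ ≤ 8 * (H * (H * (X : ℝ) ^ (-16 * κ))) := by
          apply mul_le_mul_of_nonneg_left _ (by norm_num)
          apply mul_le_mul_of_nonneg_left _ hH0.le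
          apply mul_le_mul hH1 _ (by positivity) hH0.le
          exact rmul2 X hX1' _ _ _ (by linarith)
      _ = _ := by ring
  have t2 : 2 * ((X : ℝ) ^ κ) ^ 4 * (18 * (H : ℝ) ^ 2 / (X : ℝ) ^ ρ + 8 * H * M2) ≤
      68 * ((H : ℝ) ^ 2 * (X : ℝ) ^ (-16 * κ)) := by
    rw [hT4]
    have u1 : 2 * (X : ℝ) ^ (4 * κ) * (18 * (H : ℝ) ^ 2 / (X : ℝ) ^ ρ) ≤
        36 * ((H : ℝ) ^ 2 * (X : ℝ) ^ (-16 * κ)) := by
      calc 2 * (X : ℝ) ^ (4 * κ) * (18 * (H : ℝ) ^ 2 / (X : ℝ) ^ ρ) =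
          36 * ((H : ℝ) ^ 2 * ((X : ℝ) ^ (4 * κ) * (X : ℝ) ^ (-ρ))) := by
            rw [Real.rpow_neg hX0.le]
            ring
        _ ≤ _ := by
            apply mul_le_mul_of_nonneg_left _ (by norm_num)
            apply mul_le_mul_of_nonneg_left _ hHH
            exact rmul2 X hX1' _ _ _ (by linarith)
    have u2 : 2 * (X : ℝ) ^ (4 * κ) * (8 * H * M2) ≤ 32 * ((H : ℝ) ^ 2 * (X : ℝ) ^ (-16 * κ)) := by
      calc 2 * (X : ℝ) ^ (4 * κ) * (8 * H * M2) ≤ 2 * (X : ℝ) ^ (4 * κ) * (8 * H * (2 * (X : ℝ) ^ (1 - ε))) := by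
            gcongr
        _ = 32 * (H * ((X : ℝ) ^ (1 - κ) * ((X : ℝ) ^ (4 * κ) * (X : ℝ) ^ (κ - ε)))) := by
            have : (X : ℝ) ^ (1 - ε) = (X : ℝ) ^ (1 - κ) * (X : ℝ) ^ (κ - ε) := by
              rw [← Real.rpow_add hX0]
              congr 1
              ring
            rw [this]
            ring
        _ ≤ 32 * (H * (H * (X : ℝ) ^ (-16 * κ))) := by
            apply mul_le_mul_of_nonneg_left _ (by norm_num)
            apply mul_le_mul_of_nonneg_left _ hH0.le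
            apply mul_le_mul hH1 _ (by positivity) hH0.le
            exact rmul2 X hX1' _ _ _ (by linarith)
        _ = _ := by ring
    rw [mul_add]
    linarith
  have t3 : ∑ x ∈ Xs, 2 * (H : ℝ) * ((16 * Vv X H x (hwd X κ x) + 16 + 8 * (X : ℝ) ^ (κ - ρ) * H / x) *
      ((X : ℝ) ^ κ) ^ 2 + 4 * (E2 C κ X H x (hwd X κ x) N * (N * (X : ℝ) ^ κ) ^ 2)) ≤
      2 * (216 + 360 * C) * ((H : ℝ) ^ 2 * (X : ℝ) ^ (-16 * κ)) := by
    have v1 : ∀ x ∈ Xs, 2 * (H : ℝ) * ((16 * Vv X H x (hwd X κ x) + 16 + 8 * (X : ℝ) ^ (κ - ρ) * H / x) *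
      ((X : ℝ) ^ κ) ^ 2 + 4 * (E2 C κ X H x (hwd X κ x) N * (N * (X : ℝ) ^ κ) ^ 2)) ≤
        2 * (216 + 360 * C) * (H * (X * (X : ℝ) ^ (-18 * κ))) * (1 / x) := by
      intro x hx
      obtain ⟨h1, h2⟩ := hXs x hx
      have hx0 : (0 : ℝ) < x := lt_of_lt_of_le (by positivity) h1
      obtain ⟨o1, o2⟩ := one_x C κ ε hC hκ hκε hε X H x N (by omega) hH2 h1 h2 hN
      have o3 : 8 * (X : ℝ) ^ (κ - ρ) * H / x ≤ 1 / x * (X * (8 * (X : ℝ) ^ (-20 * κ))) := by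
        have hHr : (H : ℝ) ≤ X := by exact_mod_cast hH2
        calc 8 * (X : ℝ) ^ (κ - ρ) * H / x = 1 / x * (H * (8 * (X : ℝ) ^ (κ - ρ))) := by ring
          _ ≤ _ := by
              apply mul_le_mul_of_nonneg_left _ (by positivity)
              apply mul_le_mul hHr _ (by positivity) hX0.le
              apply mul_le_mul_of_nonneg_left _ (by norm_num)
              exact Real.rpow_le_rpow_of_exponent_le hX1' (by linarith)
      have o4 : (16 * Vv X H x (hwd X κ x) + 16 + 8 * (X : ℝ) ^ (κ - ρ) * H / x) * ((X : ℝ) ^ κ) ^ 2 ≤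
          1 / x * (216 * (X * (X : ℝ) ^ (-18 * κ))) := by
        rw [hT2]
        calc (16 * Vv X H x (hwd X κ x) + 16 + 8 * (X : ℝ) ^ (κ - ρ) * H / x) * (X : ℝ) ^ (2 * κ) ≤
            (1 / x * (X * (216 * (X : ℝ) ^ (-20 * κ)))) * (X : ℝ) ^ (2 * κ) := by
              apply mul_le_mul_of_nonneg_right _ (by positivity)
              linarith
          _ = 1 / x * (216 * (X * ((X : ℝ) ^ (-20 * κ) * (X : ℝ) ^ (2 * κ)))) := by ring
          _ ≤ _ := by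
              apply mul_le_mul_of_nonneg_left _ (by positivity)
              apply mul_le_mul_of_nonneg_left _ (by norm_num)
              apply mul_le_mul_of_nonneg_left _ hX0.le
              exact rmul2 X hX1' _ _ _ (by linarith)
      have o5 : E2 C κ X H x (hwd X κ x) N * (N * (X : ℝ) ^ κ) ^ 2 ≤
          1 / x * (90 * C * (X * (X : ℝ) ^ (-18 * κ))) := by
        have hN2 : (N * (X : ℝ) ^ κ) ^ 2 ≤ (X : ℝ) ^ (1 / 6 - 2 * ε + 2 * κ) := by
          calc (N * (X : ℝ) ^ κ) ^ 2 ≤ ((X : ℝ) ^ (1 / 12 - ε) * (X : ℝ) ^ κ) ^ 2 := by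
                apply pow_le_pow_left₀ (by positivity)
                exact mul_le_mul_of_nonneg_right hN (by positivity)
            _ = (X : ℝ) ^ (1 / 6 - 2 * ε + 2 * κ) := by
                rw [← Real.rpow_add hX0, ← Real.rpow_natCast, ← Real.rpow_mul hX0.le]
                congr 1
                push_cast
                ring
        calc E2 C κ X H x (hwd X κ x) N * (N * (X : ℝ) ^ κ) ^ 2 ≤
            (1 / x * (90 * C * (X : ℝ) ^ (5 / 6 - 7 * ε / 4 + 21 * κ))) *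
              (X : ℝ) ^ (1 / 6 - 2 * ε + 2 * κ) := by
              apply mul_le_mul o2 hN2 (by positivity) (by positivity)
          _ = 1 / x * (90 * C * ((X : ℝ) ^ (5 / 6 - 7 * ε / 4 + 21 * κ) *
              (X : ℝ) ^ (1 / 6 - 2 * ε + 2 * κ))) := by ring
          _ ≤ 1 / x * (90 * C * ((X : ℝ) ^ (1 + -18 * κ))) := by
              apply mul_le_mul_of_nonneg_left _ (by positivity)
              apply mul_le_mul_of_nonneg_left _ (by linarith)
              exact rmul2 X hX1' _ _ _ (by linarith)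
          _ = _ := by
              rw [Real.rpow_add hX0, Real.rpow_one]
      calc 2 * (H : ℝ) * ((16 * Vv X H x (hwd X κ x) + 16 + 8 * (X : ℝ) ^ (κ - ρ) * H / x) *
          ((X : ℝ) ^ κ) ^ 2 + 4 * (E2 C κ X H x (hwd X κ x) N * (N * (X : ℝ) ^ κ) ^ 2)) ≤
          2 * (H : ℝ) * (1 / x * (216 * (X * (X : ℝ) ^ (-18 * κ))) +
            4 * (1 / x * (90 * C * (X * (X : ℝ) ^ (-18 * κ))))) := by
            apply mul_le_mul_of_nonneg_left _ (by positivity)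
            linarith
        _ = _ := by ring
    refine (sum_le_sum v1).trans ?_
    rw [← mul_sum]
    have v2 : ∑ x ∈ Xs, 1 / (x : ℝ) ≤ (X : ℝ) ^ κ := by
      calc ∑ x ∈ Xs, 1 / (x : ℝ) ≤ ∑ x ∈ Icc 1 X, 1 / (x : ℝ) := by
            apply sum_le_sum_of_subset_of_nonneg
            · intro x hx
              obtain ⟨h1, h2⟩ := hXs' x hx
              obtain ⟨h3, h4⟩ := hXs x hx
              rw [mem_Icc]
              refine ⟨by omega, ?_⟩
              have h5 : (x : ℝ) ^ 2 ≤ X := by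
                refine h4.trans ?_
                calc (X : ℝ) ^ (1 - ε) ≤ (X : ℝ) ^ (1 : ℝ) :=
                      Real.rpow_le_rpow_of_exponent_le hX1' (by linarith)
                  _ = X := Real.rpow_one _
              have h6 : (1 : ℝ) ≤ x := by exact_mod_cast (by omega : 1 ≤ x)
              have h7 : (x : ℝ) ≤ X := by nlinarith
              exact_mod_cast h7
            · intro _ _ _
              positivity
        _ ≤ 1 + Real.log X := harm X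
        _ ≤ _ := by linarith
    calc 2 * (216 + 360 * C) * (H * (X * (X : ℝ) ^ (-18 * κ))) * ∑ x ∈ Xs, 1 / (x : ℝ) ≤
        2 * (216 + 360 * C) * (H * ((H * (X : ℝ) ^ κ) * (X : ℝ) ^ (-18 * κ))) * (X : ℝ) ^ κ := by
          apply mul_le_mul _ v2 (sum_nonneg fun x _ => by positivity) (by positivity)
          apply mul_le_mul_of_nonneg_left _ (by positivity)
          apply mul_le_mul_of_nonneg_left _ hH0.le
          exact mul_le_mul_of_nonneg_right hXH (by positivity)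
      _ = 2 * (216 + 360 * C) * ((H : ℝ) ^ 2 * ((X : ℝ) ^ κ * (X : ℝ) ^ (-18 * κ) * (X : ℝ) ^ κ)) := by ring
      _ ≤ _ := by
          apply mul_le_mul_of_nonneg_left _ (by positivity)
          apply mul_le_mul_of_nonneg_left _ hHH
          exact rmul3 X hX1' _ _ _ _ (by linarith)
  calc _ ≤ 8 * ((H : ℝ) ^ 2 * (X : ℝ) ^ (-16 * κ)) + 68 * ((H : ℝ) ^ 2 * (X : ℝ) ^ (-16 * κ)) +
      2 * (216 + 360 * C) * ((H : ℝ) ^ 2 * (X : ℝ) ^ (-16 * κ)) := by linarith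
    _ = (H : ℝ) ^ 2 * ((8 + 36 + 32 + 2 * (216 + 360 * C)) * (X : ℝ) ^ (-16 * κ)) := by ring
    _ ≤ (H : ℝ) ^ 2 * ((X : ℝ) ^ (12 * κ) * (X : ℝ) ^ (-16 * κ)) := by
        apply mul_le_mul_of_nonneg_left _ hHH
        exact mul_le_mul_of_nonneg_right b1 hr16.le
    _ ≤ _ := by
        apply mul_le_mul_of_nonneg_left _ hHH
        exact rmul2 X hX1' _ _ _ (by linarith)

end Pool.Agent.H543.DD
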