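import Pool.Agent.H543.DD.Cn

/-!
# The variance
-/

set_option autoImplicit false

namespace Pool.Agent.H543.DD

open Finset
open Pool.Agent.Y346.PA (S_KL)
open scoped Classical

/-- the hypotheses -/
structure Hyp (X H : ℕ) (B : Finset ℕ) (N M2 : ℕ) (T1 z0 R s : ℝ) : Prop where
  T0 : 1 ≤ T1
  z : 0 < z0
  s0 : 0 ≤ s
  T : ∀ k : ℤ, (X : ℤ) < k → k ≤ X + H → ((k ^ 2 + 1).natAbs.divisors.card : ℝ) ≤ T1
  B1 : ∀ n ∈ B, 1 ≤ n ∧ n ≤ N
  G : ∑ n ∈ B, gd n ≤ T1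
  Gp : ∀ p ∈ B.biUnion Nat.primeFactors, ∑ n ∈ B.filter (fun n => p ∣ n), gd n ≤ T1 / p
  P1 : ∑ p ∈ B.biUnion Nat.primeFactors, 1 / (p : ℝ) ≤ T1
  P2 : ∑ p ∈ B.biUnion Nat.primeFactors, 1 / (p : ℝ) ^ 2 ≤ T1 / z0
  P3 : ∀ p ∈ B.biUnion Nat.primeFactors, p ≠ 2 ∧ p ≤ H
  R : ∑ n ∈ B, ((Rt n).card : ℝ) ≤ R
  s : ∀ n ∈ B, ∑ p ∈ n.primeFactors, (p : ℝ)⁻¹ ≤ s
  M2 : M2 ≤ H

theorem dv_sum (X H : ℕ) (T1 : ℝ)
    (hT : ∀ k : ℤ, (X : ℤ) < k → k ≤ X + H → ((k ^ 2 + 1).natAbs.divisors.card : ℝ) ≤ T1)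
    (S : Finset ℕ) (x y u : ℤ) (hx : 0 < x) (hu : u ∈ US X H x y) :
    ∑ n ∈ S, dv n (ww x y u) ≤ T1 := by
  obtain ⟨s1, s2, s3, s4, s5⟩ := US_spec X H x y u hx hu
  refine le_trans ?_ (hT _ s1 s2)
  unfold dv
  rw [← sum_filter, sum_const, nsmul_eq_mul, mul_one]
  norm_cast
  apply card_le_card
  intro n hn
  rw [mem_filter] at hn
  rw [Nat.mem_divisors]
  constructor
  · rw [← Int.natCast_dvd, s3]
    exact hn.2.mul_left _
  · rw [Int.natAbs_ne_zero]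
    positivity

theorem dv_sum_p (X H : ℕ) (T1 : ℝ)
    (hT : ∀ k : ℤ, (X : ℤ) < k → k ≤ X + H → ((k ^ 2 + 1).natAbs.divisors.card : ℝ) ≤ T1)
    (S : Finset ℕ) (p : ℕ) (x y u : ℤ) (hx : 0 < x) (hu : u ∈ US X H x y) :
    ∑ n ∈ S.filter (fun n => p ∣ n), dv n (ww x y u) ≤ T1 * dv p (ww x y u) := by
  by_cases h : (p : ℤ) ∣ ww x y u
  · have h1 : dv p (ww x y u) = 1 := by unfold dv; rw [if_pos h]
    rw [h1, mul_one]
    exact dv_sum X H T1 hT _ x y u hx hu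
  · have h1 : dv p (ww x y u) = 0 := by unfold dv; rw [if_neg h]
    rw [h1, mul_zero]
    apply le_of_eq
    apply sum_eq_zero
    intro n hn
    unfold dv
    rw [if_neg]
    intro h2
    apply h
    have : (p : ℤ) ∣ n := by exact_mod_cast (mem_filter.1 hn).2
    exact this.trans h2

theorem FF_le (X H : ℕ) (T1 : ℝ)
    (hT : ∀ k : ℤ, (X : ℤ) < k → k ≤ X + H → ((k ^ 2 + 1).natAbs.divisors.card : ℝ) ≤ T1)
    (b : ℕ → ℝ) (hb : ∀ n, |b n| ≤ 1) (B : Finset ℕ) (hG : ∑ n ∈ B, gd n ≤ T1)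
    (x y u : ℤ) (hx : 0 < x) (hu : u ∈ US X H x y) : (FF b B (ww x y u)) ^ 2 ≤ 4 * T1 ^ 2 := by
  have h1 : |FF b B (ww x y u)| ≤ 2 * T1 := by
    unfold FF
    calc |∑ n ∈ B, b n * (dv n (ww x y u) - gd n)| ≤ ∑ n ∈ B, |b n * (dv n (ww x y u) - gd n)| :=
          abs_sum_le_sum_abs _ _
      _ ≤ ∑ n ∈ B, (dv n (ww x y u) + gd n) := by
          apply sum_le_sum
          intro n _
          rw [abs_mul]
          have h2 : |dv n (ww x y u) - gd n| ≤ dv n (ww x y u) + gd n := by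
            rw [abs_le]
            constructor <;> linarith [dv_nonneg n (ww x y u), gd_nonneg n]
          calc |b n| * |dv n (ww x y u) - gd n| ≤ 1 * (dv n (ww x y u) + gd n) :=
                mul_le_mul (hb n) h2 (abs_nonneg _) zero_le_one
            _ = _ := one_mul _
      _ = ∑ n ∈ B, dv n (ww x y u) + ∑ n ∈ B, gd n := sum_add_distrib
      _ ≤ _ := by linarith [dv_sum X H T1 hT B x y u hx hu]
  have h2 : (FF b B (ww x y u)) ^ 2 = |FF b B (ww x y u)| ^ 2 := (sq_abs _).symm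
  rw [h2]
  calc |FF b B (ww x y u)| ^ 2 ≤ (2 * T1) ^ 2 := pow_le_pow_left₀ (abs_nonneg _) h1 2
    _ = _ := by ring

theorem card_l (L : ℕ) : (((Icc (-(L : ℤ)) L).erase 0).card : ℝ) = 2 * L := by
  have h1 : (0 : ℤ) ∈ Icc (-(L : ℤ)) L := by rw [mem_Icc]; constructor <;> omega
  rw [card_erase_of_mem h1, Int.card_Icc]
  have h2 : ((L : ℤ) + 1 - -(L : ℤ)).toNat - 1 = 2 * L := by omega
  rw [h2]
  push_cast
  ring

/-- **The variance.** -/
theorem V_total (kl : S_KL) (ε : ℝ) (hε : 0 < ε) : ∃ C : ℝ, 1 ≤ C ∧ ∀ (X H : ℕ) (B : Finset ℕ)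
    (N M2 : ℕ) (T1 z0 R s : ℝ), Hyp X H B N M2 T1 z0 R s → ∀ b : ℕ → ℝ, (∀ n, |b n| ≤ 1) →
    ∀ (Xs : Finset ℕ), (∀ x ∈ Xs, 2 ≤ x ∧ 2 * (x * x) ≤ M2) → ∀ hw : ℕ → ℕ, (∀ x, 1 ≤ hw x) →
    ∑ x ∈ Xs, (x : ℝ) ^ 2 * ∑ y ∈ Ioo (-(x : ℤ)) x, (SS X H b B x y) ^ 2 ≤
      4 * T1 ^ 3 * M2 * H + 2 * T1 ^ 4 * (18 * (H : ℝ) ^ 2 / z0 + 8 * H * M2) +
      ∑ x ∈ Xs, 2 * H * ((16 * Vv X H x (hw x) + 16 + 8 * s * H / x) * T1 ^ 2 +
        4 * (E2 C ε X H x (hw x) N * R ^ 2)) := by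
  obtain ⟨C, hC, hc⟩ := D4_bound kl ε hε
  refine ⟨C, hC, ?_⟩
  intro X H B N M2 T1 z0 R s hyp b hb Xs hXs hw hw1
  have hT1 : 0 < T1 := lt_of_lt_of_le one_pos hyp.T0
  have hH0 : (0 : ℝ) ≤ H := Nat.cast_nonneg H
  have hM0 : (0 : ℝ) ≤ M2 := Nat.cast_nonneg M2
  have hM2H : (M2 : ℝ) ≤ H := by exact_mod_cast hyp.M2
  have hx1 : ∀ x ∈ Xs, 1 ≤ x := fun x hx => by have := (hXs x hx).1; omega
  have hxM : ∀ x ∈ Xs, (x : ℝ) ^ 2 ≤ M2 := by
    intro x hx
    have h1 := (hXs x hx).2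
    have h2 : x * x ≤ M2 := by omega
    rw [sq]
    exact_mod_cast h2
  -- first part
  have p1 : ∑ x ∈ Xs, (x : ℝ) ^ 2 * ∑ y ∈ Ioo (-(x : ℤ)) x, ∑ u ∈ US X H x y,
      (FF b B (ww x y u)) ^ 2 ≤ 4 * T1 ^ 3 * M2 * H := by
    have h1 := sum_pts X H M2 Xs hXs T1 hyp.T (fun _ => 1) (fun _ => zero_le_one) (fun _ => 1)
      (fun _ => zero_le_one) (fun _ _ _ => le_rfl)
    have h2 : ∑ k ∈ Ioc (X : ℤ) (X + H), (1 : ℝ) = H := by
      rw [sum_const, nsmul_eq_mul, mul_one, Int.card_Ioc]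
      have : ((X : ℤ) + H - X).toNat = H := by omega
      rw [this]
    rw [h2] at h1
    calc ∑ x ∈ Xs, (x : ℝ) ^ 2 * ∑ y ∈ Ioo (-(x : ℤ)) x, ∑ u ∈ US X H x y,
          (FF b B (ww x y u)) ^ 2 ≤
        ∑ x ∈ Xs, (M2 : ℝ) * ∑ y ∈ Ioo (-(x : ℤ)) x, ∑ u ∈ US X H x y, (4 * T1 ^ 2 * 1) := by
          apply sum_le_sum
          intro x hx
          have hx0 : (0 : ℤ) < x := by exact_mod_cast hx1 x hx
          apply mul_le_mul (hxM x hx) _ (sum_nonneg fun y _ => sum_nonneg fun u _ => sq_nonneg _) hM0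
          apply sum_le_sum
          intro y _
          apply sum_le_sum
          intro u hu
          rw [mul_one]
          exact FF_le X H T1 hyp.T b hb B hyp.G x y u hx0 hu
      _ = M2 * (4 * T1 ^ 2) * ∑ x ∈ Xs, ∑ y ∈ Ioo (-(x : ℤ)) x, ∑ u ∈ US X H x y, (1 : ℝ) := by
          rw [mul_sum]
          apply sum_congr rfl
          intro x _
          simp_rw [← mul_sum]
          ring
      _ ≤ M2 * (4 * T1 ^ 2) * (T1 * H) := mul_le_mul_of_nonneg_left h1 (by positivity)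
      _ = _ := by ring
  -- second part
  have p2 : ∑ x ∈ Xs, (x : ℝ) ^ 2 * ∑ l ∈ (Icc (-((H / (x * x) : ℕ) : ℤ)) (H / (x * x) : ℕ)).erase 0,
        ∑ n1 ∈ B, ∑ n2 ∈ B.filter (fun n2 => Nat.Coprime n1 n2), |D4 X H x l n1 n2| ≤
      ∑ x ∈ Xs, 2 * H * ((16 * Vv X H x (hw x) + 16 + 8 * s * H / x) * T1 ^ 2 +
        4 * (E2 C ε X H x (hw x) N * R ^ 2)) := by
    apply sum_le_sum
    intro x hx
    have hx1' := hx1 x hx
    have hxr : (0 : ℝ) < x := by exact_mod_cast hx1'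
    set c1 : ℝ := 16 * Vv X H x (hw x) + 16 + 8 * s * H / x with hc1
    set c2 : ℝ := E2 C ε X H x (hw x) N with hc2
    have hs0 : 0 ≤ s := hyp.s0
    have hc10 : 0 ≤ c1 := by rw [hc1]; unfold Vv; positivity
    have hE0 : 0 ≤ c2 := by
      rw [hc2]
      unfold E2 TT
      have : 0 ≤ C := by linarith
      positivity
    have h1 : ∀ l : ℤ, ∑ n1 ∈ B, ∑ n2 ∈ B.filter (fun n2 => Nat.Coprime n1 n2),
        |D4 X H x l n1 n2| ≤ c1 * T1 ^ 2 + 4 * (c2 * R ^ 2) := by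
      intro l
      calc ∑ n1 ∈ B, ∑ n2 ∈ B.filter (fun n2 => Nat.Coprime n1 n2), |D4 X H x l n1 n2| ≤
          ∑ n1 ∈ B, ∑ n2 ∈ B.filter (fun n2 => Nat.Coprime n1 n2), (gd n1 * gd n2 * c1 +
            4 * (((Rt n1).card : ℝ) * (Rt n2).card * c2)) := by
            apply sum_le_sum
            intro n1 hn1
            apply sum_le_sum
            intro n2 hn2
            rw [mem_filter] at hn2
            exact hc X H x (hw x) N l hx1' (hw1 x) s n1 n2 (hyp.B1 n1 hn1).1 (hyp.B1 n2 hn2.1).1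
              (hyp.B1 n1 hn1).2 (hyp.B1 n2 hn2.1).2 hn2.2 (hyp.s n1 hn1) (hyp.s n2 hn2.1)
        _ ≤ ∑ n1 ∈ B, ∑ n2 ∈ B, (gd n1 * gd n2 * c1 +
            4 * (((Rt n1).card : ℝ) * (Rt n2).card * c2)) := by
            apply sum_le_sum
            intro n1 _
            apply sum_le_sum_of_subset_of_nonneg (filter_subset _ _)
            intro n2 _ _
            have := gd_nonneg n1
            have := gd_nonneg n2
            positivity
        _ = (∑ n ∈ B, gd n) ^ 2 * c1 + 4 * (c2 * (∑ n ∈ B, ((Rt n).card : ℝ)) ^ 2) := by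
            rw [sq, sq, sum_mul_sum, sum_mul_sum, sum_mul, mul_sum, mul_sum, ← sum_add_distrib]
            apply sum_congr rfl
            intro n1 _
            rw [sum_mul, mul_sum, mul_sum, ← sum_add_distrib]
            apply sum_congr rfl
            intro n2 _
            ring
        _ ≤ T1 ^ 2 * c1 + 4 * (c2 * R ^ 2) := by
            have e1 : (∑ n ∈ B, gd n) ^ 2 ≤ T1 ^ 2 :=
              pow_le_pow_left₀ (sum_nonneg fun n _ => gd_nonneg n) hyp.G 2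
            have e2 : (∑ n ∈ B, ((Rt n).card : ℝ)) ^ 2 ≤ R ^ 2 :=
              pow_le_pow_left₀ (sum_nonneg fun n _ => Nat.cast_nonneg _) hyp.R 2
            have e3 := mul_le_mul_of_nonneg_right e1 hc10
            have e4 := mul_le_mul_of_nonneg_left e2 hE0
            linarith
        _ = _ := by ring
    have h2 : ∑ l ∈ (Icc (-((H / (x * x) : ℕ) : ℤ)) (H / (x * x) : ℕ)).erase 0,
        ∑ n1 ∈ B, ∑ n2 ∈ B.filter (fun n2 => Nat.Coprime n1 n2), |D4 X H x l n1 n2| ≤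
        2 * (H / (x * x) : ℕ) * (c1 * T1 ^ 2 + 4 * (c2 * R ^ 2)) := by
      refine (sum_le_sum fun l _ => h1 l).trans ?_
      rw [sum_const, nsmul_eq_mul, card_l]
    have h3 : ((H / (x * x) : ℕ) : ℝ) * (x : ℝ) ^ 2 ≤ H := by
      have : (H / (x * x)) * (x * x) ≤ H := Nat.div_mul_le_self _ _
      rw [sq]
      exact_mod_cast this
    calc (x : ℝ) ^ 2 * _ ≤ (x : ℝ) ^ 2 * (2 * (H / (x * x) : ℕ) * (c1 * T1 ^ 2 + 4 * (c2 * R ^ 2))) :=
          mul_le_mul_of_nonneg_left h2 (by positivity)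
      _ = 2 * (((H / (x * x) : ℕ) : ℝ) * (x : ℝ) ^ 2) * (c1 * T1 ^ 2 + 4 * (c2 * R ^ 2)) := by ring
      _ ≤ 2 * H * (c1 * T1 ^ 2 + 4 * (c2 * R ^ 2)) := by
          apply mul_le_mul_of_nonneg_right _ (by positivity)
          linarith
  -- third part
  have p3 : ∑ x ∈ Xs, (x : ℝ) ^ 2 * ∑ p ∈ B.biUnion Nat.primeFactors, ∑ y ∈ Ioo (-(x : ℤ)) x,
      (∑ u ∈ US X H x y, ∑ n ∈ B.filter (fun n => p ∣ n), (dv n (ww x y u) + gd n)) ^ 2 ≤
      2 * T1 ^ 4 * (18 * (H : ℝ) ^ 2 / z0 + 8 * H * M2) := by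
    have hsw : ∑ x ∈ Xs, (x : ℝ) ^ 2 * ∑ p ∈ B.biUnion Nat.primeFactors, ∑ y ∈ Ioo (-(x : ℤ)) x,
      (∑ u ∈ US X H x y, ∑ n ∈ B.filter (fun n => p ∣ n), (dv n (ww x y u) + gd n)) ^ 2 =
      ∑ p ∈ B.biUnion Nat.primeFactors, ∑ x ∈ Xs, (x : ℝ) ^ 2 * ∑ y ∈ Ioo (-(x : ℤ)) x,
      (∑ u ∈ US X H x y, ∑ n ∈ B.filter (fun n => p ∣ n), (dv n (ww x y u) + gd n)) ^ 2 := by
      rw [sum_comm]
      apply sum_congr rfl
      intro x _
      rw [mul_sum]
    rw [hsw]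
    have hp : ∀ p ∈ B.biUnion Nat.primeFactors, ∑ x ∈ Xs, (x : ℝ) ^ 2 * ∑ y ∈ Ioo (-(x : ℤ)) x,
        (∑ u ∈ US X H x y, ∑ n ∈ B.filter (fun n => p ∣ n), (dv n (ww x y u) + gd n)) ^ 2 ≤
        2 * T1 ^ 3 * (18 * (H : ℝ) ^ 2 * (1 / (p : ℝ) ^ 2) + 8 * H * M2 * (1 / (p : ℝ))) := by
      intro p hpB
      have hpp : p.Prime := by
        rw [mem_biUnion] at hpB
        obtain ⟨n, _, hn⟩ := hpB
        exact Nat.prime_of_mem_primeFactors hn
      obtain ⟨hp2, hpH⟩ := hyp.P3 p hpB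
      have hpr : (0 : ℝ) < p := by exact_mod_cast hpp.pos
      have hHp : 1 ≤ (H : ℝ) / p := by
        rw [le_div_iff₀ hpr, one_mul]
        exact_mod_cast hpH
      have hstep : ∀ x ∈ Xs, ∀ y ∈ Ioo (-(x : ℤ)) x, (x : ℝ) ^ 2 *
          (∑ u ∈ US X H x y, ∑ n ∈ B.filter (fun n => p ∣ n), (dv n (ww x y u) + gd n)) ^ 2 ≤
          2 * T1 ^ 2 * ((4 * H / p + 2 * M2) * ∑ u ∈ US X H x y, dv p (ww x y u) +
            2 * H / (p : ℝ) ^ 2 * ∑ u ∈ US X H x y, (1 : ℝ)) := by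
        intro x hx y _
        have hx1' := hx1 x hx
        have hx0 : (0 : ℤ) < x := by exact_mod_cast hx1'
        have hxr : (0 : ℝ) < x := by exact_mod_cast hx1'
        have hm : (0 : ℝ) < (x : ℝ) ^ 2 + (y : ℝ) ^ 2 := by positivity
        set A : ℝ := ∑ u ∈ US X H x y, dv p (ww x y u) with hA
        set U : ℝ := ∑ u ∈ US X H x y, (1 : ℝ) with hU
        have hA0 : 0 ≤ A := sum_nonneg fun u _ => dv_nonneg _ _
        have hU0 : 0 ≤ U := sum_nonneg fun u _ => zero_le_one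
        have hAc : A = (((US X H x y).filter (fun u => (p : ℤ) ∣ ww x y u)).card : ℝ) := by
          rw [hA]
          unfold dv
          rw [← sum_filter, sum_const, nsmul_eq_mul, mul_one]
        have hUc : U = ((US X H x y).card : ℝ) := by
          rw [hU, sum_const, nsmul_eq_mul, mul_one]
        have h1 : ∑ u ∈ US X H x y, ∑ n ∈ B.filter (fun n => p ∣ n), (dv n (ww x y u) + gd n) ≤
            T1 * (A + U / p) := by
          calc ∑ u ∈ US X H x y, ∑ n ∈ B.filter (fun n => p ∣ n), (dv n (ww x y u) + gd n) ≤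
              ∑ u ∈ US X H x y, (T1 * dv p (ww x y u) + T1 / p * 1) := by
                apply sum_le_sum
                intro u hu
                rw [sum_add_distrib, mul_one]
                exact add_le_add (dv_sum_p X H T1 hyp.T B p x y u hx0 hu) (hyp.Gp p hpB)
            _ = _ := by
                rw [sum_add_distrib, ← mul_sum, ← mul_sum, ← hA, ← hU]
                ring
        have h2 : (∑ u ∈ US X H x y, ∑ n ∈ B.filter (fun n => p ∣ n), (dv n (ww x y u) + gd n)) ^ 2 ≤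
            (T1 * (A + U / p)) ^ 2 := by
          apply pow_le_pow_left₀ _ h1
          apply sum_nonneg
          intro u _
          apply sum_nonneg
          intro n _
          exact add_nonneg (dv_nonneg _ _) (gd_nonneg _)
        have h3 : (T1 * (A + U / p)) ^ 2 ≤ 2 * T1 ^ 2 * (A * A + U * U / (p : ℝ) ^ 2) := by
          have h4 : (A + U / p) ^ 2 ≤ 2 * (A * A + (U / p) ^ 2) := by nlinarith [sq_nonneg (A - U / p)]
          calc (T1 * (A + U / p)) ^ 2 = T1 ^ 2 * (A + U / p) ^ 2 := by ring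
            _ ≤ T1 ^ 2 * (2 * (A * A + (U / p) ^ 2)) := mul_le_mul_of_nonneg_left h4 (by positivity)
            _ = _ := by ring
        have hxm : (x : ℝ) ^ 2 * (H / ((x : ℝ) ^ 2 + (y : ℝ) ^ 2) + 1) ≤ 2 * H := by
          have h4 : (x : ℝ) ^ 2 * (H / ((x : ℝ) ^ 2 + (y : ℝ) ^ 2)) ≤ H := by
            rw [mul_div_assoc', div_le_iff₀ hm]
            nlinarith [sq_nonneg (y : ℝ)]
          have h5 := hxM x hx
          linarith
        have h5 : (x : ℝ) ^ 2 * (A * A) ≤ (4 * H / p + 2 * M2) * A := by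
          have h6 : A ≤ 2 * ((H / ((x : ℝ) ^ 2 + (y : ℝ) ^ 2) + 1) / p + 1) := by
            rw [hAc]
            exact US_card_p X H x hx1' y p hpp hp2
          calc (x : ℝ) ^ 2 * (A * A) = ((x : ℝ) ^ 2 * A) * A := by ring
            _ ≤ ((x : ℝ) ^ 2 * (2 * ((H / ((x : ℝ) ^ 2 + (y : ℝ) ^ 2) + 1) / p + 1))) * A := by
                apply mul_le_mul_of_nonneg_right _ hA0
                exact mul_le_mul_of_nonneg_left h6 (by positivity)
            _ = (2 * ((x : ℝ) ^ 2 * (H / ((x : ℝ) ^ 2 + (y : ℝ) ^ 2) + 1)) / p + 2 * (x : ℝ) ^ 2) * A := by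
                ring
            _ ≤ (2 * (2 * H) / p + 2 * M2) * A := by
                apply mul_le_mul_of_nonneg_right _ hA0
                apply add_le_add
                · apply div_le_div_of_nonneg_right _ hpr.le
                  linarith
                · linarith [hxM x hx]
            _ = _ := by ring
        have h6 : (x : ℝ) ^ 2 * (U * U / (p : ℝ) ^ 2) ≤ 2 * H / (p : ℝ) ^ 2 * U := by
          have h7 : U ≤ H / ((x : ℝ) ^ 2 + (y : ℝ) ^ 2) + 1 := by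
            rw [hUc]
            exact US_card X H x hx1' y
          calc (x : ℝ) ^ 2 * (U * U / (p : ℝ) ^ 2) = ((x : ℝ) ^ 2 * U) * (U / (p : ℝ) ^ 2) := by ring
            _ ≤ ((x : ℝ) ^ 2 * (H / ((x : ℝ) ^ 2 + (y : ℝ) ^ 2) + 1)) * (U / (p : ℝ) ^ 2) := by
                apply mul_le_mul_of_nonneg_right _ (by positivity)
                exact mul_le_mul_of_nonneg_left h7 (by positivity)
            _ ≤ (2 * H) * (U / (p : ℝ) ^ 2) := mul_le_mul_of_nonneg_right hxm (by positivity)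
            _ = _ := by ring
        calc (x : ℝ) ^ 2 * (∑ u ∈ US X H x y, ∑ n ∈ B.filter (fun n => p ∣ n),
              (dv n (ww x y u) + gd n)) ^ 2 ≤ (x : ℝ) ^ 2 * (2 * T1 ^ 2 * (A * A + U * U / (p : ℝ) ^ 2)) :=
              mul_le_mul_of_nonneg_left (h2.trans h3) (by positivity)
          _ = 2 * T1 ^ 2 * ((x : ℝ) ^ 2 * (A * A) + (x : ℝ) ^ 2 * (U * U / (p : ℝ) ^ 2)) := by ring
          _ ≤ _ := mul_le_mul_of_nonneg_left (add_le_add h5 h6) (by positivity)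
      -- sum over all points
      have hs1 : ∑ x ∈ Xs, ∑ y ∈ Ioo (-(x : ℤ)) x, ∑ u ∈ US X H x y, dv p (ww x y u) ≤
          T1 * (4 * H / p) := by
        have h1 := sum_pts X H M2 Xs hXs T1 hyp.T (fun w => dv p w) (fun w => dv_nonneg p w)
          (fun k => if (p : ℤ) ∣ k ^ 2 + 1 then 1 else 0) (fun k => by split_ifs <;> norm_num) (by
            intro k m hmk
            unfold dv
            by_cases h2 : (p : ℤ) ∣ (k ^ 2 + 1) / m
            · rw [if_pos h2, if_pos]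
              exact h2.trans (Int.ediv_dvd_of_dvd hmk)
            · rw [if_neg h2]
              split_ifs <;> norm_num)
        refine h1.trans ?_
        apply mul_le_mul_of_nonneg_left _ hT1.le
        rw [← sum_filter, sum_const, nsmul_eq_mul, mul_one]
        have h2 := k_card_p X H p hpp
        have h3 : (4 : ℝ) * H / p = 4 * (H / p) := by ring
        rw [h3]
        linarith
      have hs2 : ∑ x ∈ Xs, ∑ y ∈ Ioo (-(x : ℤ)) x, ∑ u ∈ US X H x y, (1 : ℝ) ≤ T1 * H := by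
        have h1 := sum_pts X H M2 Xs hXs T1 hyp.T (fun _ => 1) (fun _ => zero_le_one) (fun _ => 1)
          (fun _ => zero_le_one) (fun _ _ _ => le_rfl)
        have h2 : ∑ k ∈ Ioc (X : ℤ) (X + H), (1 : ℝ) = H := by
          rw [sum_const, nsmul_eq_mul, mul_one, Int.card_Ioc]
          have : ((X : ℤ) + H - X).toNat = H := by omega
          rw [this]
        rw [h2] at h1
        exact h1
      calc ∑ x ∈ Xs, (x : ℝ) ^ 2 * ∑ y ∈ Ioo (-(x : ℤ)) x,
          (∑ u ∈ US X H x y, ∑ n ∈ B.filter (fun n => p ∣ n), (dv n (ww x y u) + gd n)) ^ 2 ≤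
          ∑ x ∈ Xs, ∑ y ∈ Ioo (-(x : ℤ)) x, 2 * T1 ^ 2 * ((4 * H / p + 2 * M2) *
            ∑ u ∈ US X H x y, dv p (ww x y u) + 2 * H / (p : ℝ) ^ 2 * ∑ u ∈ US X H x y, (1 : ℝ)) := by
            apply sum_le_sum
            intro x hx
            rw [mul_sum]
            exact sum_le_sum fun y hy => hstep x hx y hy
        _ = 2 * T1 ^ 2 * ((4 * H / p + 2 * M2) *
              ∑ x ∈ Xs, ∑ y ∈ Ioo (-(x : ℤ)) x, ∑ u ∈ US X H x y, dv p (ww x y u) +
            2 * H / (p : ℝ) ^ 2 *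
              ∑ x ∈ Xs, ∑ y ∈ Ioo (-(x : ℤ)) x, ∑ u ∈ US X H x y, (1 : ℝ)) := by
            rw [mul_add]
            simp_rw [mul_add, sum_add_distrib, mul_sum]
        _ ≤ 2 * T1 ^ 2 * ((4 * H / p + 2 * M2) * (T1 * (4 * H / p)) +
            2 * H / (p : ℝ) ^ 2 * (T1 * H)) := by
            apply mul_le_mul_of_nonneg_left _ (by positivity)
            apply add_le_add
            · exact mul_le_mul_of_nonneg_left hs1 (by positivity)
            · exact mul_le_mul_of_nonneg_left hs2 (by positivity)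
        _ = _ := by
            field_simp
            ring
    calc _ ≤ ∑ p ∈ B.biUnion Nat.primeFactors,
        2 * T1 ^ 3 * (18 * (H : ℝ) ^ 2 * (1 / (p : ℝ) ^ 2) + 8 * H * M2 * (1 / (p : ℝ))) :=
          sum_le_sum hp
      _ = 2 * T1 ^ 3 * (18 * (H : ℝ) ^ 2 * ∑ p ∈ B.biUnion Nat.primeFactors, 1 / (p : ℝ) ^ 2 +
          8 * H * M2 * ∑ p ∈ B.biUnion Nat.primeFactors, 1 / (p : ℝ)) := by
          rw [mul_sum, mul_sum, ← sum_add_distrib, mul_sum]
      _ ≤ 2 * T1 ^ 3 * (18 * (H : ℝ) ^ 2 * (T1 / z0) + 8 * H * M2 * T1) := by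
          apply mul_le_mul_of_nonneg_left _ (by positivity)
          apply add_le_add
          · exact mul_le_mul_of_nonneg_left hyp.P2 (by positivity)
          · exact mul_le_mul_of_nonneg_left hyp.P1 (by positivity)
      _ = _ := by ring
  calc ∑ x ∈ Xs, (x : ℝ) ^ 2 * ∑ y ∈ Ioo (-(x : ℤ)) x, (SS X H b B x y) ^ 2 ≤
      ∑ x ∈ Xs, ((x : ℝ) ^ 2 * ∑ y ∈ Ioo (-(x : ℤ)) x, ∑ u ∈ US X H x y, (FF b B (ww x y u)) ^ 2 +
        (x : ℝ) ^ 2 * ∑ l ∈ (Icc (-((H / (x * x) : ℕ) : ℤ)) (H / (x * x) : ℕ)).erase 0,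
        ∑ n1 ∈ B, ∑ n2 ∈ B.filter (fun n2 => Nat.Coprime n1 n2), |D4 X H x l n1 n2| +
        (x : ℝ) ^ 2 * ∑ p ∈ B.biUnion Nat.primeFactors, ∑ y ∈ Ioo (-(x : ℤ)) x,
          (∑ u ∈ US X H x y, ∑ n ∈ B.filter (fun n => p ∣ n), (dv n (ww x y u) + gd n)) ^ 2) := by
        apply sum_le_sum
        intro x hx
        have h1 := sq_expand X H x (hx1 x hx) b hb B (fun n hn => (hyp.B1 n hn).1)
        rw [← mul_add, ← mul_add]
        exact mul_le_mul_of_nonneg_left h1 (by positivity)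
    _ = _ := by rw [sum_add_distrib, sum_add_distrib]
    _ ≤ _ := by linarith

end Pool.Agent.H543.DD
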