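import Pool.Agent.H543.DD.Key
import Pool.Graph.R_seed8.Y346.PA.KL

/-!
# Points on modular hyperbolas in the region of the dispersion method
-/

set_option autoImplicit false

namespace Pool.Agent.H543.DD

open Finset
open Pool.Agent.Y346.PA (S_KL)
open scoped Classical

/-- boxes with shifts -/
theorem kl_shift (kl : S_KL) (ε : ℝ) (hε : 0 < ε) : ∃ C : ℝ, 1 ≤ C ∧ ∀ Q : ℕ, 1 ≤ Q →
    ∀ a b a' b' s t : ℤ, a ≤ b → a' ≤ b' →
    |(((∑ y ∈ Ioc a b, ((Ioc a' b').filter (fun u => (Q : ℤ) ∣ (y + s) * (u + t) - 1)).card : ℕ)) : ℝ) -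
      ((b : ℝ) - a) * ((b' : ℝ) - a') * ((Q.totient : ℝ) / (Q : ℝ) ^ 2)| ≤
      C * (Q : ℝ) ^ ε * Real.sqrt Q +
        C * (Q : ℝ) ^ ε / Real.sqrt Q * (((b : ℝ) - a) + ((b' : ℝ) - a')) := by
  obtain ⟨C, hC, H⟩ := kl ε hε
  refine ⟨C, hC, ?_⟩
  intro Q hQ a b a' b' s t hab hab'
  have h1 := H Q 1 hQ le_rfl (Nat.coprime_one_right Q) (a + s) (b + s) (a' + t) (b' + t) 0 0
    (by linarith) (by linarith)
  have h2 : ∑ y ∈ Ioc a b, ((Ioc a' b').filter (fun u => (Q : ℤ) ∣ (y + s) * (u + t) - 1)).card =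
      ((Ioc (a + s) (b + s) ×ˢ Ioc (a' + t) (b' + t)).filter (fun w : ℤ × ℤ =>
        w.1 ≡ 0 [ZMOD ((1 : ℕ) : ℤ)] ∧ w.2 ≡ 0 [ZMOD ((1 : ℕ) : ℤ)] ∧ (Q : ℤ) ∣ w.1 * w.2 - 1)).card := by
    have h3 : ∑ y ∈ Ioc a b, ((Ioc a' b').filter (fun u => (Q : ℤ) ∣ (y + s) * (u + t) - 1)).card =
        ((Ioc a b ×ˢ Ioc a' b').filter (fun w : ℤ × ℤ => (Q : ℤ) ∣ (w.1 + s) * (w.2 + t) - 1)).card := by
      rw [card_filter, sum_product]
      apply sum_congr rfl
      intro y _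
      rw [card_filter]
    rw [h3]
    apply card_bij (fun w _ => (w.1 + s, w.2 + t))
    · intro w hw
      rw [mem_filter, mem_product, mem_Ioc, mem_Ioc] at hw
      rw [mem_filter, mem_product, mem_Ioc, mem_Ioc]
      refine ⟨⟨⟨by linarith [hw.1.1.1], by linarith [hw.1.1.2]⟩, ⟨by linarith [hw.1.2.1], by linarith [hw.1.2.2]⟩⟩,
        ?_, ?_, hw.2⟩
      · rw [Nat.cast_one]; exact Int.modEq_one
      · rw [Nat.cast_one]; exact Int.modEq_one
    · intro w _ w' _ h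
      rw [Prod.mk.injEq] at h
      exact Prod.ext (by linarith [h.1]) (by linarith [h.2])
    · intro w hw
      rw [mem_filter, mem_product, mem_Ioc, mem_Ioc] at hw
      refine ⟨(w.1 - s, w.2 - t), ?_, ?_⟩
      · rw [mem_filter, mem_product, mem_Ioc, mem_Ioc]
        refine ⟨⟨⟨by simp only; linarith [hw.1.1.1], by simp only; linarith [hw.1.1.2]⟩,
          ⟨by simp only; linarith [hw.1.2.1], by simp only; linarith [hw.1.2.2]⟩⟩, ?_⟩
        simp only [sub_add_cancel]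
        exact hw.2.2.2
      · simp
  rw [h2]
  push_cast at h1
  have e1 : ((b : ℝ) + s - (a + s)) * ((b' : ℝ) + t - (a' + t)) * (Q.totient : ℝ) /
      ((Q : ℝ) ^ 2 * (1 : ℝ) ^ 2) = ((b : ℝ) - a) * ((b' : ℝ) - a') * ((Q.totient : ℝ) / (Q : ℝ) ^ 2) := by
    ring
  have e2 : C * (Q : ℝ) ^ ε * (Real.sqrt Q + ((b : ℝ) + s - (a + s) + ((b' : ℝ) + t - (a' + t))) / Real.sqrt Q) =
      C * (Q : ℝ) ^ ε * Real.sqrt Q +
        C * (Q : ℝ) ^ ε / Real.sqrt Q * (((b : ℝ) - a) + ((b' : ℝ) - a')) := by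
    ring
  rw [e1, e2] at h1
  exact_mod_cast h1

/-- number of points above `y` -/
noncomputable def Np (lo hi : ℤ → ℝ) (Q s t y : ℤ) : ℕ :=
  ((Ioc ⌊lo y⌋ ⌊hi y⌋).filter (fun u => Q ∣ (y + s) * (u + t) - 1)).card

/-- one window -/
theorem win (lo hi : ℤ → ℝ) (Q s t : ℤ) (θ e1 e2 : ℝ) (hθ : 0 ≤ θ) (he1 : 0 ≤ e1) (he2 : 0 ≤ e2)
    (H : ∀ a b a' b' : ℤ, a ≤ b → a' ≤ b' →
      |(((∑ y ∈ Ioc a b, ((Ioc a' b').filter (fun u => Q ∣ (y + s) * (u + t) - 1)).card : ℕ)) : ℝ) -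
        ((b : ℝ) - a) * ((b' : ℝ) - a') * θ| ≤ e1 + e2 * (((b : ℝ) - a) + ((b' : ℝ) - a')))
    (a b : ℤ) (hab : a ≤ b) (lam mu V : ℝ) (hV : 0 ≤ V)
    (h1 : ∀ y ∈ Ioc a b, |lo y - lam| ≤ V) (h2 : ∀ y ∈ Ioc a b, |hi y - mu| ≤ V) :
    |((∑ y ∈ Ioc a b, Np lo hi Q s t y : ℕ) : ℝ) - ((b : ℝ) - a) * max (mu - lam) 0 * θ| ≤
      ((b : ℝ) - a) * (2 * V + 2) * θ + (e1 + e2 * (((b : ℝ) - a) + (max (mu - lam) 0 + 2 * V + 2))) := by
  have hba : (0 : ℝ) ≤ (b : ℝ) - a := by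
    have : (a : ℝ) ≤ b := by exact_mod_cast hab
    linarith
  have hmx : 0 ≤ max (mu - lam) 0 := le_max_right _ _
  have hmx' : mu - lam ≤ max (mu - lam) 0 := le_max_left _ _
  rw [abs_le]
  constructor
  · -- lower bound
    by_cases hc : ⌈lam + V⌉ ≤ ⌊mu - V⌋
    · have h3 := H a b ⌈lam + V⌉ ⌊mu - V⌋ hab hc
      have h4 : ∑ y ∈ Ioc a b, ((Ioc ⌈lam + V⌉ ⌊mu - V⌋).filter
          (fun u => Q ∣ (y + s) * (u + t) - 1)).card ≤ ∑ y ∈ Ioc a b, Np lo hi Q s t y := by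
        apply sum_le_sum
        intro y hy
        apply card_le_card
        apply filter_subset_filter
        apply Ioc_subset_Ioc
        · have h5 := (abs_le.1 (h1 y hy)).2
          have h6 : (⌊lo y⌋ : ℝ) ≤ (⌈lam + V⌉ : ℝ) := by
            have := Int.floor_le (lo y)
            have := Int.le_ceil (lam + V)
            linarith
          exact_mod_cast h6
        · apply Int.floor_le_floor
          have h5 := (abs_le.1 (h2 y hy)).1
          linarith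
      have h5 : ((∑ y ∈ Ioc a b, ((Ioc ⌈lam + V⌉ ⌊mu - V⌋).filter
          (fun u => Q ∣ (y + s) * (u + t) - 1)).card : ℕ) : ℝ) ≤
          ((∑ y ∈ Ioc a b, Np lo hi Q s t y : ℕ) : ℝ) := by exact_mod_cast h4
      have h6 := (abs_le.1 h3).1
      have h7 : mu - lam - 2 * V - 2 ≤ (⌊mu - V⌋ : ℝ) - (⌈lam + V⌉ : ℝ) := by
        have := Int.lt_floor_add_one (mu - V)
        have := Int.ceil_lt_add_one (lam + V)
        linarith
      have h8 : (⌊mu - V⌋ : ℝ) - (⌈lam + V⌉ : ℝ) ≤ mu - lam := by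
        have := Int.floor_le (mu - V)
        have := Int.le_ceil (lam + V)
        linarith
      have h9 : (0 : ℝ) ≤ (⌊mu - V⌋ : ℝ) - (⌈lam + V⌉ : ℝ) := by
        have : (⌈lam + V⌉ : ℝ) ≤ (⌊mu - V⌋ : ℝ) := by exact_mod_cast hc
        linarith
      have h10 : max (mu - lam) 0 = mu - lam := max_eq_left (by linarith)
      rw [h10]
      have h11 : ((b : ℝ) - a) * θ * (mu - lam - 2 * V - 2) ≤
          ((b : ℝ) - a) * θ * ((⌊mu - V⌋ : ℝ) - (⌈lam + V⌉ : ℝ)) :=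
        mul_le_mul_of_nonneg_left h7 (by positivity)
      have h12 : e2 * (((b : ℝ) - a) + ((⌊mu - V⌋ : ℝ) - (⌈lam + V⌉ : ℝ))) ≤
          e2 * (((b : ℝ) - a) + (mu - lam + 2 * V + 2)) :=
        mul_le_mul_of_nonneg_left (by linarith) he2
      nlinarith
    · push Not at hc
      have h7 : mu - lam ≤ 2 * V + 2 := by
        have h8 : (⌊mu - V⌋ : ℝ) < (⌈lam + V⌉ : ℝ) := by exact_mod_cast hc
        have := Int.lt_floor_add_one (mu - V)
        have := Int.ceil_lt_add_one (lam + V)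
        linarith
      have h8 : max (mu - lam) 0 ≤ 2 * V + 2 := max_le h7 (by linarith)
      have h9 : (0 : ℝ) ≤ ((∑ y ∈ Ioc a b, Np lo hi Q s t y : ℕ) : ℝ) := Nat.cast_nonneg _
      have h10 : ((b : ℝ) - a) * θ * max (mu - lam) 0 ≤ ((b : ℝ) - a) * θ * (2 * V + 2) :=
        mul_le_mul_of_nonneg_left h8 (by positivity)
      have h11 : 0 ≤ e2 * (((b : ℝ) - a) + (max (mu - lam) 0 + 2 * V + 2)) := by positivity
      nlinarith
  · -- upper bound
    by_cases hc : ⌊lam - V⌋ ≤ ⌊mu + V⌋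
    · have h3 := H a b ⌊lam - V⌋ ⌊mu + V⌋ hab hc
      have h4 : ∑ y ∈ Ioc a b, Np lo hi Q s t y ≤ ∑ y ∈ Ioc a b, ((Ioc ⌊lam - V⌋ ⌊mu + V⌋).filter
          (fun u => Q ∣ (y + s) * (u + t) - 1)).card := by
        apply sum_le_sum
        intro y hy
        apply card_le_card
        apply filter_subset_filter
        apply Ioc_subset_Ioc
        · apply Int.floor_le_floor
          have h5 := (abs_le.1 (h1 y hy)).1
          linarith
        · apply Int.floor_le_floor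
          have h5 := (abs_le.1 (h2 y hy)).2
          linarith
      have h5 : ((∑ y ∈ Ioc a b, Np lo hi Q s t y : ℕ) : ℝ) ≤ ((∑ y ∈ Ioc a b, ((Ioc ⌊lam - V⌋ ⌊mu + V⌋).filter
          (fun u => Q ∣ (y + s) * (u + t) - 1)).card : ℕ) : ℝ) := by exact_mod_cast h4
      have h6 := (abs_le.1 h3).2
      have h7 : (⌊mu + V⌋ : ℝ) - (⌊lam - V⌋ : ℝ) ≤ max (mu - lam) 0 + 2 * V + 2 := by
        have := Int.floor_le (mu + V)
        have := Int.lt_floor_add_one (lam - V)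
        linarith
      have h11 : ((b : ℝ) - a) * θ * ((⌊mu + V⌋ : ℝ) - (⌊lam - V⌋ : ℝ)) ≤
          ((b : ℝ) - a) * θ * (max (mu - lam) 0 + 2 * V + 2) :=
        mul_le_mul_of_nonneg_left h7 (by positivity)
      have h12 : e2 * (((b : ℝ) - a) + ((⌊mu + V⌋ : ℝ) - (⌊lam - V⌋ : ℝ))) ≤
          e2 * (((b : ℝ) - a) + (max (mu - lam) 0 + 2 * V + 2)) :=
        mul_le_mul_of_nonneg_left (by linarith) he2
      nlinarith
    · push Not at hc
      have h4 : ∑ y ∈ Ioc a b, Np lo hi Q s t y = 0 := by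
        apply sum_eq_zero
        intro y hy
        unfold Np
        rw [card_eq_zero, filter_eq_empty_iff]
        intro u hu
        exfalso
        rw [mem_Ioc] at hu
        have h5 := (abs_le.1 (h1 y hy)).1
        have h6 := (abs_le.1 (h2 y hy)).2
        have h7 : ⌊lam - V⌋ ≤ ⌊lo y⌋ := Int.floor_le_floor (by linarith)
        have h8 : ⌊hi y⌋ ≤ ⌊mu + V⌋ := Int.floor_le_floor (by linarith)
        linarith [hu.1, hu.2]
      rw [h4]
      have h10 : 0 ≤ ((b : ℝ) - a) * max (mu - lam) 0 * θ := by positivity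
      have h11 : 0 ≤ e2 * (((b : ℝ) - a) + (max (mu - lam) 0 + 2 * V + 2)) := by positivity
      have h12 : 0 ≤ ((b : ℝ) - a) * (2 * V + 2) * θ := by positivity
      push_cast
      linarith

/-- several windows -/
theorem wins (lo hi : ℤ → ℝ) (Q s t : ℤ) (θ e1 e2 : ℝ) (hθ : 0 ≤ θ) (he1 : 0 ≤ e1) (he2 : 0 ≤ e2)
    (H : ∀ a b a' b' : ℤ, a ≤ b → a' ≤ b' →
      |(((∑ y ∈ Ioc a b, ((Ioc a' b').filter (fun u => Q ∣ (y + s) * (u + t) - 1)).card : ℕ)) : ℝ) -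
        ((b : ℝ) - a) * ((b' : ℝ) - a') * θ| ≤ e1 + e2 * (((b : ℝ) - a) + ((b' : ℝ) - a')))
    (c : ℕ → ℤ) (lam mu : ℕ → ℝ) (V T : ℝ) (hV : 0 ≤ V) (W : ℕ) (hc : ∀ j < W, c j ≤ c (j + 1))
    (h1 : ∀ j < W, ∀ y ∈ Ioc (c j) (c (j + 1)), |lo y - lam j| ≤ V)
    (h2 : ∀ j < W, ∀ y ∈ Ioc (c j) (c (j + 1)), |hi y - mu j| ≤ V)
    (hT : ∀ j < W, ((c (j + 1) : ℝ) - c j) + (max (mu j - lam j) 0 + 2 * V + 2) ≤ T) :
    |((∑ y ∈ Ioc (c 0) (c W), Np lo hi Q s t y : ℕ) : ℝ) -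
        (∑ j ∈ range W, ((c (j + 1) : ℝ) - c j) * max (mu j - lam j) 0) * θ| ≤
      ((c W : ℝ) - c 0) * (2 * V + 2) * θ + W * (e1 + e2 * T) := by
  induction W with
  | zero => simp
  | succ W ih =>
    have ih' := ih (fun j hj => hc j (by omega)) (fun j hj => h1 j (by omega))
      (fun j hj => h2 j (by omega)) (fun j hj => hT j (by omega))
    have h3 := win lo hi Q s t θ e1 e2 hθ he1 he2 H (c W) (c (W + 1)) (hc W (by omega)) (lam W) (mu W) V hV
      (h1 W (by omega)) (h2 W (by omega))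
    have hc0 : c 0 ≤ c W := by
      have : ∀ n ≤ W, c 0 ≤ c n := by
        intro n
        induction n with
        | zero => intro _; exact le_rfl
        | succ n ihn => intro hn; exact (ihn (by omega)).trans (hc n (by omega))
      exact this W le_rfl
    have h4 : ∑ y ∈ Ioc (c 0) (c (W + 1)), Np lo hi Q s t y =
        ∑ y ∈ Ioc (c 0) (c W), Np lo hi Q s t y + ∑ y ∈ Ioc (c W) (c (W + 1)), Np lo hi Q s t y := by
      rw [← sum_union]
      · rw [Ioc_union_Ioc_eq_Ioc hc0 (hc W (by omega))]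
      · rw [disjoint_left]
        intro y hy hy'
        rw [mem_Ioc] at hy hy'
        omega
    rw [h4, sum_range_succ]
    have h5 := hT W (by omega)
    have h6 : e2 * (((c (W + 1) : ℝ) - c W) + (max (mu W - lam W) 0 + 2 * V + 2)) ≤ e2 * T :=
      mul_le_mul_of_nonneg_left h5 he2
    push_cast
    rw [abs_le] at ih' h3 ⊢
    push_cast at ih' h3
    constructor
    · nlinarith [ih'.1, h3.1]
    · nlinarith [ih'.2, h3.2]

theorem lo_lip (X : ℕ) (x y y' : ℤ) (hx : 0 < x) (hy : |y| ≤ x) (hy' : |y'| ≤ x) :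
    |lo X x y - lo X x y'| ≤ |(y : ℝ) - y'| * ((2 * X + 2) / (x : ℝ) ^ 2) := by
  have hxr : (0 : ℝ) < x := by exact_mod_cast hx
  have hyr : |(y : ℝ)| ≤ x := by exact_mod_cast hy
  have hyr' : |(y' : ℝ)| ≤ x := by exact_mod_cast hy'
  have hX : (0 : ℝ) ≤ X := Nat.cast_nonneg X
  unfold lo
  have hm : (0 : ℝ) < (x : ℝ) ^ 2 + (y : ℝ) ^ 2 := by positivity
  have hm' : (0 : ℝ) < (x : ℝ) ^ 2 + (y' : ℝ) ^ 2 := by positivity
  have h1 : ((x : ℝ) * X + y) / ((x : ℝ) ^ 2 + (y : ℝ) ^ 2) -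
      ((x : ℝ) * X + y') / ((x : ℝ) ^ 2 + (y' : ℝ) ^ 2) =
      (((y' : ℝ) - y) * (x * X * (y + y') - x ^ 2 + y * y')) /
        (((x : ℝ) ^ 2 + (y : ℝ) ^ 2) * ((x : ℝ) ^ 2 + (y' : ℝ) ^ 2)) := by
    field_simp
    ring
  rw [h1, abs_div, abs_mul, abs_sub_comm (y' : ℝ), abs_of_pos (mul_pos hm hm'), mul_div_assoc]
  apply mul_le_mul_of_nonneg_left _ (abs_nonneg _)
  have hyy : |(y : ℝ) * y'| ≤ (x : ℝ) ^ 2 := by
    rw [abs_mul, sq]
    exact mul_le_mul hyr hyr' (abs_nonneg _) hxr.le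
  have h2 : |(x : ℝ) * X * (y + y') - x ^ 2 + y * y'| ≤ (x : ℝ) ^ 2 * (2 * X + 2) := by
    have h3 : |(x : ℝ) * X * (y + y')| ≤ (x : ℝ) ^ 2 * (2 * X) := by
      rw [abs_mul, abs_of_nonneg (by positivity : (0 : ℝ) ≤ x * X)]
      have h4 : |(y : ℝ) + y'| ≤ 2 * x := (abs_add_le _ _).trans (by linarith)
      calc (x : ℝ) * X * |(y : ℝ) + y'| ≤ x * X * (2 * x) :=
            mul_le_mul_of_nonneg_left h4 (by positivity)
        _ = _ := by ring
    calc |(x : ℝ) * X * (y + y') - x ^ 2 + y * y'| ≤ |(x : ℝ) * X * (y + y') - x ^ 2| + |(y : ℝ) * y'| :=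
          abs_add_le _ _
      _ ≤ |(x : ℝ) * X * (y + y')| + |(x : ℝ) ^ 2| + |(y : ℝ) * y'| := by
          have := abs_sub ((x : ℝ) * X * (y + y')) ((x : ℝ) ^ 2)
          linarith
      _ ≤ _ := by
          rw [abs_of_nonneg (by positivity : (0 : ℝ) ≤ (x : ℝ) ^ 2)]
          linarith
  rw [div_le_div_iff₀ (mul_pos hm hm') (by positivity)]
  have h5 : (x : ℝ) ^ 2 * (x : ℝ) ^ 2 ≤ ((x : ℝ) ^ 2 + (y : ℝ) ^ 2) * ((x : ℝ) ^ 2 + (y' : ℝ) ^ 2) := by
    apply mul_le_mul <;> nlinarith [sq_nonneg (y : ℝ), sq_nonneg (y' : ℝ), sq_nonneg (x : ℝ)]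
  calc |(x : ℝ) * X * (y + y') - x ^ 2 + y * y'| * (x : ℝ) ^ 2 ≤
      ((x : ℝ) ^ 2 * (2 * X + 2)) * (x : ℝ) ^ 2 := mul_le_mul_of_nonneg_right h2 (by positivity)
    _ = (2 * X + 2) * ((x : ℝ) ^ 2 * (x : ℝ) ^ 2) := by ring
    _ ≤ _ := mul_le_mul_of_nonneg_left h5 (by positivity)

/-- the ends of the windows -/
def cw (x : ℤ) (h : ℕ) (j : ℕ) : ℤ := min (-x + j * h) (x - 1)

/-- number of windows -/
def Wn (x : ℤ) (h : ℕ) : ℕ := (2 * x).toNat / h + 1

/-- the area -/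
noncomputable def AA (X H : ℕ) (x l : ℤ) (h : ℕ) : ℝ :=
  ∑ j ∈ range (Wn x h), ((cw x h (j + 1) : ℝ) - cw x h j) *
    max (hi1 X H x l (cw x h j) - lo1 X x l (cw x h j)) 0

theorem cw_abs (x : ℤ) (hx : 0 < x) (h j : ℕ) : |cw x h j| ≤ x := by
  unfold cw
  rw [abs_le]
  have h0 : (0 : ℤ) ≤ j * h := by positivity
  constructor
  · apply le_min <;> linarith
  · have := min_le_right (-x + (j : ℤ) * h) (x - 1)
    linarith

theorem cw_mono (x : ℤ) (h j : ℕ) : cw x h j ≤ cw x h (j + 1) := by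
  unfold cw
  apply min_le_min_right
  push_cast
  have : (0 : ℤ) ≤ h := by positivity
  nlinarith

theorem cw_step (x : ℤ) (h j : ℕ) : cw x h (j + 1) - cw x h j ≤ h := by
  unfold cw
  have h1 : -x + ((j + 1 : ℕ) : ℤ) * h = -x + (j : ℤ) * h + h := by push_cast; ring
  rw [h1]
  have h2 : (0 : ℤ) ≤ h := by positivity
  rcases le_total (-x + (j : ℤ) * h) (x - 1) with h3 | h3
  · rw [min_eq_left h3]
    have := min_le_left (-x + (j : ℤ) * h + h) (x - 1)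
    linarith
  · rw [min_eq_right h3]
    have := min_le_right (-x + (j : ℤ) * h + h) (x - 1)
    linarith

theorem cw_zero (x : ℤ) (hx : 0 < x) (h : ℕ) : cw x h 0 = -x := by
  unfold cw
  push_cast
  rw [zero_mul, add_zero, min_eq_left (by linarith)]

theorem cw_last (x : ℤ) (hx : 0 < x) (h : ℕ) (hh : 1 ≤ h) : cw x h (Wn x h) = x - 1 := by
  unfold cw Wn
  apply min_eq_right
  have h1 : (2 * x).toNat < h * ((2 * x).toNat / h + 1) := Nat.lt_mul_div_succ _ hh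
  have h2 : ((2 * x).toNat : ℤ) = 2 * x := Int.toNat_of_nonneg (by linarith)
  have h3 : ((2 * x).toNat : ℤ) < h * (((2 * x).toNat / h + 1 : ℕ) : ℤ) := by exact_mod_cast h1
  rw [h2] at h3
  linarith

theorem Wn_le (x : ℤ) (hx : 0 < x) (h : ℕ) (hh : 1 ≤ h) : (Wn x h : ℝ) ≤ 2 * x / h + 1 := by
  unfold Wn
  push_cast
  have h1 : (((2 * x).toNat / h : ℕ) : ℝ) ≤ ((2 * x).toNat : ℝ) / h := Nat.cast_div_le
  have h2 : ((2 * x).toNat : ℝ) = 2 * x := by
    have : ((2 * x).toNat : ℤ) = 2 * x := Int.toNat_of_nonneg (by linarith)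
    exact_mod_cast this
  rw [h2] at h1
  linarith

theorem hilo (X H : ℕ) (x l y : ℤ) (hx : 0 < x) : hi1 X H x l y - lo1 X x l y ≤ H / x := by
  have hxr : (0 : ℝ) < x := by exact_mod_cast hx
  unfold hi1 lo1 lo
  have h1 : (0 : ℝ) ≤ x * ((max l 0 : ℤ) : ℝ) := by
    apply mul_nonneg hxr.le
    exact_mod_cast le_max_right _ _
  have h2 : (0 : ℝ) ≤ x * ((max (-l) 0 : ℤ) : ℝ) := by
    apply mul_nonneg hxr.le
    exact_mod_cast le_max_right _ _
  have hm : (0 : ℝ) < (x : ℝ) ^ 2 + (y : ℝ) ^ 2 := by positivity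
  have h3 : ((x : ℝ) * ((X + H : ℕ) : ℝ) + y) / ((x : ℝ) ^ 2 + (y : ℝ) ^ 2) -
      ((x : ℝ) * X + y) / ((x : ℝ) ^ 2 + (y : ℝ) ^ 2) = x * H / ((x : ℝ) ^ 2 + (y : ℝ) ^ 2) := by
    push_cast
    rw [← sub_div]
    congr 1
    ring
  have h4 : (x : ℝ) * H / ((x : ℝ) ^ 2 + (y : ℝ) ^ 2) ≤ H / x := by
    rw [div_le_div_iff₀ hm hxr]
    have h5 : (0 : ℝ) ≤ H := Nat.cast_nonneg H
    have h6 : 0 ≤ (H : ℝ) * (y : ℝ) ^ 2 := by positivity
    nlinarith
  linarith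

theorem AA_nonneg (X H : ℕ) (x l : ℤ) (h : ℕ) : 0 ≤ AA X H x l h := by
  unfold AA
  apply sum_nonneg
  intro j _
  apply mul_nonneg
  · have h1 : (cw x h j : ℝ) ≤ cw x h (j + 1) := by exact_mod_cast cw_mono x h j
    linarith
  · exact le_max_right _ _

theorem AA_le (X H : ℕ) (x l : ℤ) (hx : 0 < x) (h : ℕ) (hh : 1 ≤ h) : AA X H x l h ≤ 2 * H := by
  have hxr : (0 : ℝ) < x := by exact_mod_cast hx
  unfold AA
  calc ∑ j ∈ range (Wn x h), ((cw x h (j + 1) : ℝ) - cw x h j) *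
    max (hi1 X H x l (cw x h j) - lo1 X x l (cw x h j)) 0 ≤
      ∑ j ∈ range (Wn x h), ((cw x h (j + 1) : ℝ) - cw x h j) * (H / x) := by
        apply sum_le_sum
        intro j _
        apply mul_le_mul_of_nonneg_left
        · apply max_le (hilo X H x l _ hx) (by positivity)
        · have h1 : (cw x h j : ℝ) ≤ cw x h (j + 1) := by exact_mod_cast cw_mono x h j
          linarith
    _ = ((cw x h (Wn x h) : ℝ) - cw x h 0) * (H / x) := by
        rw [← sum_mul, sum_range_sub (fun j => (cw x h j : ℝ))]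
    _ ≤ (2 * x) * (H / x) := by
        apply mul_le_mul_of_nonneg_right _ (by positivity)
        rw [cw_zero x hx, cw_last x hx h hh]
        push_cast
        linarith
    _ = 2 * H := by field_simp

/-- the error term -/
noncomputable def Er (C ε : ℝ) (X H : ℕ) (x : ℤ) (h Q : ℕ) : ℝ :=
  2 * x * (2 * (h * ((2 * (X + H : ℕ) + 2) / (x : ℝ) ^ 2)) + 2) * ((Q.totient : ℝ) / (Q : ℝ) ^ 2) +
    (2 * x / h + 1) * (C * (Q : ℝ) ^ ε * Real.sqrt Q + C * (Q : ℝ) ^ ε / Real.sqrt Q *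
      (h + (H / x + 2 * (h * ((2 * (X + H : ℕ) + 2) / (x : ℝ) ^ 2)) + 2)))

/-- **The count.** -/
theorem HC_asym (kl : S_KL) (ε : ℝ) (hε : 0 < ε) : ∃ C : ℝ, 1 ≤ C ∧ ∀ (X H : ℕ) (x l : ℤ) (h : ℕ),
    0 < x → 1 ≤ h → ∀ (Q : ℕ) (s t : ℤ), 1 ≤ Q →
    |(HC X H x l Q s t : ℝ) - AA X H x l h * ((Q.totient : ℝ) / (Q : ℝ) ^ 2)| ≤ Er C ε X H x h Q := by
  obtain ⟨C, hC, hkl⟩ := kl_shift kl ε hε
  refine ⟨C, hC, ?_⟩
  intro X H x l h hx hh Q s t hQ
  have hxr : (0 : ℝ) < x := by exact_mod_cast hx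
  have hQr : (0 : ℝ) < Q := by exact_mod_cast hQ
  have hhr : (0 : ℝ) < h := by exact_mod_cast hh
  have hC0 : 0 < C := by linarith
  set V : ℝ := h * ((2 * (X + H : ℕ) + 2) / (x : ℝ) ^ 2) with hV
  have hV0 : 0 ≤ V := by rw [hV]; positivity
  have key := wins (lo1 X x l) (hi1 X H x l) Q s t ((Q.totient : ℝ) / (Q : ℝ) ^ 2)
    (C * (Q : ℝ) ^ ε * Real.sqrt Q) (C * (Q : ℝ) ^ ε / Real.sqrt Q) (by positivity) (by positivity)
    (by positivity) (fun a b a' b' hab hab' => hkl Q hQ a b a' b' s t hab hab')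
    (cw x h) (fun j => lo1 X x l (cw x h j)) (fun j => hi1 X H x l (cw x h j)) V
    (h + (H / x + 2 * V + 2)) hV0 (Wn x h) (fun j _ => cw_mono x h j) ?_ ?_ ?_
  · rw [cw_zero x hx, cw_last x hx h hh] at key
    have h1 : Ioc (-x) (x - 1) = Ioo (-x) x := by
      ext y
      rw [mem_Ioc, mem_Ioo]
      omega
    rw [h1] at key
    have h2 : ∑ y ∈ Ioo (-x) x, Np (lo1 X x l) (hi1 X H x l) Q s t y = HC X H x l Q s t := rfl
    rw [h2] at key
    refine key.trans ?_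
    unfold Er
    have h3 : (((x - 1 : ℤ) : ℝ) - ((-x : ℤ) : ℝ)) ≤ 2 * x := by
      push_cast
      linarith
    have h4 := Wn_le x hx h hh
    rw [← hV]
    apply add_le_add
    · apply mul_le_mul_of_nonneg_right _ (by positivity)
      exact mul_le_mul_of_nonneg_right h3 (by positivity)
    · exact mul_le_mul_of_nonneg_right h4 (by positivity)
  · intro j _ y hy
    have hcj := cw_abs x hx h j
    have hcj1 := cw_abs x hx h (j + 1)
    rw [mem_Ioc] at hy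
    have hyx : |y| ≤ x := by
      rw [abs_le] at hcj hcj1 ⊢
      constructor <;> linarith [hy.1, hy.2, hcj.1, hcj1.2]
    have h1 : lo1 X x l y - lo1 X x l (cw x h j) = lo X x y - lo X x (cw x h j) := by
      unfold lo1
      ring
    rw [h1]
    refine (lo_lip X x y _ hx hyx hcj).trans ?_
    rw [hV]
    have h2 : |(y : ℝ) - (cw x h j : ℝ)| ≤ h := by
      have h3 : (cw x h j : ℝ) < y := by exact_mod_cast hy.1
      have h4 : y - cw x h j ≤ h := by linarith [cw_step x h j, hy.2]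
      have h5 : (y : ℝ) - (cw x h j : ℝ) ≤ h := by exact_mod_cast h4
      rw [abs_of_pos (by linarith)]
      exact h5
    have h3 : ((2 * X + 2) / (x : ℝ) ^ 2 : ℝ) ≤ (2 * (X + H : ℕ) + 2) / (x : ℝ) ^ 2 := by
      apply div_le_div_of_nonneg_right _ (by positivity)
      push_cast
      have : (0 : ℝ) ≤ H := Nat.cast_nonneg H
      linarith
    exact mul_le_mul h2 h3 (by positivity) hhr.le
  · intro j _ y hy
    have hcj := cw_abs x hx h j
    have hcj1 := cw_abs x hx h (j + 1)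
    rw [mem_Ioc] at hy
    have hyx : |y| ≤ x := by
      rw [abs_le] at hcj hcj1 ⊢
      constructor <;> linarith [hy.1, hy.2, hcj.1, hcj1.2]
    have h1 : hi1 X H x l y - hi1 X H x l (cw x h j) = lo (X + H) x y - lo (X + H) x (cw x h j) := by
      unfold hi1
      ring
    rw [h1]
    refine (lo_lip (X + H) x y _ hx hyx hcj).trans ?_
    rw [hV]
    have h2 : |(y : ℝ) - (cw x h j : ℝ)| ≤ h := by
      have h3 : (cw x h j : ℝ) < y := by exact_mod_cast hy.1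
      have h4 : y - cw x h j ≤ h := by linarith [cw_step x h j, hy.2]
      have h5 : (y : ℝ) - (cw x h j : ℝ) ≤ h := by exact_mod_cast h4
      rw [abs_of_pos (by linarith)]
      exact h5
    exact mul_le_mul_of_nonneg_right h2 (by positivity)
  · intro j _
    have h1 : ((cw x h (j + 1) : ℝ) - cw x h j) ≤ h := by exact_mod_cast cw_step x h j
    have h2 : max (hi1 X H x l (cw x h j) - lo1 X x l (cw x h j)) 0 ≤ H / x :=
      max_le (hilo X H x l _ hx) (by positivity)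
    linarith

end Pool.Agent.H543.DD
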